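import Pool.Agent.TJ5.St

/-!
# TJ5, module ABL5: identities in the small groups

Members with an imaginary quadratic field (`IQT`) with one or three pairs of roots: the third power
of a commutator and every sixth power act trivially on the roots.  Cyclic quartic members (`CY`):
commutators act trivially.
-/

open Polynomial IntermediateField

namespace Pool.Agent.TJ5

open Pool.Agent.TJ2 Pool.Agent.TJ3 Pool.Agent.TJ4

namespace ABL5_aux

/-- the roots are stable under the Galois group -/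
lemma stable {q : ℕ} {h : ℤ[X]} {y : Qb} (hy : y ∈ Om q h) (σ : Gq) : σ y ∈ Om q h := by
  obtain ⟨h0, h1⟩ := hy
  refine ⟨fun e => h0 ((map_eq_zero σ).1 e), ?_⟩
  have e1 : σ y + (q : Qb) / σ y = ((σ : Qb ≃ₐ[ℚ] Qb) : Qb →+* Qb).toIntAlgHom (y + (q : Qb) / y) := by
    simp
  rw [e1, Polynomial.aeval_algHom_apply, h1, map_zero]

/-- an automorphism with trivial characters fixes all roots -/
lemma fixes {q m : ℕ} {h : ℤ[X]} {χ : Gq →* ℤˣ} {π : Gq →* Equiv.Perm (Fin m)} {x : Fin m → Qb}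
    (H : IQT q m h χ π x) {σ : Gq} (h1 : χ σ = 1) (h2 : π σ = 1) {y : Qb} (hy : y ∈ Om q h) :
    σ y = y := by
  have h3 : ∀ i, σ (x i) = x i := by
    intro i
    have h4 := H.pos σ h1 i
    rw [h2] at h4
    simpa using h4
  obtain ⟨i, hi | hi⟩ := (H.om y).1 hy
  · rw [hi, h3]
  · rw [hi, map_div₀, map_natCast, h3]

lemma comm1 (a b : Equiv.Perm (Fin 1)) : (a * b * a⁻¹ * b⁻¹) ^ 3 = 1 := Subsingleton.elim _ _

lemma comm3 (a b : Equiv.Perm (Fin 3)) : (a * b * a⁻¹ * b⁻¹) ^ 3 = 1 := by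
  have h1 : (a * b * a⁻¹ * b⁻¹) ∈ alternatingGroup (Fin 3) := by
    rw [Equiv.Perm.mem_alternatingGroup]
    simp only [map_mul, map_inv]
    rw [mul_comm (Equiv.Perm.sign a), mul_assoc (Equiv.Perm.sign b), mul_inv_cancel, mul_one,
      mul_inv_cancel]
  have h2 : Nat.card (alternatingGroup (Fin 3)) = 3 := by
    have := two_mul_nat_card_alternatingGroup (α := Fin 3)
    rw [Nat.card_eq_fintype_card (α := Equiv.Perm (Fin 3)), Fintype.card_perm, Fintype.card_fin] at this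
    have h6 : Nat.factorial 3 = 6 := rfl
    omega
  have h3 : (⟨_, h1⟩ : alternatingGroup (Fin 3)) ^ 3 = 1 := by
    have h4 : (⟨_, h1⟩ : alternatingGroup (Fin 3)) ^ Nat.card (alternatingGroup (Fin 3)) = 1 :=
      pow_card_eq_one'
    rwa [h2] at h4
  exact congrArg Subtype.val h3

lemma six1 (a : Equiv.Perm (Fin 1)) : a ^ 6 = 1 := Subsingleton.elim _ _

lemma six3 (a : Equiv.Perm (Fin 3)) : a ^ 6 = 1 := by
  have h : Fintype.card (Equiv.Perm (Fin 3)) = 6 := by
    rw [Fintype.card_perm, Fintype.card_fin]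
    rfl
  rw [← h]
  exact pow_card_eq_one

lemma chi1 : ∀ a b : ℤˣ, (a * b * a⁻¹ * b⁻¹) ^ 3 = 1 := by
  intro a b
  have : a * b * a⁻¹ * b⁻¹ = 1 := by
    rw [mul_comm a b, mul_assoc b a, mul_inv_cancel, mul_one, mul_inv_cancel]
  rw [this, one_pow]

lemma chi6 (a : ℤˣ) : a ^ 6 = 1 := by
  have : a ^ 6 = (a ^ 2) ^ 3 := by rw [← pow_mul]
  rw [this, Int.units_sq, one_pow]

/-- powers of an automorphism commute -/
lemma cy {q : ℕ} {h : ℤ[X]} (H : CY q h) (s t : Gq) {y : Qb} (hy : y ∈ Om q h) :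
    s (t y) = t (s y) := by
  obtain ⟨-, u, -, hu⟩ := H
  obtain ⟨k, hk⟩ := hu s
  obtain ⟨l, hl⟩ := hu t
  rw [hk _ (stable hy t), hl _ hy, hk _ hy, hl _ (stable hy _), ← AlgEquiv.mul_apply,
    ← AlgEquiv.mul_apply, ← pow_add, ← pow_add, add_comm]

end ABL5_aux

open ABL5_aux in
theorem t_ABL5 : S_ABL5 := by
  refine ⟨?_, ?_⟩
  · intro q m h χ π x hq hm H
    refine ⟨?_, ?_⟩
    · intro s t y hy
      refine fixes H ?_ ?_ hy
      · simp only [map_pow, map_mul, map_inv]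
        exact chi1 _ _
      · simp only [map_pow, map_mul, map_inv]
        rcases hm with rfl | rfl
        · exact comm1 _ _
        · exact comm3 _ _
    · intro s y hy
      refine fixes H ?_ ?_ hy
      · rw [map_pow]
        exact chi6 _
      · rw [map_pow]
        rcases hm with rfl | rfl
        · exact six1 _
        · exact six3 _
  · intro q h hq H s t y hy
    have key : ∀ z ∈ Om q h, (s * t * s⁻¹ * t⁻¹) z = z := by
      intro z hz
      have e : s (t (s⁻¹ (t⁻¹ z))) = t (s (s⁻¹ (t⁻¹ z))) := by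
        refine cy H s t ?_
        exact stable (stable hz _) _
      calc (s * t * s⁻¹ * t⁻¹) z = s (t (s⁻¹ (t⁻¹ z))) := rfl
        _ = t (s (s⁻¹ (t⁻¹ z))) := e
        _ = (t * (s * s⁻¹) * t⁻¹) z := rfl
        _ = z := by simp
    have k3 : ((s * t * s⁻¹ * t⁻¹) ^ 3) y
        = (s * t * s⁻¹ * t⁻¹) ((s * t * s⁻¹ * t⁻¹) ((s * t * s⁻¹ * t⁻¹) y)) := by
      rw [pow_succ, pow_two]
      rfl
    rw [k3, key y hy, key y hy, key y hy]

end Pool.Agent.TJ5
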