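import Pool.Agent.TJ5.St
import Pool.Agent.TJ2.AsmC
import Pool.Agent.TJ2.Main2
import Pool.Agent.TJ3.SGB
import Pool.Agent.TJ3.TRN
import Pool.Agent.TJ3.KRO
import Pool.Agent.TJ3.UNI
import Pool.Agent.TJ3.GAL
import Pool.Agent.TJ3.GIS
import Pool.Agent.TJ3.GRP2
import Pool.Agent.TJ3.REL
import Pool.Agent.TJ3.IND4
import Pool.Agent.TJ3.E2
import Pool.Agent.TJ3.SEL
import Pool.Agent.TJ4.EXV
import Pool.Agent.TJ4.SLP
import Pool.Agent.TJ4.VAL4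
import Pool.Agent.TJ4.LOC
import Pool.Agent.TJ4.UNI4
import Pool.Agent.TJ4.GIS4
import Pool.Agent.TJ4.ORB4
import Pool.Agent.TJ4.GRP4
import Pool.Agent.TJ4.REL4
import Pool.Agent.TJ4.IND44
import Pool.Agent.TJ4.E14
import Pool.Agent.TJ4.C34
import Pool.Agent.TJ4.CRC

/-!
# Project TJ5: the results of TJ3 and TJ4 which are used (helper65)
-/

open Polynomial IntermediateField Filter

namespace Pool.Agent.TJ5

open Pool.Agent.TJ2 Pool.Agent.TJ3 Pool.Agent.TJ4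

theorem b_UNI : S_UNI := t_UNI t_SGB t_TRN t_KRO

theorem b_E2 : S_E2 := t_E2 t_SGB b_UNI t_GIS t_GAL

theorem b_IND4 : S_IND4 := t_IND4 (t_REL t_GRP2 t_GAL t_SGB) t_SGB

theorem b_SEL : S_SEL := t_SEL t_SGB t_GIS b_E2 t_IND_all

theorem b_UNI4 : S_UNI4 := t_UNI4 t_SLP t_LOC

theorem b_VAL4 : S_VAL4 := t_VAL4 t_SLP

theorem b_IND44 : S_IND44 := t_IND44 (t_REL4 (t_GRP4 t_ORB4) t_SLP t_GIS4)

theorem b_E14 : S_E14 := t_E14 t_SLP b_UNI4 t_GIS4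

theorem b_C34 : S_C34 := t_C34 t_SLP b_UNI4 t_GIS4

theorem b_CRC : S_CRC := t_CRC t_SLP t_GIS4 b_IND4

theorem b_SelCr : ∀ (q : ℕ) (v : AbsoluteValue Qb ℝ), IsPrimePow q → Ab q v → Cr q v (Sel q) :=
  fun q v hq hv => b_CRC q v (Sel q) hq hv (fun _ h => h.1)
    fun P hP hp => b_SEL q P hq hP hp

end Pool.Agent.TJ5
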