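import Pool.Agent.TJ5.St
import Pool.Agent.TJ2.EMB
import Pool.Agent.TJ2.STAB

/-!
# TJ5, module CCJ5: complex conjugation (helper99)
-/

open Polynomial IntermediateField

namespace Pool.Agent.TJ5

open Pool.Agent.TJ2 Pool.Agent.TJ3 Pool.Agent.TJ4

noncomputable section

namespace CCJ5_aux

/-- complex conjugation -/
theorem conj : ∃ (κ : Gq) (ι : Qb →+* ℂ), ∀ a : Qb, ι (κ a) = (starRingEnd ℂ) (ι a) := by
  have hgal := STAB_galois
  have halg := STAB_algebraic
  let ι : Qb →ₐ[ℚ] ℂ := IsAlgClosed.lift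
  let _ : Algebra Qb ℂ := (ι : Qb →+* ℂ).toAlgebra
  have : IsScalarTower ℚ Qb ℂ := IsScalarTower.of_algebraMap_eq' (Subsingleton.elim _ _)
  let c : ℂ ≃ₐ[ℚ] ℂ := AlgEquiv.ofRingEquiv (f := (starRingAut : ℂ ≃+* ℂ))
    (fun r => by simp)
  have : Normal ℚ Qb := hgal.to_normal
  exact ⟨c.restrictNormal Qb, (ι : Qb →+* ℂ), fun a => AlgEquiv.restrictNormal_commutes c Qb a⟩

theorem parts {z : ℂ} {r : ℚ} (h : z ^ 2 = (r : ℂ)) :
    z.re ^ 2 - z.im ^ 2 = (r : ℝ) ∧ z.re * z.im = 0 := by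
  have h1 := congrArg Complex.re h
  have h2 := congrArg Complex.im h
  simp only [pow_two, Complex.mul_re, Complex.mul_im, Complex.ratCast_re, Complex.ratCast_im]
    at h1 h2
  constructor
  · rw [← h1]
    ring
  · linarith

end CCJ5_aux

theorem t_CCJ5 : S_CCJ5 := by
  obtain ⟨κ, ι, h⟩ := CCJ5_aux.conj
  refine ⟨κ, fun g q f hq hf a ha => ?_, fun θ r hr hθ => ?_, fun θ r h0 hκ hθ => ?_⟩
  · refine ι.injective ?_
    rw [h, (t_EMB g q f hq hf a ha ι).2.1]
  · refine ι.injective ?_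
    rw [h, map_neg]
    have h1 : (ι θ) ^ 2 = (r : ℂ) := by rw [← map_pow, hθ, map_ratCast]
    obtain ⟨h2, h3⟩ := CCJ5_aux.parts h1
    have hr' : (r : ℝ) < 0 := by exact_mod_cast hr
    have h4 : (ι θ).re = 0 := by
      rcases mul_eq_zero.1 h3 with h5 | h5
      · exact h5
      · rw [h5] at h2
        nlinarith [sq_nonneg (ι θ).re]
    apply Complex.ext
    · rw [Complex.conj_re, Complex.neg_re, h4, neg_zero]
    · rw [Complex.conj_im, Complex.neg_im]
  · have h1 : (ι θ) ^ 2 = (r : ℂ) := by rw [← map_pow, hθ, map_ratCast]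
    obtain ⟨h2, -⟩ := CCJ5_aux.parts h1
    have h3 : (starRingEnd ℂ) (ι θ) = - ι θ := by rw [← h, hκ, map_neg]
    have h4 : (ι θ).re = 0 := by
      have := congrArg Complex.re h3
      rw [Complex.conj_re, Complex.neg_re] at this
      linarith
    have h5 : (ι θ).im ≠ 0 := by
      intro h6
      refine h0 (ι.injective ?_)
      rw [map_zero]
      exact Complex.ext h4 h6
    have h6 : 0 < (ι θ).im ^ 2 := by positivity
    have h7 : (r : ℝ) < 0 := by
      rw [← h2, h4]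
      linarith
    exact_mod_cast h7

end

end Pool.Agent.TJ5
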