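import Pool.Agent.TJ5.St

/-!
# TJ5, module CYA5: facts on cyclic quartic members
-/

open Polynomial IntermediateField

namespace Pool.Agent.TJ5

open Pool.Agent.TJ2 Pool.Agent.TJ3 Pool.Agent.TJ4

namespace CYA5_aux

theorem two (s : Gq) (a : Qb) : (s ^ 2) a = s (s a) := by
  rw [pow_two]
  rfl

theorem mulpow (s : Gq) (j k : ℕ) (a : Qb) : (s ^ (j + k)) a = (s ^ j) ((s ^ k) a) := by
  rw [pow_add]
  rfl

end CYA5_aux

open CYA5_aux in
theorem t_CYA5 (hGIS5 : S_GIS5) : S_CYA5 := by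
  intro q h hq hh hCY
  obtain ⟨-, hb, -⟩ := hGIS5 q hq
  obtain ⟨-, -, hb3, -⟩ := hb h hh
  obtain ⟨-, s, hs, hs2⟩ := hCY
  have hq0 : (q : Qb) ≠ 0 := Nat.cast_ne_zero.2 hq.ne_zero
  have h2 : ∀ a ∈ Om q h, (s ^ 2) a = (q : Qb) / a := fun a ha => by
    rw [two, hs a ha]
  have h4 : ∀ a ∈ Om q h, (s ^ 4) a = a := by
    intro a ha
    obtain ⟨ha0, -, hqa, -⟩ := hb3 a ha
    have e : (s ^ 4) a = (s ^ 2) ((s ^ 2) a) := mulpow s 2 2 a
    rw [e, h2 a ha, h2 _ hqa]
    field_simp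
  have h4j : ∀ j : ℕ, ∀ a ∈ Om q h, (s ^ (4 * j)) a = a := by
    intro j
    induction j with
    | zero =>
      intro a _
      rw [Nat.mul_zero, pow_zero]
      rfl
    | succ j ih =>
      intro a ha
      have e : 4 * (j + 1) = 4 * j + 4 := by ring
      rw [e, mulpow, h4 a ha, ih a ha]
  refine ⟨?_, ?_⟩
  · intro σ a ha hσ b hbm
    obtain ⟨k, hk⟩ := hs2 σ
    obtain ⟨ha0, -, hqa, hne⟩ := hb3 a ha
    have hk4 : k % 4 = 0 := by
      have e1 : (s ^ (k % 4)) a = a := by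
        have e2 := hk a ha
        rw [hσ] at e2
        have e3 : k = k % 4 + 4 * (k / 4) := (Nat.mod_add_div k 4).symm
        rw [e3, mulpow, h4j _ a ha] at e2
        exact e2.symm
      have hsa : s a ≠ a := by
        intro h1
        have e2 := hs a ha
        rw [h1, h1] at e2
        exact hne e2.symm
      have hlt : k % 4 < 4 := Nat.mod_lt _ (by norm_num)
      rcases Nat.lt_or_ge (k % 4) 1 with h0 | h0
      · omega
      exfalso
      have h123 : k % 4 = 1 ∨ k % 4 = 2 ∨ k % 4 = 3 := by omega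
      rcases h123 with h1 | h1 | h1
      · rw [h1, pow_one] at e1
        exact hsa e1
      · rw [h1, h2 a ha] at e1
        exact hne e1
      · rw [h1] at e1
        have e4 : (s ^ 4) a = (s ^ 1) ((s ^ 3) a) := mulpow s 1 3 a
        rw [h4 a ha, e1, pow_one] at e4
        exact hsa e4.symm
    have e5 := hk b hbm
    have e6 : k = 4 * (k / 4) := by omega
    rw [e6, h4j _ b hbm] at e5
    exact e5
  · intro h' hx a ha x hxm
    refine ⟨s ^ 6, ?_, hx s x hxm⟩
    have e : (s ^ 6) a = (s ^ 2) ((s ^ 4) a) := mulpow s 2 4 a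
    rw [e, h4 a ha, h2 a ha]

end Pool.Agent.TJ5
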