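import Pool.Agent.TJ5.St

/-!
# CYB5: two ordinary cyclic quartic members
-/

open Polynomial IntermediateField

namespace Pool.Agent.TJ5

open Pool.Agent.TJ2 Pool.Agent.TJ3 Pool.Agent.TJ4

noncomputable section

namespace CYB5_aux

lemma dd {q : ℕ} (hq : (q : Qb) ≠ 0) {y : Qb} (hy : y ≠ 0) : (q : Qb) / ((q : Qb) / y) = y := by
  field_simp

variable {q : ℕ} {h : ℤ[X]} {s : Gq}

lemma four (hq : (q : Qb) ≠ 0) (h0 : ∀ y ∈ Om q h, y ≠ 0)
    (hm : ∀ y ∈ Om q h, ∀ σ : Gq, σ y ∈ Om q h) (hs : ∀ y ∈ Om q h, s (s y) = (q : Qb) / y)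
    (m : ℕ) : ∀ y ∈ Om q h, (s ^ (4 * m)) y = y := by
  induction m with
  | zero =>
    intro y _
    rfl
  | succ m ih =>
    intro y hy
    have h1 : s ^ (4 * (m + 1)) = s ^ (4 * m) * (s * (s * (s * s))) := by
      rw [Nat.mul_add, pow_add]
      congr 1
    have h2 : s (s (s (s y))) = y := by
      rw [hs y hy, hs _ (by rw [← hs y hy]; exact hm _ (hm y hy s) s), dd hq (h0 y hy)]
    rw [h1]
    change (s ^ (4 * m)) (s (s (s (s y)))) = y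
    rw [h2, ih y hy]

lemma red (hq : (q : Qb) ≠ 0) (h0 : ∀ y ∈ Om q h, y ≠ 0)
    (hm : ∀ y ∈ Om q h, ∀ σ : Gq, σ y ∈ Om q h) (hs : ∀ y ∈ Om q h, s (s y) = (q : Qb) / y)
    (k : ℕ) {y : Qb} (hy : y ∈ Om q h) : (s ^ k) y = (s ^ (k % 4)) y := by
  have h1 : s ^ k = s ^ (k % 4) * s ^ (4 * (k / 4)) := by
    rw [← pow_add, Nat.mod_add_div]
  rw [h1, AlgEquiv.mul_apply, four hq h0 hm hs (k / 4) y hy]

/-- the powers of the generator -/
lemma key (hq : (q : Qb) ≠ 0) (h0 : ∀ y ∈ Om q h, y ≠ 0)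
    (hm : ∀ y ∈ Om q h, ∀ σ : Gq, σ y ∈ Om q h) (hs : ∀ y ∈ Om q h, s (s y) = (q : Qb) / y)
    (k : ℕ) {y : Qb} (hy : y ∈ Om q h) :
    (k % 4 = 0 → (s ^ k) y = y) ∧ (k % 4 = 2 → (s ^ k) y = (q : Qb) / y) ∧
      (k % 2 = 0 → (s ^ k) ((s ^ k) y) = y) ∧ (k % 2 = 1 → (s ^ k) ((s ^ k) y) = (q : Qb) / y) := by
  have e2 : ∀ z ∈ Om q h, (s ^ 2) z = (q : Qb) / z := by
    intro z hz
    rw [pow_two]
    exact hs z hz
  have e3 : ∀ z : Qb, (s ^ k) ((s ^ k) z) = (s ^ (k + k)) z := by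
    intro z
    rw [pow_add, AlgEquiv.mul_apply]
  refine ⟨?_, ?_, ?_, ?_⟩
  · intro hk
    rw [red hq h0 hm hs k hy, hk]
    rfl
  · intro hk
    rw [red hq h0 hm hs k hy, hk, e2 y hy]
  · intro hk
    rw [e3, red hq h0 hm hs _ hy, show (k + k) % 4 = 0 by omega]
    rfl
  · intro hk
    rw [e3, red hq h0 hm hs _ hy, show (k + k) % 4 = 2 by omega, e2 y hy]

/-- a fixed root of the other member -/
lemma fix {q : ℕ} {h' : ℤ[X]} {s' : Gq} (hq : (q : Qb) ≠ 0) (h0 : ∀ y ∈ Om q h', y ≠ 0)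
    (hm : ∀ y ∈ Om q h', ∀ σ : Gq, σ y ∈ Om q h')
    (hs : ∀ y ∈ Om q h', s' (s' y) = (q : Qb) / y)
    (hk : ∀ σ : Gq, ∃ k : ℕ, ∀ y ∈ Om q h', σ y = (s' ^ k) y) {a x : Qb} (hx : x ∈ Om q h')
    (hno : ∀ σ : Gq, σ a = a → σ x ≠ (q : Qb) / x) (σ : Gq) (hσ : σ a = a) : σ x = x := by
  obtain ⟨k, hk⟩ := hk σ
  obtain ⟨k1, k2, -, k4⟩ := key hq h0 hm hs k hx
  rcases (by omega : k % 4 = 0 ∨ k % 4 = 2 ∨ k % 2 = 1) with h1 | h1 | h1
  · rw [hk x hx, k1 h1]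
  · exact absurd ((hk x hx).trans (k2 h1)) (hno σ hσ)
  · exfalso
    refine hno (σ * σ) ?_ ?_
    · rw [AlgEquiv.mul_apply, hσ, hσ]
    · rw [AlgEquiv.mul_apply, hk (σ x) (hm x hx σ), hk x hx, k4 h1]

end CYB5_aux

open CYB5_aux in
/-- CYB5. -/
theorem t_CYB5 (hSLP : S_SLP) (hGIS5 : S_GIS5) (hTWO5 : S_TWO5) : S_CYB5 := by
  intro q v h h' hpp hv hh hO hC hh' hO' hC' hni a ha x hx
  by_contra hcon
  push Not at hcon
  obtain ⟨-, -, -, hneg, P, -, -, -, hP⟩ := hSLP q v hpp hv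
  obtain ⟨-, hG, -⟩ := hGIS5 q hpp
  obtain ⟨-, -, g1, g2⟩ := hG h hh
  obtain ⟨-, -, g1', g2'⟩ := hG h' hh'
  have hq : (q : Qb) ≠ 0 := by
    have h1 : q ≠ 0 := hpp.ne_zero
    exact_mod_cast h1
  obtain ⟨-, s, hs, hk⟩ := hC
  obtain ⟨-, s', hs', hk'⟩ := hC'
  have z0 : ∀ y ∈ Om q h, y ≠ 0 := fun y hy => (g1 y hy).1
  have z0' : ∀ y ∈ Om q h', y ≠ 0 := fun y hy => (g1' y hy).1
  have ne1 : (q : Qb) / a ≠ a := (g1 a ha).2.2.2
  -- the stabilisers agree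
  have st1 : ∀ σ : Gq, σ a = a → σ x = x :=
    fix hq z0' g2' hs' hk' hx fun σ h1 h2 => (hcon σ).1 h1 h2
  have st2 : ∀ σ : Gq, σ x = x → σ a = a :=
    fix hq z0 g2 hs hk ha fun σ h1 h2 => (hcon σ).2 h2 h1
  -- the square of `s` on `x`
  have sx : s (s x) = (q : Qb) / x := by
    obtain ⟨j, hj⟩ := hk' s
    have h1 : s (s x) = (s' ^ j) ((s' ^ j) x) := by
      rw [hj (s x) (g2' x hx s), hj x hx]
    obtain ⟨-, -, k3, k4⟩ := key hq z0' g2' hs' j hx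
    rcases (by omega : j % 2 = 0 ∨ j % 2 = 1) with h2 | h2
    · exfalso
      have h3 : (s * s) a = a := st2 (s * s) (by rw [AlgEquiv.mul_apply, h1, k3 h2])
      rw [AlgEquiv.mul_apply, hs a ha] at h3
      exact ne1 h3
    · rw [h1, k4 h2]
  -- slopes
  have sg : ∀ σ : Gq, slp q v a σ = 1 ∨ slp q v a σ = -1 := by
    intro σ
    obtain ⟨h1, h2 | h2⟩ := hP _ h hO a ha σ
    · left
      rw [h1, h2]
      norm_num
    · right
      rw [h1, h2]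
      norm_num
  have sg' : ∀ σ : Gq, slp q v x σ = 1 ∨ slp q v x σ = -1 := by
    intro σ
    obtain ⟨h1, h2 | h2⟩ := hP _ h' hO' x hx σ
    · left
      rw [h1, h2]
      norm_num
    · right
      rw [h1, h2]
      norm_num
  obtain ⟨F, hF⟩ : ∃ F : ℕ → ℝ, ∀ k, F k = slp q v a (s ^ k) := ⟨_, fun _ => rfl⟩
  obtain ⟨G, hGd⟩ : ∃ G : ℕ → ℝ, ∀ k, G k = slp q v x (s ^ k) := ⟨_, fun _ => rfl⟩
  have F2 : ∀ k, F (k + 2) = - F k := by
    intro k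
    rw [hF, hF, pow_add, pow_two, slp_comp, AlgEquiv.mul_apply, hs a ha, hneg a (z0 a ha)]
  have G2 : ∀ k, G (k + 2) = - G k := by
    intro k
    rw [hGd, hGd, pow_add, pow_two, slp_comp, AlgEquiv.mul_apply, sx, hneg x (z0' x hx)]
  have fv : ∀ k, F k = 1 ∨ F k = -1 := fun k => by
    rw [hF]
    exact sg _
  have gv : ∀ k, G k = 1 ∨ G k = -1 := fun k => by
    rw [hGd]
    exact sg' _
  have e2 : F 2 = - F 0 := F2 0
  have e3 : F 3 = - F 1 := F2 1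
  have e4 : F 4 = - F 2 := F2 2
  obtain ⟨j, j0, j1⟩ : ∃ j : ℕ, G 0 = F j ∧ G 1 = F (j + 1) := by
    rcases fv 0 with a0 | a0 <;> rcases fv 1 with a1 | a1 <;> rcases gv 0 with b0 | b0 <;>
      rcases gv 1 with b1 | b1 <;>
      first
        | exact ⟨0, by linarith, by show G 1 = F 1; linarith⟩
        | exact ⟨1, by linarith, by show G 1 = F 2; linarith⟩
        | exact ⟨2, by linarith, by show G 1 = F 3; linarith⟩
        | exact ⟨3, by linarith, by show G 1 = F 4; linarith⟩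
  have hGF : ∀ k, G k = F (k + j) ∧ G (k + 1) = F (k + 1 + j) := by
    intro k
    induction k with
    | zero => exact ⟨by rw [zero_add]; exact j0, by rw [zero_add, add_comm 1 j]; exact j1⟩
    | succ k ih =>
      refine ⟨ih.2, ?_⟩
      rw [show k + 1 + 1 = k + 2 by ring, G2 k, ih.1, show k + 2 + j = k + j + 2 by ring, F2]
  have hall : ∀ σ : Gq, slp q v x σ = slp q v ((s ^ j) a) σ := by
    intro σ
    obtain ⟨k, hk0⟩ := hk σ
    have h1 : ((s ^ k)⁻¹ * σ) x = x := by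
      apply st1
      rw [AlgEquiv.mul_apply, hk0 a ha, ← AlgEquiv.mul_apply, inv_mul_cancel, AlgEquiv.one_apply]
    have h2 : σ x = (s ^ k) x := by
      have h3 := congrArg (s ^ k) h1
      rwa [← AlgEquiv.mul_apply, ← mul_assoc, mul_inv_cancel, one_mul] at h3
    have h4 : slp q v x σ = slp q v x (s ^ k) := by
      unfold slp
      rw [h2]
    have h5 : slp q v ((s ^ j) a) σ = slp q v ((s ^ j) a) (s ^ k) := by
      unfold slp
      rw [hk0 _ (g2 a ha _)]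
    rw [h4, h5, ← slp_comp, ← pow_add, ← hGd, ← hF]
    exact (hGF k).1
  obtain ⟨N, hN, hNe⟩ := (hTWO5 q v hpp hv h' hh' h hh x hx ((s ^ j) a) (g2 a ha _)).1 hall
  exact hni ⟨(s ^ j) a, g2 a ha _, x, hx, N, hN, hNe.symm⟩

end

end Pool.Agent.TJ5
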