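import Pool.Agent.TJ5.St

/-!
# CYC5 (TJ5, MP_3af9db_ag): one ordinary cyclic quartic member has no odd relation
-/

open Polynomial IntermediateField

namespace Pool.Agent.TJ5

open Pool.Agent.TJ2 Pool.Agent.TJ3 Pool.Agent.TJ4

noncomputable section

namespace CYC5_aux

/-- the two equations force the first coefficient to vanish -/
lemma two_eq (x y f g : ℝ) (hf : f ^ 2 = 1) (hg : g ^ 2 = 1)
    (h1 : x * f + y * g = 0) (h2 : x * g + y * -f = 0) : x = 0 := by
  have : x * (f ^ 2 + g ^ 2) = 0 := by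
    linear_combination f * h1 + g * h2
  rw [hf, hg] at this
  linarith

/-- the four elements of a cyclic quartic orbit -/
lemma four [DecidableEq Qb] (q : ℕ) (A : Finset Qb) (s : Gq) (a : Qb)
    (hq0 : (q : Qb) ≠ 0)
    (hcard : A.card = 4) (hA : ∀ x ∈ A, x ≠ 0 ∧ (q : Qb) / x ∈ A ∧ (q : Qb) / x ≠ x)
    (hs : ∀ x ∈ A, s x ∈ A ∧ s (s x) = (q : Qb) / x) (ha : a ∈ A) :
    a ≠ s a ∧ a ≠ (q : Qb) / a ∧ a ≠ (q : Qb) / s a ∧ s a ≠ (q : Qb) / a ∧
      s a ≠ (q : Qb) / s a ∧ (q : Qb) / a ≠ (q : Qb) / s a ∧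
      A = {a, s a, (q : Qb) / a, (q : Qb) / s a} := by
  obtain ⟨hb, hssa⟩ := hs a ha
  obtain ⟨hb2, hssb⟩ := hs (s a) hb
  obtain ⟨ha0, hqa, hane⟩ := hA a ha
  obtain ⟨hb0, hqb, hbne⟩ := hA (s a) hb
  have h1 : a ≠ s a := by
    intro e
    have e2 : s (s a) = a := by rw [← e]; exact e.symm
    exact hane (hssa.symm.trans e2)
  have h4 : s a ≠ (q : Qb) / a := by
    intro e
    have e1 : s (s a) = s a := hssa.trans e.symm
    have e2 : s (s (s a)) = s a := by rw [e1, e1]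
    exact hbne (hssb.symm.trans e2)
  have h3 : a ≠ (q : Qb) / s a := by
    intro e
    apply h4
    rw [eq_div_iff hb0] at e
    rw [eq_div_iff ha0, mul_comm]
    exact e
  have h6 : (q : Qb) / a ≠ (q : Qb) / s a := by
    intro e
    apply h1
    rw [div_eq_div_iff ha0 hb0] at e
    exact (mul_left_cancel₀ hq0 e).symm
  refine ⟨h1, hane.symm, h3, h4, hbne.symm, h6, ?_⟩
  symm
  apply Finset.eq_of_subset_of_card_le
  · intro y hy
    simp only [Finset.mem_insert, Finset.mem_singleton] at hy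
    rcases hy with rfl | rfl | rfl | rfl
    · exact ha
    · exact hb
    · exact hqa
    · exact hqb
  · rw [hcard]
    rw [Finset.card_insert_of_notMem, Finset.card_insert_of_notMem, Finset.card_insert_of_notMem,
      Finset.card_singleton]
    · simpa using h6
    · simp only [Finset.mem_insert, Finset.mem_singleton, not_or]
      exact ⟨h4, hbne.symm⟩
    · simp only [Finset.mem_insert, Finset.mem_singleton, not_or]
      exact ⟨h1, hane.symm, h3⟩

end CYC5_aux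

open CYC5_aux

/-- CYC5: one ordinary cyclic quartic member -/
theorem t_CYC5 (hSLP : S_SLP) (hGIS5 : S_GIS5) : S_CYC5 := by
  classical
  intro q v h A w hq hv hh hord hcy hA hw hrel a ha
  obtain ⟨-, -, -, hslq, P, -, -, -, hP⟩ := hSLP q v hq hv
  obtain ⟨-, hG, -⟩ := hGIS5 q hq
  obtain ⟨-, -, hG1, hG2⟩ := hG h hh
  obtain ⟨hc4, s, hs, -⟩ := hcy
  have hmem : ∀ x, x ∈ A ↔ x ∈ Om q h := fun x => by rw [← hA]; exact Finset.mem_coe.symm
  have hcard : A.card = 4 := by rw [← hc4, ← hA, Set.ncard_coe_finset]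
  have hq0 : (q : Qb) ≠ 0 := Nat.cast_ne_zero.2 hq.ne_zero
  have hA1 : ∀ x ∈ A, x ≠ 0 ∧ (q : Qb) / x ∈ A ∧ (q : Qb) / x ≠ x := by
    intro x hx
    obtain ⟨h1, -, h3, h4⟩ := hG1 x ((hmem x).1 hx)
    exact ⟨h1, (hmem _).2 h3, h4⟩
  have hs1 : ∀ x ∈ A, s x ∈ A ∧ s (s x) = (q : Qb) / x := by
    intro x hx
    exact ⟨(hmem _).2 (hG2 x ((hmem x).1 hx) s), hs x ((hmem x).1 hx)⟩
  obtain ⟨n1, n2, n3, n4, n5, n6, hAe⟩ := four q A s a hq0 hcard hA1 hs1 ha
  have hb : s a ∈ A := (hs1 a ha).1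
  have ha0 : a ≠ 0 := (hA1 a ha).1
  have hb0 : s a ≠ 0 := (hA1 _ hb).1
  have hsum : ∀ σ : Gq, (w a : ℝ) * slp q v a σ + (w (s a) : ℝ) * slp q v (s a) σ = 0 := by
    intro σ
    have e := hrel σ
    rw [hAe, Finset.sum_insert (by simp [n1, n2, n3]), Finset.sum_insert (by simp [n4, n5]),
      Finset.sum_insert (by simp [n6]), Finset.sum_singleton, hw a ha, hw (s a) hb,
      hslq a ha0 σ, hslq (s a) hb0 σ] at e
    push_cast at e
    linarith
  have hpm : ∀ x ∈ A, ∀ σ : Gq, (slp q v x σ) ^ 2 = 1 := by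
    intro x hx σ
    obtain ⟨e1, e2⟩ := hP h.natDegree h hord x ((hmem x).1 hx) σ
    rw [e1]
    rcases e2 with e2 | e2
    · rw [e2]; norm_num
    · rw [e2]; norm_num
  have r1 := hsum 1
  have r2 := hsum s
  have t1 : slp q v a s = slp q v (s a) 1 := rfl
  have t2 : slp q v (s a) s = - slp q v a 1 := by
    have : slp q v (s a) s = slp q v (s (s a)) 1 := rfl
    rw [this, hs a ((hmem a).1 ha), hslq a ha0 1]
  rw [t1, t2] at r2
  have := two_eq (w a : ℝ) (w (s a) : ℝ) (slp q v a 1) (slp q v (s a) 1)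
    (hpm a ha 1) (hpm _ hb 1) r1 r2
  exact_mod_cast this

end

end Pool.Agent.TJ5
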