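import Pool.Agent.TJ5.St
import Pool.Agent.TJ3.EAux

/-!
# DAT5: a relation which is not even gives data
-/

open Polynomial IntermediateField

namespace Pool.Agent.TJ5

open Pool.Agent.TJ2 Pool.Agent.TJ3 Pool.Agent.TJ4

noncomputable section

namespace DAT5_aux

open E2_aux

/-- integer relations of the slope vectors give data -/
theorem data (hSLP : S_SLP) (hUNI5 : S_UNI5) (hGIS5 : S_GIS5) (q : ℕ) (v : AbsoluteValue Qb ℝ)
    (S : Set ℤ[X]) (hq : IsPrimePow q) (hv : Ab q v) (hS : S ⊆ GD q) (n : ℕ)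
    (h : Fin n → ℤ[X]) (r₀ : Fin n → Qb) (hr : ∀ k, h k ∈ S ∧ r₀ k ∈ Om q (h k))
    (c : Fin n → ℤ) (hc : c ≠ 0)
    (hrel : ∀ σ : Qb ≃ₐ[ℚ] Qb, ∑ k, (c k : ℝ) * slp q v (r₀ k) σ = 0)
    (hind : ∀ k k', k ≠ k' → Ind q (r₀ k) (r₀ k')) : HasData q S := by
  classical
  have hq1 : 1 < q := hq.one_lt
  have hq0 : (q : Qb) ≠ 0 := by
    have : q ≠ 0 := by omega
    exact_mod_cast this
  obtain ⟨-, hom0, -, gpair, -⟩ := hGIS5 q hq
  have hom : ∀ k, r₀ k ≠ 0 ∧ (q : Qb) / r₀ k ∈ Om q (h k) := by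
    intro k
    have hk := (hom0 (h k) (hS (hr k).1)).2.2.1 (r₀ k) (hr k).2
    exact ⟨hk.1, hk.2.2.1⟩
  let r : Fin n → Qb := fun k => if 0 ≤ c k then r₀ k else (q : Qb) / r₀ k
  let e : Fin n → ℕ := fun k => (c k).natAbs
  have hrom : ∀ k, r k ∈ Om q (h k) := by
    intro k
    by_cases hk : 0 ≤ c k
    · simp only [r, if_pos hk]
      exact (hr k).2
    · simp only [r, if_neg hk]
      exact (hom k).2
  have hrind : ∀ k k', k ≠ k' → Ind q (r k) (r k') := by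
    intro k k' hkk
    have h1 : Ind q (r k) (r₀ k') := by
      by_cases hk : 0 ≤ c k
      · simp only [r, if_pos hk]
        exact hind k k' hkk
      · simp only [r, if_neg hk]
        exact Ind_bar hq0 (hom k).1 (hind k k' hkk)
    by_cases hk : 0 ≤ c k'
    · simp only [r, if_pos hk] at h1 ⊢
      exact h1
    · have h2 := Ind_symm (Ind_bar hq0 (hom k').1 (Ind_symm h1))
      simp only [r, if_neg hk] at h2 ⊢
      exact h2
  let l : List Qb := (List.ofFn fun k => List.replicate (e k) (r k)).flatten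
  have hl : ∀ a ∈ l, ∃ h ∈ GD q, a ∈ Om q h := by
    intro a ha
    obtain ⟨l', hl', hal⟩ := List.mem_flatten.1 ha
    obtain ⟨k, rfl⟩ := (List.mem_ofFn' _ _).1 hl'
    have h1 := List.eq_of_mem_replicate hal
    rw [h1]
    exact ⟨h k, hS (hr k).1, hrom k⟩
  have hsum : ∀ σ : Qb ≃ₐ[ℚ] Qb, (l.map fun a => slp q v a σ).sum = 0 := by
    intro σ
    rw [wlist_sum n r e, ← hrel σ]
    refine Finset.sum_congr rfl fun k _ => ?_
    have h1 := (hSLP q v hq hv).2.2.2.1 (r₀ k) (hom k).1 σ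
    rw [nsmul_eq_mul]
    by_cases hk : 0 ≤ c k
    · have h2 : ((e k : ℕ) : ℝ) = (c k : ℝ) := by
        have : ((e k : ℕ) : ℤ) = c k := Int.natAbs_of_nonneg hk
        exact_mod_cast this
      simp only [r, if_pos hk]
      rw [h2]
    · have h2 : ((e k : ℕ) : ℝ) = -(c k : ℝ) := by
        have : ((e k : ℕ) : ℤ) = -c k := by
          have := Int.ofNat_natAbs_of_nonpos (le_of_not_ge hk)
          exact this
        exact_mod_cast this
      simp only [r, if_neg hk]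
      rw [h2, h1]
      ring
  obtain ⟨N, hN, hrelN⟩ := hUNI5 q v hq hv l hl hsum
  refine ⟨n, h, r, e, N, fun k => ⟨(hr k).1, hrom k⟩, ?_, hN, ?_, fun k k' hkk M hM =>
    (hrind k k' hkk M hM).1, ?_⟩
  · by_contra hcon
    push Not at hcon
    refine hc ?_
    funext k
    have h1 := hcon k
    have h2 : (c k).natAbs = 0 := by
      change e k < 1 at h1
      simp only [e] at h1
      omega
    exact Int.natAbs_eq_zero.1 h2
  · have h1 := wlist n r e (fun a : Qb => a)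
    have h2 := wlist n r e (fun a : Qb => (q : Qb) / a)
    rw [List.map_id'] at h1
    rw [← h1, ← h2]
    exact hrelN
  · intro k k' M hM
    by_cases hkk : k = k'
    · subst hkk
      intro h1
      have h2 := gpair (h k) (hS (hr k).1) (r k) (hrom k) (r k) (hrom k) M hM h1
      exact ((hom0 (h k) (hS (hr k).1)).2.2.1 (r k) (hrom k)).2.2.2 h2.symm
    · exact (hrind k k' hkk M hM).2

/-- the positive part of an odd function carries half of the sum -/
theorem half {A : Finset Qb} {bar : Qb → Qb} (hbar : ∀ a ∈ A, bar a ∈ A)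
    (hbb : ∀ a ∈ A, bar (bar a) = a) (m : Qb → ℤ) (s : Qb → ℝ)
    (hs : ∀ a ∈ A, s (bar a) = - s a) :
    2 * ∑ b ∈ A.filter (fun b => 0 < m b - m (bar b)), ((m b - m (bar b) : ℤ) : ℝ) * s b =
      2 * ∑ a ∈ A, (m a : ℝ) * s a := by
  have hre : ∀ F : Qb → ℝ, ∑ a ∈ A, F (bar a) = ∑ a ∈ A, F a := by
    intro F
    refine Finset.sum_nbij' bar bar hbar hbar hbb hbb fun a _ => rfl
  have h1 : ∑ b ∈ A.filter (fun b => 0 < m b - m (bar b)), ((m b - m (bar b) : ℤ) : ℝ) * s b =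
      ∑ b ∈ A, max ((m b - m (bar b) : ℤ) : ℝ) 0 * s b := by
    rw [Finset.sum_filter]
    refine Finset.sum_congr rfl fun b _ => ?_
    by_cases h : 0 < m b - m (bar b)
    · rw [if_pos h, max_eq_left]
      exact_mod_cast h.le
    · rw [if_neg h, max_eq_right, zero_mul]
      exact_mod_cast not_lt.1 h
  have h2 := hre (fun b => max ((m b - m (bar b) : ℤ) : ℝ) 0 * s b)
  have h3 := hre (fun a => (m a : ℝ) * s a)
  rw [h1]
  calc 2 * ∑ b ∈ A, max ((m b - m (bar b) : ℤ) : ℝ) 0 * s b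
      = ∑ b ∈ A, max ((m b - m (bar b) : ℤ) : ℝ) 0 * s b +
        ∑ b ∈ A, max ((m (bar b) - m (bar (bar b)) : ℤ) : ℝ) 0 * s (bar b) := by
        rw [h2]; ring
    _ = ∑ a ∈ A, (m a : ℝ) * s a + ∑ a ∈ A, (m (bar a) : ℝ) * s (bar a) := by
        rw [← Finset.sum_add_distrib, ← Finset.sum_add_distrib]
        refine Finset.sum_congr rfl fun a ha => ?_
        rw [hbb a ha, hs a ha]
        push_cast
        rcases le_total (m a : ℝ) (m (bar a)) with h | h
        · rw [max_eq_right (by linarith), max_eq_left (by linarith)]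
          ring
        · rw [max_eq_left (by linarith), max_eq_right (by linarith)]
          ring
    _ = 2 * ∑ a ∈ A, (m a : ℝ) * s a := by
        rw [h3]; ring

end DAT5_aux

open E2_aux in
/-- DAT5 -/
theorem t_DAT5 (hSLP : S_SLP) (hUNI5 : S_UNI5) (hGIS5 : S_GIS5) : S_DAT5 := by
  classical
  intro q v S hq hv hS hEv
  obtain ⟨-, hom0, guniq, gpair, -⟩ := hGIS5 q hq
  have hq0 : (q : Qb) ≠ 0 := by
    have : q ≠ 0 := by
      have := hq.one_lt
      omega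
    exact_mod_cast this
  unfold Ev at hEv
  push Not at hEv
  obtain ⟨n, h, A, m, hh, hiso, hA, hrel, i₀, a₀, ha₀, hne₀⟩ := hEv
  have hAO : ∀ i a, a ∈ A i ↔ a ∈ Om q (h i) := by
    intro i a
    rw [← hA i]
    exact Finset.mem_coe.symm
  have hbar : ∀ i, ∀ a ∈ A i, (q : Qb) / a ∈ A i := by
    intro i a ha
    rw [hAO] at ha ⊢
    exact ((hom0 (h i) (hS (hh i))).2.2.1 a ha).2.2.1
  have hnz : ∀ i, ∀ a ∈ A i, a ≠ 0 := by
    intro i a ha
    rw [hAO] at ha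
    exact ((hom0 (h i) (hS (hh i))).2.2.1 a ha).1
  have hbb : ∀ a : Qb, a ≠ 0 → (q : Qb) / ((q : Qb) / a) = a := by
    intro a ha
    field_simp
  obtain ⟨B, hB⟩ : ∃ B : Fin n → Finset Qb, ∀ i, B i =
      (A i).filter (fun b => 0 < m i b - m i ((q : Qb) / b)) := ⟨_, fun _ => rfl⟩
  have hBm : ∀ i b, b ∈ B i ↔ b ∈ A i ∧ 0 < m i b - m i ((q : Qb) / b) := by
    intro i b
    rw [hB, Finset.mem_filter]
  have hcrel : ∀ σ : Qb ≃ₐ[ℚ] Qb,
      ∑ i, ∑ b ∈ B i, ((m i b - m i ((q : Qb) / b) : ℤ) : ℝ) * slp q v b σ = 0 := by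
    intro σ
    have h1 : ∀ i, 2 * ∑ b ∈ B i, ((m i b - m i ((q : Qb) / b) : ℤ) : ℝ) * slp q v b σ =
        2 * ∑ a ∈ A i, (m i a : ℝ) * slp q v a σ := by
      intro i
      rw [hB i]
      exact DAT5_aux.half (bar := fun b => (q : Qb) / b) (hbar i)
        (fun a ha => hbb a (hnz i a ha)) (m i) (fun a => slp q v a σ)
        (fun a ha => (hSLP q v hq hv).2.2.2.1 a (hnz i a ha) σ)
    have h2 : ∀ i, ∑ b ∈ B i, ((m i b - m i ((q : Qb) / b) : ℤ) : ℝ) * slp q v b σ =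
        ∑ a ∈ A i, (m i a : ℝ) * slp q v a σ := fun i => by linarith [h1 i]
    rw [Finset.sum_congr rfl fun i _ => h2 i]
    exact hrel σ
  obtain ⟨b₀, hb₀⟩ : (B i₀).Nonempty := by
    rcases lt_or_gt_of_ne hne₀ with h1 | h1
    · refine ⟨a₀, (hBm _ _).2 ⟨ha₀, by omega⟩⟩
    · refine ⟨(q : Qb) / a₀, (hBm _ _).2 ⟨hbar _ _ ha₀, ?_⟩⟩
      rw [hbb a₀ (hnz _ _ ha₀)]
      omega
  let T : Type := Σ i : Fin n, {b : Qb // b ∈ B i}
  let E : T ≃ Fin (Fintype.card T) := Fintype.equivFin T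
  refine DAT5_aux.data hSLP hUNI5 hGIS5 q v S hq hv hS (Fintype.card T)
    (fun k => h (E.symm k).1) (fun k => (E.symm k).2.1)
    (fun k => ⟨hh _, (hAO _ _).1 ((hBm _ _).1 (E.symm k).2.2).1⟩)
    (fun k => m (E.symm k).1 (E.symm k).2.1 - m (E.symm k).1 ((q : Qb) / (E.symm k).2.1))
    ?_ ?_ ?_
  · intro h0
    have h1 : m (E.symm (E ⟨i₀, ⟨b₀, hb₀⟩⟩)).1 (E.symm (E ⟨i₀, ⟨b₀, hb₀⟩⟩)).2.1 -
        m (E.symm (E ⟨i₀, ⟨b₀, hb₀⟩⟩)).1 ((q : Qb) / (E.symm (E ⟨i₀, ⟨b₀, hb₀⟩⟩)).2.1) = 0 :=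
      congrFun h0 (E ⟨i₀, ⟨b₀, hb₀⟩⟩)
    rw [Equiv.symm_apply_apply] at h1
    have h2 := ((hBm _ _).1 hb₀).2
    have h3 : m i₀ b₀ - m i₀ ((q : Qb) / b₀) = 0 := h1
    omega
  · intro σ
    rw [← hcrel σ]
    have h1 : ∑ k : Fin (Fintype.card T),
        ((m (E.symm k).1 (E.symm k).2.1 - m (E.symm k).1 ((q : Qb) / (E.symm k).2.1) : ℤ) : ℝ) *
          slp q v (E.symm k).2.1 σ =
        ∑ t : T, ((m t.1 t.2.1 - m t.1 ((q : Qb) / t.2.1) : ℤ) : ℝ) * slp q v t.2.1 σ :=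
      Equiv.sum_comp E.symm
        (fun t : T => ((m t.1 t.2.1 - m t.1 ((q : Qb) / t.2.1) : ℤ) : ℝ) * slp q v t.2.1 σ)
    rw [h1, Fintype.sum_sigma]
    refine Finset.sum_congr rfl fun i _ => ?_
    rw [← Finset.sum_coe_sort (B i)
      (fun b => ((m i b - m i ((q : Qb) / b) : ℤ) : ℝ) * slp q v b σ)]
  · intro k k' hkk M hM
    have hne : E.symm k ≠ E.symm k' := fun h => hkk (E.symm.injective h)
    generalize E.symm k = t at hne
    generalize E.symm k' = t' at hne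
    obtain ⟨i, b, hb⟩ := t
    obtain ⟨i', b', hb'⟩ := t'
    have hbO := (hAO _ _).1 ((hBm _ _).1 hb).1
    have hbO' := (hAO _ _).1 ((hBm _ _).1 hb').1
    show b ^ M ≠ b' ^ M ∧ (b * b') ^ M ≠ (q : Qb) ^ M
    by_cases hii : i = i'
    · subst hii
      constructor
      · intro h1
        apply hne
        have h2 := guniq (h i) (hS (hh i)) b hbO b' hbO' M hM h1
        subst h2
        rfl
      · intro h1
        have h2 := gpair (h i) (hS (hh i)) b hbO b' hbO' M hM h1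
        have h3 := ((hBm _ _).1 hb).2
        have h4 := ((hBm _ _).1 hb').2
        rw [h2, hbb b (hnz i b ((hBm _ _).1 hb).1)] at h4
        omega
    · constructor
      · intro h1
        exact hiso i i' hii ⟨b, hbO, b', hbO', M, hM, h1⟩
      · intro h1
        have h3 := (hom0 (h i') (hS (hh i'))).2.2.1 b' hbO'
        refine hiso i i' hii ⟨b, hbO, (q : Qb) / b', h3.2.2.1, M, hM, ?_⟩
        rw [div_pow, ← h1, mul_pow, mul_div_cancel_right₀ _ (pow_ne_zero M h3.1)]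

end

end Pool.Agent.TJ5
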