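import Pool.Agent.TJ5.St
import Pool.Agent.TJ3.GAL
import Pool.Agent.TJ3.GIS
import Pool.Agent.TJ2.FULC
import Pool.Agent.TJ2.OMB

/-!
# DEN5: the density one set satisfies the criterion
-/

set_option autoImplicit false

open Polynomial IntermediateField

namespace Pool.Agent.TJ5

open Pool.Agent.TJ2 Pool.Agent.TJ3 Pool.Agent.TJ4

noncomputable section

namespace DEN5_aux

/-- an automorphism fixing `a` fixes the field `ℚ⟮a⟯` -/
theorem fix_mem {a θ : Qb} {σ : Gq} (hσ : σ a = a) (hθ : θ ∈ ℚ⟮a⟯) : σ θ = θ := by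
  have h1 : σ ∈ (adjoin ℚ ({a} : Set Qb)).fixingSubgroup := by
    rw [GAL_aux.fix]
    intro b hb
    rw [Set.mem_singleton_iff.1 hb]
    exact hσ
  exact (IntermediateField.mem_fixingSubgroup_iff _ _).1 h1 θ hθ

/-- two automorphisms with the same value at `a` agree on the field `ℚ⟮a⟯` -/
theorem eq_mem {a θ : Qb} {σ τ : Gq} (hσ : σ a = τ a) (hθ : θ ∈ ℚ⟮a⟯) : σ θ = τ θ := by
  have h1 : (τ⁻¹ * σ) a = a := by
    rw [AlgEquiv.mul_apply, hσ, ← AlgEquiv.mul_apply, inv_mul_cancel, AlgEquiv.one_apply]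
  have h2 := fix_mem h1 hθ
  rw [AlgEquiv.mul_apply] at h2
  have h3 := congrArg τ h2
  rw [← AlgEquiv.mul_apply, mul_inv_cancel, AlgEquiv.one_apply] at h3
  exact h3

/-- the image of `θ` lies in the field of the image of `a` -/
theorem map_mem {a θ : Qb} (τ : Gq) (hθ : θ ∈ ℚ⟮a⟯) : τ θ ∈ ℚ⟮τ a⟯ := by
  have h1 : (ℚ⟮a⟯).map (τ : Qb →ₐ[ℚ] Qb) = ℚ⟮τ a⟯ := by
    rw [IntermediateField.adjoin_map, Set.image_singleton]
    rfl
  rw [← h1]
  exact ⟨θ, hθ, rfl⟩

end DEN5_aux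

open DEN5_aux

theorem t_DEN5 : S_SLP → S_VAL4 → S_GIS5 → S_CCJ5 → S_DEN5 := by
  intro hSLP hVAL hGIS hCCJ hCr q v hq hv
  obtain ⟨-, -, -, -, P, -, -, -, hP⟩ := hSLP q v hq hv
  have hq1 : 1 ≤ q := hq.one_lt.le
  have hq0 : (q : Qb) ≠ 0 := by
    have : q ≠ 0 := by omega
    exact_mod_cast this
  obtain ⟨κ, hκ1, hκ2, -⟩ := hCCJ
  -- one side
  have side : ∀ h ∈ Sel q, ∀ a ∈ Om q h, ∀ (θ : Qb) (r : ℚ), r < 0 → θ ^ 2 = (r : Qb) →
      θ ∈ ℚ⟮a⟯ → ℚ⟮a⟯ = ℚ⟮θ⟯ := by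
    intro h hh a ha θ r hr hθ2 hθ
    obtain ⟨⟨hd, hO, hF⟩, -, -⟩ := hh
    have hRW : h ∈ RW h.natDegree q := hO.1
    have hmon : h.Monic := hRW.1
    obtain ⟨hfin, hO1, hO2, -, hO4⟩ := t_OMB h.natDegree q h hq1 hmon rfl
    obtain ⟨hT, hfl, -⟩ := t_FULC q h hq1 hmon hF
    have hκθ : κ θ = -θ := hκ2 θ r hr hθ2
    have hθ0 : θ ≠ 0 := by
      rintro rfl
      have : (r : Qb) = 0 := by rw [← hθ2]; ring
      have : r = 0 := by exact_mod_cast this
      rw [this] at hr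
      exact lt_irrefl _ hr
    have hne : θ ≠ -θ := by
      intro h1
      apply hθ0
      have h2 : (2 : Qb) * θ = 0 := by linear_combination h1
      rcases mul_eq_zero.1 h2 with h3 | h3
      · norm_num at h3
      · exact h3
    have hsq : ∀ τ : Gq, τ θ = θ ∨ τ θ = -θ := by
      intro τ
      have h1 : (τ θ) ^ 2 = θ ^ 2 := by
        rw [← map_pow, hθ2]
        exact map_ratCast τ r
      exact sq_eq_sq_iff_eq_or_eq_neg.1 h1
    have hone : ∀ σ : Gq, σ a = (q : Qb) / a → σ θ = -θ := by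
      intro σ hσ
      rw [← hκθ]
      apply eq_mem _ hθ
      rw [hσ, hκ1 h.natDegree q h hq1 hRW a ha]
    have hall : ∀ z ∈ Om q h, z = a ∨ z = (q : Qb) / a := by
      intro z hz
      by_contra hcon
      push Not at hcon
      obtain ⟨f, hf1, hf2⟩ := hfl a ha
      have hfz := hf2 z hz hcon.1 hcon.2
      obtain ⟨τ, hτ⟩ := hT a ha z hz
      have h1 : τ θ ∈ ℚ⟮z⟯ := by rw [← hτ]; exact map_mem τ hθ
      have h2 : f (τ θ) = τ θ := fix_mem hfz h1
      have h3 : f θ = -θ := hone f hf1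
      rcases hsq τ with h4 | h4
      · rw [h4] at h2
        exact hne (h2.symm.trans h3)
      · rw [h4, map_neg, neg_inj] at h2
        exact hne (h2.symm.trans h3)
    rw [show ℚ⟮a⟯ = adjoin ℚ ({a} : Set Qb) from rfl, show ℚ⟮θ⟯ = adjoin ℚ ({θ} : Set Qb) from rfl,
      t_GAL]
    intro σ
    simp only [Set.mem_singleton_iff, forall_eq]
    constructor
    · intro h1
      exact fix_mem h1 hθ
    · intro h1
      rcases hall (σ a) (hO2 a ha σ) with h2 | h2
      · exact h2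
      · exact absurd (h1.symm.trans (hone σ h2)) hne
  refine ⟨?_, ?_, ?_⟩
  · intro h hh a ha b hb c hc N hN heq
    have hO : h ∈ Ord h.natDegree q := hh.1.2.1
    have ha0 : a ≠ 0 := ha.1
    have hb0 : b ≠ 0 := hb.1
    have hc0 : c ≠ 0 := hc.1
    have h1 : ([a, b, c] : List Qb).prod ^ N =
        ((([a, b, c] : List Qb).map fun a => (q : Qb) / a).prod) ^ N := by
      simp only [List.prod_cons, List.prod_nil, mul_one, List.map_cons, List.map_nil]
      have h2 : (a * b * c) ^ N ≠ 0 := pow_ne_zero _ (mul_ne_zero (mul_ne_zero ha0 hb0) hc0)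
      have h4 : (a * b * c) ^ N * (a * b * c) ^ N = (q : Qb) ^ (3 * N) := by
        rw [← heq, two_mul, pow_add]
      have h5 : (q : Qb) / a * ((q : Qb) / b * ((q : Qb) / c)) = (q : Qb) ^ 3 / (a * b * c) := by
        field_simp
      rw [h5, div_pow, ← pow_mul, eq_div_iff h2, ← h4, ← mul_assoc]
    have h3 := hVAL q v hq hv [a, b, c] (by
      intro x hx
      simp only [List.mem_cons, List.not_mem_nil, or_false] at hx
      rcases hx with rfl | rfl | rfl <;> assumption) N hN h1 1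
    simp only [List.map_cons, List.map_nil, List.sum_cons, List.sum_nil, add_zero] at h3
    obtain ⟨a1, a2⟩ := hP _ h hO a ha 1
    obtain ⟨b1, b2⟩ := hP _ h hO b hb 1
    obtain ⟨c1, c2⟩ := hP _ h hO c hc 1
    rw [a1, b1, c1] at h3
    have h4 : sgn P a 1 + (sgn P b 1 + sgn P c 1) = 0 := by exact_mod_cast h3
    rcases a2 with a2 | a2 <;> rcases b2 with b2 | b2 <;> rcases c2 with c2 | c2 <;>
      rw [a2, b2, c2] at h4 <;> norm_num at h4
  · intro h hh h' hh' hiso a ha a' ha' hIQ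
    obtain ⟨θ, r, hr, hθ2, hθa, hθa'⟩ := hIQ
    have e1 := side h hh a ha θ r hr hθ2 hθa
    have e2 := side h' hh' a' ha' θ r hr hθ2 hθa'
    obtain ⟨-, -, g3, -, -, -, g7⟩ := t_GIS q hq
    rcases hh.2.1 h' hh'.1 a ha a' ha' (e1.trans e2.symm) with h1 | h1
    · rw [h1] at hiso
      exact hiso (g3 h hh.1)
    · rw [h1] at hiso
      exact hiso (g7 h hh.1).1
  · intro n h B h1 h2 h3 h4
    exact hCr q v hq hv n h B (fun i => ⟨(h1 i).1.1, (h1 i).2⟩) h2 h3 h4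

end

end Pool.Agent.TJ5
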