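import Pool.Agent.TJ5.St

open Polynomial IntermediateField

namespace Pool.Agent.TJ5

open Pool.Agent.TJ2 Pool.Agent.TJ3 Pool.Agent.TJ4

noncomputable section

namespace EXA5_aux

lemma fd_single (a : Qb) : Fd {a} = ℚ⟮a⟯ := by
  unfold Fd
  simp

end EXA5_aux

open EXA5_aux

theorem t_EXA5 (hSLP : S_SLP) (hVAL4 : S_VAL4) (hC34 : S_C34) (hGIS5 : S_GIS5)
    (hTYP1 : S_TYP1) (hIQX5 : S_IQX5) (hSPL5 : S_SPL5) (hPAI5 : S_PAI5) : S_EXA5 := by
  intro q v S hq hv hS hEx
  obtain ⟨hFG, hfin, huni, hpair, hrefl, hsymm, htrans, hpow⟩ := hGIS5 q hq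
  have hSlp := hSLP q v hq hv
  obtain ⟨hvq0, hvq1, hvint, hneg, P, hP, hpP, hPiff, hOrd⟩ := hSlp
  have hiq : ∀ a a' b : Qb, IQ a a → ℚ⟮a⟯ = ℚ⟮b⟯ → IQ a b := by
    rintro a a' b ⟨θ, r, hr, hθ, h1, h2⟩ hab
    exact ⟨θ, r, hr, hθ, h1, hab ▸ h2⟩
  have hdeg : ∀ h ∈ S, ∀ h' ∈ S, (Om q h).ncard = (Om q h').ncard →
      h.natDegree = h'.natDegree := by
    intro h hh h' hh' he
    have h1 := (hS hh).2.2.1
    have h2 := (hS hh').2.2.1
    omega
  refine ⟨?_, hEx.quad, ?_⟩
  · -- three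
    intro h hh a ha b hb c hc N hN heq
    have hO := (hS hh).2.1
    have hG := (hS hh).1
    have ha0 := ((hfin h hG).2.2.1 a ha).1
    have hb0 := ((hfin h hG).2.2.1 b hb).1
    have hc0 := ((hfin h hG).2.2.1 c hc).1
    have hkey := hVAL4 q v hq hv [a, b, c] (by
      intro x hx
      simp only [List.mem_cons, List.not_mem_nil, or_false] at hx
      rcases hx with rfl | rfl | rfl <;> assumption) N hN (by
        simp only [List.prod_cons, List.prod_nil, mul_one, List.map_cons, List.map_nil]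
        have hne : (a * (b * c)) ^ N ≠ 0 := pow_ne_zero _ (mul_ne_zero ha0 (mul_ne_zero hb0 hc0))
        have hmul : (a * (b * c)) ^ N * ((q : Qb) / a * ((q : Qb) / b * ((q : Qb) / c))) ^ N
            = (q : Qb) ^ (3 * N) := by
          rw [← mul_pow, pow_mul]
          congr 1
          field_simp
        have h2 : (a * (b * c)) ^ N * (a * (b * c)) ^ N = (q : Qb) ^ (3 * N) := by
          rw [← heq, two_mul, pow_add, mul_assoc a b c]
        exact mul_left_cancel₀ hne (h2.trans hmul.symm)) 1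
    simp only [List.map_cons, List.map_nil, List.sum_cons, List.sum_nil, add_zero] at hkey
    have h1 := hOrd _ h hO a ha 1
    have h2 := hOrd _ h hO b hb 1
    have h3 := hOrd _ h hO c hc 1
    rw [h1.1, h2.1, h3.1] at hkey
    rcases h1.2 with e1 | e1 <;> rcases h2.2 with e2 | e2 <;> rcases h3.2 with e3 | e3 <;>
      rw [e1, e2, e3] at hkey <;> norm_num at hkey
  · -- flips
    refine hC34 q v (S ∩ FL q) hq hv (fun h hh => hh.2) ?_ ?_ ?_
    · intro h hh
      exact (hS hh.1).2.1.2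
    · intro h a ha hf
      by_contra hno
      push Not at hno
      have hS' : ∀ i, h i ∈ S := fun i => (ha i).1.1
      have hspl : ∀ i j, (Om q (h i)).ncard = (Om q (h j)).ncard ∧
          adjoin ℚ (Om q (h i)) = adjoin ℚ (Om q (h j)) := fun i j =>
        hSPL5 q (h i) (h j) (a i) (a j) hq (hS (hS' i)).1 (hS (hS' j)).1 (ha i).2 (ha j).2 (hf i j)
      have hd : ∀ i j, (h i).natDegree = (h j).natDegree := fun i j =>
        hdeg _ (hS' i) _ (hS' j) (hspl i j).1
      have hd0 : 1 ≤ (h 0).natDegree := (hS (hS' 0)).1.1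
      have hd3 : (h 0).natDegree ≤ 3 := (hS (hS' 0)).2.2.2
      have hcases : (h 0).natDegree = 1 ∨ (h 0).natDegree = 2 ∨ (h 0).natDegree = 3 := by omega
      rcases hcases with hc | hc | hc
      · have hcard : (Om q (h 0)).ncard = 2 := by
          have := (hS (hS' 0)).2.2.1
          omega
        obtain ⟨χ, π, x, hx⟩ := hTYP1 q (h 0) hq (hS (hS' 0)).1 hcard
        have hI : IQ (a 0) (a 0) := hIQX5 q 1 1 (h 0) (h 0) χ π x π x hq (hS (hS' 0)).1
          (hS (hS' 0)).1 le_rfl le_rfl hx hx (a 0) (ha 0).2 (a 0) (ha 0).2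
        exact hEx.quad (h 0) (hS' 0) (h 1) (hS' 1) (hno 0 1 (by decide)) (a 0) (ha 0).2 (a 1)
          (ha 1).2 (hiq _ (a 0) _ hI (hf 0 1))
      · refine hEx.surf (fun i => h i.castSucc) (fun i => ⟨hS' _, by rw [hd _ 0, hc]⟩) ?_ ?_
        · intro i j hij
          exact hno _ _ (fun e => hij (Fin.castSucc_injective _ e))
        · intro i j
          exact (hspl _ _).2
      · exact hEx.threef h a (fun i => ⟨hS' i, by rw [hd i 0, hc], (ha i).2⟩)
          (fun i j hij => hno i j hij) hf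
    · intro h B hB h0 h1 hf
      by_contra hno
      push Not at hno
      have hS' : ∀ i, h i ∈ S := fun i => (hB i).1.1
      have hFL : ∀ i, h i ∈ FL q := fun i => (hB i).1.2
      obtain ⟨a, ha⟩ := Finset.card_eq_one.mp h0
      have haO : a ∈ Om q (h 0) := ((hB 0).2.1 a (by rw [ha]; simp)).1
      have hle : (Om q (h 0)).ncard ≤ 6 := by
        have e1 := (hS (hS' 0)).2.2.1
        have e2 := (hS (hS' 0)).2.2.2
        omega
      have hfa : ∀ i, Fd {a} = Fd (B i) := fun i => by rw [← ha]; exact hf 0 i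
      have hstep : ∀ i, (B i).card = 2 → (Om q (h 0)).ncard = 4 ∧ (Om q (h i)).ncard = 4 ∧
          adjoin ℚ (Om q (h 0)) = adjoin ℚ (Om q (h i)) := fun i hi =>
        hPAI5 q (h 0) (h i) a (B i) hq (hFL 0) (hFL i) haO (hB i).2 hi hle (hfa i)
      obtain ⟨p0, p1, p2⟩ := hstep 1 h1
      have hall : ∀ i, (Om q (h i)).ncard = 4 ∧
          adjoin ℚ (Om q (h 0)) = adjoin ℚ (Om q (h i)) := by
        intro i
        rcases (hB i).2.2 with hi | hi
        · obtain ⟨b, hb⟩ := Finset.card_eq_one.mp hi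
          have hbO : b ∈ Om q (h i) := ((hB i).2.1 b (by rw [hb]; simp)).1
          have hfe : ℚ⟮a⟯ = ℚ⟮b⟯ := by
            rw [← fd_single, ← fd_single, hfa i, hb]
          have := hSPL5 q (h 0) (h i) a b hq (hS (hS' 0)).1 (hS (hS' i)).1 haO hbO hfe
          exact ⟨by rw [← this.1, p0], this.2⟩
        · exact ⟨(hstep i hi).2.1, (hstep i hi).2.2⟩
      refine hEx.surf h (fun i => ⟨hS' i, ?_⟩) (fun i j hij => hno i j hij) ?_
      · have e1 := (hS (hS' i)).2.2.1
        have e2 := (hall i).1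
        omega
      · intro i j
        rw [← (hall i).2, ← (hall j).2]

end

end Pool.Agent.TJ5
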