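import Pool.Agent.TJ5.St
import Pool.Agent.TJ3.GAL

/-!
# EXB5: the explicit criterion is necessary
-/

open Polynomial IntermediateField

namespace Pool.Agent.TJ5

open Pool.Agent.TJ2 Pool.Agent.TJ3 Pool.Agent.TJ4

noncomputable section

namespace EXB5_aux

/-- the field of a set with one element -/
theorem Fd_single (a : Qb) : Fd {a} = ℚ⟮a⟯ := by
  unfold Fd
  rw [Finset.sum_singleton, Finset.prod_singleton, Set.pair_eq_singleton]

/-- the criterion is inherited by subsets -/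
theorem Cr_mono {q : ℕ} {v : AbsoluteValue Qb ℝ} {S S' : Set ℤ[X]} (h : Cr q v S) (hs : S' ⊆ S) :
    Cr q v S' := by
  intro n f B h1 h2 h3 h4
  exact h n f B (fun i => ⟨hs (h1 i).1, (h1 i).2⟩) h2 h3 h4

end EXB5_aux

open EXB5_aux

theorem t_EXB5 (hSLP : S_SLP) (hIND44 : S_IND44) (hGIS5 : S_GIS5) (hPAR5 : S_PAR5)
    (hTYP2 : S_TYP2) (hTYP3 : S_TYP3) (hCYA5 : S_CYA5) (hCYB5 : S_CYB5) (hNLF5 : S_NLF5)
    (hABL5 : S_ABL5) (hIQX5 : S_IQX5) (hFUL5 : S_FUL5) (hFOU5 : S_FOU5) (hE2 : S_E2) :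
    S_EXB5 := by
  intro q v S hq hAb hS K
  have hq1 : 1 ≤ q := hq.one_lt.le
  obtain ⟨-, gfin, -⟩ := hGIS5 q hq
  refine ⟨K.quad, ?_, ?_⟩
  · -- three surfaces
    intro h hh hni hsp
    have hO : ∀ i, h i ∈ O3 q := fun i => hS (hh i).1
    have hGD : ∀ i, h i ∈ GD q := fun i => (hO i).1
    have hOrd : ∀ i, h i ∈ Ord (h i).natDegree q := fun i => (hO i).2.1
    have hdeg : ∀ i, (h i).natDegree = 2 := fun i => (hh i).2
    have hcard : ∀ i, (Om q (h i)).ncard = 4 := fun i => by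
      rw [(hO i).2.2.1, hdeg i]
    have hK : ∀ i j, ∀ σ : Gq, (∀ a ∈ Om q (h i), σ a = a) → ∀ a ∈ Om q (h j), σ a = a :=
      fun i j σ hσ => ((t_GAL _ _).1 (hsp i j) σ).1 hσ
    have hT : ∀ i, h i ∈ FL q ∨ CY q (h i) := fun i =>
      hTYP2 q v (h i) hq hAb (hGD i) (hOrd i) (hcard i)
    by_cases hall : ∀ i, h i ∈ FL q
    · have hFO : ∀ i, h i ∈ FO q := fun i => hFUL5 q (h i) hq (hall i) (hOrd i) (hdeg i) (hcard i)
      obtain ⟨-, -, -, -, P, hP, hpP, -⟩ := hSLP q v hq hAb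
      have hD := hE2 q P hq hP hpP (h 0) (hFO 0) (h 1) (hFO 1) (h 2) (hFO 2) (hdeg 0) (hdeg 1)
        (hdeg 2) (hni 0 1 (by decide)) (hni 0 2 (by decide)) (hni 1 2 (by decide)) (hsp 0 1)
        (hsp 0 2)
      have hmem : ∀ f ∈ ({h 0, h 1, h 2} : Set ℤ[X]), ∃ i, f = h i := by
        intro f hf
        simp only [Set.mem_insert_iff, Set.mem_singleton_iff] at hf
        rcases hf with rfl | rfl | rfl
        · exact ⟨0, rfl⟩
        · exact ⟨1, rfl⟩
        · exact ⟨2, rfl⟩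
      have s1 : ({h 0, h 1, h 2} : Set ℤ[X]) ⊆ FL q := by
        intro f hf
        obtain ⟨i, rfl⟩ := hmem f hf
        exact hall i
      have s2 : ({h 0, h 1, h 2} : Set ℤ[X]) ⊆ S ∩ FL q := by
        intro f hf
        obtain ⟨i, rfl⟩ := hmem f hf
        exact ⟨(hh i).1, hall i⟩
      have s3 : ({h 0, h 1, h 2} : Set ℤ[X]) ⊆ GD q := by
        intro f hf
        obtain ⟨i, rfl⟩ := hmem f hf
        exact hGD i
      have hEv : Ev q v {h 0, h 1, h 2} := hIND44 q v _ hq hAb s1 (Cr_mono K.flips s2)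
      exact hPAR5 q v _ hq hAb s3 hEv hD
    · push Not at hall
      obtain ⟨i, hi⟩ := hall
      have hCi : CY q (h i) := (hT i).resolve_left hi
      obtain ⟨-, ⟨x, hx⟩, hbas, -⟩ := gfin (h i) (hGD i)
      by_cases hex : ∃ j, h j ∈ FL q
      · obtain ⟨j, hj⟩ := hex
        obtain ⟨-, ⟨a, ha⟩, hbas', -⟩ := gfin (h j) (hGD j)
        obtain ⟨σ, hσa, hσx⟩ := hNLF5 q (h j) (h i) hq hj (by rw [hcard j])
          (hABL5.2 q (h i) hq1 hCi) a ha x hx
        have h1 := (hCYA5 q (h i) hq (hGD i) hCi).1 σ x hx hσx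
        have h2 := hK i j σ h1 a ha
        exact (hbas' a ha).2.2.2 (hσa.symm.trans h2)
      · push Not at hex
        have hC : ∀ j, CY q (h j) := fun j => (hT j).resolve_left (hex j)
        obtain ⟨-, ⟨a, ha⟩, hbas0, -⟩ := gfin (h 0) (hGD 0)
        obtain ⟨-, ⟨y, hy⟩, hbas1, -⟩ := gfin (h 1) (hGD 1)
        obtain ⟨σ, hσ⟩ := hCYB5 q v (h 0) (h 1) hq hAb (hGD 0) (hOrd 0) (hC 0) (hGD 1) (hOrd 1)
          (hC 1) (hni 0 1 (by decide)) a ha y hy
        rcases hσ with ⟨h1, h2⟩ | ⟨h1, h2⟩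
        · have h3 := (hCYA5 q (h 0) hq (hGD 0) (hC 0)).1 σ a ha h1
          have h4 := hK 0 1 σ h3 y hy
          exact (hbas1 y hy).2.2.2 (h2.symm.trans h4)
        · have h3 := (hCYA5 q (h 1) hq (hGD 1) (hC 1)).1 σ y hy h2
          have h4 := hK 1 0 σ h3 a ha
          exact (hbas0 a ha).2.2.2 (h1.symm.trans h4)
  · -- four threefolds
    intro h a hh hni hf
    have hO : ∀ i, h i ∈ O3 q := fun i => hS (hh i).1
    have hGD : ∀ i, h i ∈ GD q := fun i => (hO i).1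
    have hOrd : ∀ i, h i ∈ Ord (h i).natDegree q := fun i => (hO i).2.1
    have hcard : ∀ i, (Om q (h i)).ncard = 6 := fun i => by
      rw [(hO i).2.2.1, (hh i).2.1]
    have ha : ∀ i, a i ∈ Om q (h i) := fun i => (hh i).2.2
    have hall : ∀ i, h i ∈ FL q := by
      intro i
      rcases hTYP3 q (h i) hq (hGD i) (hcard i) with h1 | ⟨χ, π, x, hI⟩
      · exact h1
      · exfalso
        obtain ⟨θ, r, hr, hθ, h1, -⟩ := hIQX5 q 3 3 (h i) (h i) χ π x π x hq (hGD i) (hGD i)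
          (by norm_num) (by norm_num) hI hI (a i) (ha i) (a i) (ha i)
        obtain ⟨j, hj⟩ : ∃ j : Fin 4, i ≠ j := by
          by_cases h0 : i = 0
          · exact ⟨1, by rw [h0]; decide⟩
          · exact ⟨0, h0⟩
        refine K.quad (h i) (hh i).1 (h j) (hh j).1 (hni i j hj) (a i) (ha i) (a j) (ha j)
          ⟨θ, r, hr, hθ, h1, ?_⟩
        rw [← hf i j]
        exact h1
    have hLI := K.flips 4 h (fun i => {a i}) (fun i => ⟨⟨(hh i).1, hall i⟩, ⟨fun b hb => ?_,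
      Or.inl (Finset.card_singleton _)⟩⟩) ⟨0, Finset.card_singleton _⟩
      (fun i j => by rw [Fd_single, Fd_single]; exact hf i j) hni
    · refine hFOU5 q v h a hq hAb (fun i => ⟨hGD i, hOrd i, ha i⟩) (hcard 0) hf ?_
      have he : (fun i => fun σ : Gq => ∑ b ∈ ({a i} : Finset Qb), slp q v b σ) =
          fun i => fun σ : Gq => slp q v (a i) σ := by
        funext i σ
        rw [Finset.sum_singleton]
      rw [← he]
      exact hLI
    · rw [Finset.mem_singleton] at hb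
      subst hb
      obtain ⟨-, -, hbas, -⟩ := gfin (h i) (hGD i)
      refine ⟨ha i, ?_⟩
      rw [Finset.mem_singleton]
      exact (hbas (a i) (ha i)).2.2.2

end

end Pool.Agent.TJ5
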