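import Pool.Agent.TJ5.St
import Pool.Agent.TJ3.GAL

/-!
# FOU5: four ordinary members with the same field of degree 6
-/

set_option autoImplicit false

open Polynomial IntermediateField

namespace Pool.Agent.TJ5

open Pool.Agent.TJ2 Pool.Agent.TJ3 Pool.Agent.TJ4

namespace FOU5_aux

lemma pairs {α : Type} [DecidableEq α] (b : α → α) :
    ∀ (n : ℕ) (A : Finset α), A.card = 2 * n → (∀ x ∈ A, b x ∈ A) → (∀ x ∈ A, b x ≠ x) →
      (∀ x ∈ A, b (b x) = x) →
      ∃ y : Fin n → α, (∀ j, y j ∈ A) ∧ ∀ x ∈ A, ∃ j, x = y j ∨ x = b (y j) := by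
  intro n
  induction n with
  | zero =>
    intro A hA _ _ _
    have : A = ∅ := Finset.card_eq_zero.1 (by simpa using hA)
    subst this
    exact ⟨fun j => j.elim0, fun j => j.elim0, fun x hx => by simp at hx⟩
  | succ n ih =>
    intro A hA h1 h2 h3
    have hne : A.Nonempty := by
      rw [← Finset.card_pos]; omega
    obtain ⟨y0, hy0⟩ := hne
    have hb0 := h1 y0 hy0
    have hne0 := h2 y0 hy0
    have hbb0 := h3 y0 hy0
    obtain ⟨y, hy1, hy2⟩ := ih ((A.erase y0).erase (b y0))
      (by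
        rw [Finset.card_erase_of_mem (Finset.mem_erase.2 ⟨hne0, hb0⟩),
          Finset.card_erase_of_mem hy0, hA]
        omega)
      (by
        intro x hx
        simp only [Finset.mem_erase, ne_eq] at hx ⊢
        obtain ⟨hx1, hx2, hx3⟩ := hx
        refine ⟨?_, ?_, h1 x hx3⟩
        · intro h
          apply hx2
          rw [← h3 x hx3, h, hbb0]
        · intro h
          apply hx1
          rw [← h3 x hx3, h])
      (by
        intro x hx
        simp only [Finset.mem_erase, ne_eq] at hx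
        exact h2 x hx.2.2)
      (by
        intro x hx
        simp only [Finset.mem_erase, ne_eq] at hx
        exact h3 x hx.2.2)
    refine ⟨Fin.cons y0 y, ?_, ?_⟩
    · intro j
      refine Fin.cases ?_ ?_ j
      · simpa using hy0
      · intro i
        have := hy1 i
        simp only [Finset.mem_erase, ne_eq] at this
        simpa using this.2.2
    · intro x hx
      by_cases hx0 : x = y0
      · exact ⟨0, Or.inl (by simpa using hx0)⟩
      by_cases hx1 : x = b y0
      · exact ⟨0, Or.inr (by simpa using hx1)⟩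
      obtain ⟨j, hj⟩ := hy2 x (by simp [hx0, hx1, hx])
      exact ⟨j.succ, by simpa using hj⟩

lemma slp_congr (q : ℕ) (v : AbsoluteValue Qb ℝ) (a b : Qb) (σ τ : Gq) (h : σ a = τ b) :
    slp q v a σ = slp q v b τ := by
  unfold slp
  rw [h]

end FOU5_aux

theorem t_FOU5 (hSLP : S_SLP) (hGIS5 : S_GIS5) (hCCJ5 : S_CCJ5) : S_FOU5 := by
  classical
  intro q v h a hq hv hh hcard hfield hLI
  obtain ⟨-, -, -, hneg, P, -, -, -, hord⟩ := hSLP q v hq hv
  obtain ⟨-, hG, -⟩ := hGIS5 q hq
  obtain ⟨κ, hκ, -⟩ := hCCJ5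
  have hq1 : 1 ≤ q := hq.pos
  -- the stabilisers
  have hst : ∀ i, ∀ σ : Gq, σ (a 0) = a 0 → σ (a i) = a i := by
    intro i σ hσ
    have := (t_GAL {a 0} {a i}).1 (hfield 0 i) σ
    simp only [Set.mem_singleton_iff, forall_eq] at this
    exact this.1 hσ
  have hst2 : ∀ i, ∀ σ τ : Gq, σ (a 0) = τ (a 0) → σ (a i) = τ (a i) := by
    intro i σ τ hστ
    have h1 : (τ⁻¹ * σ) (a i) = a i := by
      apply hst
      rw [AlgEquiv.mul_apply, hστ, ← AlgEquiv.mul_apply, inv_mul_cancel, AlgEquiv.one_apply]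
    have h2 := congrArg τ h1
    rw [← AlgEquiv.mul_apply, ← mul_assoc, mul_inv_cancel, one_mul] at h2
    exact h2
  obtain ⟨hfin, -, hbar, hcl⟩ := hG (h 0) (hh 0).1
  obtain ⟨y, hyA, hy⟩ := FOU5_aux.pairs (fun x : Qb => (q : Qb) / x) 3 hfin.toFinset
    (by rw [← Set.ncard_eq_toFinset_card (Om q (h 0)) hfin, hcard])
    (by
      intro x hx
      rw [Set.Finite.mem_toFinset] at hx ⊢
      exact (hbar x hx).2.2.1)
    (by
      intro x hx
      rw [Set.Finite.mem_toFinset] at hx
      exact (hbar x hx).2.2.2)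
    (by
      intro x hx
      rw [Set.Finite.mem_toFinset] at hx
      have h0 := (hbar x hx).1
      have hq0 : (q : Qb) ≠ 0 := by
        exact_mod_cast (by omega : q ≠ 0)
      field_simp)
  simp only [Set.Finite.mem_toFinset] at hyA hy
  have htr := (hh 0).1.2.2.1
  choose s hs using fun j => htr (a 0) (hh 0).2.2 (y j) (hyA j)
  -- the 4 vectors in ℚ ^ 3
  have hnot : ¬ LinearIndependent ℚ (fun i : Fin 4 => fun j : Fin 3 => sgn P (a i) (s j)) := by
    intro hli
    have := hli.fintype_card_le_finrank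
    simp at this
  apply hnot
  rw [Fintype.linearIndependent_iff] at hLI ⊢
  intro g hg i
  refine hLI g ?_ i
  funext σ
  have hval : ∀ j : Fin 3, ∑ i, (g i : ℝ) * slp q v (a i) (s j) = 0 := by
    intro j
    have h1 := congrFun hg j
    simp only [Finset.sum_apply, Pi.smul_apply, smul_eq_mul, Pi.zero_apply] at h1
    have h2 : ∀ i, slp q v (a i) (s j) = ((sgn P (a i) (s j) : ℚ) : ℝ) := fun i =>
      (hord (h i).natDegree (h i) (hh i).2.1 (a i) (hh i).2.2 (s j)).1
    simp only [h2]
    exact_mod_cast h1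
  simp only [Finset.sum_apply, Pi.smul_apply, Pi.zero_apply, Rat.smul_def]
  obtain ⟨j, hj | hj⟩ := hy (σ (a 0)) (hcl (a 0) (hh 0).2.2 σ)
  · have h3 : ∀ i, slp q v (a i) σ = slp q v (a i) (s j) := by
      intro i
      apply FOU5_aux.slp_congr
      apply hst2
      rw [hj, hs j]
    simp only [h3]
    exact hval j
  · have h3 : ∀ i, slp q v (a i) σ = - slp q v (a i) (s j) := by
      intro i
      obtain ⟨-, -, hbi, hci⟩ := hG (h i) (hh i).1
      have h4 : σ (a i) = (κ * s j) (a i) := by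
        apply hst2
        rw [hj, AlgEquiv.mul_apply, hs j]
        exact (hκ (h 0).natDegree q (h 0) hq1 (hh 0).1.2.1 (y j) (hyA j)).symm
      have h5 : σ (a i) = (s j) ((q : Qb) / a i) := by
        rw [h4, AlgEquiv.mul_apply,
          hκ (h i).natDegree q (h i) hq1 (hh i).1.2.1 _ (hci (a i) (hh i).2.2 (s j))]
        rw [map_div₀, map_natCast]
      rw [FOU5_aux.slp_congr q v (a i) ((q : Qb) / a i) σ (s j) h5,
        hneg (a i) (hbi (a i) (hh i).2.2).1 (s j)]
    simp only [h3, mul_neg, Finset.sum_neg_distrib, neg_eq_zero]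
    exact hval j

end Pool.Agent.TJ5
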