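import Pool.Agent.TJ5.St

/-!
# FUL5: four roots with flips are full
-/

open Polynomial IntermediateField

namespace Pool.Agent.TJ5

open Pool.Agent.TJ2 Pool.Agent.TJ3 Pool.Agent.TJ4

noncomputable section

namespace FUL5_aux

lemma map_qdiv (q : ℕ) (σ : Qb ≃ₐ[ℚ] Qb) (a : Qb) : σ ((q : Qb) / a) = (q : Qb) / σ a := by
  rw [map_div₀, map_natCast]

/-- Four roots: outside one pair there is only one more pair. -/
lemma pair (q : ℕ) (h : ℤ[X]) (hfin : (Om q h).Finite)
    (hcl : ∀ a ∈ Om q h, (q : Qb) / a ∈ Om q h ∧ (q : Qb) / a ≠ a)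
    (hinv : ∀ a ∈ Om q h, (q : Qb) / ((q : Qb) / a) = a)
    (hc : (Om q h).ncard = 4) {x y z : Qb} (hx : x ∈ Om q h) (hy : y ∈ Om q h)
    (hz : z ∈ Om q h) (h1 : y ≠ x) (h2 : y ≠ (q : Qb) / x) (h3 : z ≠ x)
    (h4 : z ≠ (q : Qb) / x) : z = y ∨ z = (q : Qb) / y := by
  classical
  by_contra hcon
  push Not at hcon
  obtain ⟨h5, h6⟩ := hcon
  have hsub : ({z, (q : Qb) / y, y, (q : Qb) / x, x} : Finset Qb) ⊆ hfin.toFinset := by
    intro w hw
    rw [Set.Finite.mem_toFinset]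
    simp only [Finset.mem_insert, Finset.mem_singleton] at hw
    rcases hw with rfl | rfl | rfl | rfl | rfl
    · exact hz
    · exact (hcl _ hy).1
    · exact hy
    · exact (hcl _ hx).1
    · exact hx
  have hle := Finset.card_le_card hsub
  rw [← Set.ncard_eq_toFinset_card _ hfin, hc] at hle
  have h7 : (q : Qb) / y ≠ (q : Qb) / x := by
    intro he
    apply h1
    rw [← hinv y hy, he, hinv x hx]
  have h8 : (q : Qb) / y ≠ x := by
    intro he
    apply h2
    rw [← he, hinv y hy]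
  have hcard : ({z, (q : Qb) / y, y, (q : Qb) / x, x} : Finset Qb).card = 5 := by
    rw [Finset.card_insert_of_notMem, Finset.card_insert_of_notMem,
      Finset.card_insert_of_notMem, Finset.card_insert_of_notMem, Finset.card_singleton]
    · rw [Finset.mem_singleton]
      exact (hcl _ hx).2
    · simp only [Finset.mem_insert, Finset.mem_singleton, not_or]
      exact ⟨h2, h1⟩
    · simp only [Finset.mem_insert, Finset.mem_singleton, not_or]
      exact ⟨(hcl _ hy).2, h7, h8⟩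
    · simp only [Finset.mem_insert, Finset.mem_singleton, not_or]
      exact ⟨h6, h5, h4, h3⟩
  omega

end FUL5_aux

open FUL5_aux in
theorem t_FUL5 (hGIS4 : S_GIS4) : S_FUL5 := by
  intro q h hq hF hO hd hc
  obtain ⟨-, hb, -⟩ := hGIS4 q hq
  obtain ⟨hfin, hne, hcl, hst⟩ := hb h hF
  have hq0 : (q : Qb) ≠ 0 := by
    exact_mod_cast hq.pos.ne'
  have hcl' : ∀ a ∈ Om q h, (q : Qb) / a ∈ Om q h ∧ (q : Qb) / a ≠ a :=
    fun a ha => (hcl a ha).2.2
  have hinv : ∀ a ∈ Om q h, (q : Qb) / ((q : Qb) / a) = a := by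
    intro a ha
    have ha0 := (hcl a ha).1
    field_simp
  obtain ⟨-, -, htr, hfl, -⟩ := hF
  refine ⟨by omega, hO, by rw [hc, hd], ?_⟩
  intro τ hτ hτq
  obtain ⟨a, ha⟩ := hne
  -- a second pair
  obtain ⟨b, hb, hba, hba'⟩ : ∃ b ∈ Om q h, b ≠ a ∧ b ≠ (q : Qb) / a := by
    by_contra hcon
    push Not at hcon
    have hsub : Om q h ⊆ ({a, (q : Qb) / a} : Set Qb) := by
      intro c hcm
      by_cases hca : c = a
      · exact Or.inl hca
      · exact Or.inr (hcon c hcm hca)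
    have h1 := Set.ncard_le_ncard hsub (Set.toFinite _)
    have h2 : ({a, (q : Qb) / a} : Set Qb).ncard ≤ 2 := by
      have h3 := Set.ncard_insert_le a ({(q : Qb) / a} : Set Qb)
      rw [Set.ncard_singleton] at h3
      exact h3
    omega
  have hτa : τ a ∈ Om q h := hτ.mapsTo ha
  have hτb : τ b ∈ Om q h := hτ.mapsTo hb
  have hτne : τ b ≠ τ a := fun he => hba (hτ.injOn hb ha he)
  have hτne' : τ b ≠ (q : Qb) / τ a := by
    rw [← hτq a ha]
    exact fun he => hba' (hτ.injOn hb (hcl' a ha).1 he)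
  -- an automorphism agreeing with `τ` on `a` and `b`
  obtain ⟨σ, hσa, hσb⟩ : ∃ σ : Qb ≃ₐ[ℚ] Qb, σ a = τ a ∧ σ b = τ b := by
    obtain ⟨σ, hσ⟩ := htr a ha _ hτa
    have h1 : σ b ≠ τ a := by
      rw [← hσ]
      exact fun he => hba (σ.injective he)
    have h2 : σ b ≠ (q : Qb) / τ a := by
      rw [← hσ, ← map_qdiv]
      exact fun he => hba' (σ.injective he)
    rcases pair q h hfin hcl' hinv hc hτa hτb (hst b hb σ) hτne hτne' h1 h2 with h3 | h3
    · exact ⟨σ, hσ, h3⟩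
    · obtain ⟨f, hf1, hf2⟩ := hfl _ hτb
      refine ⟨f * σ, ?_, ?_⟩
      · rw [AlgEquiv.mul_apply, hσ]
        refine hf2 _ hτa hτne.symm ?_
        intro he
        apply hτne'
        rw [he, hinv _ hτb]
      · rw [AlgEquiv.mul_apply, h3, map_qdiv, hf1, hinv _ hτb]
  refine ⟨σ, fun c hcm => ?_⟩
  by_cases h1 : c = a
  · rw [h1, hσa]
  by_cases h2 : c = (q : Qb) / a
  · rw [h2, map_qdiv, hσa, hτq a ha]
  rcases pair q h hfin hcl' hinv hc ha hb hcm hba hba' h1 h2 with h3 | h3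
  · rw [h3, hσb]
  · rw [h3, map_qdiv, hσb, hτq b hb]

end

end Pool.Agent.TJ5
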