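import Pool.Agent.TJ5.St

/-!
# Project TJ5: the final theorem, from its parts (helper65)
-/

open Polynomial IntermediateField Filter

namespace Pool.Agent.TJ5

open Pool.Agent.TJ2 Pool.Agent.TJ3 Pool.Agent.TJ4

noncomputable section

/-- Every geometric Tate class, on every `V` with semisimple `F` whose eigenvalues are, up to roots
of unity, supersingular or eigenvalues of members of `S`, is a polynomial in geometric Tate classes
of degree 2. -/
def Lef (q : ℕ) (S : Set ℤ[X]) : Prop :=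
  ∀ (K : Type) [Field K] [CharZero K] (V : Type) [AddCommGroup V] [Module K V]
    [Module.Finite K V] (F : Module.End K V), F.IsSemisimple →
    (∀ z : AlgebraicClosure K, aeval z F.charpoly = 0 → Adm q S z) →
    ∀ (j N : ℕ) (x : ExteriorAlgebra K V), 1 ≤ N → x ∈ ⋀[K]^(2 * j) V →
      ExteriorAlgebra.map (F ^ N) x = (q : K) ^ (j * N) • x →
      x ∈ Algebra.adjoin K (Deg2g F (q : K))

/-- There are members `h k` of `S` and exponents such that on every `V` with semisimple `F` whose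
characteristic polynomial is divisible by the product of the `weil q (h k) ^ e k` there is a
geometric Tate class which is not a polynomial in geometric Tate classes of degree 2. -/
def Exo (q : ℕ) (S : Set ℤ[X]) : Prop :=
  ∃ (n : ℕ) (h : Fin n → ℤ[X]) (e : Fin n → ℕ), (∀ k, h k ∈ S) ∧
    ∀ (K : Type) [Field K] [CharZero K] (V : Type) [AddCommGroup V] [Module K V]
      [Module.Finite K V] (F : Module.End K V), F.IsSemisimple →
      ∏ k, ((weil q (h k)).map (Int.castRingHom K)) ^ e k ∣ F.charpoly →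
      ∃ (j N : ℕ) (x : ExteriorAlgebra K V), 1 ≤ N ∧ x ∈ ⋀[K]^(2 * j) V ∧
        ExteriorAlgebra.map (F ^ N) x = (q : K) ^ (j * N) • x ∧
        x ∉ Algebra.adjoin K (Deg2g F (q : K))

theorem fin (hPOS5 : S_POS5) (hNEG5 : S_NEG5) (hKEV5 : S_KEV5) (hNEC5 : S_NEC5)
    (hEXA5 : S_EXA5) (hEXB5 : S_EXB5) (hSUB5 : S_SUB5) (hDEN5 : S_DEN5)
    (hCr : ∀ (q : ℕ) (v : AbsoluteValue Qb ℝ), IsPrimePow q → Ab q v → Cr q v (Sel q))
    (q : ℕ) (v : AbsoluteValue Qb ℝ) (hq : IsPrimePow q) (hv : Ab q v) :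
    (∀ S ⊆ CL q v, (Kr q v S → Lef q S) ∧ (¬ Kr q v S → Exo q S)) ∧
      O3 q ⊆ CL q v ∧ (∀ S ⊆ O3 q, Kr q v S ↔ Ex q S) ∧
      Sel q ⊆ CL q v ∧ Kr q v (Sel q) := by
  obtain ⟨h1, h2, h3⟩ := hSUB5 q v hq hv
  refine ⟨fun S hS => ⟨fun hK => hPOS5 q v S hq hv (hS.trans h3) (hKEV5 q v S hq hv hS hK),
    fun hK => hNEG5 q S hq (hS.trans h3) (hNEC5 q v S hq hv (hS.trans h3) hK)⟩, h1,
    fun S hS => ⟨hEXB5 q v S hq hv hS, hEXA5 q v S hq hv hS⟩, fun h hh => h2 hh.1,
    hDEN5 hCr q v hq hv⟩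

end

end Pool.Agent.TJ5
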