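import Pool.Agent.TJ5.St
import Pool.Agent.TJ3.GIS
import Pool.Agent.TJ4.GIS4

/-!
# Project TJ5, module GIS5: geometric isogeny (MP_3af9db_ag)
-/

open Polynomial IntermediateField

namespace Pool.Agent.TJ5

open Pool.Agent.TJ2 Pool.Agent.TJ3 Pool.Agent.TJ4

noncomputable section

namespace GIS5_aux

lemma sub {q : ℕ} : FL q ⊆ GD q := by
  intro h hh
  exact ⟨hh.1, hh.2.1, hh.2.2.1, hh.2.2.2.2,
    fun a ha b hb M hM e => GIS4_aux.inj hh ha hb hM e⟩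

lemma bar {q : ℕ} {h : ℤ[X]} (hh : h ∈ GD q) {a : Qb} (ha : a ∈ Om q h)
    {M : ℕ} (hM : 1 ≤ M) : a ^ M ≠ ((q : Qb) / a) ^ M := by
  intro e
  have ha0 : a ≠ 0 := ha.1
  apply hh.2.2.2.1 a ha M hM
  rw [two_mul, pow_add]
  nth_rewrite 2 [e]
  rw [← mul_pow, mul_div_cancel₀ _ ha0]

lemma inj {q : ℕ} {h : ℤ[X]} (hh : h ∈ GD q) {a b : Qb}
    (ha : a ∈ Om q h) (hb : b ∈ Om q h) {M : ℕ} (hM : 1 ≤ M) (e : a ^ M = b ^ M) : a = b :=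
  hh.2.2.2.2 a ha b hb M hM e

lemma trf {q : ℕ} (hq : IsPrimePow q) {h h' : ℤ[X]} (hh : h ∈ GD q) (hh' : h' ∈ GD q)
    (hG : GIso q h h') {a : Qb} (ha : a ∈ Om q h) :
    ∃ a' ∈ Om q h', ∃ N : ℕ, 1 ≤ N ∧ a ^ N = a' ^ N := by
  obtain ⟨b, hb, b', hb', N, hN, e⟩ := hG
  have hq1 : 1 ≤ q := hq.pos
  obtain ⟨σ, hσ⟩ := hh.2.2.1 b hb a ha
  refine ⟨σ b', (t_OMB h'.natDegree q h' hq1 hh'.2.1.1 rfl).2.2.1 b' hb' σ, N, hN, ?_⟩
  rw [← hσ, ← map_pow, e, map_pow]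

lemma ne {q : ℕ} (hq : IsPrimePow q) {h : ℤ[X]} (hh : h ∈ GD q) : (Om q h).Nonempty := by
  obtain ⟨b, hb⟩ := IsAlgClosed.exists_aeval_eq_zero Qb h (by
    intro h0
    have h1 := hh.1
    have h2 : h.natDegree = 0 := Polynomial.natDegree_eq_zero_iff_degree_le_zero.2 h0.le
    omega)
  obtain ⟨a, ha, _⟩ := (t_OMB h.natDegree q h hq.pos hh.2.1.1 rfl).2.2.2.1 b hb
  exact ⟨a, ha⟩

end GIS5_aux

open GIS5_aux in
theorem t_GIS5 : S_GIS5 := by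
  intro q hq
  have hq1 : 1 ≤ q := hq.pos
  have hq0 := GIS_q0 hq
  refine ⟨sub, ?_, fun h hh a ha b hb M hM e => inj hh ha hb hM e, ?_, ?_, ?_, ?_,
    fun h hh h' hh' hG a ha => trf hq hh hh' hG ha⟩
  · intro h hh
    have hom := t_OMB h.natDegree q h hq1 hh.2.1.1 rfl
    refine ⟨hom.1, ne hq hh, fun a ha => ⟨ha.1, (hom.2.1 a ha).2.1, (hom.2.1 a ha).1, ?_⟩,
      hom.2.2.1⟩
    intro e
    exact bar hh ha (M := 1) le_rfl (by rw [pow_one, pow_one, e])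
  · intro h hh a ha b hb M hM e
    have ha0 : a ≠ 0 := ha.1
    have hb0 : b ≠ 0 := hb.1
    have hbb : (q : Qb) / b ∈ Om q h := ((t_OMB h.natDegree q h hq1 hh.2.1.1 rfl).2.1 b hb).1
    have h1 : a ^ M = ((q : Qb) / b) ^ M := by
      rw [div_pow, ← e, mul_pow, mul_div_assoc, div_self (pow_ne_zero M hb0), mul_one]
    have h2 : a = (q : Qb) / b := inj hh ha hbb hM h1
    rw [h2]
    field_simp
  · intro h hh
    obtain ⟨a, ha⟩ := ne hq hh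
    exact ⟨a, ha, a, ha, 1, le_refl 1, rfl⟩
  · rintro h h' ⟨a, ha, a', ha', N, hN, e⟩
    exact ⟨a', ha', a, ha, N, hN, e.symm⟩
  · intro h hh h' hh' h'' hh'' ⟨a, ha, a', ha', N, hN, e⟩ h2
    obtain ⟨a'', ha'', M, hM, e'⟩ := trf hq hh' hh'' h2 ha'
    refine ⟨a, ha, a'', ha'', N * M, Nat.mul_pos hN hM, ?_⟩
    rw [pow_mul, e, ← pow_mul, mul_comm, pow_mul, e', ← pow_mul, mul_comm]

end

end Pool.Agent.TJ5
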