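import Pool.Agent.TJ5.St

/-!
# Project TJ5: construction of the characters
-/

open Polynomial IntermediateField

namespace Pool.Agent.TJ5

open Pool.Agent.TJ2 Pool.Agent.TJ3 Pool.Agent.TJ4

noncomputable section

namespace IQC5_aux

/-- `x i` for the sign `1` and `q / x i` for the sign `-1` -/
def Y (q : ℕ) {m : ℕ} (x : Fin m → Qb) (ε : ℤˣ) (i : Fin m) : Qb :=
  if ε = 1 then x i else (q : Qb) / x i

theorem Y_one (q : ℕ) {m : ℕ} (x : Fin m → Qb) (i : Fin m) : Y q x 1 i = x i := if_pos rfl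

theorem Y_neg (q : ℕ) {m : ℕ} (x : Fin m → Qb) (i : Fin m) : Y q x (-1) i = (q : Qb) / x i :=
  if_neg (by decide)

variable {q m : ℕ} {x : Fin m → Qb}

theorem x_ne (hne : ∀ i j, x i ≠ (q : Qb) / x j) (i : Fin m) : x i ≠ 0 := fun h =>
  hne i i (by rw [h, div_zero])

theorem q_ne (hq : 1 ≤ q) : (q : Qb) ≠ 0 := by
  exact_mod_cast (Nat.one_le_iff_ne_zero.1 hq)

theorem Y_inj (hq : 1 ≤ q) (hinj : Function.Injective x) (hne : ∀ i j, x i ≠ (q : Qb) / x j)
    {ε ε' : ℤˣ} {i i' : Fin m} (h : Y q x ε i = Y q x ε' i') : ε = ε' ∧ i = i' := by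
  rcases Int.units_eq_one_or ε with rfl | rfl <;> rcases Int.units_eq_one_or ε' with rfl | rfl
  · rw [Y_one, Y_one] at h
    exact ⟨rfl, hinj h⟩
  · rw [Y_one, Y_neg] at h
    exact absurd h (hne _ _)
  · rw [Y_one, Y_neg] at h
    exact absurd h.symm (hne _ _)
  · rw [Y_neg, Y_neg] at h
    refine ⟨rfl, hinj ?_⟩
    have h1 := congrArg (fun z => (q : Qb) / z) h
    simp only [div_div_cancel₀ (q_ne hq)] at h1
    exact h1

theorem map_Y (hq : 1 ≤ q) {σ : Gq} {c : ℤˣ}
    {f : Fin m → Fin m} (h : ∀ i, σ (x i) = Y q x c (f i)) (ε : ℤˣ) (i : Fin m) :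
    σ (Y q x ε i) = Y q x (c * ε) (f i) := by
  rcases Int.units_eq_one_or ε with rfl | rfl
  · rw [Y_one, mul_one, h]
  · rw [Y_neg, map_div₀, map_natCast, h]
    rcases Int.units_eq_one_or c with rfl | rfl
    · rw [one_mul, Y_one, Y_neg]
    · rw [mul_neg, mul_one, neg_neg, Y_one, Y_neg, div_div_cancel₀ (q_ne hq)]

end IQC5_aux

open IQC5_aux in
/-- construction of the characters -/
theorem t_IQC5 : S_IQC5 := by
  intro q m h x hq hm hinj hne hom hσ
  have hex : ∀ σ : Gq, ∃ (c : ℤˣ) (f : Fin m → Fin m), ∀ i, σ (x i) = Y q x c (f i) := by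
    intro σ
    rcases hσ σ with h1 | h1
    · choose f hf using h1
      exact ⟨1, f, fun i => by rw [Y_one, hf]⟩
    · choose f hf using h1
      exact ⟨-1, f, fun i => by rw [Y_neg, hf]⟩
  choose c f hcf using hex
  have hmul : ∀ σ τ i, c (σ * τ) = c σ * c τ ∧ f (σ * τ) i = f σ (f τ i) := by
    intro σ τ i
    apply Y_inj hq hinj hne
    rw [← hcf, AlgEquiv.mul_apply, hcf τ, map_Y hq (hcf σ)]
  have hone : ∀ i, c 1 = 1 ∧ f 1 i = i := by
    intro i
    apply Y_inj hq hinj hne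
    rw [← hcf, Y_one]
    rfl
  let i0 : Fin m := ⟨0, hm⟩
  let χ : Gq →* ℤˣ :=
    { toFun := c
      map_one' := (hone i0).1
      map_mul' := fun σ τ => (hmul σ τ i0).1 }
  let π : Gq →* Equiv.Perm (Fin m) :=
    { toFun := fun σ =>
        { toFun := f σ
          invFun := f σ⁻¹
          left_inv := fun i => by
            rw [← (hmul σ⁻¹ σ i).2, inv_mul_cancel, (hone i).2]
          right_inv := fun i => by
            rw [← (hmul σ σ⁻¹ i).2, mul_inv_cancel, (hone i).2] }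
      map_one' := by
        ext i
        exact congrArg Fin.val (hone i).2
      map_mul' := fun σ τ => by
        ext i
        exact congrArg Fin.val (hmul σ τ i).2 }
  refine ⟨χ, π, hinj, hne, hom, fun σ h1 i => ?_, fun σ h1 i => ?_⟩
  · have h2 : c σ = 1 := h1
    rw [hcf, h2, Y_one]
    rfl
  · have h2 : c σ = -1 := h1
    rw [hcf, h2, Y_neg]
    rfl

end

end Pool.Agent.TJ5
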