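import Pool.Agent.TJ5.St
import Pool.Agent.TJ2.STAB

/-!
# Project TJ5: the same character means a common imaginary quadratic field
-/

open Polynomial IntermediateField

namespace Pool.Agent.TJ5

open Pool.Agent.TJ2 Pool.Agent.TJ3 Pool.Agent.TJ4

noncomputable section

namespace IQX5_aux

/-- An algebraic number fixed by all automorphisms is rational. -/
theorem rat (b : Qb) (hb : ∀ σ : Gq, σ b = b) : ∃ r : ℚ, (r : Qb) = b := by
  have h1 := t_STAB 0 b fun σ _ => hb σ
  rw [IntermediateField.adjoin_zero] at h1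
  obtain ⟨r, hr⟩ := IntermediateField.mem_bot.1 h1
  exact ⟨r, by rw [← hr, eq_ratCast]⟩

/-- the antisymmetric power sums -/
def th (q : ℕ) {m : ℕ} (x : Fin m → Qb) (k : ℕ) : Qb := ∑ i, (x i ^ k - ((q : Qb) / x i) ^ k)

theorem x_ne {q m : ℕ} {x : Fin m → Qb} (hne : ∀ i j, x i ≠ (q : Qb) / x j) (i : Fin m) :
    x i ≠ 0 := fun h => hne i i (by rw [h, div_zero])

theorem q_ne {q : ℕ} (hq : 1 ≤ q) : (q : Qb) ≠ 0 := by
  exact_mod_cast (Nat.one_le_iff_ne_zero.1 hq)

theorem th_pos {q m : ℕ} {h : ℤ[X]} {χ : Gq →* ℤˣ} {π : Gq →* Equiv.Perm (Fin m)}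
    {x : Fin m → Qb} (hI : IQT q m h χ π x) (k : ℕ) (σ : Gq) (hσ : χ σ = 1) :
    σ (th q x k) = th q x k := by
  unfold th
  rw [map_sum, ← Equiv.sum_comp (π σ) fun i => x i ^ k - ((q : Qb) / x i) ^ k]
  refine Finset.sum_congr rfl fun i _ => ?_
  rw [map_sub, map_pow, map_pow, map_div₀, map_natCast, hI.pos σ hσ]

theorem th_neg {q m : ℕ} (hq : 1 ≤ q) {h : ℤ[X]} {χ : Gq →* ℤˣ} {π : Gq →* Equiv.Perm (Fin m)}
    {x : Fin m → Qb} (hI : IQT q m h χ π x) (k : ℕ) (σ : Gq) (hσ : χ σ = -1) :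
    σ (th q x k) = - th q x k := by
  unfold th
  rw [map_sum, ← Equiv.sum_comp (π σ) fun i => x i ^ k - ((q : Qb) / x i) ^ k,
    ← Finset.sum_neg_distrib]
  refine Finset.sum_congr rfl fun i _ => ?_
  rw [map_sub, map_pow, map_pow, map_div₀, map_natCast, hI.neg σ hσ, div_div_cancel₀ (q_ne hq),
    neg_sub]

theorem th_ne {q m : ℕ} (hq : 1 ≤ q) (hm : 1 ≤ m) {x : Fin m → Qb} (hinj : Function.Injective x)
    (hne : ∀ i j, x i ≠ (q : Qb) / x j) : ∃ k : ℕ, th q x k ≠ 0 := by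
  by_contra hcon
  push Not at hcon
  set f : Fin (m + m) → Qb := Fin.append x fun i => (q : Qb) / x i with hf
  set v : Fin (m + m) → Qb := Fin.append (fun _ => (1 : Qb)) fun _ => (-1 : Qb) with hv
  have hfl : ∀ i : Fin m, f (Fin.castAdd m i) = x i := fun i => Fin.append_left _ _ _
  have hfr : ∀ i : Fin m, f (Fin.natAdd m i) = (q : Qb) / x i := fun i => Fin.append_right _ _ _
  have hvl : ∀ i : Fin m, v (Fin.castAdd m i) = 1 := fun i => Fin.append_left _ _ _
  have hvr : ∀ i : Fin m, v (Fin.natAdd m i) = -1 := fun i => Fin.append_right _ _ _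
  have hfinj : Function.Injective f := by
    intro a b hab
    induction a using Fin.addCases with
    | left i =>
      induction b using Fin.addCases with
      | left j =>
        rw [hfl, hfl] at hab
        rw [hinj hab]
      | right j =>
        rw [hfl, hfr] at hab
        exact absurd hab (hne _ _)
    | right i =>
      induction b using Fin.addCases with
      | left j =>
        rw [hfr, hfl] at hab
        exact absurd hab.symm (hne _ _)
      | right j =>
        rw [hfr, hfr] at hab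
        have h1 := congrArg (fun z => (q : Qb) / z) hab
        simp only [div_div_cancel₀ (q_ne hq)] at h1
        rw [hinj h1]
  have h0 : v = 0 := by
    refine Matrix.eq_zero_of_forall_pow_sum_mul_pow_eq_zero hfinj fun k => ?_
    rw [Fin.sum_univ_add]
    simp only [hfl, hfr, hvl, hvr, one_mul, neg_mul]
    have h1 := hcon k
    unfold th at h1
    rw [Finset.sum_sub_distrib] at h1
    rw [Finset.sum_neg_distrib]
    linear_combination h1
  have h1 := congrFun h0 (Fin.castAdd m ⟨0, hm⟩)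
  rw [hvl] at h1
  exact one_ne_zero h1

/-- an automorphism fixing a root has trivial character -/
theorem chi_one {q m : ℕ} (hq : 1 ≤ q) {h : ℤ[X]} {χ : Gq →* ℤˣ} {π : Gq →* Equiv.Perm (Fin m)}
    {x : Fin m → Qb} (hI : IQT q m h χ π x) {a : Qb} (ha : a ∈ Om q h) (σ : Gq) (hσ : σ a = a) :
    χ σ = 1 := by
  rcases Int.units_eq_one_or (χ σ) with h1 | h1
  · exact h1
  · exfalso
    obtain ⟨i, hi⟩ := (hI.om a).1 ha
    have hx : σ (x i) = x i := by
      rcases hi with hi | hi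
      · rw [← hi, hσ]
      · have h2 : x i = (q : Qb) / a := by rw [hi, div_div_cancel₀ (q_ne hq)]
        rw [h2, map_div₀, map_natCast, hσ]
    rw [hI.neg σ h1] at hx
    exact hI.ne _ _ hx.symm

end IQX5_aux

open IQX5_aux in
theorem t_IQX5 (hCCJ5 : S_CCJ5) : S_IQX5 := by
  intro q m m' h h' χ π x π' x' hq hh hh' hm hm' hI hI' a ha a' ha'
  have hq1 : 1 ≤ q := hq.pos
  obtain ⟨κ, hκ, -, hκ3⟩ := hCCJ5
  obtain ⟨k, hk⟩ := th_ne hq1 hm hI.inj hI.ne
  have hfix : ∀ σ : Gq, σ (th q x k ^ 2) = th q x k ^ 2 := by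
    intro σ
    rw [map_pow]
    rcases Int.units_eq_one_or (χ σ) with h1 | h1
    · rw [th_pos hI k σ h1]
    · rw [th_neg hq1 hI k σ h1, neg_sq]
  obtain ⟨r, hr⟩ := rat _ hfix
  have hχκ : χ κ = -1 := by
    rcases Int.units_eq_one_or (χ κ) with h1 | h1
    · exfalso
      have h2 : κ (x ⟨0, hm⟩) = (q : Qb) / x ⟨0, hm⟩ :=
        hκ _ q h hq1 hh.2.1 _ ((hI.om _).2 ⟨_, Or.inl rfl⟩)
      rw [hI.pos κ h1] at h2
      exact hI.ne _ _ h2
    · exact h1
  have hκθ : κ (th q x k) = - th q x k := th_neg hq1 hI k κ hχκ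
  refine ⟨th q x k, r, hκ3 _ r hk hκθ hr.symm, hr.symm, ?_, ?_⟩
  · exact t_STAB a _ fun σ hσ => th_pos hI k σ (chi_one hq1 hI ha σ hσ)
  · exact t_STAB a' _ fun σ hσ => th_pos hI k σ (chi_one hq1 hI' ha' σ hσ)

end

end Pool.Agent.TJ5
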