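import Pool.Agent.TJ5.St

open Polynomial IntermediateField

namespace Pool.Agent.TJ5

open Pool.Agent.TJ2 Pool.Agent.TJ3 Pool.Agent.TJ4

namespace KEV5_aux

/-- an odd relation -/
def OR (q : ℕ) (v : AbsoluteValue Qb ℝ) {n : ℕ} (A : Fin n → Finset Qb)
    (w : Fin n → Qb → ℤ) : Prop :=
  (∀ σ : Gq, ∑ i, ∑ x ∈ A i, (w i x : ℝ) * slp q v x σ = 0) ∧
    ∀ i, ∀ x ∈ A i, w i ((q : Qb) / x) = - w i x

/-- flips and at least 4 roots -/
def tF (q : ℕ) (h : ℤ[X]) : Prop := h ∈ FL q ∧ 4 ≤ (Om q h).ncard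

/-- ordinary cyclic quartic -/
def tC (q : ℕ) (h : ℤ[X]) : Prop := h ∈ GD q ∧ h ∈ Ord h.natDegree q ∧ CY q h

/-- with an imaginary quadratic field -/
def tI (q : ℕ) (v : AbsoluteValue Qb ℝ) (h : ℤ[X]) : Prop :=
  (∃ c : ℝ, ∀ a ∈ Om q h, ∀ σ : Gq,
    slp q v a σ = c ∨ slp q v a σ = 0 ∨ slp q v a σ = -c) ∧
  ((∃ (χ : Gq →* ℤˣ) (π : Gq →* Equiv.Perm (Fin 1)) (x : Fin 1 → Qb), IQT q 1 h χ π x) ∨
    ∃ (χ : Gq →* ℤˣ) (π : Gq →* Equiv.Perm (Fin 3)) (x : Fin 3 → Qb), IQT q 3 h χ π x)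

/-- the trichotomy -/
lemma types (hTYP1 : S_TYP1) (hTYP2 : S_TYP2) (hTYP3 : S_TYP3) {q : ℕ}
    {v : AbsoluteValue Qb ℝ} (hq : IsPrimePow q) (hv : Ab q v) {h : ℤ[X]} (hh : h ∈ CL q v) :
    tF q h ∨ tC q h ∨ tI q v h := by
  rcases hh with hh | ⟨hGD, hh⟩
  · exact Or.inl hh
  · rcases hh with ⟨h4, hO⟩ | ⟨h26, hc⟩
    · rcases hTYP2 q v h hq hv hGD hO h4 with hF | hCY
      · exact Or.inl ⟨hF, by omega⟩
      · exact Or.inr (Or.inl ⟨hGD, hO, hCY⟩)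
    · rcases h26 with h2 | h6
      · exact Or.inr (Or.inr ⟨hc, Or.inl (hTYP1 q h hq hGD h2)⟩)
      · rcases hTYP3 q h hq hGD h6 with hF | hI
        · exact Or.inl ⟨hF, by omega⟩
        · exact Or.inr (Or.inr ⟨hc, Or.inr hI⟩)

/-- the odd part of a relation is an odd relation -/
lemma odd_part (hSLP : S_SLP) {q : ℕ} {v : AbsoluteValue Qb ℝ} (hq : IsPrimePow q)
    (hv : Ab q v) {n : ℕ} (A : Fin n → Finset Qb) (m : Fin n → Qb → ℤ)
    (h0 : ∀ i, ∀ a ∈ A i, a ≠ 0) (hst : ∀ i, ∀ a ∈ A i, (q : Qb) / a ∈ A i)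
    (hrel : ∀ σ : Gq, ∑ i, ∑ a ∈ A i, (m i a : ℝ) * slp q v a σ = 0) :
    OR q v A (fun i a => m i a - m i ((q : Qb) / a)) := by
  have hq0 : (q : Qb) ≠ 0 := by exact_mod_cast hq.pos.ne'
  have hinv : ∀ a : Qb, a ≠ 0 → (q : Qb) / ((q : Qb) / a) = a := by
    intro a ha
    field_simp
  obtain ⟨-, -, -, hneg, -⟩ := hSLP q v hq hv
  refine ⟨fun σ => ?_, fun i x hx => ?_⟩
  · have key : ∀ i, ∑ a ∈ A i, (m i ((q : Qb) / a) : ℝ) * slp q v a σ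
        = - ∑ a ∈ A i, (m i a : ℝ) * slp q v a σ := by
      intro i
      rw [← Finset.sum_neg_distrib]
      refine Finset.sum_bij' (fun a _ => (q : Qb) / a) (fun a _ => (q : Qb) / a)
        (fun a ha => hst i a ha) (fun a ha => hst i a ha)
        (fun a ha => hinv a (h0 i a ha)) (fun a ha => hinv a (h0 i a ha)) ?_
      intro a ha
      rw [hneg a (h0 i a ha) σ]
      ring
    have h1 : ∀ i, ∑ a ∈ A i, ((m i a - m i ((q : Qb) / a) : ℤ) : ℝ) * slp q v a σ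
        = 2 * ∑ a ∈ A i, (m i a : ℝ) * slp q v a σ := by
      intro i
      have h2 : ∑ a ∈ A i, ((m i a - m i ((q : Qb) / a) : ℤ) : ℝ) * slp q v a σ
          = ∑ a ∈ A i, (m i a : ℝ) * slp q v a σ
            - ∑ a ∈ A i, (m i ((q : Qb) / a) : ℝ) * slp q v a σ := by
        rw [← Finset.sum_sub_distrib]
        refine Finset.sum_congr rfl fun a _ => ?_
        push_cast
        ring
      rw [h2, key i]
      ring
    rw [Finset.sum_congr rfl fun i _ => h1 i, ← Finset.mul_sum, hrel σ, mul_zero]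
  · show m i ((q : Qb) / x) - m i ((q : Qb) / ((q : Qb) / x)) = -(m i x - m i ((q : Qb) / x))
    rw [hinv x (h0 i x hx)]
    ring

section main

variable {q : ℕ} {v : AbsoluteValue Qb ℝ} {n : ℕ} {h : Fin n → ℤ[X]} {A : Fin n → Finset Qb}

/-- step 1 -/
lemma step1 (hIND44 : S_IND44) (hSEP5 : S_SEP5) (hNLF5 : S_NLF5) (hABL5 : S_ABL5)
    (hq : IsPrimePow q) (hv : Ab q v) (S : Set ℤ[X]) (hK : Kr q v S) (hS : ∀ i, h i ∈ S)
    (hnis : ∀ i j, i ≠ j → ¬ GIso q (h i) (h j)) (hGD : ∀ i, h i ∈ GD q)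
    (hty : ∀ i, tF q (h i) ∨ tC q (h i) ∨ tI q v (h i))
    (hA : ∀ i, (A i : Set Qb) = Om q (h i)) (w : Fin n → Qb → ℤ) (hw : OR q v A w)
    (j : Fin n) (hj : tF q (h j)) : ∀ a ∈ A j, w j a = 0 := by
  classical
  intro a ha
  by_contra hne
  have haO : a ∈ Om q (h j) := by rw [← hA j]; exact ha
  obtain ⟨w', hrel, hodd, hw'a, hel⟩ := hSEP5 q v hq hv n h A w hGD hA hw.1 hw.2 j a ha hne
  have hvan : ∀ k, ¬ tF q (h k) → ∀ x ∈ A k, w' k x = 0 := by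
    intro k hk
    refine hel k fun x hx => ?_
    have hxO : x ∈ Om q (h k) := by rw [← hA k]; exact hx
    have hcomm : ∀ s t : Gq, ∀ y ∈ Om q (h k), ((s * t * s⁻¹ * t⁻¹) ^ 3) y = y := by
      rcases hty k with hF | hC | hI
      · exact absurd hF hk
      · exact hABL5.2 q (h k) hq.one_lt.le hC.2.2
      · rcases hI.2 with ⟨χ, π, x, hx⟩ | ⟨χ, π, x, hx⟩
        · exact (hABL5.1 q 1 (h k) χ π x hq.one_lt.le (Or.inl rfl) hx).1
        · exact (hABL5.1 q 3 (h k) χ π x hq.one_lt.le (Or.inr rfl) hx).1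
    obtain ⟨σ, h1, h2⟩ := hNLF5 q (h j) (h k) hq hj.1 hj.2 hcomm a haO x hxO
    exact ⟨σ, Or.inr ⟨h1, h2⟩⟩
  -- the members of type (F)
  let F : Finset (Fin n) := Finset.univ.filter fun i => tF q (h i)
  have hF : ∀ i, i ∈ F ↔ tF q (h i) := fun i => by simp [F]
  let e : Fin F.card ≃ F := F.equivFin.symm
  have hjF : j ∈ F := (hF j).2 hj
  have hsum : ∀ σ : Gq, ∑ i : Fin F.card, ∑ x ∈ A (e i), (w' (e i) x : ℝ) * slp q v x σ = 0 := by
    intro σ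
    have h1 : ∑ i : Fin F.card, ∑ x ∈ A (e i), (w' (e i) x : ℝ) * slp q v x σ
        = ∑ i : F, ∑ x ∈ A i, (w' i x : ℝ) * slp q v x σ :=
      Equiv.sum_comp e (fun i : F => ∑ x ∈ A i, (w' i x : ℝ) * slp q v x σ)
    have h2 : ∑ i : F, ∑ x ∈ A i, (w' i x : ℝ) * slp q v x σ
        = ∑ i ∈ F, ∑ x ∈ A i, (w' i x : ℝ) * slp q v x σ :=
      Finset.sum_coe_sort F (fun i => ∑ x ∈ A i, (w' i x : ℝ) * slp q v x σ)
    rw [h1, h2, ← hrel σ]
    refine Finset.sum_subset (Finset.subset_univ F) fun k _ hk => ?_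
    refine Finset.sum_eq_zero fun x hx => ?_
    rw [hvan k (fun hk' => hk ((hF k).2 hk')) x hx]
    simp
  have hfin := hIND44 q v (S ∩ FL q) hq hv Set.inter_subset_right hK.flips F.card
    (fun i => h (e i)) (fun i => A (e i)) (fun i => w' (e i))
    (fun i => ⟨hS _, ((hF _).1 (e i).2).1⟩)
    (fun i i' hii => hnis _ _ fun hc => hii (e.injective (Subtype.ext hc)))
    (fun i => hA _) hsum (e.symm ⟨j, hjF⟩)
  simp only [Equiv.apply_symm_apply] at hfin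
  have h3 := hfin a ha
  rw [hodd j a ha] at h3
  exact hw'a (by omega)

/-- step 2 -/
lemma step2 (hSEP5 : S_SEP5) (hABL5 : S_ABL5) (hCYA5 : S_CYA5) (hCYB5 : S_CYB5)
    (hCYC5 : S_CYC5) (hq : IsPrimePow q) (hv : Ab q v)
    (hnis : ∀ i j, i ≠ j → ¬ GIso q (h i) (h j)) (hGD : ∀ i, h i ∈ GD q)
    (hty : ∀ i, tF q (h i) ∨ tC q (h i) ∨ tI q v (h i))
    (hA : ∀ i, (A i : Set Qb) = Om q (h i))
    (hst1 : ∀ w : Fin n → Qb → ℤ, OR q v A w → ∀ j, tF q (h j) → ∀ a ∈ A j, w j a = 0)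
    (w : Fin n → Qb → ℤ) (hw : OR q v A w)
    (j : Fin n) (hj : tC q (h j)) : ∀ a ∈ A j, w j a = 0 := by
  classical
  intro a ha
  by_contra hne
  have haO : a ∈ Om q (h j) := by rw [← hA j]; exact ha
  obtain ⟨w', hrel, hodd, hw'a, hel⟩ := hSEP5 q v hq hv n h A w hGD hA hw.1 hw.2 j a ha hne
  have hvan : ∀ k, k ≠ j → ∀ x ∈ A k, w' k x = 0 := by
    intro k hkj
    rcases hty k with hF | hC | hI
    · exact hst1 w' ⟨hrel, hodd⟩ k hF
    · refine hel k fun x hx => ?_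
      have hxO : x ∈ Om q (h k) := by rw [← hA k]; exact hx
      exact hCYB5 q v (h j) (h k) hq hv hj.1 hj.2.1 hj.2.2 hC.1 hC.2.1 hC.2.2
        (hnis j k (Ne.symm hkj)) a haO x hxO
    · refine hel k fun x hx => ?_
      have hxO : x ∈ Om q (h k) := by rw [← hA k]; exact hx
      have hsix : ∀ s : Gq, ∀ y ∈ Om q (h k), (s ^ 6) y = y := by
        rcases hI.2 with ⟨χ, π, x, hx⟩ | ⟨χ, π, x, hx⟩
        · exact (hABL5.1 q 1 (h k) χ π x hq.one_lt.le (Or.inl rfl) hx).2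
        · exact (hABL5.1 q 3 (h k) χ π x hq.one_lt.le (Or.inr rfl) hx).2
      obtain ⟨σ, h1, h2⟩ := (hCYA5 q (h j) hq hj.1 hj.2.2).2 (h k) hsix a haO x hxO
      exact ⟨σ, Or.inr ⟨h1, h2⟩⟩
  have hsum : ∀ σ : Gq, ∑ x ∈ A j, (w' j x : ℝ) * slp q v x σ = 0 := by
    intro σ
    have h1 : ∑ i, ∑ x ∈ A i, (w' i x : ℝ) * slp q v x σ
        = ∑ x ∈ A j, (w' j x : ℝ) * slp q v x σ := by
      refine Finset.sum_eq_single j (fun k _ hk => ?_) (fun hc => absurd (Finset.mem_univ j) hc)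
      refine Finset.sum_eq_zero fun x hx => ?_
      rw [hvan k hk x hx]
      simp
    rw [← h1]
    exact hrel σ
  exact hw'a (hCYC5 q v (h j) (A j) (w' j) hq hv hj.1 hj.2.1 hj.2.2 (hA j) (hodd j) hsum a ha)

end main

end KEV5_aux

open KEV5_aux in
theorem t_KEV5 (hSLP : S_SLP) (hIND44 : S_IND44) (hGIS5 : S_GIS5) (hTYP1 : S_TYP1)
    (hTYP2 : S_TYP2) (hTYP3 : S_TYP3) (hSEP5 : S_SEP5) (hNLF5 : S_NLF5) (hABL5 : S_ABL5)
    (hCYA5 : S_CYA5) (hCYB5 : S_CYB5) (hCYC5 : S_CYC5) (hTBR5 : S_TBR5) : S_KEV5 := by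
  intro q v S hq hv hS hK n h A m hmem hnis hA hrel
  obtain ⟨hFG, hbas, -⟩ := hGIS5 q hq
  have hGD : ∀ i, h i ∈ GD q := by
    intro i
    rcases hS (hmem i) with hF | hD
    · exact hFG hF.1
    · exact hD.1
  have hty : ∀ i, tF q (h i) ∨ tC q (h i) ∨ tI q v (h i) := fun i =>
    types hTYP1 hTYP2 hTYP3 hq hv (hS (hmem i))
  have hmemA : ∀ i, ∀ a : Qb, a ∈ A i ↔ a ∈ Om q (h i) := by
    intro i a
    rw [← hA i]
    exact Finset.mem_coe.symm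
  have h0 : ∀ i, ∀ a ∈ A i, a ≠ 0 := fun i a ha =>
    ((hbas (h i) (hGD i)).2.2.1 a ((hmemA i a).1 ha)).1
  have hst : ∀ i, ∀ a ∈ A i, (q : Qb) / a ∈ A i := fun i a ha =>
    (hmemA i _).2 ((hbas (h i) (hGD i)).2.2.1 a ((hmemA i a).1 ha)).2.2.1
  have hd := odd_part hSLP hq hv A m h0 hst hrel
  have hst1 : ∀ w : Fin n → Qb → ℤ, OR q v A w → ∀ j, tF q (h j) → ∀ a ∈ A j, w j a = 0 :=
    fun w hw j hj =>
      step1 hIND44 hSEP5 hNLF5 hABL5 hq hv S hK hmem hnis hGD hty hA w hw j hj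
  have hfin := hTBR5 q v hq hv n h A (fun i a => m i a - m i ((q : Qb) / a)) hGD hA hd.1 hd.2
    (fun i a ha b hb c hc N hN => hK.three (h i) (hmem i) a ha b hb c hc N hN)
    (fun i j hij a ha a' ha' => hK.quad (h i) (hmem i) (h j) (hmem j) (hnis i j hij) a ha a' ha')
    (fun i => by
      rcases hty i with hF | hC | hI
      · exact Or.inl (hst1 _ hd i hF)
      · exact Or.inl (step2 hSEP5 hABL5 hCYA5 hCYB5 hCYC5 hq hv hnis hGD hty hA hst1 _ hd i hC)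
      · exact Or.inr hI)
  intro i a ha
  have h1 : m i a - m i ((q : Qb) / a) = 0 := hfin i a ha
  omega

end Pool.Agent.TJ5
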