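import Pool.Agent.TJ5.St

/-!
# Module NEC5 (helper57): necessity of the criterion
-/

open Polynomial IntermediateField

namespace Pool.Agent.TJ5

open Pool.Agent.TJ2 Pool.Agent.TJ3 Pool.Agent.TJ4

theorem NEC5_aux.mono {q : ℕ} {S S' : Set ℤ[X]} (hS : S ⊆ S') (h : HasData q S) : HasData q S' := by
  obtain ⟨n, h, r, e, N, h1, h2⟩ := h
  exact ⟨n, h, r, e, N, fun k => ⟨hS (h1 k).1, (h1 k).2⟩, h2⟩

theorem t_NEC5 (hDAT5 : S_DAT5) (hNEQ5 : S_NEQ5) (hE14 : S_E14) : S_NEC5 := by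
  intro q v S hq hv hS hK
  by_cases hEv : Ev q v S
  · obtain ⟨h1, h2⟩ := hNEQ5 q v S hq hv hS hEv
    have h3 : ¬ Cr q v (S ∩ FL q) := fun h => hK ⟨h1, h2, h⟩
    unfold Cr at h3
    push Not at h3
    obtain ⟨n, h, B, hB, _, _, hG, hL⟩ := h3
    exact NEC5_aux.mono Set.inter_subset_left
      (hE14 q v (S ∩ FL q) hq hv Set.inter_subset_right n h B hB hG hL)
  · exact hDAT5 q v S hq hv hS hEv

end Pool.Agent.TJ5
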