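import Pool.Agent.TJ5.St
import Pool.Agent.TJ3.EIG
import Pool.Agent.TJ3.EXL
import Pool.Agent.TJ3.EXK
import Pool.Agent.TJ3.JF3
import Pool.Agent.TJ2.OMB
import Pool.Agent.TJ2.WEI
import Pool.Agent.TJ2.JD
import Pool.Agent.TJ2.JH

/-!
# NEG5: data give exotic classes
-/

open Polynomial IntermediateField

namespace Pool.Agent.TJ5

open Pool.Agent.TJ2 Pool.Agent.TJ3 Pool.Agent.TJ4

noncomputable section

namespace NEG5_aux

lemma rel {n : ℕ} (q : ℕ) (r : Fin n → Qb) (e : Fin n → ℕ) (N : ℕ) (hr : ∀ k, r k ≠ 0)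
    (h : (∏ k, r k ^ e k) ^ N = (∏ k, ((q : Qb) / r k) ^ e k) ^ N) :
    (∏ k, r k ^ (2 * e k)) ^ N = ((q : Qb) ^ (∑ k, e k)) ^ N := by
  have h1 : ∏ k, r k ^ (2 * e k) = (∏ k, r k ^ e k) * ∏ k, r k ^ e k := by
    rw [← Finset.prod_mul_distrib]
    exact Finset.prod_congr rfl fun k _ => by rw [two_mul, pow_add]
  rw [h1, mul_pow]
  nth_rewrite 2 [h]
  rw [← mul_pow, ← Finset.prod_mul_distrib]
  congr 1
  rw [← Finset.prod_pow_eq_pow_sum]
  refine Finset.prod_congr rfl fun k _ => ?_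
  rw [← mul_pow, mul_div_cancel₀ _ (hr k)]

lemma root {L : Type} [Field L] (ι : Qb →+* L) (p : ℤ[X]) (a : Qb) (h : aeval a p = 0) :
    (X - C (ι a)) ∣ p.map (Int.castRingHom L) := by
  rw [dvd_iff_isRoot, IsRoot.def, eval_map]
  rw [aeval_def, eval₂_eq_sum_range] at h
  have h1 := congrArg ι h
  rw [map_sum, map_zero] at h1
  rw [eval₂_eq_sum_range, ← h1]
  refine Finset.sum_congr rfl fun i _ => ?_
  rw [map_mul, map_pow]
  congr 1
  simp

end NEG5_aux

theorem t_NEG5 : S_NEG5 := by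
  classical
  intro q S hq hS hdat
  obtain ⟨n, h, r, e, N, hr, ⟨k₀, hk₀⟩, hN, hrel, hdist, hpart⟩ := hdat
  refine ⟨n, h, fun k => 2 * e k, fun k => (hr k).1, ?_⟩
  intro K _ _ V _ _ _ F hF hchar
  have hcz : CharZero (AlgebraicClosure K) := charZero_of_injective_algebraMap
    (algebraMap K (AlgebraicClosure K)).injective
  obtain ⟨ι⟩ := JD_emb (AlgebraicClosure K)
  have hq1 : 1 ≤ q := hq.one_lt.le
  have hWEI : S_WEI := t_WEI t_OMB
  have hmon : ∀ k, (h k).Monic := fun k => (hS (hr k).1).2.1.1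
  have hroot : ∀ k, aeval (r k) (weil q (h k)) = 0 := fun k =>
    ((hWEI q (h k) hq1 (hmon k)).2.2.1 (r k)).2 (hr k).2
  have hr0 : ∀ k, r k ≠ 0 := fun k => (hr k).2.1
  have hdist' : ∀ k k', k ≠ k' → ∀ M : ℕ, 1 ≤ M → ι (r k) ^ M ≠ ι (r k') ^ M := by
    intro k k' hk M hM h1
    rw [← map_pow, ← map_pow] at h1
    exact hdist k k' hk M hM (ι.injective h1)
  have hF' := JH_semisimple (L := AlgebraicClosure K) F hF
  obtain ⟨v, hv1, hv2⟩ := t_EIG (AlgebraicClosure K) (TensorProduct K (AlgebraicClosure K) V)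
    (LinearMap.baseChange (AlgebraicClosure K) F) hF' n (fun k => ι (r k)) (fun k => 2 * e k)
    (by
      intro k k' hk
      by_contra h1
      refine hdist' k k' h1 1 le_rfl ?_
      rw [pow_one, pow_one]
      exact hk)
    (by
      intro k
      rw [LinearMap.charpoly_baseChange]
      have h0 := Polynomial.map_dvd (algebraMap K (AlgebraicClosure K)) hchar
      rw [Polynomial.map_prod] at h0
      refine dvd_trans (dvd_trans ?_ (Finset.dvd_prod_of_mem _ (Finset.mem_univ k))) h0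
      rw [Polynomial.map_pow, Polynomial.map_map]
      have h2 : (algebraMap K (AlgebraicClosure K)).comp (Int.castRingHom K) =
          Int.castRingHom (AlgebraicClosure K) := RingHom.ext_int _ _
      rw [h2]
      exact pow_dvd_pow_of_dvd (NEG5_aux.root ι _ _ (hroot k)) _)
  have e1 : algebraMap K (AlgebraicClosure K) (q : K) = (q : AlgebraicClosure K) :=
    map_natCast _ q
  have hq0 : (q : AlgebraicClosure K) ≠ 0 := by exact_mod_cast (by omega : q ≠ 0)
  obtain ⟨y, hy1, hy2, hy3⟩ := t_EXL (AlgebraicClosure K) (TensorProduct K (AlgebraicClosure K) V)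
    (LinearMap.baseChange (AlgebraicClosure K) F) (q : AlgebraicClosure K) hF' hq0 n
    (fun k => ι (r k)) (fun k => 2 * e k) k₀ N (∑ k, e k) v hv1 hv2 (by omega) hN
    (by rw [Finset.mul_sum])
    (by
      have h1 := congrArg ι (NEG5_aux.rel q r e N hr0 hrel)
      rw [map_pow, map_prod, map_pow, map_pow, map_natCast] at h1
      rw [← h1]
      congr 1
      exact Finset.prod_congr rfl fun k _ => (map_pow ι _ _).symm)
    (fun k hk => hdist' k k₀ hk)
    (by
      intro k M hM h1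
      refine hpart k k₀ M hM (ι.injective ?_)
      rw [map_pow, map_mul, map_pow, map_natCast]
      exact h1)
  obtain ⟨x, hx1, hx2, hx3⟩ := t_EXK t_JF3 K (AlgebraicClosure K) V F (q : K) (∑ k, e k) N
    ⟨y, hy1, by rw [e1]; exact hy2, by rw [e1]; exact hy3⟩
  exact ⟨∑ k, e k, N, x, hN, hx1, hx2, hx3⟩

end

end Pool.Agent.TJ5
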