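import Pool.Agent.TJ5.St

/-!
# TJ5: module NEQ5
-/

open Polynomial IntermediateField

namespace Pool.Agent.TJ5

open Pool.Agent.TJ2 Pool.Agent.TJ3 Pool.Agent.TJ4

noncomputable section

namespace NEQ5_aux

/-- an automorphism which fixes `a` fixes `ℚ(a)` -/
lemma fix {a θ : Qb} (hθ : θ ∈ ℚ⟮a⟯) {ρ : Gq} (h : ρ a = a) : ρ θ = θ := by
  induction hθ using IntermediateField.adjoin_induction with
  | mem x hx =>
    rw [Set.mem_singleton_iff] at hx
    rw [hx, h]
  | algebraMap x => exact ρ.commutes x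
  | add x y _ _ hx hy => rw [map_add, hx, hy]
  | inv x _ hx => rw [map_inv₀, hx]
  | mul x y _ _ hx hy => rw [map_mul, hx, hy]

lemma eq_of_eq {a θ : Qb} (hθ : θ ∈ ℚ⟮a⟯) {σ τ : Gq} (h : σ a = τ a) : σ θ = τ θ := by
  have h1 : (τ⁻¹ * σ) a = a := by
    rw [AlgEquiv.mul_apply, h, ← AlgEquiv.mul_apply, inv_mul_cancel, AlgEquiv.one_apply]
  have h2 := fix hθ h1
  rw [AlgEquiv.mul_apply] at h2
  have h3 := congrArg τ h2
  rw [← AlgEquiv.mul_apply τ τ⁻¹, mul_inv_cancel, AlgEquiv.one_apply] at h3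
  exact h3

/-- the half of the roots belonging to `θ` -/
lemma half (q : ℕ) (v : AbsoluteValue Qb ℝ)
    (hneg : ∀ a : Qb, a ≠ 0 → ∀ σ : Gq, slp q v ((q : Qb) / a) σ = - slp q v a σ)
    (h : ℤ[X]) (htr : ∀ a ∈ Om q h, ∀ b ∈ Om q h, ∃ σ : Gq, σ a = b)
    (hom : ∀ a ∈ Om q h, ∀ σ : Gq, σ a ∈ Om q h) (hom0 : ∀ a ∈ Om q h, a ≠ 0)
    (A : Finset Qb) (hA : (A : Set Qb) = Om q h) {a θ : Qb} (ha : a ∈ Om q h) (hθ0 : θ ≠ 0)
    (hθ : θ ∈ ℚ⟮a⟯) (hpm : ∀ σ : Gq, σ θ = θ ∨ σ θ = -θ) (κ : Gq)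
    (hκ : ∀ x ∈ Om q h, κ x = (q : Qb) / x) (hκθ : κ θ = -θ) :
    ∃ E : Finset Qb, E ⊆ A ∧ a ∈ E ∧ (q : Qb) / a ∉ E ∧ ∀ σ : Gq,
      (σ θ = θ → ∑ x ∈ E, slp q v x σ = ∑ x ∈ E, slp q v x 1) ∧
      (σ θ = -θ → ∑ x ∈ E, slp q v x σ = - ∑ x ∈ E, slp q v x 1) := by
  classical
  have hne : θ ≠ -θ := by
    intro h1
    have h2 : (2 : Qb) * θ = 0 := by linear_combination h1
    rcases mul_eq_zero.1 h2 with h3 | h3
    · exact two_ne_zero h3
    · exact hθ0 h3
  have hAm : ∀ x, x ∈ A ↔ x ∈ Om q h := fun x => by rw [← Finset.mem_coe, hA]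
  obtain ⟨E, hEdef⟩ : ∃ E : Finset Qb, E = A.filter fun x => ∃ σ : Gq, σ a = x ∧ σ θ = θ :=
    ⟨_, rfl⟩
  have hE : ∀ σ : Gq, σ a ∈ E ↔ σ θ = θ := by
    intro σ
    rw [hEdef, Finset.mem_filter, hAm]
    constructor
    · rintro ⟨-, τ, h1, h2⟩
      rw [← eq_of_eq hθ h1]
      exact h2
    · intro h1
      exact ⟨hom a ha σ, σ, rfl, h1⟩
  have hEA : E ⊆ A := by
    rw [hEdef]
    exact Finset.filter_subset _ _
  have hEm : ∀ x ∈ E, ∃ σ : Gq, σ a = x ∧ σ θ = θ := by
    intro x hx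
    rw [hEdef, Finset.mem_filter] at hx
    exact hx.2
  have haE : a ∈ E := by
    have h1 := (hE 1).2 (AlgEquiv.one_apply _)
    rwa [AlgEquiv.one_apply] at h1
  refine ⟨E, hEA, haE, ?_, fun σ => ⟨fun hσ => ?_, fun hσ => ?_⟩⟩
  · intro h1
    rw [← hκ a ha, hE κ, hκθ] at h1
    exact hne h1.symm
  · -- `σ` permutes `E`
    have hmap : ∀ x ∈ E, σ x ∈ E := by
      intro x hx
      obtain ⟨τ, h1, h2⟩ := hEm x hx
      rw [← h1, ← AlgEquiv.mul_apply, hE, AlgEquiv.mul_apply, h2, hσ]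
    refine Finset.sum_nbij (fun x => σ x) hmap ?_ ?_ ?_
    · intro x _ y _ hxy
      exact σ.injective hxy
    · have h1 : Finset.image (fun x => σ x) E = E := by
        refine Finset.eq_of_subset_of_card_le ?_ ?_
        · intro y hy
          obtain ⟨x, hx, rfl⟩ := Finset.mem_image.1 hy
          exact hmap x hx
        · rw [Finset.card_image_of_injective _ σ.injective]
      intro y hy
      have h2 : y ∈ Finset.image (fun x => σ x) E := by
        rw [h1]
        exact hy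
      obtain ⟨x, hx, hxy⟩ := Finset.mem_image.1 h2
      exact ⟨x, hx, hxy⟩
    · intro x _
      have h1 := slp_comp q v x σ 1
      rw [one_mul] at h1
      exact h1
  · -- `κ σ` permutes `E`
    have hκσ : (κ * σ) θ = θ := by
      rw [AlgEquiv.mul_apply, hσ, map_neg, hκθ, neg_neg]
    have hmap : ∀ x ∈ E, (κ * σ) x ∈ E := by
      intro x hx
      obtain ⟨τ, h1, h2⟩ := hEm x hx
      rw [← h1, ← AlgEquiv.mul_apply, hE, AlgEquiv.mul_apply, h2, hκσ]
    rw [← Finset.sum_neg_distrib]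
    refine Finset.sum_nbij (fun x => (κ * σ) x) hmap ?_ ?_ ?_
    · intro x _ y _ hxy
      exact (κ * σ).injective hxy
    · have h1 : Finset.image (fun x => (κ * σ) x) E = E := by
        refine Finset.eq_of_subset_of_card_le ?_ ?_
        · intro y hy
          obtain ⟨x, hx, rfl⟩ := Finset.mem_image.1 hy
          exact hmap x hx
        · rw [Finset.card_image_of_injective _ (κ * σ).injective]
      intro y hy
      have h2 : y ∈ Finset.image (fun x => (κ * σ) x) E := by
        rw [h1]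
        exact hy
      obtain ⟨x, hx, hxy⟩ := Finset.mem_image.1 h2
      exact ⟨x, hx, hxy⟩
    · intro x hx
      have h1 := slp_comp q v x σ 1
      rw [one_mul] at h1
      have h2 : σ x ∈ Om q h := hom x ((hAm x).1 (hEA hx)) σ
      rw [h1, AlgEquiv.mul_apply, hκ _ h2, hneg _ (hom0 _ h2), neg_neg]

/-- an integer relation between two rational numbers -/
lemma rel (r r' : ℚ) : ∃ u u' : ℤ, (u ≠ 0 ∨ u' ≠ 0) ∧ (u : ℝ) * (r : ℝ) + u' * (r' : ℝ) = 0 := by
  by_cases hr : r = 0
  · exact ⟨1, 0, Or.inl one_ne_zero, by rw [hr]; simp⟩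
  · refine ⟨-r'.num * r.den, r.num * r'.den, Or.inr ?_, ?_⟩
    · exact mul_ne_zero (Rat.num_ne_zero.2 hr) (by exact_mod_cast r'.den_nz)
    · have h1 : ((-r'.num * r.den : ℤ) : ℚ) * r + ((r.num * r'.den : ℤ) : ℚ) * r' = 0 := by
        push_cast
        have h2 : (r.den : ℚ) * r = r.num := Rat.den_mul_eq_num r
        have h3 : (r'.den : ℚ) * r' = r'.num := Rat.den_mul_eq_num r'
        linear_combination (-(r'.num : ℚ)) * h2 + (r.num : ℚ) * h3
      exact_mod_cast h1

end NEQ5_aux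

open NEQ5_aux in
theorem t_NEQ5 (hSLP : S_SLP) (hVAL4 : S_VAL4) (hGIS5 : S_GIS5) (hCCJ5 : S_CCJ5)
    (hRAT5 : S_RAT5) : S_NEQ5 := by
  classical
  intro q v S hq hv hS hE
  obtain ⟨-, -, -, hneg, -⟩ := hSLP q v hq hv
  obtain ⟨-, hom, -, -, -, hsymm, -, -⟩ := hGIS5 q hq
  have hq1 : 1 ≤ q := hq.pos
  have hq0 : (q : Qb) ≠ 0 := by
    have : q ≠ 0 := by omega
    exact_mod_cast this
  refine ⟨?_, ?_⟩
  · intro h hh a ha b hb c hc N hN hrel
    obtain ⟨hfin, -, hroot, hgal⟩ := hom h (hS hh)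
    obtain ⟨A, hA⟩ : ∃ A : Finset Qb, (A : Set Qb) = Om q h := ⟨hfin.toFinset, by simp⟩
    have hAm : ∀ x, x ∈ A ↔ x ∈ Om q h := fun x => by rw [← Finset.mem_coe, hA]
    have ha0 := (hroot a ha).1
    have hb0 := (hroot b hb).1
    have hc0 := (hroot c hc).1
    have h1 : ([a, b, c].prod) ^ N = (([a, b, c].map fun a => (q : Qb) / a).prod) ^ N := by
      simp only [List.prod_cons, List.prod_nil, List.map_cons, List.map_nil, mul_one]
      have h2 : (a * (b * c)) ^ N * ((q : Qb) / a * ((q : Qb) / b * ((q : Qb) / c))) ^ N =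
          (a * (b * c)) ^ N * (a * (b * c)) ^ N := by
        rw [← mul_pow, ← mul_pow]
        have h3 : a * (b * c) * ((q : Qb) / a * ((q : Qb) / b * ((q : Qb) / c))) =
            (q : Qb) ^ 3 := by
          field_simp
        have h4 : (a * (b * c) * (a * (b * c))) ^ N = (a * b * c) ^ (2 * N) := by
          rw [pow_mul]
          congr 1
          ring
        rw [h3, h4, hrel, pow_mul]
      exact (mul_left_cancel₀ (pow_ne_zero _ (mul_ne_zero ha0 (mul_ne_zero hb0 hc0))) h2).symm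
    have h2 := hVAL4 q v hq hv [a, b, c] (by
      intro x hx
      simp only [List.mem_cons, List.not_mem_nil, or_false] at hx
      rcases hx with rfl | rfl | rfl
      · exact ha0
      · exact hb0
      · exact hc0) N hN h1
    have hsum : ∀ (f : Qb → ℝ), ∑ x ∈ A, (((if x = a then (1 : ℤ) else 0) +
        (if x = b then 1 else 0) + (if x = c then 1 else 0) : ℤ) : ℝ) * f x =
        f a + (f b + (f c + 0)) := by
      intro f
      have h3 : ∀ x, (((if x = a then (1 : ℤ) else 0) + (if x = b then 1 else 0) +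
          (if x = c then 1 else 0) : ℤ) : ℝ) * f x = (if x = a then f x else 0) +
          (if x = b then f x else 0) + (if x = c then f x else 0) := by
        intro x
        split_ifs <;> push_cast <;> ring
      rw [Finset.sum_congr rfl fun x _ => h3 x, Finset.sum_add_distrib, Finset.sum_add_distrib,
        Finset.sum_ite_eq', Finset.sum_ite_eq', Finset.sum_ite_eq', if_pos ((hAm a).2 ha),
        if_pos ((hAm b).2 hb), if_pos ((hAm c).2 hc)]
      ring
    have h3 := hE 1 (fun _ => h) (fun _ => A) (fun _ x => (if x = a then (1 : ℤ) else 0) +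
      (if x = b then 1 else 0) + (if x = c then 1 else 0)) (fun _ => hh)
      (fun i j hij => absurd (Subsingleton.elim i j) hij) (fun _ => hA) (fun σ => by
        rw [Fin.sum_univ_one, hsum]
        exact h2 σ) 0
    have h4 : ∑ x ∈ A, (((if x = a then (1 : ℤ) else 0) + (if x = b then 1 else 0) +
        (if x = c then 1 else 0) : ℤ) : ZMod 2) = 0 := by
      refine Finset.sum_involution (fun x _ => (q : Qb) / x) ?_ ?_ ?_ ?_
      · intro x hx
        rw [h3 x hx, ← two_mul]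
        have h5 : (2 : ZMod 2) = 0 := by decide
        rw [h5, zero_mul]
      · intro x hx _
        exact (hroot x ((hAm x).1 hx)).2.2.2
      · intro x hx
        exact (hAm _).2 (hroot x ((hAm x).1 hx)).2.2.1
      · intro x hx
        have h5 := (hroot x ((hAm x).1 hx)).1
        field_simp
    have h5 : ∑ x ∈ A, (((if x = a then (1 : ℤ) else 0) + (if x = b then 1 else 0) +
        (if x = c then 1 else 0) : ℤ) : ZMod 2) = 3 := by
      have h6 : ∀ x, (((if x = a then (1 : ℤ) else 0) + (if x = b then 1 else 0) +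
          (if x = c then 1 else 0) : ℤ) : ZMod 2) = (if x = a then 1 else 0) +
          (if x = b then 1 else 0) + (if x = c then 1 else 0) := by
        intro x
        split_ifs <;> push_cast <;> rfl
      rw [Finset.sum_congr rfl fun x _ => h6 x, Finset.sum_add_distrib, Finset.sum_add_distrib,
        Finset.sum_ite_eq', Finset.sum_ite_eq', Finset.sum_ite_eq', if_pos ((hAm a).2 ha),
        if_pos ((hAm b).2 hb), if_pos ((hAm c).2 hc)]
      decide
    rw [h4] at h5
    exact absurd h5 (by decide)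
  · intro h hh h' hh' hiso a ha a' ha' ⟨θ, r, hr, hθr, hθ, hθ'⟩
    obtain ⟨κ, hκ, hκθ, -⟩ := hCCJ5
    have hκθ' := hκθ θ r hr hθr
    have hθ0 : θ ≠ 0 := by
      rintro rfl
      rw [zero_pow two_ne_zero] at hθr
      have h1 : r = 0 := by exact_mod_cast hθr.symm
      exact hr.ne h1
    have hpm : ∀ σ : Gq, σ θ = θ ∨ σ θ = -θ := by
      intro σ
      have h1 : σ θ ^ 2 = θ ^ 2 := by
        rw [← map_pow, hθr]
        exact map_ratCast σ r
      exact sq_eq_sq_iff_eq_or_eq_neg.1 h1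
    obtain ⟨hfin, -, hroot, hgal⟩ := hom h (hS hh)
    obtain ⟨hfin', -, hroot', hgal'⟩ := hom h' (hS hh')
    obtain ⟨A, hA⟩ : ∃ A : Finset Qb, (A : Set Qb) = Om q h := ⟨hfin.toFinset, by simp⟩
    obtain ⟨A', hA'⟩ : ∃ A : Finset Qb, (A : Set Qb) = Om q h' := ⟨hfin'.toFinset, by simp⟩
    have hAm : ∀ x, x ∈ A ↔ x ∈ Om q h := fun x => by rw [← Finset.mem_coe, hA]
    have hAm' : ∀ x, x ∈ A' ↔ x ∈ Om q h' := fun x => by rw [← Finset.mem_coe, hA']
    obtain ⟨E, hEA, haE, hqE, hD⟩ := half q v hneg h (hS hh).2.2.1 hgal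
      (fun x hx => (hroot x hx).1) A hA ha hθ0 hθ hpm κ
      (hκ h.natDegree q h hq1 (hS hh).2.1) hκθ'
    obtain ⟨E', hEA', haE', hqE', hD'⟩ := half q v hneg h' (hS hh').2.2.1 hgal'
      (fun x hx => (hroot' x hx).1) A' hA' ha' hθ0 hθ' hpm κ
      (hκ h'.natDegree q h' hq1 (hS hh').2.1) hκθ'
    have hrat : ∀ F : Finset Qb, (∀ x ∈ F, x ≠ 0) → ∃ s : ℚ, ∑ x ∈ F, slp q v x 1 = (s : ℝ) := by
      intro F hF
      choose! f hf using fun x (hx : x ∈ F) => hRAT5 q v hq hv x (hF x hx) 1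
      refine ⟨∑ x ∈ F, f x, ?_⟩
      rw [Finset.sum_congr rfl fun x hx => hf x hx]
      push_cast
      rfl
    obtain ⟨s, hs⟩ := hrat E fun x hx => (hroot x ((hAm x).1 (hEA hx))).1
    obtain ⟨s', hs'⟩ := hrat E' fun x hx => (hroot' x ((hAm' x).1 (hEA' hx))).1
    obtain ⟨u, u', hu, huu⟩ := rel s s'
    have hsumE : ∀ (A E : Finset Qb) (u : ℤ) (σ : Gq), E ⊆ A →
        ∑ x ∈ A, ((if x ∈ E then u else 0 : ℤ) : ℝ) * slp q v x σ =
          u * ∑ x ∈ E, slp q v x σ := by
      intro A E u σ hEA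
      have h1 : ∀ x, ((if x ∈ E then u else 0 : ℤ) : ℝ) * slp q v x σ =
          if x ∈ E then (u : ℝ) * slp q v x σ else 0 := by
        intro x
        split_ifs
        · rfl
        · push_cast
          ring
      rw [Finset.sum_congr rfl fun x _ => h1 x, ← Finset.sum_filter, Finset.mul_sum]
      refine Finset.sum_congr ?_ fun _ _ => rfl
      ext x
      rw [Finset.mem_filter]
      exact ⟨fun h => h.2, fun h => ⟨hEA h, h⟩⟩
    have hEv := hE 2 ![h, h'] ![A, A'] ![fun x => if x ∈ E then u else 0,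
      fun x => if x ∈ E' then u' else 0] (by
        intro i
        fin_cases i
        · exact hh
        · exact hh') (by
        intro i j hij
        fin_cases i <;> fin_cases j
        · exact absurd rfl hij
        · exact hiso
        · exact fun h1 => hiso (hsymm _ _ h1)
        · exact absurd rfl hij) (by
        intro i
        fin_cases i
        · exact hA
        · exact hA') (fun σ => by
        rw [Fin.sum_univ_two]
        show ∑ x ∈ A, ((if x ∈ E then u else 0 : ℤ) : ℝ) * slp q v x σ +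
          ∑ x ∈ A', ((if x ∈ E' then u' else 0 : ℤ) : ℝ) * slp q v x σ = 0
        rw [hsumE A E u σ hEA, hsumE A' E' u' σ hEA']
        rcases hpm σ with h1 | h1
        · rw [(hD σ).1 h1, (hD' σ).1 h1, hs, hs', huu]
        · rw [(hD σ).2 h1, (hD' σ).2 h1, hs, hs']
          linear_combination -huu)
    have e1 : (if (q : Qb) / a ∈ E then u else 0) = (if a ∈ E then u else 0) :=
      hEv 0 a ((hAm a).2 ha)
    have e2 : (if (q : Qb) / a' ∈ E' then u' else 0) = (if a' ∈ E' then u' else 0) :=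
      hEv 1 a' ((hAm' a').2 ha')
    rw [if_neg hqE, if_pos haE] at e1
    rw [if_neg hqE', if_pos haE'] at e2
    rcases hu with hu | hu
    · exact hu e1.symm
    · exact hu e2.symm

end

end Pool.Agent.TJ5
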