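import Pool.Agent.TJ5.St

/-!
# Project TJ5, module NLF5: members with flips are not linked to members with small Galois group
-/

set_option autoImplicit false

open Polynomial IntermediateField

namespace Pool.Agent.TJ5

open Pool.Agent.TJ2 Pool.Agent.TJ3 Pool.Agent.TJ4

noncomputable section

namespace NLF5_aux

lemma stab {q : ℕ} {h : ℤ[X]} {a : Qb} (ha : a ∈ Om q h) (σ : Gq) : σ a ∈ Om q h := by
  obtain ⟨h0, h1⟩ := ha
  refine ⟨fun h2 => h0 ((map_eq_zero σ).1 h2), ?_⟩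
  have e : σ a + (q : Qb) / σ a = σ (a + (q : Qb) / a) := by
    rw [map_add, map_div₀, map_natCast]
  have e2 : aeval (σ (a + (q : Qb) / a)) h = σ (aeval (a + (q : Qb) / a) h) := by
    have := Polynomial.aeval_algHom_apply ((σ : Qb →ₐ[ℚ] Qb).restrictScalars ℤ)
      (a + (q : Qb) / a) h
    exact this
  rw [e, e2, h1, map_zero]

end NLF5_aux

open NLF5_aux in
/-- **NLF5** -/
theorem t_NLF5 : S_NLF5 := by
  intro q h h' hq hh h4 hc a ha x hx
  have hq0 : (q : Qb) ≠ 0 := by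
    have := hq.pos
    exact_mod_cast (by omega : q ≠ 0)
  have ha0 : a ≠ 0 := ha.1
  -- a third root
  obtain ⟨z, hz, hz1, hz2⟩ : ∃ z ∈ Om q h, z ≠ a ∧ z ≠ (q : Qb) / a := by
    by_contra hcon
    push Not at hcon
    have hsub : Om q h ⊆ ({a, (q : Qb) / a} : Set Qb) := by
      intro z hz
      by_cases hza : z = a
      · exact Or.inl hza
      · exact Or.inr (hcon z hz hza)
    have h1 := Set.ncard_le_ncard hsub (Set.toFinite _)
    have h2 := Set.ncard_insert_le a ({(q : Qb) / a} : Set Qb)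
    rw [Set.ncard_singleton] at h2
    omega
  obtain ⟨t, ht⟩ := hh.2.2.1 a ha z hz
  obtain ⟨s, hs, hs'⟩ := hh.2.2.2.1 a ha
  have hta : t (t⁻¹ a) = a := by
    rw [← AlgEquiv.mul_apply, mul_inv_cancel, AlgEquiv.one_apply]
  have hss : ∀ y, s (s⁻¹ y) = y := fun y => by
    rw [← AlgEquiv.mul_apply, mul_inv_cancel, AlgEquiv.one_apply]
  have hss' : ∀ y, s⁻¹ (s y) = y := fun y => by
    rw [← AlgEquiv.mul_apply, inv_mul_cancel, AlgEquiv.one_apply]
  have hb : t⁻¹ a ∈ Om q h := stab ha _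
  have hb1 : t⁻¹ a ≠ a := by
    intro e
    rw [e, ht] at hta
    exact hz1 hta
  have hb2 : t⁻¹ a ≠ (q : Qb) / a := by
    intro e
    rw [e, map_div₀, map_natCast, ht] at hta
    apply hz2
    have hz0 : z ≠ 0 := hz.1
    rw [div_eq_iff hz0] at hta
    rw [eq_div_iff ha0, hta]
    ring
  have hsb : s (t⁻¹ a) = t⁻¹ a := hs' _ hb hb1 hb2
  have hsb' : s⁻¹ (t⁻¹ a) = t⁻¹ a := by
    conv_lhs => rw [← hsb]
    exact hss' _
  set c : Gq := s * t * s⁻¹ * t⁻¹ with hcdef
  have hca : c a = (q : Qb) / a := by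
    rw [hcdef, AlgEquiv.mul_apply, AlgEquiv.mul_apply, AlgEquiv.mul_apply, hsb', hta, hs]
  have hcb : c ((q : Qb) / a) = a := by
    rw [map_div₀, map_natCast, hca, div_div_cancel₀ hq0]
  refine ⟨c ^ 3, ?_, hc s t x hx⟩
  rw [pow_succ, pow_succ, pow_one, AlgEquiv.mul_apply, AlgEquiv.mul_apply, hca, hcb, hca]

end

end Pool.Agent.TJ5
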