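import Pool.Agent.TJ5.St
import Pool.Agent.TJ3.GAL

/-!
# PAI5: a root and a pair of roots generating the same field (helper34)
-/

set_option autoImplicit false

open Polynomial IntermediateField

namespace Pool.Agent.TJ5

open Pool.Agent.TJ2 Pool.Agent.TJ3 Pool.Agent.TJ4

namespace PAI5_aux

lemma sdiv (q : ℕ) (σ : Gq) (x : Qb) : σ ((q : Qb) / x) = (q : Qb) / σ x := by
  rw [map_div₀, map_natCast]

lemma ddiv {q : ℕ} (hq : (q : Qb) ≠ 0) {x : Qb} (hx : x ≠ 0) : (q : Qb) / ((q : Qb) / x) = x := by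
  field_simp

lemma div_inj {q : ℕ} (hq : (q : Qb) ≠ 0) {x y : Qb} (hx : x ≠ 0) (hy : y ≠ 0)
    (h : (q : Qb) / x = (q : Qb) / y) : x = y := by
  rw [← ddiv hq hx, h, ddiv hq hy]

/-- an automorphism fixes the sum and the product of a pair iff it fixes the pair -/
lemma fix_pair (σ : Gq) (b b' : Qb) :
    (∀ x ∈ ({b + b', b * b'} : Set Qb), σ x = x) ↔ s(σ b, σ b') = s(b, b') := by
  constructor
  · intro h
    have h1 : σ b + σ b' = b + b' := by
      rw [← map_add]; exact h _ (by simp)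
    have h2 : σ b * σ b' = b * b' := by
      rw [← map_mul]; exact h _ (by simp)
    have h3 : (σ b - b) * (σ b - b') = 0 := by
      have : (σ b - b) * (σ b - b') = σ b * σ b - σ b * (b + b') + b * b' := by ring
      rw [this, ← h1, ← h2]; ring
    rw [Sym2.eq_iff]
    rcases mul_eq_zero.1 h3 with h4 | h4
    · left
      have h5 : σ b = b := sub_eq_zero.1 h4
      refine ⟨h5, ?_⟩
      rw [h5] at h1
      exact add_left_cancel h1
    · right
      have h5 : σ b = b' := sub_eq_zero.1 h4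
      refine ⟨h5, ?_⟩
      rw [h5, add_comm b b'] at h1
      exact add_left_cancel h1
  · intro h x hx
    rw [Sym2.eq_iff] at h
    rcases hx with rfl | hx
    · rcases h with ⟨h1, h2⟩ | ⟨h1, h2⟩
      · rw [map_add, h1, h2]
      · rw [map_add, h1, h2, add_comm]
    · rw [Set.mem_singleton_iff] at hx
      subst hx
      rcases h with ⟨h1, h2⟩ | ⟨h1, h2⟩
      · rw [map_mul, h1, h2]
      · rw [map_mul, h1, h2, mul_comm]

open Classical in
/-- the four pairs -/
noncomputable def T (q : ℕ) (x y : Qb) : Finset (Sym2 Qb) :=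
  {s(x, y), s((q : Qb) / x, y), s(x, (q : Qb) / y), s((q : Qb) / x, (q : Qb) / y)}

lemma mem_T (q : ℕ) (x y : Qb) (p : Sym2 Qb) : p ∈ T q x y ↔ p = s(x, y) ∨
    p = s((q : Qb) / x, y) ∨ p = s(x, (q : Qb) / y) ∨ p = s((q : Qb) / x, (q : Qb) / y) := by
  unfold T
  simp only [Finset.mem_insert, Finset.mem_singleton]

open Classical in
lemma card_T (q : ℕ) (x y : Qb) (h1 : x ≠ (q : Qb) / x) (h2 : y ≠ (q : Qb) / y) (h3 : x ≠ y)
    (h4 : x ≠ (q : Qb) / y) (h5 : (q : Qb) / x ≠ y) (h6 : (q : Qb) / x ≠ (q : Qb) / y) :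
    (T q x y).card = 4 := by
  unfold T
  rw [Finset.card_insert_of_notMem, Finset.card_insert_of_notMem, Finset.card_insert_of_notMem,
    Finset.card_singleton]
  · simp only [Finset.mem_singleton, Sym2.eq_iff]
    rintro (⟨e1, e2⟩ | ⟨e1, e2⟩)
    · exact h1 e1
    · exact h4 e1
  · simp only [Finset.mem_insert, Finset.mem_singleton, Sym2.eq_iff]
    rintro ((⟨e1, e2⟩ | ⟨e1, e2⟩) | (⟨e1, e2⟩ | ⟨e1, e2⟩))
    · exact h2 e2
    · exact h6 e1
    · exact h2 e2
    · exact h6 e1
  · simp only [Finset.mem_insert, Finset.mem_singleton, Sym2.eq_iff]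
    rintro ((⟨e1, e2⟩ | ⟨e1, e2⟩) | (⟨e1, e2⟩ | ⟨e1, e2⟩) | (⟨e1, e2⟩ | ⟨e1, e2⟩))
    · exact h1 e1
    · exact h3 e1
    · exact h2 e2
    · exact h4 e1
    · exact h1 e1
    · exact h4 e1

end PAI5_aux

open PAI5_aux in
theorem t_PAI5 (hGIS4 : S_GIS4) (hCCJ5 : S_CCJ5) : S_PAI5 := by
  classical
  intro q h h' a B hq hh hh' ha hRS hB hcard hFd
  obtain ⟨_, hG, _⟩ := hGIS4 q hq
  obtain ⟨hfin, _, hel, hst⟩ := hG h hh
  obtain ⟨hfin', _, hel', hst'⟩ := hG h' hh'
  obtain ⟨_, _, htr, _, _⟩ := hh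
  obtain ⟨_, _, htr', hfl', _⟩ := hh'
  have hq0 : (q : Qb) ≠ 0 := by
    have := hq.pos
    exact_mod_cast this.ne'
  obtain ⟨b, b', hbb, rfl⟩ := Finset.card_eq_two.1 hB
  obtain ⟨hRS1, _⟩ := hRS
  obtain ⟨hb, hbq⟩ := hRS1 b (by simp)
  obtain ⟨hb', hbq'⟩ := hRS1 b' (by simp)
  simp only [Finset.mem_insert, Finset.mem_singleton, not_or] at hbq hbq'
  have hb0 : b ≠ 0 := (hel' b hb).1
  have hb0' : b' ≠ 0 := (hel' b' hb').1
  -- (H)
  have H1 : ∀ σ : Gq, σ a = a ↔ s(σ b, σ b') = s(b, b') := by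
    intro σ
    have hgal := t_GAL {∑ x ∈ ({a} : Finset Qb), x, ∏ x ∈ ({a} : Finset Qb), x}
      {∑ x ∈ ({b, b'} : Finset Qb), x, ∏ x ∈ ({b, b'} : Finset Qb), x}
    have h1 := (hgal.1 hFd) σ
    rw [Finset.sum_pair hbb, Finset.prod_pair hbb, fix_pair, Finset.sum_singleton,
      Finset.prod_singleton] at h1
    rw [← h1]
    simp
  have H : ∀ σ τ : Gq, σ a = τ a ↔ s(σ b, σ b') = s(τ b, τ b') := by
    intro σ τ
    have h1 := H1 (τ⁻¹ * σ)
    have e1 : ∀ x y : Qb, (τ⁻¹ * σ) x = y ↔ σ x = τ y := by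
      intro x y
      constructor
      · intro hxy
        rw [← hxy, ← AlgEquiv.mul_apply, mul_inv_cancel_left]
      · intro hxy
        rw [AlgEquiv.mul_apply, hxy, ← AlgEquiv.mul_apply, inv_mul_cancel, AlgEquiv.one_apply]
    rw [e1, Sym2.eq_iff, e1, e1, e1, e1] at h1
    rw [h1, Sym2.eq_iff]
  -- the bijection
  set S : Set (Sym2 Qb) := {p | ∃ σ : Gq, p = s(σ b, σ b')} with hS
  have hch : ∀ x : Qb, ∃ σ : Gq, x ∈ Om q h → σ a = x := by
    intro x
    by_cases hx : x ∈ Om q h
    · obtain ⟨σ, hσ⟩ := htr a ha x hx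
      exact ⟨σ, fun _ => hσ⟩
    · exact ⟨1, fun h0 => absurd h0 hx⟩
  choose c hc using hch
  have himg : (fun x => s((c x) b, (c x) b')) '' Om q h = S := by
    ext p
    constructor
    · rintro ⟨x, hx, rfl⟩
      exact ⟨c x, rfl⟩
    · rintro ⟨σ, rfl⟩
      refine ⟨σ a, hst a ha σ, ?_⟩
      have := (H (c (σ a)) σ).1 (hc (σ a) (hst a ha σ))
      exact this
  have hinj : Set.InjOn (fun x => s((c x) b, (c x) b')) (Om q h) := by
    intro x hx y hy hxy
    have := (H (c x) (c y)).2 hxy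
    rw [hc x hx, hc y hy] at this
    exact this
  have hSfin : S.Finite := by
    rw [← himg]; exact hfin.image _
  have hScard : S.ncard = (Om q h).ncard := by
    rw [← himg]; exact hinj.ncard_image
  -- flips of the images of b and b'
  have hsub : ∀ τ : Gq, ((T q (τ b) (τ b') : Finset (Sym2 Qb)) : Set (Sym2 Qb)) ⊆ S := by
    intro τ
    have hτb : τ b ∈ Om q h' := hst' b hb τ
    have hτb' : τ b' ∈ Om q h' := hst' b' hb' τ
    have ne1 : τ b' ≠ τ b := fun e => hbb (τ.injective e).symm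
    have ne2 : τ b' ≠ (q : Qb) / τ b := by
      intro e
      rw [← sdiv] at e
      exact hbq.2 (τ.injective e).symm
    have ne3 : τ b ≠ (q : Qb) / τ b' := by
      intro e
      rw [← sdiv] at e
      exact hbq'.1 (τ.injective e).symm
    obtain ⟨f, hf1, hf2⟩ := hfl' (τ b) hτb
    obtain ⟨f', hf1', hf2'⟩ := hfl' (τ b') hτb'
    have k1 : f (τ b') = τ b' := hf2 _ hτb' ne1 ne2
    have k2 : f' (τ b) = τ b := hf2' _ hτb ne1.symm ne3
    intro p hp
    rw [Finset.mem_coe, mem_T] at hp
    rcases hp with rfl | rfl | rfl | rfl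
    · exact ⟨τ, rfl⟩
    · refine ⟨f * τ, ?_⟩
      rw [AlgEquiv.mul_apply, AlgEquiv.mul_apply, hf1, k1]
    · refine ⟨f' * τ, ?_⟩
      rw [AlgEquiv.mul_apply, AlgEquiv.mul_apply, hf1', k2]
    · refine ⟨f' * (f * τ), ?_⟩
      rw [AlgEquiv.mul_apply, AlgEquiv.mul_apply, AlgEquiv.mul_apply, AlgEquiv.mul_apply, hf1, k1,
        hf1', sdiv, k2]
  have hTcard : ∀ τ : Gq, (T q (τ b) (τ b')).card = 4 := by
    intro τ
    have hτb : τ b ∈ Om q h' := hst' b hb τ
    have hτb' : τ b' ∈ Om q h' := hst' b' hb' τ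
    apply card_T
    · exact (hel' _ hτb).2.2.2.symm
    · exact (hel' _ hτb').2.2.2.symm
    · exact fun e => hbb (τ.injective e)
    · intro e
      rw [← sdiv] at e
      exact hbq'.1 (τ.injective e).symm
    · intro e
      rw [← sdiv] at e
      exact hbq.2 (τ.injective e)
    · intro e
      exact hbb (τ.injective (div_inj hq0 (hel' _ hτb).1 (hel' _ hτb').1 e))
  -- no other roots
  have hall : ∀ x ∈ Om q h', x = b ∨ x = (q : Qb) / b ∨ x = b' ∨ x = (q : Qb) / b' := by
    intro x hx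
    by_contra hcon
    push Not at hcon
    obtain ⟨n1, n2, n3, n4⟩ := hcon
    obtain ⟨τ, hτ⟩ := htr' b hb x hx
    have hx0 : x ≠ 0 := (hel' x hx).1
    have hdis : Disjoint (T q b b') (T q (τ b) (τ b')) := by
      rw [Finset.disjoint_left]
      intro p hp1 hp2
      have hmem : ∀ z : Qb, z ∈ p → z = b ∨ z = (q : Qb) / b ∨ z = b' ∨ z = (q : Qb) / b' := by
        intro z hz
        rw [mem_T] at hp1
        rcases hp1 with rfl | rfl | rfl | rfl
        all_goals
          rw [Sym2.mem_iff] at hz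
          rcases hz with rfl | rfl
          all_goals simp
      have hx2 : x ∈ p ∨ (q : Qb) / x ∈ p := by
        rw [mem_T, hτ] at hp2
        rcases hp2 with rfl | rfl | rfl | rfl
        · left; simp
        · right; simp
        · left; simp
        · right; simp
      rcases hx2 with hx2 | hx2
      · rcases hmem x hx2 with e | e | e | e
        · exact n1 e
        · exact n2 e
        · exact n3 e
        · exact n4 e
      · rcases hmem _ hx2 with e | e | e | e
        · exact n2 (by rw [← e, ddiv hq0 hx0])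
        · exact n1 (div_inj hq0 hx0 hb0 e)
        · exact n4 (by rw [← e, ddiv hq0 hx0])
        · exact n3 (div_inj hq0 hx0 hb0' e)
    have h8 : (T q b b' ∪ T q (τ b) (τ b')).card = 8 := by
      rw [Finset.card_union_of_disjoint hdis, hTcard τ]
      have := hTcard 1
      simp only [AlgEquiv.one_apply] at this
      rw [this]
    have hle : ((T q b b' ∪ T q (τ b) (τ b') : Finset (Sym2 Qb)) : Set (Sym2 Qb)).ncard ≤
        S.ncard := by
      apply Set.ncard_le_ncard _ hSfin
      rw [Finset.coe_union]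
      apply Set.union_subset
      · have := hsub 1
        simpa only [AlgEquiv.one_apply] using this
      · exact hsub τ
    rw [Set.ncard_coe_finset, h8, hScard] at hle
    omega
  have hOm' : Om q h' = {b, (q : Qb) / b, b', (q : Qb) / b'} := by
    ext x
    simp only [Set.mem_insert_iff, Set.mem_singleton_iff]
    constructor
    · exact hall x
    · rintro (rfl | rfl | rfl | rfl)
      · exact hb
      · exact (hel' _ hb).2.2.1
      · exact hb'
      · exact (hel' _ hb').2.2.1
  have hneqq : (q : Qb) / b ≠ (q : Qb) / b' := fun e => hbb (div_inj hq0 hb0 hb0' e)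
  have hcard' : (Om q h').ncard = 4 := by
    have : Om q h' = ((({b, (q : Qb) / b, b', (q : Qb) / b'} : Finset Qb)) : Set Qb) := by
      rw [hOm']; push_cast; rfl
    rw [this, Set.ncard_coe_finset, Finset.card_insert_of_notMem, Finset.card_insert_of_notMem,
      Finset.card_insert_of_notMem, Finset.card_singleton]
    · simp only [Finset.mem_singleton]
      exact (hel' _ hb').2.2.2.symm
    · simp only [Finset.mem_insert, Finset.mem_singleton, not_or]
      exact ⟨hbq.2, hneqq⟩
    · simp only [Finset.mem_insert, Finset.mem_singleton, not_or]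
      exact ⟨fun e => hbq.1 e.symm, hbb, fun e => hbq'.1 e.symm⟩
  have hST : S = ((T q b b' : Finset (Sym2 Qb)) : Set (Sym2 Qb)) := by
    apply Set.Subset.antisymm
    · rintro p ⟨σ, rfl⟩
      rw [Finset.mem_coe, mem_T]
      have m1 := hall _ (hst' b hb σ)
      have m2 := hall _ (hst' b' hb' σ)
      have ne1 : σ b ≠ σ b' := fun e => hbb (σ.injective e)
      have ne2 : (q : Qb) / σ b ≠ σ b' := by
        intro e
        rw [← sdiv] at e
        exact hbq.2 (σ.injective e)
      rcases m1 with m1 | m1 | m1 | m1 <;> rcases m2 with m2 | m2 | m2 | m2 <;>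
        rw [m1, m2] at ne1 ne2 ⊢ <;>
        first
        | exact absurd rfl ne1
        | exact absurd rfl ne2
        | exact absurd (ddiv hq0 hb0) ne2
        | exact absurd (ddiv hq0 hb0') ne2
        | exact Or.inl rfl
        | exact Or.inr (Or.inl rfl)
        | exact Or.inr (Or.inr (Or.inl rfl))
        | exact Or.inr (Or.inr (Or.inr rfl))
        | exact Or.inl Sym2.eq_swap
        | exact Or.inr (Or.inl Sym2.eq_swap)
        | exact Or.inr (Or.inr (Or.inl Sym2.eq_swap))
        | exact Or.inr (Or.inr (Or.inr Sym2.eq_swap))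
    · have := hsub 1
      simpa only [AlgEquiv.one_apply] using this
  have hcardh : (Om q h).ncard = 4 := by
    rw [← hScard, hST, Set.ncard_coe_finset]
    have := hTcard 1
    simpa only [AlgEquiv.one_apply] using this
  refine ⟨hcardh, hcard', ?_⟩
  rw [t_GAL]
  intro σ
  constructor
  · intro hσ
    have hs : ∀ τ : Gq, s(σ (τ b), σ (τ b')) = s(τ b, τ b') := by
      intro τ
      have := (H (σ * τ) τ).1 (by rw [AlgEquiv.mul_apply]; exact hσ _ (hst a ha τ))
      rw [AlgEquiv.mul_apply, AlgEquiv.mul_apply] at this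
      exact this
    obtain ⟨f', hf1', hf2'⟩ := hfl' b' hb'
    have k2 : f' b = b := hf2' b hb hbb (fun e => hbq'.1 e.symm)
    have s1 := hs 1
    have s2 := hs f'
    rw [AlgEquiv.one_apply, AlgEquiv.one_apply, Sym2.eq_iff] at s1
    rw [k2, hf1', Sym2.eq_iff] at s2
    have key : σ b = b ∧ σ b' = b' := by
      rcases s1 with s1 | s1
      · exact s1
      · rcases s2 with s2 | s2
        · exact absurd (s2.1.symm.trans s1.1) hbb
        · exact absurd (s2.1.symm.trans s1.1) hbq'.2
    intro y hy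
    rcases hall y hy with rfl | rfl | rfl | rfl
    · exact key.1
    · rw [sdiv, key.1]
    · exact key.2
    · rw [sdiv, key.2]
  · intro hσ x hx
    obtain ⟨τ, rfl⟩ := htr a ha x hx
    have : (σ * τ) a = τ a := by
      rw [H, AlgEquiv.mul_apply, AlgEquiv.mul_apply, hσ _ (hst' b hb τ), hσ _ (hst' b' hb' τ)]
    rw [AlgEquiv.mul_apply] at this
    exact this

end Pool.Agent.TJ5
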