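import Pool.Agent.TJ4.St

/-!
# Project TJ5: Tate classes on all products of abelian varieties of dimension at most 3, and of
varieties with sign changes in the Galois group (MP_3af9db_ag, architect helper65)

Extension of TJ3 and TJ4 (all modules proved).  `GD q` are the geometrically simple (isotypic)
isogeny classes: the Galois group is transitive on the roots `a` of `x ^ g h (x + q / x)`, no `a` is
supersingular, and no quotient of two different roots is a root of unity.  The class `CL q v`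
contains all `h ∈ FL q` with at least 4 roots (all sign changes in the Galois group, any dimension,
any slopes), and `D3 q v`: at most 6 roots, in particular all geometrically simple ordinary
varieties of dimension at most 3 (`O3 q`) and all not supersingular ones of dimension at
most 3 which are not in `FL q`.

THEOREM.  For `S ⊆ CL q v` all Tate classes on all products with factors from `S` and supersingular
ones are polynomials in divisor classes iff `Kr q v S`: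
* no product of three roots of a member is `√q ^ 3` up to a root of unity,
* two members which are not geometrically isogenous have no common imaginary quadratic field in
  the fields `ℚ(a)`, `ℚ(a')`,
* the criterion `Cr` of TJ4 for the members in `FL q`.
For `S ⊆ O3 q` the criterion is explicit (`Ex q S`): the second condition, no three surfaces with the
same splitting field, no four threefolds with the same field.

IDEA.  `Ev q v S`: all relations between slope vectors are even.  It is equivalent to the Lefschetz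
property for every `S ⊆ GD q` (modules IND35, PART5, POS5; DAT5, NEG5).  The main step is
`Kr → Ev` (KEV5): a relation is projected to a semi-invariant of the stabiliser of a root (PRJ5,
SEP5), which separates the members in `FL q` with at least 4 roots from the rest (NLF5), the cyclic
quartic ones (`CY`) from the rest, and the others are the ones with an imaginary quadratic field
(`IQT`), whose slope vectors are independent by a computation with the groups of order 2, 6, 12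
(TB15, TB25, TBX5).

Each statement `S_X` below is a module, with its complete proof in the doc string: file
`Pool/Agent/TJ5/X.lean`, theorem `t_X : S_X`, or `t_X : S_Y → S_Z → S_X` if the doc string says that it
uses `S_Y`, `S_Z` (take them as hypotheses, do not import the other modules of TJ5).  All files of
`Pool/Agent/TJ2`, `Pool/Agent/TJ3`, `Pool/Agent/TJ4` may be imported or adapted.
-/

open Polynomial IntermediateField

namespace Pool.Agent.TJ5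

open Pool.Agent.TJ2 Pool.Agent.TJ3 Pool.Agent.TJ4

noncomputable section

/-! ## Definitions -/

/-- the absolute Galois group of `ℚ` -/
abbrev Gq : Type := Qb ≃ₐ[ℚ] Qb

/-- The real Weil polynomials `h` (degree `≥ 1`) such that the Galois group is transitive on the roots
of `x ^ g h (x + q / x)`, which are not supersingular, and different roots differ geometrically. -/
def GD (q : ℕ) : Set ℤ[X] :=
  {h | 1 ≤ h.natDegree ∧ h ∈ RW h.natDegree q ∧
    (∀ a ∈ Om q h, ∀ b ∈ Om q h, ∃ σ : Gq, σ a = b) ∧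
    (∀ a ∈ Om q h, ∀ N : ℕ, 1 ≤ N → a ^ (2 * N) ≠ (q : Qb) ^ N) ∧
    ∀ a ∈ Om q h, ∀ b ∈ Om q h, ∀ M : ℕ, 1 ≤ M → a ^ M = b ^ M → a = b}

/-- at most 6 roots: ordinary if there are 4 roots; all slopes `c, 0, -c` if there are 2 or 6 -/
def D3 (q : ℕ) (v : AbsoluteValue Qb ℝ) : Set ℤ[X] :=
  {h | h ∈ GD q ∧ ((Om q h).ncard = 4 ∧ h ∈ Ord h.natDegree q ∨
    ((Om q h).ncard = 2 ∨ (Om q h).ncard = 6) ∧
      ∃ c : ℝ, ∀ a ∈ Om q h, ∀ σ : Gq,
        slp q v a σ = c ∨ slp q v a σ = 0 ∨ slp q v a σ = -c)}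

/-- the class of the theorem -/
def CL (q : ℕ) (v : AbsoluteValue Qb ℝ) : Set ℤ[X] :=
  {h | h ∈ FL q ∧ 4 ≤ (Om q h).ncard} ∪ D3 q v

/-- geometrically simple ordinary of dimension at most 3 -/
def O3 (q : ℕ) : Set ℤ[X] :=
  {h | h ∈ GD q ∧ h ∈ Ord h.natDegree q ∧ (Om q h).ncard = 2 * h.natDegree ∧ h.natDegree ≤ 3}

/-- `ℚ(a)` and `ℚ(a')` have a common imaginary quadratic subfield -/
def IQ (a a' : Qb) : Prop :=
  ∃ (θ : Qb) (r : ℚ), r < 0 ∧ θ ^ 2 = (r : Qb) ∧ θ ∈ ℚ⟮a⟯ ∧ θ ∈ ℚ⟮a'⟯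

/-- The criterion. -/
structure Kr (q : ℕ) (v : AbsoluteValue Qb ℝ) (S : Set ℤ[X]) : Prop where
  three : ∀ h ∈ S, ∀ a ∈ Om q h, ∀ b ∈ Om q h, ∀ c ∈ Om q h, ∀ N : ℕ, 1 ≤ N →
    (a * b * c) ^ (2 * N) ≠ (q : Qb) ^ (3 * N)
  quad : ∀ h ∈ S, ∀ h' ∈ S, ¬ GIso q h h' → ∀ a ∈ Om q h, ∀ a' ∈ Om q h', ¬ IQ a a'
  flips : Cr q v (S ∩ FL q)

/-- The explicit criterion for ordinary varieties of dimension at most 3. -/
structure Ex (q : ℕ) (S : Set ℤ[X]) : Prop where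
  quad : ∀ h ∈ S, ∀ h' ∈ S, ¬ GIso q h h' → ∀ a ∈ Om q h, ∀ a' ∈ Om q h', ¬ IQ a a'
  surf : ∀ h : Fin 3 → ℤ[X], (∀ i, h i ∈ S ∧ (h i).natDegree = 2) →
    (∀ i j, i ≠ j → ¬ GIso q (h i) (h j)) →
    ¬ ∀ i j, adjoin ℚ (Om q (h i)) = adjoin ℚ (Om q (h j))
  threef : ∀ (h : Fin 4 → ℤ[X]) (a : Fin 4 → Qb),
    (∀ i, h i ∈ S ∧ (h i).natDegree = 3 ∧ a i ∈ Om q (h i)) →
    (∀ i j, i ≠ j → ¬ GIso q (h i) (h j)) → ¬ ∀ i j, ℚ⟮a i⟯ = ℚ⟮a j⟯

/-- all relations between the slope vectors of pairwise not isogenous members are even -/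
def Ev (q : ℕ) (v : AbsoluteValue Qb ℝ) (S : Set ℤ[X]) : Prop :=
  ∀ (n : ℕ) (h : Fin n → ℤ[X]) (A : Fin n → Finset Qb) (m : Fin n → Qb → ℤ),
    (∀ i, h i ∈ S) → (∀ i j, i ≠ j → ¬ GIso q (h i) (h j)) →
    (∀ i, (A i : Set Qb) = Om q (h i)) →
    (∀ σ : Gq, ∑ i, ∑ a ∈ A i, (m i a : ℝ) * slp q v a σ = 0) →
    ∀ i, ∀ a ∈ A i, m i ((q : Qb) / a) = m i a

/-- cyclic quartic: all automorphisms act on the 4 roots like powers of one `s` -/
def CY (q : ℕ) (h : ℤ[X]) : Prop :=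
  (Om q h).ncard = 4 ∧ ∃ s : Gq, (∀ a ∈ Om q h, s (s a) = (q : Qb) / a) ∧
    ∀ σ : Gq, ∃ k : ℕ, ∀ a ∈ Om q h, σ a = (s ^ k) a

/-- The roots are `x i`, `q / x i`, `i < m`, and the automorphisms preserve the partition in the
`x i` and the `q / x i` (the field `ℚ(x i)` contains an imaginary quadratic field, with
the character `χ`). -/
structure IQT (q m : ℕ) (h : ℤ[X]) (χ : Gq →* ℤˣ) (π : Gq →* Equiv.Perm (Fin m))
    (x : Fin m → Qb) : Prop where
  inj : Function.Injective x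
  ne : ∀ i j, x i ≠ (q : Qb) / x j
  om : ∀ y, y ∈ Om q h ↔ ∃ i, y = x i ∨ y = (q : Qb) / x i
  pos : ∀ σ, χ σ = 1 → ∀ i, σ (x i) = x (π σ i)
  neg : ∀ σ, χ σ = -1 → ∀ i, σ (x i) = (q : Qb) / x (π σ i)

lemma slp_comp (q : ℕ) (v : AbsoluteValue Qb ℝ) (a : Qb) (τ σ : Gq) :
    slp q v a (σ * τ) = slp q v (τ a) σ := rfl

/-! ## Arithmetic -/

/-- GIS5.  Basic facts on `GD` and geometric isogeny.  (Adapt `TJ4/GIS4.lean`.) -/
def S_GIS5 : Prop :=
  ∀ q : ℕ, IsPrimePow q → FL q ⊆ GD q ∧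
    (∀ h ∈ GD q, (Om q h).Finite ∧ (Om q h).Nonempty ∧
      (∀ a ∈ Om q h, a ≠ 0 ∧ IsIntegral ℤ a ∧ (q : Qb) / a ∈ Om q h ∧ (q : Qb) / a ≠ a) ∧
      ∀ a ∈ Om q h, ∀ σ : Gq, σ a ∈ Om q h) ∧
    (∀ h ∈ GD q, ∀ a ∈ Om q h, ∀ b ∈ Om q h, ∀ M : ℕ, 1 ≤ M → a ^ M = b ^ M → a = b) ∧
    (∀ h ∈ GD q, ∀ a ∈ Om q h, ∀ b ∈ Om q h, ∀ M : ℕ, 1 ≤ M → (a * b) ^ M = (q : Qb) ^ M →
      b = (q : Qb) / a) ∧
    (∀ h ∈ GD q, GIso q h h) ∧
    (∀ h h' : ℤ[X], GIso q h h' → GIso q h' h) ∧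
    (∀ h ∈ GD q, ∀ h' ∈ GD q, ∀ h'' ∈ GD q, GIso q h h' → GIso q h' h'' → GIso q h h'') ∧
    (∀ h ∈ GD q, ∀ h' ∈ GD q, GIso q h h' → ∀ a ∈ Om q h, ∃ a' ∈ Om q h', ∃ N : ℕ, 1 ≤ N ∧
      a ^ N = a' ^ N)

/-- UNI5.  As `S_UNI4`, for `GD`.  Uses `S_SLP`, `S_LOC` (adapt `TJ4/UNI4.lean`). -/
def S_UNI5 : Prop :=
  ∀ (q : ℕ) (v : AbsoluteValue Qb ℝ), IsPrimePow q → Ab q v →
    ∀ l : List Qb, (∀ a ∈ l, ∃ h ∈ GD q, a ∈ Om q h) →
    (∀ σ : Gq, (l.map fun a => slp q v a σ).sum = 0) →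
    ∃ N : ℕ, 1 ≤ N ∧ l.prod ^ N = ((l.map fun a => (q : Qb) / a).prod) ^ N

/-- TWO5.  One or two slope vectors.  Uses `S_UNI5`, `S_SLP`.
PROOF.  First claim: the list `[a, q / a']` (the slope vector of `q / a'` is the negative one,
`S_SLP`): `(a (q / a')) ^ N = ((q / a) a') ^ N`, so `a ^ (2 N) = a' ^ (2 N)`.  Second claim: the
list `[a, a']`.  Third claim: the list `[a]`: `a ^ N = (q / a) ^ N`, so `a ^ (2 N) = q ^ N`, excluded by
the definition of `GD`. -/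
def S_TWO5 : Prop :=
  ∀ (q : ℕ) (v : AbsoluteValue Qb ℝ), IsPrimePow q → Ab q v →
    ∀ h ∈ GD q, ∀ h' ∈ GD q, ∀ a ∈ Om q h, ∀ a' ∈ Om q h',
    ((∀ σ : Gq, slp q v a σ = slp q v a' σ) → ∃ N : ℕ, 1 ≤ N ∧ a ^ N = a' ^ N) ∧
    ((∀ σ : Gq, slp q v a σ = - slp q v a' σ) → ∃ N : ℕ, 1 ≤ N ∧ a ^ N = ((q : Qb) / a') ^ N) ∧
    ∃ σ : Gq, slp q v a σ ≠ 0

/-- CCJ5.  Complex conjugation.  (Import `TJ2.EMB`, `TJ2.SING` for `SING_emb`; see also
`TJ3/EAux.lean`, `TJ3/E2.lean`, where a complex conjugation `κ` is constructed.)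
PROOF.  Let `ι` be an embedding of `Qb` in `ℂ` (`SING_emb`).  Its image consists of all algebraic
numbers, so it is stable under conjugation, and `κ = ι⁻¹ conj ι`.  For `a ∈ Om q h`:
`ι (q / a) = conj (ι a)` (`t_EMB`).  If `θ ^ 2 = r < 0`, then `(ι θ) ^ 2 = r < 0`, so `ι θ` is purely
imaginary and `conj (ι θ) = - ι θ`.  If `κ θ = - θ ≠ 0`, then `ι θ` is purely imaginary, not zero,
and its square is negative. -/
def S_CCJ5 : Prop :=
  ∃ κ : Gq, (∀ (g q : ℕ) (h : ℤ[X]), 1 ≤ q → h ∈ RW g q → ∀ a ∈ Om q h, κ a = (q : Qb) / a) ∧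
    (∀ (θ : Qb) (r : ℚ), r < 0 → θ ^ 2 = (r : Qb) → κ θ = - θ) ∧
    ∀ (θ : Qb) (r : ℚ), θ ≠ 0 → κ θ = - θ → θ ^ 2 = (r : Qb) → r < 0

/-- RAT5.  Slopes are rational.
PROOF.  Let `p = q.minFac`.  For an integer `n`, `v n ≤ 1`; if `p ∤ n`, then `u n + w p = 1` with
integers `u, w`, so `v n = 1` (`v (w p) < 1`).  So `v` of a nonzero rational number is `v (p) ^ k`, `k`
an integer.  Let `∑ c_k a ^ k = 0` with rational `c_k`, not all zero.  The maximum of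
the `v (c_k a ^ k)` is not zero and is attained for at least two `k` (non-archimedean: otherwise
`v` of the sum would be the maximum), say `i < j`: `v (a) ^ (j - i) = v (c_i) / v (c_j)`, so
`log v (a)` is a rational multiple of `log v (p)`, and so is `log v (q) ≠ 0` (`q` is a power of `p`
with exponent `≥ 1`). -/
def S_RAT5 : Prop :=
  ∀ (q : ℕ) (v : AbsoluteValue Qb ℝ), IsPrimePow q → Ab q v → ∀ a : Qb, a ≠ 0 →
    ∀ σ : Gq, ∃ r : ℚ, slp q v a σ = (r : ℝ)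

/-! ## The Lefschetz property and the relations -/

/-- IND35.  Partners in lists.  Uses `S_VAL4`, `S_GIS5`; adapt `TJ4/IND34.lean` (there `S_IND44` gives
what is now the hypothesis `Ev`). -/
def S_IND35 : Prop :=
  ∀ (q : ℕ) (v : AbsoluteValue Qb ℝ) (S : Set ℤ[X]), IsPrimePow q → Ab q v → S ⊆ GD q →
    Ev q v S → ∀ (l : List (ℤ[X] × Qb)) (x : ℤ[X] × Qb), x.1 ∈ S → x.2 ∈ Om q x.1 →
    (∀ y ∈ l, y.1 ∈ S ∧ y.2 ∈ Om q y.1) → ∀ (N : ℕ) (k : ℤ), 1 ≤ N →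
    (x.2 * (l.map Prod.snd).prod) ^ N = (q : Qb) ^ k →
    (∃ y ∈ l, ∃ M : ℕ, 1 ≤ M ∧ (x.2 * y.2) ^ M = (q : Qb) ^ M) ∧ Odd l.length

/-- PART5.  Partners of admissible eigenvalues.  Uses `S_IND35`; adapt `TJ4/PART4.lean`. -/
def S_PART5 : Prop :=
  ∀ (q : ℕ) (v : AbsoluteValue Qb ℝ) (S : Set ℤ[X]), IsPrimePow q → Ab q v → S ⊆ GD q →
    Ev q v S → ∀ (K : Type) [Field K] [IsAlgClosed K] [CharZero K] (z : K) (l : List K),
    Adm q S z → (∀ y ∈ l, Adm q S y) → ∀ j N : ℕ, 1 ≤ N → l.length + 1 = 2 * j →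
    (z * l.prod) ^ N = ((q : K) ^ j) ^ N → ∃ y ∈ l, ∃ M : ℕ, 1 ≤ M ∧ (z * y) ^ M = (q : K) ^ M

/-- POS5.  The positive part.  Uses `S_PART5`; adapt `TJ4/POS4.lean`. -/
def S_POS5 : Prop :=
  ∀ (q : ℕ) (v : AbsoluteValue Qb ℝ) (S : Set ℤ[X]), IsPrimePow q → Ab q v → S ⊆ GD q →
    Ev q v S → ∀ (K : Type) [Field K] [CharZero K] (V : Type) [AddCommGroup V] [Module K V]
      [Module.Finite K V] (F : Module.End K V), F.IsSemisimple →
      (∀ z : AlgebraicClosure K, aeval z F.charpoly = 0 → Adm q S z) →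
      ∀ (j N : ℕ) (x : ExteriorAlgebra K V), 1 ≤ N → x ∈ ⋀[K]^(2 * j) V →
        ExteriorAlgebra.map (F ^ N) x = (q : K) ^ (j * N) • x →
        x ∈ Algebra.adjoin K (Deg2g F (q : K))

/-- NEG5.  Data give exotic classes.  Adapt `TJ4/NEG4.lean` (as there, the files `TJ3.EIG`, `TJ3.EXL`,
`TJ3.EXK`, `TJ3.JF3`). -/
def S_NEG5 : Prop :=
  ∀ (q : ℕ) (S : Set ℤ[X]), IsPrimePow q → S ⊆ GD q → HasData q S →
    ∃ (n : ℕ) (h : Fin n → ℤ[X]) (e : Fin n → ℕ), (∀ k, h k ∈ S) ∧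
      ∀ (K : Type) [Field K] [CharZero K] (V : Type) [AddCommGroup V] [Module K V]
        [Module.Finite K V] (F : Module.End K V), F.IsSemisimple →
        ∏ k, ((weil q (h k)).map (Int.castRingHom K)) ^ e k ∣ F.charpoly →
        ∃ (j N : ℕ) (x : ExteriorAlgebra K V), 1 ≤ N ∧ x ∈ ⋀[K]^(2 * j) V ∧
          ExteriorAlgebra.map (F ^ N) x = (q : K) ^ (j * N) • x ∧
          x ∉ Algebra.adjoin K (Deg2g F (q : K))

/-- DAT5.  A relation which is not even gives data.  Uses `S_SLP`, `S_UNI5`, `S_GIS5`; compare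
`TJ3/EAux.lean`, `TJ3/E1.lean`, `TJ4/E14.lean`.
PROOF.  Let `n, h, A, m` be a relation, `m i (q / a) ≠ m i a` for some `i`, `a ∈ A i`.  Put
`d i a = m i a - m i (q / a)`: again a relation (`slp (q / a) = - slp a`, and `a ↦ q / a` permutes
`A i`), odd, and not zero.  Index set: the finitely many pairs `(i, a)`, `a ∈ A i`, `d i a > 0` (not
empty: `d i a` or `d i (q / a)` is positive), numbered by `Fin n'`; `r = a`, `e = d i a`.  The sum of the
`e slp r` is half of the sum of all `d i a slp a`, i.e. zero, so UNI5 for the list with `e` copies of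
each `r` gives the relation.  Two different pairs `(i, a)`, `(i, b)`: `a ^ M ≠ b ^ M` (GIS5);
`(a b) ^ M = q ^ M` would give `b = q / a` and `d i b = - d i a < 0`; also for `b = a`, since
`q / a ≠ a`.  For `i ≠ j`, `a ^ M = b ^ M` or `a ^ M = (q / b) ^ M` would give `GIso q (h i) (h j)`. -/
def S_DAT5 : Prop :=
  ∀ (q : ℕ) (v : AbsoluteValue Qb ℝ) (S : Set ℤ[X]), IsPrimePow q → Ab q v → S ⊆ GD q →
    ¬ Ev q v S → HasData q S

/-- PAR5.  If all relations are even there are no data.  Uses `S_IND35`.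
PROOF.  Let `n, h, r, e, N` be data, `e k₀ ≥ 1`.  Take `x = (h k₀, r k₀)` and `l` the list with
`e k₀ - 1` copies of `x` and `e k` copies of `(h k, r k)` for `k ≠ k₀`.  From
`(∏ r ^ e) ^ N = (∏ (q / r) ^ e) ^ N` we get `(∏ r ^ e) ^ (2 N) = q ^ (N ∑ e)`.  IND35 gives `y ∈ l`,
i.e. some `k`, with `(r k₀ r k) ^ M = q ^ M`, against the last condition of the data. -/
def S_PAR5 : Prop :=
  ∀ (q : ℕ) (v : AbsoluteValue Qb ℝ) (S : Set ℤ[X]), IsPrimePow q → Ab q v → S ⊆ GD q →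
    Ev q v S → ¬ HasData q S

/-! ## The types -/

/-- TYP2.  Ordinary with 4 roots.  Uses `S_SLP`, `S_GIS5`, `S_TWO5`, `S_CCJ5`.
PROOF.  `Om = {a, q / a, b, q / b}`.  Suppose `h ∉ FL q`.  (R) If `σ x = x` for one `x ∈ Om`, then for
all: `σ` fixes `x`, `q / x` and maps the other pair `{y, q / y}` to itself; if `σ y = q / y`, then for
every `z ∈ Om` take `t` with `t y = z`; `t σ t⁻¹` maps `z` to `q / z` and fixes the elements
different from `z`, `q / z`; so `h ∈ FL q`, contradiction.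
Choose `s` with `s a = b`.  Then `s (q / a) = q / b`, so `s b` is `a` or `q / a`.
If `s b = q / a`: `s (s a) = q / a`, `s (s b) = s (q / a) = q / b`, so `s (s x) = q / x` on `Om`, and
`a, s a, s ^ 2 a, s ^ 3 a` are all elements of `Om`; for `σ` take `k` with `σ a = s ^ k a`; by (R) for
`(s ^ k)⁻¹ σ` we get `σ = s ^ k` on `Om`.  So `CY q h`.
If `s b = a`: let `f = slp q v a 1`, `f' = slp q v b 1`, both `± 1` (ordinary, `S_SLP`), and `f' = δ f`
with `δ = ± 1`.  Claim: `slp b σ = δ slp a σ` for all `σ`.  Note that `slp x σ` depends only on `σ x`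
(`slp_comp`), and `slp (q / x) = - slp x`.  If `σ a = a`, by (R) `σ b = b`: values `f', f`.  If
`σ a = b = s a`, by (R) `σ b = s b = a`: values `f` and `f'`.  If `σ a = q / a` or `q / b` compose with
the complex conjugation `κ` (`S_CCJ5`): both change the sign.  So by TWO5 `b ^ N = a ^ N` or
`b ^ N = (q / a) ^ N`, hence `b = a` or `b = q / a` (definition of `GD`), contradiction. -/
def S_TYP2 : Prop :=
  ∀ (q : ℕ) (v : AbsoluteValue Qb ℝ) (h : ℤ[X]), IsPrimePow q → Ab q v → h ∈ GD q →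
    h ∈ Ord h.natDegree q → (Om q h).ncard = 4 → h ∈ FL q ∨ CY q h

/-- TYP6.  Transitive groups on 3 pairs.
PROOF.  There are three pairs `{x, bar x}`, and `Γ` permutes them transitively.  (1) Some `r ∈ Γ`
induces a 3-cycle on the pairs: let `s` map the pair 0 to the pair 1 and `t` the pair 0 to the
pair 2; if both are not 3-cycles they are the transpositions `(0 1)`, `(0 2)` of the pairs and
`s t` is a 3-cycle.  (2) Let `ρ = r ^ 4`.  `r ^ 3` fixes each pair, so `r ^ 6 = 1` on `Ω`, `ρ ^ 3 = 1` on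
`Ω`, and `ρ` induces the same 3-cycle as `r`.  (3) Take any `x 0`, `x 1 = ρ (x 0)`, `x 2 = ρ (x 1)`;
`ρ (x 2) = x 0`; they are in different pairs; every `y` is `x i` or `bar (x i)`.
(4) Let `σ ∈ Γ` and `ρ' = σ ρ σ⁻¹`; on the pairs it is a 3-cycle, equal to `ρ ^ δ` with `δ = 1` or
`2`, and `ρ' ^ 3 = 1`.  `n = ρ' (ρ ^ δ)⁻¹` fixes each pair.  If `n` fixes one pair pointwise and
exchanges the elements of another pair, then `n` or `c n` is the transposition of exactly one pair,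
fixing the other 4 elements, and conjugation (transitivity) gives such elements for all `x`: first
alternative.  (5) Else for all `σ`: `n = 1` or `n = bar` on `Ω`; `n = bar` is impossible
(`ρ' ^ 3 = bar ^ 3 ρ ^ (3 δ) = bar` on `Ω`).  So `σ ρ = ρ ^ δ σ` on `Ω`, and
`σ (x i) = ρ ^ (δ i) (σ (x 0))`: all `σ (x i)` are of the form `x j` if `σ (x 0)` is, else all of the form
`bar (x j)`. -/
def S_TYP6 : Prop :=
  ∀ (Γ Ω : Type) [Group Γ] [Fintype Ω] [DecidableEq Ω] [MulAction Γ Ω] (bar : Ω → Ω),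
    Fintype.card Ω = 6 → (∀ x, bar (bar x) = x) → (∀ x, bar x ≠ x) →
    (∀ (s : Γ) x, bar (s • x) = s • bar x) → (∀ x y : Ω, ∃ s : Γ, s • x = y) →
    (∃ c : Γ, ∀ x : Ω, c • x = bar x) →
    (∀ x : Ω, ∃ s : Γ, s • x = bar x ∧ ∀ y, y ≠ x → y ≠ bar x → s • y = y) ∨
      ∃ x : Fin 3 → Ω, Function.Injective x ∧ (∀ i j, x i ≠ bar (x j)) ∧
        (∀ y, ∃ i, y = x i ∨ y = bar (x i)) ∧
        ∀ s : Γ, (∀ i, ∃ j, s • x i = x j) ∨ (∀ i, ∃ j, s • x i = bar (x j))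

/-- IQC5.  Construction of the characters.
PROOF.  `χ σ = 1` if `σ (x i) = x j` for all `i` (some `j`), else `-1`; since `m ≥ 1` and
`x i ≠ q / x j` the two cases exclude each other, already for one `i`.  `π σ i = j`, unique by
injectivity.  `π σ` is injective, hence a permutation.  Multiplicativity: `σ (q / x) = q / σ x`, and
`x i ≠ 0` (elements of `Om`). -/
def S_IQC5 : Prop :=
  ∀ (q m : ℕ) (h : ℤ[X]) (x : Fin m → Qb), 1 ≤ q → 1 ≤ m → Function.Injective x →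
    (∀ i j, x i ≠ (q : Qb) / x j) → (∀ y, y ∈ Om q h ↔ ∃ i, y = x i ∨ y = (q : Qb) / x i) →
    (∀ σ : Gq, (∀ i, ∃ j, σ (x i) = x j) ∨ (∀ i, ∃ j, σ (x i) = (q : Qb) / x j)) →
    ∃ (χ : Gq →* ℤˣ) (π : Gq →* Equiv.Perm (Fin m)), IQT q m h χ π x

/-- TYP1.  Two roots.  Uses `S_IQC5`, `S_GIS5`.
PROOF.  `Om = {a, q / a}`, `x 0 = a`; `σ a` is `a` or `q / a`. -/
def S_TYP1 : Prop :=
  ∀ (q : ℕ) (h : ℤ[X]), IsPrimePow q → h ∈ GD q → (Om q h).ncard = 2 →
    ∃ (χ : Gq →* ℤˣ) (π : Gq →* Equiv.Perm (Fin 1)) (x : Fin 1 → Qb), IQT q 1 h χ π x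

/-- TYP3.  Six roots.  Uses `S_TYP6`, `S_IQC5`, `S_GIS5`, `S_CCJ5`.
PROOF.  `Γ = Gq`, `Ω = {a // a ∈ Om q h}` (finite; action by `σ`; see `TJ3/REL.lean` or
`TJ4/REL4.lean`), `bar a = q / a`, `c = κ` of CCJ5.  First alternative of TYP6: `h ∈ FL q`; second:
IQC5. -/
def S_TYP3 : Prop :=
  ∀ (q : ℕ) (h : ℤ[X]), IsPrimePow q → h ∈ GD q → (Om q h).ncard = 6 →
    h ∈ FL q ∨ ∃ (χ : Gq →* ℤˣ) (π : Gq →* Equiv.Perm (Fin 3)) (x : Fin 3 → Qb), IQT q 3 h χ π x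

/-! ## Separation -/

/-- PRJ5.  Projection to a semi-invariant relation.
PROOF.  `T = {t | t a = a or t a = bar a}` is a subgroup; `ε t = 1` or `-1` accordingly (`bar a ≠ a`),
a homomorphism on `T`.  For `t ∈ T` let `f_t i x = ε t * d i (t⁻¹ x)`; `f_t ∈ R`, odd, and
`f_t j a = d j a` (if `t a = bar a` then `t⁻¹ a = bar a`).  The set `O = {f_t | t ∈ T}` is finite: the
values are in the finite set of the `± d i x`, and the `Ω i`, `ι` are finite.  Let `w` be the sum of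
the elements of `O`, `w j a = |O| d j a ≠ 0`.  For `s ∈ T` the map `f ↦ (x ↦ ε s * f i (s⁻¹ x))` is a
bijection of `O` (it maps `f_t` to `f_(s t)`), so `ε s * w i (s⁻¹ x) = w i x`. -/
def S_PRJ5 : Prop :=
  ∀ (Γ ι : Type) [Group Γ] [Fintype ι] (Ω : ι → Type) [∀ i, Fintype (Ω i)]
    [∀ i, MulAction Γ (Ω i)] (bar : ∀ i, Ω i → Ω i) (R : AddSubgroup (∀ i, Ω i → ℤ)),
    (∀ i x, bar i (bar i x) = x) → (∀ i x, bar i x ≠ x) →
    (∀ i (s : Γ) x, bar i (s • x) = s • bar i x) →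
    (∀ (s : Γ), ∀ d ∈ R, (fun i x => d i (s⁻¹ • x)) ∈ R) →
    ∀ d ∈ R, (∀ i x, d i (bar i x) = - d i x) → ∀ (j : ι) (a : Ω j), d j a ≠ 0 →
    ∃ w ∈ R, (∀ i x, w i (bar i x) = - w i x) ∧ w j a ≠ 0 ∧
      (∀ s : Γ, s • a = a → ∀ i x, w i (s • x) = w i x) ∧
      (∀ s : Γ, s • a = bar j a → ∀ i x, w i (s • x) = - w i x)

/-- SEP5.  Elimination of unlinked members.  Uses `S_PRJ5`, `S_SLP`, `S_GIS5`; for the translation
see `TJ4/REL4.lean`.
PROOF.  `Γ = Gq`, `Ω i = {x // x ∈ A i}`, `R` the relations of the slope vectors, `w` from PRJ5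
(extended by 0).  Let `k` be as in the last claim, `x ∈ A k`: in the first case
`w k x = w k (σ x) = w k (q / x) = - w k x`, in the second `- w k x = w k (σ x) = w k x`; so
`w k x = 0`. -/
def S_SEP5 : Prop :=
  ∀ (q : ℕ) (v : AbsoluteValue Qb ℝ), IsPrimePow q → Ab q v →
    ∀ (n : ℕ) (h : Fin n → ℤ[X]) (A : Fin n → Finset Qb) (d : Fin n → Qb → ℤ),
    (∀ i, h i ∈ GD q) → (∀ i, (A i : Set Qb) = Om q (h i)) →
    (∀ σ : Gq, ∑ i, ∑ x ∈ A i, (d i x : ℝ) * slp q v x σ = 0) →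
    (∀ i, ∀ x ∈ A i, d i ((q : Qb) / x) = - d i x) →
    ∀ j, ∀ a ∈ A j, d j a ≠ 0 →
    ∃ w : Fin n → Qb → ℤ,
      (∀ σ : Gq, ∑ i, ∑ x ∈ A i, (w i x : ℝ) * slp q v x σ = 0) ∧
      (∀ i, ∀ x ∈ A i, w i ((q : Qb) / x) = - w i x) ∧ w j a ≠ 0 ∧
      ∀ k, (∀ x ∈ A k, ∃ σ : Gq, σ a = a ∧ σ x = (q : Qb) / x ∨ σ a = (q : Qb) / a ∧ σ x = x) →
        ∀ x ∈ A k, w k x = 0

/-- NLF5.  Members with flips are not linked to members with small Galois group.
PROOF.  Choose `z ∈ Om q h`, `z ≠ a`, `z ≠ q / a` (at least 4 elements), `t` with `t a = z`, `s` the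
flip of `a`.  `t⁻¹ a` is neither `a` nor `q / a` (else `z = a` or `z = q / a`), so `s⁻¹` fixes it, and
`t s⁻¹ t⁻¹` fixes `a`; so `c = s t s⁻¹ t⁻¹` maps `a` to `q / a`, and `c (q / a) = q / c a = a`; so
`σ = c ^ 3` maps `a` to `q / a`; and it fixes `x` by hypothesis. -/
def S_NLF5 : Prop :=
  ∀ (q : ℕ) (h h' : ℤ[X]), IsPrimePow q → h ∈ FL q → 4 ≤ (Om q h).ncard →
    (∀ s t : Gq, ∀ x ∈ Om q h', ((s * t * s⁻¹ * t⁻¹) ^ 3) x = x) →
    ∀ a ∈ Om q h, ∀ x ∈ Om q h', ∃ σ : Gq, σ a = (q : Qb) / a ∧ σ x = x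

/-- ABL5.  Identities in the small groups.
PROOF.  `IQT`: if `χ σ = 1` and `π σ = 1`, then `σ` fixes all `x i`, hence all `q / x i`, i.e. `Om q h`.
For a commutator `c`: `χ c = 1`, and `(π c) ^ 3 = 1`, since the third power of a commutator in
the permutations of `Fin 1` or `Fin 3` is trivial (`decide`).  `χ (s ^ 6) = 1`, `(π s) ^ 6 = 1`.
`CY`: `s` and `t` act on `Om q h` like powers of one automorphism (and `Om q h` is stable), so the
commutator acts trivially. -/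
def S_ABL5 : Prop :=
  (∀ (q m : ℕ) (h : ℤ[X]) (χ : Gq →* ℤˣ) (π : Gq →* Equiv.Perm (Fin m)) (x : Fin m → Qb),
    1 ≤ q → (m = 1 ∨ m = 3) → IQT q m h χ π x →
    (∀ s t : Gq, ∀ y ∈ Om q h, ((s * t * s⁻¹ * t⁻¹) ^ 3) y = y) ∧
    ∀ s : Gq, ∀ y ∈ Om q h, (s ^ 6) y = y) ∧
  ∀ (q : ℕ) (h : ℤ[X]), 1 ≤ q → CY q h →
    ∀ s t : Gq, ∀ y ∈ Om q h, ((s * t * s⁻¹ * t⁻¹) ^ 3) y = y

/-- CYA5.  Facts on cyclic quartic members.  Uses `S_GIS5`.
PROOF.  Let `s` be as in the definition of `CY`.  `s a ≠ a` (else `s (s a) = a`), `s ^ 2 a = q / a ≠ a`,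
`s ^ 4 a = a`, `s ^ 3 a ≠ a` (else `a = s ^ 4 a = s a`).  So `s ^ k a = a` iff `4 ∣ k`, for every
`a ∈ Om`.  (1) If `σ a = a`: `σ = s ^ k` on `Om`, so `4 ∣ k` and `σ = 1` on `Om`.  (2) `σ = s ^ 6`:
`s ^ 6 a = s ^ 2 a = q / a`. -/
def S_CYA5 : Prop :=
  ∀ (q : ℕ) (h : ℤ[X]), IsPrimePow q → h ∈ GD q → CY q h →
    (∀ σ : Gq, ∀ a ∈ Om q h, σ a = a → ∀ b ∈ Om q h, σ b = b) ∧
    ∀ h' : ℤ[X], (∀ s : Gq, ∀ x ∈ Om q h', (s ^ 6) x = x) →
      ∀ a ∈ Om q h, ∀ x ∈ Om q h', ∃ σ : Gq, σ a = (q : Qb) / a ∧ σ x = x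

/-- CYB5.  Two ordinary cyclic quartic members.  Uses `S_SLP`, `S_GIS5`, `S_TWO5`.
PROOF.  Suppose there is no such `σ`.  Let `s`, `s'` be the generators for `h`, `h'`; `s ^ k a = a` iff
`4 ∣ k`, and the same for `s'`.  Let `σ a = a`, `σ = s' ^ k` on `Om q h'`.  If `k` is odd, then
`σ ^ 2 x = s' ^ (2 k) x = q / x` and `σ ^ 2 a = a`, contradiction; if `k = 2` modulo 4, `σ x = q / x`,
contradiction; so `σ x = x`.  By symmetry `σ x = x` implies `σ a = a`.  So the stabilisers of `a` and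
`x` are equal.  `s ^ 2 a = q / a ≠ a`, so `s ^ 2 x ≠ x`, and `s ^ 4 x = x`; `s = s' ^ j` on `Om q h'`, so
`j` is odd and `s ^ 2 x = s' ^ (2 j) x = q / x`.  Let `f k = slp a (s ^ k)`, `g k = slp x (s ^ k)`; all
are `± 1` (`S_SLP`), `f (k + 2) = - f k`, `g (k + 2) = - g k` (`slp y σ` depends only on `σ y`).  The
four pairs `(f j, f (j + 1))`, `j < 4`, i.e. `(f 0, f 1), (f 1, - f 0), (- f 0, - f 1), (- f 1, f 0)`, are
all the pairs of signs, so for some `j`: `g k = f (k + j)` for `k = 0, 1`, hence for all `k`.  Every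
`σ` has `σ a = s ^ k a` for some `k`; then `(s ^ k)⁻¹ σ` fixes `a`, hence `x` (and all of `Om q h`), so
`slp x σ = g k = f (k + j) = slp (s ^ j a) σ`.  By TWO5 a power of `x` is one of `s ^ j a`, so
`GIso q h h'`, contradiction. -/
def S_CYB5 : Prop :=
  ∀ (q : ℕ) (v : AbsoluteValue Qb ℝ) (h h' : ℤ[X]), IsPrimePow q → Ab q v →
    h ∈ GD q → h ∈ Ord h.natDegree q → CY q h →
    h' ∈ GD q → h' ∈ Ord h'.natDegree q → CY q h' → ¬ GIso q h h' →
    ∀ a ∈ Om q h, ∀ x ∈ Om q h', ∃ σ : Gq,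
      σ a = a ∧ σ x = (q : Qb) / x ∨ σ a = (q : Qb) / a ∧ σ x = x

/-- CYC5.  One ordinary cyclic quartic member.  Uses `S_SLP`, `S_GIS5`.
PROOF.  Let `a ∈ A`, `b = s a`; `A = {a, b, q / a, q / b}`, so
`2 (w a * slp a σ + w b * slp b σ) = 0`.  With `f = slp a 1 = ± 1`, `f' = slp a s = ± 1`:
`σ = 1` gives `w a * f + w b * f' = 0`, `σ = s` gives `w a * f' - w b * f = 0` (`slp b s = slp a (s ^ 2)
= - slp a 1`).  So `w a = - w b * f * f' = w b * f * f'`, hence `w a = 0`. -/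
def S_CYC5 : Prop :=
  ∀ (q : ℕ) (v : AbsoluteValue Qb ℝ) (h : ℤ[X]) (A : Finset Qb) (w : Qb → ℤ), IsPrimePow q →
    Ab q v → h ∈ GD q → h ∈ Ord h.natDegree q → CY q h → (A : Set Qb) = Om q h →
    (∀ x ∈ A, w ((q : Qb) / x) = - w x) → (∀ σ : Gq, ∑ x ∈ A, (w x : ℝ) * slp q v x σ = 0) →
    ∀ x ∈ A, w x = 0

/-! ## The members with an imaginary quadratic field -/

/-- TBP5.  Parity.
PROOF.  If `ψ` were trivial on the stabiliser of `i`, the index 2 of its kernel would divide the index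
3 of the stabiliser (`Subgroup.index_dvd_of_le`; the orbit has 3 elements, `MulAction.index_stabilizer`
for the action through `π`). -/
def S_TBP5 : Prop :=
  ∀ (Γ : Type) [Group Γ] [Finite Γ] (π : Γ →* Equiv.Perm (Fin 3)) (ψ : Γ →* ℤˣ) (i : Fin 3),
    (∀ i j, ∃ g, π g i = j) → (∃ g, ψ g ≠ 1) → ∃ g, π g i = i ∧ ψ g = -1

/-- TB15.  The sums of the coefficients vanish.  Uses `S_TBP5`.
PROOF.  Fix an index `j` (of the first or second kind), multiply the relation at `g` with the sign of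
`g` under the character `χ` of `j`, and sum over `g ∈ Γ`.  For another index `k` of the first kind we get
`c₁ k ε₁ k ∑ ψ g`, with `ψ` the product of the two different characters, not trivial, so the sum is 0.
For another index `k` of the second kind, and each `i`: `∑_g ψ g ε₃ k (π k g i)`; by TBP5 there
is `s` with `π k s i = i`, `ψ s = -1`, and the substitution `g ↦ g s` shows that the sum is
equal to its negative, so 0.  The index `j` itself: first kind: `c₁ j ε₁ j |Γ|`, so `c₁ j = 0`.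
Second kind: `∑_i c₃ j i ∑_g ε₃ j (π j g i)`; every value `i'` of `π j g i` is taken equally often
(`|Γ| / 3` times; the sets `{g | π j g i = i'}` are translates of each other), so it is
`(∑_i c₃ j i) (|Γ| / 3) (∑_i' ε₃ j i')`, and `∑_i c₃ j i = 0`. -/
def S_TB15 : Prop :=
  ∀ (Γ : Type) [Group Γ] [Finite Γ] (ι₁ ι₃ : Type) [Fintype ι₁] [Fintype ι₃]
    (χ₁ : ι₁ → Γ →* ℤˣ) (ε₁ c₁ : ι₁ → ℝ) (χ₃ : ι₃ → Γ →* ℤˣ)
    (π : ι₃ → Γ →* Equiv.Perm (Fin 3)) (ε₃ c₃ : ι₃ → Fin 3 → ℝ),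
    (∀ k k', k ≠ k' → χ₁ k ≠ χ₁ k') → (∀ k k', k ≠ k' → χ₃ k ≠ χ₃ k') →
    (∀ k k', χ₁ k ≠ χ₃ k') → (∀ k i j, ∃ g, π k g i = j) →
    (∀ k, ε₁ k ≠ 0) → (∀ k, ∑ i, ε₃ k i ≠ 0) →
    (∀ g, (∑ k, c₁ k * (((χ₁ k g : ℤˣ) : ℤ) : ℝ) * ε₁ k) +
      ∑ k, ∑ i, c₃ k i * (((χ₃ k g : ℤˣ) : ℤ) : ℝ) * ε₃ k (π k g i) = 0) →
    (∀ k, c₁ k = 0) ∧ ∀ k, ∑ i, c₃ k i = 0

/-- TB25.  The independence.  Uses `S_TBP5`.
PROOF.  Suppose `c j i₀ ≠ 0`.  Let `H = {h | π j h i₀ = i₀}` and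
`c' k i = ∑_(h ∈ H) χ j h χ k h c k ((π k h)⁻¹ i)`.  Multiplying the relation at `g h` with `χ j h` and
summing over `h ∈ H`: (*) `∑_k χ k g c' k ((π k g)⁻¹ (m₀ k)) = 0` for all `g` (note
`(π k (g h))⁻¹ = (π k h)⁻¹ (π k g)⁻¹`; substitute `h ↦ h⁻¹`, `χ h⁻¹ = χ h`, as needed).  Facts, with
`ψ k = χ j χ k`:
(a) `c' j i₀ = |H| c j i₀ ≠ 0`; (b) `c' k (π k h i) = ψ k h c' k i` for `h ∈ H`; (c) `∑_i c' k i = 0`.
(d) Let `k ≠ j` with `c' k ≠ 0` (linked).  `ψ k ≠ 1`, so by TBP5 there is `s ∈ H` with `ψ k s = -1`: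
`c' k (π k s i) = - c' k i`.  `π k s = 1` is impossible, and a 3-cycle also (three applications), so
`π k s` is a transposition fixing some `i₁`, `c' k i₁ = 0`, and `c' k i₂ = - c' k i₃ ≠ 0`.  For
`h ∈ H`, `π k h` preserves the zero set `{i₁}` of `c' k`, so it is `1` or the transposition
`(i₂ i₃)`, with `ψ k h = 1` resp. `-1`: `ψ k = sign ∘ π k` on `H`, hence on `Γ` (TBP5 for the product of
these two characters, which is trivial on `H`).  `H` is contained in `H₁ = {h | π k h i₁ = i₁}`;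
both have index 3, so `H = H₁`; taking conjugates, `π j g = 1` iff `π k g = 1`, for `g ∈ Γ`
(the action is transitive, so `π j g = 1` iff all conjugates of `g` are in `H`).  For `h ∈ H`:
`sign (π j h) = 1` iff `π j h = 1` (it fixes `i₀`) iff `π k h = 1` iff `sign (π k h) = 1` (it fixes
`i₁`); so `sign ∘ π j = sign ∘ π k` on `H`, hence on `Γ` (TBP5).  So `χ k = χ j (sign ∘ π j)`.
(e) So there is at most one linked `k ≠ j` (the characters are different).  If there is none, take `g`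
with `(π j g)⁻¹ (m₀ j) = i₀` in (*): contradiction to (a).  If there is one, `k`, with `i₁`, `s` as
in (d): `sign (π j s) = sign (π k s) = -1`, so `π j s` is the transposition fixing `i₀`, and by (b)
for `k = j` (`ψ j = 1`) the two other values of `c' j` are equal; by (c) they are `- c' j i₀ / 2`, so
`c' j` is nowhere 0.  Take `g` with `(π k g)⁻¹ (m₀ k) = i₁` in (*): contradiction. -/
def S_TB25 : Prop :=
  ∀ (Γ : Type) [Group Γ] [Finite Γ] (ι : Type) [Fintype ι] (χ : ι → Γ →* ℤˣ)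
    (π : ι → Γ →* Equiv.Perm (Fin 3)) (m₀ : ι → Fin 3) (c : ι → Fin 3 → ℝ),
    (∀ k k', k ≠ k' → χ k ≠ χ k') → (∀ k i j, ∃ g, π k g i = j) → (∀ k, ∑ i, c k i = 0) →
    (∀ g, ∑ k, (((χ k g : ℤˣ) : ℤ) : ℝ) * c k ((π k g)⁻¹ (m₀ k)) = 0) → ∀ k i, c k i = 0

/-- TBX5.  The same for an arbitrary group.  Uses `S_TB15`, `S_TB25`.
PROOF.  All characters and permutations factor through the image `G` of `Γ` in the finite group
`(ι₁ → ℤˣ) × (ι₃ → ℤˣ × Equiv.Perm (Fin 3))`; replace `Γ` by `G` (`MonoidHom.range`).  TB15 (the sum of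
`ε₃ k` is `3 α k + β k`): `c₁ = 0` and the sums of the `c₃ k` vanish.  Then
`∑_i c₃ k i ε₃ k (π k g i) = β k c₃ k ((π k g)⁻¹ (m₀ k))`, and TB25 for `β k c₃ k`. -/
def S_TBX5 : Prop :=
  ∀ (Γ : Type) [Group Γ] (ι₁ ι₃ : Type) [Fintype ι₁] [Fintype ι₃]
    (χ₁ : ι₁ → Γ →* ℤˣ) (ε₁ c₁ : ι₁ → ℝ) (χ₃ : ι₃ → Γ →* ℤˣ)
    (π : ι₃ → Γ →* Equiv.Perm (Fin 3)) (ε₃ c₃ : ι₃ → Fin 3 → ℝ) (m₀ : ι₃ → Fin 3)
    (α β : ι₃ → ℝ),
    (∀ k k', k ≠ k' → χ₁ k ≠ χ₁ k') → (∀ k k', k ≠ k' → χ₃ k ≠ χ₃ k') →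
    (∀ k k', χ₁ k ≠ χ₃ k') → (∀ k i j, ∃ g, π k g i = j) → (∀ k, ε₁ k ≠ 0) →
    (∀ k, β k ≠ 0 ∧ 3 * α k + β k ≠ 0) →
    (∀ k i, ε₃ k i = α k + if i = m₀ k then β k else 0) →
    (∀ g, (∑ k, c₁ k * (((χ₁ k g : ℤˣ) : ℤ) : ℝ) * ε₁ k) +
      ∑ k, ∑ i, c₃ k i * (((χ₃ k g : ℤˣ) : ℤ) : ℝ) * ε₃ k (π k g i) = 0) →
    (∀ k, c₁ k = 0) ∧ ∀ k i, c₃ k i = 0

/-- IQX5.  The same character means a common imaginary quadratic field.  Uses `S_CCJ5`; import
`TJ2.STAB` (`t_STAB`).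
PROOF.  The `2 m` numbers `x i`, `q / x i` are different.  Let `θ_k = ∑_i (x i ^ k - (q / x i) ^ k)`.
`σ θ_k = χ σ θ_k` (reindex the sum by `π σ`; `σ (q / y) = q / σ y`, `q / (q / y) = y`).  Not all `θ_k`
with `k < 2 m` are zero (`Matrix.eq_zero_of_forall_pow_sum_mul_pow_eq_zero`, the coefficients are
`1` and `-1`); let `θ = θ_k ≠ 0`.  `θ ^ 2` is fixed by all `σ`, hence rational (`t_STAB` with `a = 0`), say
`r`.  `κ (x 0) = q / x 0` (`S_CCJ5`), so `χ κ = -1` (else `κ (x 0) = x j`), `κ θ = - θ`, and `r < 0`.  If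
`σ a = a`, `a ∈ Om q h`, then `χ σ = 1`: if `a = x i`, `χ σ = -1` would give `x i = q / x j`; if
`a = q / x i`, then `σ (x i) = x i`.  The same for `a' ∈ Om q h'` (same `χ`).  So `σ θ = θ` in both
cases, and `θ ∈ ℚ⟮a⟯`, `θ ∈ ℚ⟮a'⟯` by `t_STAB`. -/
def S_IQX5 : Prop :=
  ∀ (q m m' : ℕ) (h h' : ℤ[X]) (χ : Gq →* ℤˣ) (π : Gq →* Equiv.Perm (Fin m)) (x : Fin m → Qb)
    (π' : Gq →* Equiv.Perm (Fin m')) (x' : Fin m' → Qb), IsPrimePow q → h ∈ GD q → h' ∈ GD q →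
    1 ≤ m → 1 ≤ m' → IQT q m h χ π x → IQT q m' h' χ π' x' →
    ∀ a ∈ Om q h, ∀ a' ∈ Om q h', IQ a a'

/-- TBR5.  Relations between members of type `IQT`.  Uses `S_TBX5`, `S_IQX5`, `S_SLP`, `S_GIS5`,
`S_UNI5`, `S_TWO5`.
PROOF.  Let `J₁`, `J₃` be the sets of the `i` for which the second alternative holds with `m = 1`,
resp. (not with `m = 1`, but) with `m = 3`; choose `χ_i`, `π_i`, `x_i` and let
`ε_i t = slp (x_i t) 1`.  Since `slp y σ = slp (σ y) 1` (`slp_comp`) and `slp (q / y) = - slp y`: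
`slp (x_i t) σ = χ_i σ ε_i (π_i σ t)`.  `A i` is the disjoint union of the `x_i t` and `q / x_i t`, so
`∑_(y ∈ A i) w i y slp y σ = 2 ∑_t w i (x_i t) χ_i σ ε_i (π_i σ t)`.  Apply TBX5 with
`c t = w i (x_i t)`.  Hypotheses: the `χ_i` are different for different `i`: else `IQ` by IQX5 (for all
`a`, `a'`).  `π_i` is transitive: `σ (x_i t) = x_i t'` for some `σ` (`GD`), then `χ_i σ = 1`.
`m = 1`: `ε_i 0 ≠ 0`: some `slp (x_i 0) σ ≠ 0` by TWO5, and it is `± ε_i 0`.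
`m = 3`: the three values `ε_i t` are in `{c, 0, -c}`.  They are not all equal: else
`slp (x_i 0) σ = slp (x_i 1) σ` for all `σ`, so `x_i 0 ^ N = x_i 1 ^ N` (TWO5), `x_i 0 = x_i 1`
(`GD`).  Their sum is not 0: else `∑_t slp (x_i t) σ = χ_i σ ∑ ε_i = 0` for all `σ`, and UNI5 for the
list `[x_i 0, x_i 1, x_i 2]` gives `(x_i 0 * x_i 1 * x_i 2) ^ (2 N) = q ^ (3 N)`, excluded by
hypothesis.  So they are not all different (`c + 0 - c = 0`), and two are equal, the third one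
(`m₀`) is different: `ε_i t = α + (β if t = m₀)`, `β ≠ 0`, `3 α + β ≠ 0`.
So `w i (x_i t) = 0` for all `t`, and `w i (q / x_i t) = 0`. -/
def S_TBR5 : Prop :=
  ∀ (q : ℕ) (v : AbsoluteValue Qb ℝ), IsPrimePow q → Ab q v →
    ∀ (n : ℕ) (h : Fin n → ℤ[X]) (A : Fin n → Finset Qb) (w : Fin n → Qb → ℤ),
    (∀ i, h i ∈ GD q) → (∀ i, (A i : Set Qb) = Om q (h i)) →
    (∀ σ : Gq, ∑ i, ∑ x ∈ A i, (w i x : ℝ) * slp q v x σ = 0) →
    (∀ i, ∀ x ∈ A i, w i ((q : Qb) / x) = - w i x) →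
    (∀ i, ∀ a ∈ Om q (h i), ∀ b ∈ Om q (h i), ∀ c ∈ Om q (h i), ∀ N : ℕ, 1 ≤ N →
      (a * b * c) ^ (2 * N) ≠ (q : Qb) ^ (3 * N)) →
    (∀ i j, i ≠ j → ∀ a ∈ Om q (h i), ∀ a' ∈ Om q (h j), ¬ IQ a a') →
    (∀ i, (∀ x ∈ A i, w i x = 0) ∨
      (∃ c : ℝ, ∀ a ∈ Om q (h i), ∀ σ : Gq,
        slp q v a σ = c ∨ slp q v a σ = 0 ∨ slp q v a σ = -c) ∧
      ((∃ (χ : Gq →* ℤˣ) (π : Gq →* Equiv.Perm (Fin 1)) (x : Fin 1 → Qb), IQT q 1 (h i) χ π x) ∨
        ∃ (χ : Gq →* ℤˣ) (π : Gq →* Equiv.Perm (Fin 3)) (x : Fin 3 → Qb), IQT q 3 (h i) χ π x)) →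
    ∀ i, ∀ x ∈ A i, w i x = 0

/-- KEV5.  The main step.  Uses `S_SLP`, `S_IND44` (TJ4), `S_GIS5`, `S_TYP1`, `S_TYP2`, `S_TYP3`,
`S_SEP5`, `S_NLF5`, `S_ABL5`, `S_CYA5`, `S_CYB5`, `S_CYC5`, `S_TBR5`.
PROOF.  Let `n, h, A, m` be as in `Ev`, `d i a = m i a - m i (q / a)`, an odd relation; show `d = 0`.
Every `h i` is of one of the types: (F) in `FL q` with at least 4 roots, or not (F) and (C) ordinary
with `CY`, or (I) `IQT` with `m = 1, 3` and slopes `c, 0, -c` (TYP1, TYP2, TYP3; `FL q ⊆ GD q`).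
Step 1: every odd relation `w` vanishes on the members of type (F).  Suppose `w j a ≠ 0`, `h j` of
type (F).  SEP5 gives an odd relation `w'` with `w' j a ≠ 0` and `w' k = 0` on `A k` for all `k` not
of type (F), by NLF5 and ABL5.  Number the indices of type (F) (`Finset.equivFin`); IND44 for
`S ∩ FL q` gives `w' j (q / a) = w' j a`, so `w' j a = 0`, contradiction.
Step 2: every odd relation `w` vanishes on the members of type (C).  Suppose `w j a ≠ 0`.  SEP5 gives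
`w'` with `w' j a ≠ 0`; it vanishes on the members of type (F) by step 1, on the members of type (C)
different from `j` by CYB5, and on those of type (I) by CYA5 (2) with ABL5.  So
`∑_(x ∈ A j) w' j x slp x σ = 0`, and CYC5 gives `w' j a = 0`, contradiction.
Step 3: TBR5 for `d`. -/
def S_KEV5 : Prop :=
  ∀ (q : ℕ) (v : AbsoluteValue Qb ℝ) (S : Set ℤ[X]), IsPrimePow q → Ab q v → S ⊆ CL q v →
    Kr q v S → Ev q v S

/-! ## Necessity -/

/-- NEQ5.  Uses `S_SLP`, `S_VAL4`, `S_GIS5`, `S_CCJ5`, `S_RAT5`.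
PROOF.  First claim: suppose `(a b c) ^ (2 N) = q ^ (3 N)`; then
`(a b c) ^ N = ((q / a) (q / b) (q / c)) ^ N`, and VAL4: `slp a + slp b + slp c = 0`.  Apply `Ev` to
`n = 1`, `h`, `m x` the number of the `a, b, c` equal to `x`: `m (q / x) = m x`.  The sum of all
`m x`, `x ∈ A`, is 3; but it is even, since `x ↦ q / x` is an involution without fixed points on
`A` preserving `m` (e.g. `Finset.sum_involution` modulo 2), contradiction.
Second claim: let `θ`, `r` be as in `IQ a a'`.  `E = {x ∈ A | ∃ σ, σ a = x ∧ σ θ = θ}`.  If `σ a = τ a`,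
then `σ θ = τ θ` (`τ⁻¹ σ` fixes `ℚ⟮a⟯` pointwise).  `σ θ = ± θ` (its square is `r`).  For
`x = σ a`: `x ∈ E` iff `σ θ = θ`; `q / x = κ x = κ σ a`, and `κ (σ θ) = - σ θ` (`S_CCJ5`), so exactly one
of `x`, `q / x` is in `E`.  So `τ E = E` if `τ θ = θ`, and `τ E = A \ E = {q / x | x ∈ E}` if
`τ θ = - θ`.  Let `D σ = ∑_(x ∈ E) slp x σ = ∑_(x ∈ E) slp (σ x) 1`; it is `D 1` if `σ θ = θ` and
`- D 1` if `σ θ = - θ`.  In the same way `E'`, `D'` for `a'`.  `D 1`, `D' 1` are rational (RAT5), so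
there are integers `u, u'`, not both zero, with `u D 1 + u' D' 1 = 0`, hence `u D σ + u' D' σ = 0` for
all `σ`.  `Ev` for `n = 2`, `h, h'`, `m = u 1_E`, `u' 1_E'`: at `a ∈ E` (`q / a ∉ E`) we get `u = 0`,
at `a' ∈ E'` we get `u' = 0`, contradiction. -/
def S_NEQ5 : Prop :=
  ∀ (q : ℕ) (v : AbsoluteValue Qb ℝ) (S : Set ℤ[X]), IsPrimePow q → Ab q v → S ⊆ GD q →
    Ev q v S →
    (∀ h ∈ S, ∀ a ∈ Om q h, ∀ b ∈ Om q h, ∀ c ∈ Om q h, ∀ N : ℕ, 1 ≤ N →
      (a * b * c) ^ (2 * N) ≠ (q : Qb) ^ (3 * N)) ∧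
    ∀ h ∈ S, ∀ h' ∈ S, ¬ GIso q h h' → ∀ a ∈ Om q h, ∀ a' ∈ Om q h', ¬ IQ a a'

/-- NEC5.  Uses `S_DAT5`, `S_NEQ5`, `S_E14` (TJ4).
PROOF.  If `Ev` fails: DAT5.  Else the first two conditions hold by NEQ5, so `Cr q v (S ∩ FL q)` fails,
and E14 gives data for `S ∩ FL q`, hence for `S`. -/
def S_NEC5 : Prop :=
  ∀ (q : ℕ) (v : AbsoluteValue Qb ℝ) (S : Set ℤ[X]), IsPrimePow q → Ab q v → S ⊆ GD q →
    ¬ Kr q v S → HasData q S

/-! ## The explicit criterion -/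

/-- SPL5.  The same field: the same number of roots and the same splitting field.  Uses `S_GIS5`,
import `TJ3.GAL` (`t_GAL`).
PROOF.  By GAL (with `{a}`, `{a'}`) `a` and `a'` have the same stabiliser.  `σ a ↦ σ a'` is a bijection
of `Om q h` on `Om q h'` (transitivity), compatible with the action, so the same `σ` act trivially;
GAL. -/
def S_SPL5 : Prop :=
  ∀ (q : ℕ) (h h' : ℤ[X]) (a a' : Qb), IsPrimePow q → h ∈ GD q → h' ∈ GD q → a ∈ Om q h →
    a' ∈ Om q h' → ℚ⟮a⟯ = ℚ⟮a'⟯ →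
    (Om q h).ncard = (Om q h').ncard ∧ adjoin ℚ (Om q h) = adjoin ℚ (Om q h')

/-- PAI5.  A root and a pair of roots generating the same field.  Uses `S_GIS4`, `S_CCJ5`, import
`TJ3.GAL`.
PROOF.  `B = {b, b'}`, `b' ≠ b`, `b' ≠ q / b` (definition of `RS`); `σ` fixes sum and product of `B` iff it maps `B` into itself, so by GAL
(H) `σ a = a` iff `σ B ⊆ B` (compare the end of `TJ4/REL4.lean`).  So `σ a ↦ σ B` is well defined and
injective.  Let `f`, `f'` be the flips of `b`, `b'` (`h' ∈ FL q`): the sets `B`, `f B = {q / b, b'}`,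
`f' B`, `f f' B` are different, so `a, f a, f' a, f f' a` are different.  Suppose there is
`c ∈ Om q h'` different from `b, q / b, b', q / b'`.  Let `τ b = c`, and `f₁`, `f₂` the flips of `c = τ b`
and of `τ b'`.  The sets `τ B`, `f₁ τ B`, `f₂ τ B`, `f₁ f₂ τ B` are different, and different from the
four sets above (they contain `c` or `q / c`).  So `Om q h` has at least 8 elements, contradiction.
So `Om q h' = {b, q / b, b', q / b'}` has 4 elements.  The sets `σ B` contain exactly one of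
`b, q / b` and one of `b', q / b'`, so there are exactly the 4 sets above, and `Om q h` has exactly 4
elements.  Splitting fields, by GAL: if `σ` fixes `Om q h'`, it fixes all sets `τ B`, so
`τ⁻¹ σ τ B ⊆ B`, `σ τ a = τ a` by (H): it fixes `Om q h` (transitivity).  If `σ` fixes `Om q h`,
it fixes all sets `τ B` (H), in particular `{b, b'}` and `{b, q / b'}` (`f' B`), so it fixes `b`, and in
the same way `b'`. -/
def S_PAI5 : Prop :=
  ∀ (q : ℕ) (h h' : ℤ[X]) (a : Qb) (B : Finset Qb), IsPrimePow q → h ∈ FL q → h' ∈ FL q →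
    a ∈ Om q h → RS q h' B → B.card = 2 → (Om q h).ncard ≤ 6 → Fd {a} = Fd B →
    (Om q h).ncard = 4 ∧ (Om q h').ncard = 4 ∧ adjoin ℚ (Om q h) = adjoin ℚ (Om q h')

/-- EXA5.  The explicit criterion is sufficient.  Uses `S_SLP`, `S_VAL4`, `S_C34` (TJ4), `S_GIS5`,
`S_TYP1`, `S_IQX5`, `S_SPL5`, `S_PAI5`.
PROOF.  `three`: the slopes are `± 1` (`S_SLP`), so `slp a + slp b + slp c ≠ 0`; but
`(a b c) ^ (2 N) = q ^ (3 N)` gives 0 by VAL4.  `flips`: `S_C34` for `S ∩ FL q`.  Its first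
hypothesis (members are ordinary) is clear.  Second: four members with the same `ℚ⟮a i⟯`; suppose they
are pairwise not isogenous.  By SPL5 they have the same number `2 g` of roots, `g` the degree.
`g = 1`: TYP1 and IQX5 (for `h = h'`) give `IQ (a 0) (a 0)`, so `IQ (a 0) (a 1)` since
`ℚ⟮a 0⟯ = ℚ⟮a 1⟯`, against `quad`.  `g = 2`: SPL5 and `surf` for the first three.  `g = 3`: `threef`.
Third: `B 0 = {a}`, `B 1 = {b, b'}` with the same `Fd`; suppose pairwise not isogenous.  PAI5: 4 roots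
each and the same splitting field.  `B 2`: if it is a single root, `Fd {a} = Fd {a₂}` means
`ℚ⟮a⟯ = ℚ⟮a₂⟯`, SPL5; if it is a pair, PAI5.  So the three members have degree 2 and the same
splitting field, against `surf`.  (`Fd {a} = ℚ⟮a⟯`: `adjoin ℚ {a, a}`.) -/
def S_EXA5 : Prop :=
  ∀ (q : ℕ) (v : AbsoluteValue Qb ℝ) (S : Set ℤ[X]), IsPrimePow q → Ab q v → S ⊆ O3 q →
    Ex q S → Kr q v S

/-- FUL5.  Four roots with flips: full.  Uses `S_GIS4`.
PROOF.  `Om = {a, q / a, b, q / b}`.  Let `τ` be as in the definition of `Full`.  Choose `σ` with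
`σ a = τ a`.  `σ b` and `τ b` are both in the pair different from the pair of `τ a`, so `σ b = τ b` or
`σ b = q / τ b`; in the second case replace `σ` by `f σ` with `f` the flip of `τ b`, which fixes
`τ a`.  Then `σ = τ` on `a, b`, hence on `q / a, q / b`. -/
def S_FUL5 : Prop :=
  ∀ (q : ℕ) (h : ℤ[X]), IsPrimePow q → h ∈ FL q → h ∈ Ord h.natDegree q → h.natDegree = 2 →
    (Om q h).ncard = 4 → h ∈ FO q

/-- FOU5.  Four ordinary members with the same field of degree 6.  Uses `S_SLP`, `S_GIS5`,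
`S_CCJ5`, import `TJ3.GAL`.
PROOF.  By GAL all `a i` have the same stabiliser.  Choose `σ_0, σ_1, σ_2` such that
`σ_j (a 0)`, `q / σ_j (a 0)` are the 6 elements of `Om q (h 0)`.  The 4 vectors
`(slp (a i) (σ_j))_j` with entries `± 1` (`S_SLP`) in `ℚ ^ 3` are dependent: rational `c i`, not all
0, with `∑ c i slp (a i) (σ_j) = 0` for `j = 0, 1, 2`.  Let `σ` be arbitrary: `σ (a 0) = σ_j (a 0)` or
`κ σ_j (a 0)` for some `j` (`S_CCJ5`).  So `σ (a i) = σ_j (a i)` for all `i`, or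
`σ (a i) = κ σ_j (a i) = q / σ_j (a i)` for all `i`; and `slp (a i) σ = slp (a i) σ_j` for all `i`, or
`= - slp (a i) σ_j` for all `i`.  So the relation holds at `σ`. -/
def S_FOU5 : Prop :=
  ∀ (q : ℕ) (v : AbsoluteValue Qb ℝ) (h : Fin 4 → ℤ[X]) (a : Fin 4 → Qb), IsPrimePow q →
    Ab q v → (∀ i, h i ∈ GD q ∧ h i ∈ Ord (h i).natDegree q ∧ a i ∈ Om q (h i)) →
    (Om q (h 0)).ncard = 6 → (∀ i j, ℚ⟮a i⟯ = ℚ⟮a j⟯) →
    ¬ LinearIndependent ℚ (fun i => fun σ : Gq => slp q v (a i) σ)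

/-- EXB5.  The explicit criterion is necessary.  Uses `S_SLP`, `S_IND44`, `S_GIS5`, `S_PAR5`,
`S_TYP2`, `S_TYP3`, `S_CYA5`, `S_CYB5`, `S_NLF5`, `S_ABL5`, `S_IQX5`, `S_FUL5`, `S_FOU5`, and `S_E2` of
TJ3; import `TJ3.GAL`.
PROOF.  `surf`: let `h 0, h 1, h 2` be pairwise not isogenous of degree 2 with the same splitting
field, so by GAL (K) a `σ` trivial on one `Om q (h i)` is trivial on all.  TYP2.  If all are in
`FL q`, they are in `FO q` (FUL5), and `S_E2` (with the prime ideal `P` of `S_SLP`) gives data for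
`{h 0, h 1, h 2}`; but `Cr q v (S ∩ FL q)` implies `Ev q v {h 0, h 1, h 2}` by `S_IND44`
(`Cr` is inherited by subsets), against PAR5.  Else `CY q (h i)` for some `i`.  If `h j ∈ FL q` for
some `j`, NLF5 with ABL5 gives, for `a ∈ Om q (h j)`, `x ∈ Om q (h i)`, a `σ` with
`σ a = q / a`, `σ x = x`; by CYA5 (1) `σ` is trivial on `Om q (h i)`, by (K) on `Om q (h j)`, but
`q / a ≠ a`.  So all are `CY`; CYB5 for `h 0, h 1` gives `σ` with `σ a = a`, `σ x = q / x` or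
conversely; by CYA5 (1) and (K) `σ` is trivial on both, contradiction.
`threef`: four members of degree 3, 6 roots each, with the same `ℚ⟮a i⟯`, pairwise not isogenous.  If
`h i` is of type `IQT` (TYP3), IQX5 gives `IQ (a i) (a i)`, and `IQ (a i) (a j)` for `j ≠ i`, against
`quad`.  So all are in `FL q`, and `flips` for the family `h i`, `B i = {a i}` contradicts FOU5. -/
def S_EXB5 : Prop :=
  ∀ (q : ℕ) (v : AbsoluteValue Qb ℝ) (S : Set ℤ[X]), IsPrimePow q → Ab q v → S ⊆ O3 q →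
    Kr q v S → Ex q S

/-- SUB5.  The classes.  Uses `S_SLP`, `S_GIS5`.
PROOF.  `O3 q ⊆ D3 q v`: ordinary, so all slopes are `± 1` (`c = 1`); the number of roots is 2, 4 or 6.
`FO q`: full ordinary, so in `FL q`; if the degree is 1 there are 2 roots and it is in `D3 q v`, else
there are `2 g ≥ 4` roots. -/
def S_SUB5 : Prop :=
  ∀ (q : ℕ) (v : AbsoluteValue Qb ℝ), IsPrimePow q → Ab q v →
    O3 q ⊆ CL q v ∧ FO q ⊆ CL q v ∧ CL q v ⊆ GD q

/-- DEN5.  The density one set satisfies the criterion.  Uses `S_SLP`, `S_VAL4`, `S_GIS5`, `S_CCJ5`, and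
takes `∀ q v, IsPrimePow q → Ab q v → Cr q v (Sel q)` as a hypothesis; import `TJ3.GIS` (`t_GIS`),
`TJ3.GAL`.
PROOF.  `three`: members are ordinary, as in EXA5.  `quad`: let `θ`, `r` be as in `IQ a a'`.  (1) If
`σ a = q / a = κ a`, then `κ⁻¹ σ` fixes `ℚ⟮a⟯`, so `σ θ = κ θ = - θ` (CCJ5).  (2) `h` has degree 1:
otherwise there is `z ∈ Om q h`, `z ≠ a, q / a`, and `f` with `f a = q / a`, `f z = z` (`S_FULC`), and
`τ` with `τ a = z`; `f` fixes `ℚ⟮z⟯ ∋ τ θ = ± θ`, so `f θ = θ`, but `f θ = - θ` by (1).  The same for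
`h'`.  (3) So `Om q h = {a, q / a}`, and `σ a = a` iff `σ θ = θ` (by (1)), so `ℚ⟮a⟯ = ℚ⟮θ⟯` (GAL), and
in the same way `ℚ⟮a'⟯ = ℚ⟮θ⟯`.  The definition of `Sel` gives `h' = h` or `h' = tw h`, so
`GIso q h h'` (`t_GIS`), contradiction.  `flips`: `Cr` is inherited by subsets. -/
def S_DEN5 : Prop :=
  (∀ (q : ℕ) (v : AbsoluteValue Qb ℝ), IsPrimePow q → Ab q v → Cr q v (Sel q)) →
  ∀ (q : ℕ) (v : AbsoluteValue Qb ℝ), IsPrimePow q → Ab q v → Kr q v (Sel q)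

end

end Pool.Agent.TJ5
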