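import Mathlib
import Pool.Agent.TJ5.St

/-!
# TJ5, module PAR5: even relations exclude data (helper88)
-/

set_option autoImplicit false

open Polynomial

namespace Pool.Agent.TJ5

open Pool.Agent.TJ2 Pool.Agent.TJ3 Pool.Agent.TJ4

namespace PAR5_aux

/-- the list with `e k` copies of `f k` for `k` in the finite set `s` -/
noncomputable def L {n : ℕ} {α : Type*} (f : Fin n → α) (e : Fin n → ℕ) (s : Finset (Fin n)) :
    List α :=
  (s.toList.map (fun k => List.replicate (e k) (f k))).flatten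

lemma mem_L {n : ℕ} {α : Type*} (f : Fin n → α) (e : Fin n → ℕ) (s : Finset (Fin n)) {y : α}
    (hy : y ∈ L f e s) : ∃ k, y = f k := by
  unfold L at hy
  rw [List.mem_flatten] at hy
  obtain ⟨m, hm, hym⟩ := hy
  rw [List.mem_map] at hm
  obtain ⟨k, _, rfl⟩ := hm
  exact ⟨k, List.eq_of_mem_replicate hym⟩

lemma prod_L {n : ℕ} {α β : Type*} [CommMonoid β] (f : Fin n → α) (g : α → β) (e : Fin n → ℕ)
    (s : Finset (Fin n)) : ((L f e s).map g).prod = ∏ k ∈ s, g (f k) ^ e k := by
  unfold L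
  rw [List.map_flatten, List.prod_flatten, List.map_map, List.map_map]
  rw [← Finset.prod_map_toList s (fun k => g (f k) ^ e k)]
  congr 1
  refine List.map_congr_left fun k _ => ?_
  simp

end PAR5_aux

open PAR5_aux in
theorem t_PAR5 (hIND35 : S_IND35) : S_PAR5 := by
  rintro q v S hq hv hS hEv ⟨n, h, r, e, N, hmem, ⟨k0, hk0⟩, hN, hrel, hne, hnq⟩
  set f : Fin n → ℤ[X] × Qb := fun k => (h k, r k) with hf
  set l : List (ℤ[X] × Qb) := List.replicate (e k0 - 1) (f k0) ++ L f e (Finset.univ.erase k0)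
    with hl
  have hprod : (f k0).2 * (l.map Prod.snd).prod = ∏ k, r k ^ e k := by
    rw [hl, List.map_append, List.prod_append, List.map_replicate, List.prod_replicate, prod_L,
      ← mul_assoc, ← pow_succ', Nat.sub_add_cancel hk0,
      Finset.mul_prod_erase Finset.univ (fun k => (f k).2 ^ e k) (Finset.mem_univ k0)]
  have hlm : ∀ y ∈ l, ∃ k, y = f k := by
    intro y hy
    rw [hl, List.mem_append] at hy
    rcases hy with hy | hy
    · exact ⟨k0, List.eq_of_mem_replicate hy⟩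
    · exact mem_L f e _ hy
  have hr0 : ∀ k, r k ≠ 0 := fun k => (hmem k).2.1
  have hpow : ((f k0).2 * (l.map Prod.snd).prod) ^ (2 * N) =
      (q : Qb) ^ (((N * ∑ k, e k : ℕ)) : ℤ) := by
    rw [hprod, zpow_natCast, two_mul, pow_add]
    nth_rewrite 1 [hrel]
    rw [← mul_pow, ← Finset.prod_mul_distrib, mul_comm N, pow_mul, ← Finset.prod_pow_eq_pow_sum]
    congr 1
    refine Finset.prod_congr rfl fun k _ => ?_
    rw [← mul_pow, div_mul_cancel₀ _ (hr0 k)]
  obtain ⟨⟨y, hy, M, hM, hyM⟩, _⟩ := hIND35 q v S hq hv hS hEv l (f k0) (hmem k0).1 (hmem k0).2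
    (fun y hy => by
      obtain ⟨k, rfl⟩ := hlm y hy
      exact ⟨(hmem k).1, (hmem k).2⟩) (2 * N) _ (by omega) hpow
  obtain ⟨k, rfl⟩ := hlm y hy
  exact hnq k0 k M hM hyM

end Pool.Agent.TJ5
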