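import Pool.Agent.TJ5.St
import Pool.Agent.TJ2.JG
import Pool.Agent.TJ2.JA
import Pool.Agent.TJ2.JH
import Pool.Agent.TJ3.JB3
import Pool.Agent.TJ3.JF3

/-!
# POS5: the positive part
-/

set_option autoImplicit false

open Polynomial IntermediateField

namespace Pool.Agent.TJ5

open Pool.Agent.TJ2 Pool.Agent.TJ3 Pool.Agent.TJ4

namespace POS5_aux

/-- powers of an endomorphism at an eigenvector -/
lemma pow_eig {K : Type} [Field K] {V : Type} [AddCommGroup V] [Module K V]
    (F : Module.End K V) {v : V} {μ : K} (h : F v = μ • v) (M : ℕ) :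
    (F ^ M) v = μ ^ M • v := by
  induction M with
  | zero => simp
  | succ M ih => rw [pow_succ', Module.End.mul_apply, ih, map_smul, h, smul_smul, pow_succ]

end POS5_aux

/-- over an algebraically closed field -/
theorem POS5_aux.jg (hPART5 : S_PART5) (q : ℕ) (v : AbsoluteValue Qb ℝ) (S : Set ℤ[X])
    (hq : IsPrimePow q) (hv : Ab q v) (hS : S ⊆ GD q) (hC : Ev q v S)
    (K : Type) [Field K] [IsAlgClosed K] [CharZero K] (V : Type) [AddCommGroup V] [Module K V]
    [Module.Finite K V] (F : Module.End K V) (hss : F.IsSemisimple)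
    (hadm : ∀ z : K, F.charpoly.IsRoot z → Adm q S z) (j N : ℕ) (x : ExteriorAlgebra K V)
    (hN : 1 ≤ N) (hx : x ∈ ⋀[K]^(2 * j) V)
    (hFx : ExteriorAlgebra.map (F ^ N) x = (q : K) ^ (j * N) • x) :
    x ∈ Algebra.adjoin K (Deg2g F (q : K)) := by
  classical
  have hq1 : 1 ≤ q := hq.one_lt.le
  have hq0 : (q : K) ≠ 0 := by exact_mod_cast (by omega : q ≠ 0)
  have hE : ∀ e ∈ JGE F, ∃ μ : K, F e = μ • e ∧ Adm q S μ := by
    rintro v ⟨hv, μ, hμ⟩
    refine ⟨μ, hμ, hadm μ ?_⟩
    have h2 : Module.End.HasEigenvalue F μ :=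
      Module.End.hasEigenvalue_of_hasEigenvector
        ⟨Module.End.mem_eigenspace_iff.2 hμ, hv⟩
    exact (Module.End.hasEigenvalue_iff_isRoot_charpoly F μ).1 h2
  choose! lam hlam hlamA using hE
  have hmem := t_JA K V (F ^ N) (JGE F) (fun e => lam e ^ N)
    (fun e he => POS5_aux.pow_eig F (hlam e he) N) (JG_span F hss) (2 * j) x ((q : K) ^ (j * N))
    hx hFx
  have hprod : ∀ l : List V, (l.map (fun e => lam e ^ N)).prod = (l.map lam).prod ^ N := by
    intro l
    induction l with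
    | nil => simp
    | cons a l ih => rw [List.map_cons, List.prod_cons, ih, List.map_cons, List.prod_cons, mul_pow]
  have hmatch : ∀ (e : V) (l : List V) (j N : ℕ), e ∈ JGE F → (∀ e' ∈ l, e' ∈ JGE F) → 1 ≤ N →
      (lam e * (l.map lam).prod) ^ N = ((q : K) ^ j) ^ N → l.length + 1 = 2 * j →
      ∃ e' ∈ l, ∃ M : ℕ, 1 ≤ M ∧ (lam e * lam e') ^ M = (q : K) ^ M := by
    intro e l j N he hl hN hp' hlen
    obtain ⟨y, hy, M, hM, hyM⟩ := hPART5 q v S hq hv hS hC K (lam e) (l.map lam) (hlamA e he)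
      (fun y hy => by
        obtain ⟨e', he', rfl⟩ := List.mem_map.1 hy
        exact hlamA e' (hl e' he')) j N hN (by rw [List.length_map]; exact hlen) hp'
    obtain ⟨e', he', rfl⟩ := List.mem_map.1 hy
    exact ⟨e', he', M, hM, hyM⟩
  have hle : Submodule.span K {w | ∃ l : List V, l.length = 2 * j ∧
      (∀ e ∈ l, e ∈ JGE F) ∧ (l.map (fun e => lam e ^ N)).prod = (q : K) ^ (j * N) ∧
      w = (l.map (ExteriorAlgebra.ι K)).prod} ≤
      Subalgebra.toSubmodule (Algebra.adjoin K (Deg2g F (q : K))) := by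
    rw [Submodule.span_le]
    rintro w ⟨l, hl1, hl2, hl3, rfl⟩
    refine t_JB3 K V F (JGE F) lam (q : K) hq0 hlam hmatch l j N hN hl2 hl1 ?_
    rw [← hprod, hl3, pow_mul]
  exact hle hmem

theorem t_POS5 (hPART5 : S_PART5) : S_POS5 := by
  intro q v S hq hv hS hC K _ _ V _ _ _ F hss hadm j N x hN hx hFx
  have hcz : CharZero (AlgebraicClosure K) := charZero_of_injective_algebraMap
    (algebraMap K (AlgebraicClosure K)).injective
  have e1 : algebraMap K (AlgebraicClosure K) (q : K) = (q : AlgebraicClosure K) :=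
    map_natCast _ q
  refine (t_JF3 K (AlgebraicClosure K) V F (q : K) x).1 ?_
  rw [e1]
  refine POS5_aux.jg hPART5 q v S hq hv hS hC (AlgebraicClosure K)
    (TensorProduct K (AlgebraicClosure K) V)
    (LinearMap.baseChange (AlgebraicClosure K) F) (JH_semisimple F hss) ?_ j N
    (JF_phi K (AlgebraicClosure K) V x) hN (JF_phi_mem hx) ?_
  · intro z hz
    apply hadm z
    rw [LinearMap.charpoly_baseChange, Polynomial.IsRoot.def, Polynomial.eval_map_algebraMap] at hz
    exact hz
  · have h1 := JF_phi_map (L := AlgebraicClosure K) (F ^ N) x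
    rw [hFx, map_smul] at h1
    have h2 : (LinearMap.baseChange (AlgebraicClosure K) F) ^ N =
        LinearMap.baseChange (AlgebraicClosure K) (F ^ N) := by
      rw [LinearMap.baseChange_pow]
    rw [h2, h1, ← algebraMap_smul (AlgebraicClosure K) ((q : K) ^ (j * N)), map_pow, e1]

end Pool.Agent.TJ5
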