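import Pool.Agent.TJ5.St

/-!
# Module PRJ5 (MP_3af9db_ag, helper7): projection to a semi-invariant relation
-/

set_option autoImplicit false

namespace Pool.Agent.TJ5

open Pool.Agent.TJ2 Pool.Agent.TJ3 Pool.Agent.TJ4

theorem t_PRJ5 : S_PRJ5 := by
  classical
  intro Γ ι _ _ Ω _ _ bar R hbb hb hbs hR d hd hodd j a hda
  obtain ⟨ε, hε⟩ : ∃ ε : Γ → ℤ, ∀ t, ε t = if t • a = a then 1 else -1 := ⟨_, fun _ => rfl⟩
  obtain ⟨T, hT⟩ : ∃ T : Γ → Prop, ∀ t, T t ↔ (t • a = a ∨ t • a = bar j a) :=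
    ⟨_, fun _ => Iff.rfl⟩
  have hε1 : ∀ t, t • a = a → ε t = 1 := fun t h => by rw [hε, if_pos h]
  have hε2 : ∀ t, t • a = bar j a → ε t = -1 := fun t h => by
    rw [hε, if_neg]
    rw [h]
    exact hb j a
  have hT1 : T 1 := (hT 1).2 (Or.inl (one_smul Γ a))
  have hinv1 : ∀ s : Γ, s • a = a → s⁻¹ • a = a := fun s h => by
    conv_lhs => rw [← h]
    rw [inv_smul_smul]
  have hinv2 : ∀ s : Γ, s • a = bar j a → s⁻¹ • a = bar j a := fun s h => by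
    have h1 : s • bar j a = a := by rw [← hbs, h, hbb]
    conv_lhs => rw [← h1]
    rw [inv_smul_smul]
  have hTinv : ∀ s, T s → T s⁻¹ := by
    intro s hs
    rcases (hT s).1 hs with h | h
    · exact (hT _).2 (Or.inl (hinv1 s h))
    · exact (hT _).2 (Or.inr (hinv2 s h))
  have hmul : ∀ s t, T s → T t → T (s * t) ∧ ε (s * t) = ε s * ε t := by
    intro s t hs ht
    rcases (hT s).1 hs with h | h <;> rcases (hT t).1 ht with h' | h'
    · have h1 : (s * t) • a = a := by rw [mul_smul, h', h]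
      exact ⟨(hT _).2 (Or.inl h1), by rw [hε1 _ h1, hε1 _ h, hε1 _ h', one_mul]⟩
    · have h1 : (s * t) • a = bar j a := by rw [mul_smul, h', ← hbs, h]
      exact ⟨(hT _).2 (Or.inr h1), by rw [hε2 _ h1, hε1 _ h, hε2 _ h', one_mul]⟩
    · have h1 : (s * t) • a = bar j a := by rw [mul_smul, h', h]
      exact ⟨(hT _).2 (Or.inr h1), by rw [hε2 _ h1, hε2 _ h, hε1 _ h', mul_one]⟩
    · have h1 : (s * t) • a = a := by rw [mul_smul, h', ← hbs, h, hbb]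
      exact ⟨(hT _).2 (Or.inl h1), by rw [hε1 _ h1, hε2 _ h, hε2 _ h']; norm_num⟩
  have hεinv : ∀ s, T s → ε s * ε s⁻¹ = 1 := by
    intro s hs
    rw [← (hmul s s⁻¹ hs (hTinv s hs)).2, mul_inv_cancel]
    exact hε1 1 (one_smul Γ a)
  obtain ⟨f, hf⟩ : ∃ f : Γ → ∀ i, Ω i → ℤ, ∀ t, f t = fun i x => ε t * d i (t⁻¹ • x) :=
    ⟨_, fun _ => rfl⟩
  have hfin : {g | ∃ t, T t ∧ g = f t}.Finite := by
    refine (Set.finite_range (fun p : ℤˣ × (∀ i, Ω i → Ω i) =>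
      (fun i x => ((p.1 : ℤˣ) : ℤ) * d i (p.2 i x) : ∀ i, Ω i → ℤ))).subset ?_
    rintro g ⟨t, _, rfl⟩
    by_cases h : t • a = a
    · refine ⟨(1, fun i x => t⁻¹ • x), ?_⟩
      rw [hf, hε1 t h]
      rfl
    · refine ⟨(-1, fun i x => t⁻¹ • x), ?_⟩
      rw [hf, hε, if_neg h]
      rfl
  have hO : ∀ g, g ∈ hfin.toFinset ↔ ∃ t, T t ∧ g = f t := by
    intro g
    rw [Set.Finite.mem_toFinset]
    rfl
  have hfa : ∀ t, T t → f t j a = d j a := by
    intro t ht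
    rw [hf]
    change ε t * d j (t⁻¹ • a) = d j a
    rcases (hT t).1 ht with h | h
    · rw [hε1 t h, hinv1 t h, one_mul]
    · rw [hε2 t h, hinv2 t h, hodd]
      ring
  obtain ⟨Φ, hΦ⟩ : ∃ Φ : Γ → (∀ i, Ω i → ℤ) → ∀ i, Ω i → ℤ,
      ∀ s g, Φ s g = fun i x => ε s * g i (s⁻¹ • x) := ⟨_, fun _ _ => rfl⟩
  have hΦO : ∀ s, T s → ∀ g ∈ hfin.toFinset, Φ s g ∈ hfin.toFinset := by
    intro s hs g hg
    obtain ⟨t, ht, rfl⟩ := (hO g).1 hg
    refine (hO _).2 ⟨s * t, (hmul s t hs ht).1, ?_⟩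
    rw [hΦ, hf, hf]
    funext i x
    rw [(hmul s t hs ht).2, mul_inv_rev, mul_smul, mul_assoc]
  have hΦΦ : ∀ s, T s → ∀ g, Φ s (Φ s⁻¹ g) = g := by
    intro s hs g
    rw [hΦ, hΦ]
    funext i x
    change ε s * (ε s⁻¹ * g i (s⁻¹⁻¹ • (s⁻¹ • x))) = g i x
    rw [inv_inv, smul_inv_smul, ← mul_assoc, hεinv s hs, one_mul]
  have hΦΦ' : ∀ s, T s → ∀ g, Φ s⁻¹ (Φ s g) = g := by
    intro s hs g
    have h1 := hΦΦ s⁻¹ (hTinv s hs) g
    rwa [inv_inv] at h1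
  have hkey : ∀ s, T s → ∀ i (x : Ω i), (∑ g ∈ hfin.toFinset, g i x) =
      ε s * ∑ g ∈ hfin.toFinset, g i (s⁻¹ • x) := by
    intro s hs i x
    rw [Finset.mul_sum]
    refine Finset.sum_nbij' (Φ s⁻¹) (Φ s) (hΦO _ (hTinv s hs)) (hΦO s hs)
      (fun g _ => hΦΦ s hs g) (fun g _ => hΦΦ' s hs g) ?_
    intro g _
    have h1 := congrFun (congrFun (hΦΦ s hs g) i) x
    rw [hΦ s] at h1
    exact h1.symm
  refine ⟨fun i x => ∑ g ∈ hfin.toFinset, g i x, ?_, ?_, ?_, ?_, ?_⟩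
  · have h1 : (fun i x => ∑ g ∈ hfin.toFinset, g i x : ∀ i, Ω i → ℤ) =
        ∑ g ∈ hfin.toFinset, g := by
      funext i x
      rw [Finset.sum_apply, Finset.sum_apply]
    rw [h1]
    refine R.sum_mem fun g hg => ?_
    obtain ⟨t, ht, rfl⟩ := (hO g).1 hg
    rcases (hT t).1 ht with h | h
    · have h2 : f t = fun i x => d i (t⁻¹ • x) := by
        rw [hf, hε1 t h]
        funext i x
        rw [one_mul]
      rw [h2]
      exact hR t d hd
    · have h2 : f t = - fun i x => d i (t⁻¹ • x) := by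
        rw [hf, hε2 t h]
        funext i x
        change -1 * d i (t⁻¹ • x) = - d i (t⁻¹ • x)
        rw [neg_one_mul]
      rw [h2]
      exact R.neg_mem (hR t d hd)
  · intro i x
    change ∑ g ∈ hfin.toFinset, g i (bar i x) = - ∑ g ∈ hfin.toFinset, g i x
    rw [← Finset.sum_neg_distrib]
    refine Finset.sum_congr rfl fun g hg => ?_
    obtain ⟨t, ht, rfl⟩ := (hO g).1 hg
    rw [hf]
    change ε t * d i (t⁻¹ • bar i x) = - (ε t * d i (t⁻¹ • x))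
    rw [← hbs, hodd, mul_neg]
  · change ∑ g ∈ hfin.toFinset, g j a ≠ 0
    have h1 : ∑ g ∈ hfin.toFinset, g j a = hfin.toFinset.card * d j a := by
      rw [Finset.sum_congr rfl (g := fun _ => d j a) fun g hg => ?_, Finset.sum_const,
        nsmul_eq_mul]
      obtain ⟨t, ht, rfl⟩ := (hO g).1 hg
      exact hfa t ht
    rw [h1]
    refine mul_ne_zero ?_ hda
    have h2 : f 1 ∈ hfin.toFinset := (hO _).2 ⟨1, hT1, rfl⟩
    exact_mod_cast (Finset.card_pos.2 ⟨_, h2⟩).ne'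
  · intro s hs i x
    have h1 := hkey s ((hT s).2 (Or.inl hs)) i (s • x)
    rw [inv_smul_smul, hε1 s hs, one_mul] at h1
    exact h1
  · intro s hs i x
    have h1 := hkey s ((hT s).2 (Or.inr hs)) i (s • x)
    rw [inv_smul_smul, hε2 s hs, neg_one_mul] at h1
    exact h1

end Pool.Agent.TJ5
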