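import Pool.Agent.TJ5.St
import Pool.Agent.TJ4.SLP

/-!
# Slopes are rational (module RAT5 of project TJ5)
-/

open Polynomial IntermediateField

namespace Pool.Agent.TJ5

open Pool.Agent.TJ2 Pool.Agent.TJ3 Pool.Agent.TJ4

noncomputable section

namespace RAT5_aux

lemma int_le {v : AbsoluteValue Qb ℝ} (hv : IsNonarchimedean v) (n : ℤ) : v (n : Qb) ≤ 1 :=
  Pool.Agent.TJ4.SLP_aux.integral_le hv (isIntegral_algebraMap (R := ℤ) (A := Qb) (x := n))

/-- integers prime to `p` are units -/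
lemma int_unit {v : AbsoluteValue Qb ℝ} (hv : IsNonarchimedean v) {p : ℕ} (hp : p.Prime)
    (hlt : v (p : Qb) < 1) {n : ℤ} (hn : ¬ (p : ℤ) ∣ n) : v (n : Qb) = 1 := by
  obtain ⟨u, w, h⟩ := (Nat.prime_iff_prime_int.mp hp).coprime_iff_not_dvd.mpr hn
  apply le_antisymm (int_le hv n)
  have h1 : (u : Qb) * (p : Qb) + (w : Qb) * (n : Qb) = 1 := by
    exact_mod_cast congrArg (fun z : ℤ => (z : Qb)) h
  have h2 := hv ((u : Qb) * (p : Qb)) ((w : Qb) * (n : Qb))
  rw [h1, map_one, map_mul, map_mul] at h2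
  have h3 : v (u : Qb) * v (p : Qb) < 1 := by
    calc v (u : Qb) * v (p : Qb) ≤ 1 * v (p : Qb) :=
          mul_le_mul_of_nonneg_right (int_le hv u) (v.nonneg _)
      _ < 1 := by rw [one_mul]; exact hlt
  have h4 : v (w : Qb) * v (n : Qb) ≤ v (n : Qb) := by
    calc v (w : Qb) * v (n : Qb) ≤ 1 * v (n : Qb) :=
          mul_le_mul_of_nonneg_right (int_le hv w) (v.nonneg _)
      _ = _ := one_mul _
  rcases le_max_iff.mp h2 with h5 | h5
  · exact absurd h5 (not_le.mpr h3)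
  · exact h5.trans h4

lemma int_log {v : AbsoluteValue Qb ℝ} (hv : IsNonarchimedean v) {p : ℕ} (hp : p.Prime)
    (hlt : v (p : Qb) < 1) {n : ℤ} (hn : n ≠ 0) :
    ∃ m : ℕ, Real.log (v (n : Qb)) = m * Real.log (v (p : Qb)) := by
  have hfin : FiniteMultiplicity (p : ℤ) n := by
    rw [Int.finiteMultiplicity_iff]
    exact ⟨by simpa using hp.one_lt.ne', hn⟩
  obtain ⟨c, hc, hnd⟩ := hfin.exists_eq_pow_mul_and_not_dvd
  refine ⟨multiplicity (p : ℤ) n, ?_⟩
  have h1 : (n : Qb) = (p : Qb) ^ multiplicity (p : ℤ) n * (c : Qb) := by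
    conv_lhs => rw [hc]
    push_cast
    rfl
  rw [h1, map_mul, map_pow, int_unit hv hp hlt hnd, mul_one, Real.log_pow]

lemma rat_log {v : AbsoluteValue Qb ℝ} (hv : IsNonarchimedean v) {p : ℕ} (hp : p.Prime)
    (hlt : v (p : Qb) < 1) {x : ℚ} (hx : x ≠ 0) :
    ∃ k : ℤ, Real.log (v (algebraMap ℚ Qb x)) = k * Real.log (v (p : Qb)) := by
  obtain ⟨m, hm⟩ := int_log hv hp hlt (Rat.num_ne_zero.mpr hx)
  obtain ⟨m', hm'⟩ := int_log hv hp hlt (n := (x.den : ℤ)) (by exact_mod_cast x.den_ne_zero)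
  refine ⟨(m : ℤ) - m', ?_⟩
  have h1 : algebraMap ℚ Qb x = (x.num : Qb) / ((x.den : ℤ) : Qb) := by
    conv_lhs => rw [← Rat.num_div_den x]
    rw [map_div₀]
    push_cast
    simp
  have h2 : v (x.num : Qb) ≠ 0 := by
    rw [Ne, AbsoluteValue.eq_zero]
    exact_mod_cast Rat.num_ne_zero.mpr hx
  have h3 : v ((x.den : ℤ) : Qb) ≠ 0 := by
    rw [Ne, AbsoluteValue.eq_zero]
    exact_mod_cast x.den_ne_zero
  rw [h1, map_div₀ v, Real.log_div h2 h3, hm, hm']
  push_cast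
  ring

lemma alg_log {v : AbsoluteValue Qb ℝ} (hv : IsNonarchimedean v) {p : ℕ} (hp : p.Prime)
    (hlt : v (p : Qb) < 1) {b : Qb} (hb : b ≠ 0) :
    ∃ r : ℚ, Real.log (v b) = r * Real.log (v (p : Qb)) := by
  have hint : IsIntegral ℚ b := (AlgebraicClosure.isAlgebraic ℚ).isAlgebraic b |>.isIntegral
  obtain ⟨P, hP⟩ : ∃ P, P = minpoly ℚ b := ⟨_, rfl⟩
  have hP0 : P ≠ 0 := by
    rw [hP]
    exact minpoly.ne_zero hint
  have hsum : ∑ k ∈ P.support, algebraMap ℚ Qb (P.coeff k) * b ^ k = 0 := by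
    have h1 := minpoly.aeval ℚ b
    rw [← hP, aeval_def, eval₂_eq_sum, sum_def] at h1
    exact h1
  have hne : P.support.Nonempty := by
    rw [Finset.nonempty_iff_ne_empty, Ne, Polynomial.support_eq_empty]
    exact hP0
  have hpos : ∀ k ∈ P.support, algebraMap ℚ Qb (P.coeff k) * b ^ k ≠ 0 := by
    intro k hk
    refine mul_ne_zero ?_ (pow_ne_zero k hb)
    rw [Ne, FaithfulSMul.algebraMap_eq_zero_iff]
    exact mem_support_iff.mp hk
  obtain ⟨i, hi, hmax⟩ := Finset.exists_max_image P.support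
    (fun k => v (algebraMap ℚ Qb (P.coeff k) * b ^ k)) hne
  have he : (P.support.erase i).Nonempty := by
    rw [Finset.nonempty_iff_ne_empty]
    intro h1
    apply hpos i hi
    have h2 := Finset.add_sum_erase P.support (fun k => algebraMap ℚ Qb (P.coeff k) * b ^ k) hi
    rw [h1, Finset.sum_empty, add_zero, hsum] at h2
    exact h2
  obtain ⟨j, hj, hle⟩ := hv.finset_image_add_of_nonempty
    (fun k => algebraMap ℚ Qb (P.coeff k) * b ^ k) he
  have hji : j ≠ i := Finset.ne_of_mem_erase hj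
  have hjs : j ∈ P.support := Finset.mem_of_mem_erase hj
  have heq : v (algebraMap ℚ Qb (P.coeff i) * b ^ i) = v (algebraMap ℚ Qb (P.coeff j) * b ^ j) := by
    apply le_antisymm _ (hmax j hjs)
    refine le_trans (le_of_eq ?_) hle
    have h2 := Finset.add_sum_erase P.support (fun k => algebraMap ℚ Qb (P.coeff k) * b ^ k) hi
    rw [hsum] at h2
    rw [← v.map_neg, eq_neg_of_add_eq_zero_left h2, neg_neg]
  obtain ⟨ki, hki⟩ := rat_log hv hp hlt (mem_support_iff.mp hi)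
  obtain ⟨kj, hkj⟩ := rat_log hv hp hlt (mem_support_iff.mp hjs)
  have hvb : v b ≠ 0 := by
    rw [Ne, AbsoluteValue.eq_zero]
    exact hb
  have hvi : ∀ k ∈ P.support, v (algebraMap ℚ Qb (P.coeff k)) ≠ 0 := by
    intro k hk
    rw [Ne, AbsoluteValue.eq_zero, FaithfulSMul.algebraMap_eq_zero_iff]
    exact mem_support_iff.mp hk
  have hl := congrArg Real.log heq
  rw [map_mul, map_mul, map_pow, map_pow, Real.log_mul (hvi i hi) (pow_ne_zero i hvb),
    Real.log_mul (hvi j hjs) (pow_ne_zero j hvb), Real.log_pow, Real.log_pow, hki, hkj] at hl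
  refine ⟨((kj : ℚ) - ki) / ((i : ℚ) - j), ?_⟩
  have hij : ((i : ℝ) - j) ≠ 0 := by
    rw [sub_ne_zero]
    exact_mod_cast hji.symm
  push_cast
  rw [div_mul_eq_mul_div, eq_div_iff hij]
  linear_combination hl

end RAT5_aux

open RAT5_aux in
theorem t_RAT5 : S_RAT5 := by
  intro q v hq hv a ha σ
  have hp : q.minFac.Prime := Nat.minFac_prime hq.one_lt.ne'
  have hσ : σ a ≠ 0 := by
    rw [Ne, map_eq_zero]
    exact ha
  obtain ⟨r, hr⟩ := alg_log hv.na hp hv.lt hσ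
  have hq0 : (q : Qb) ≠ 0 := by
    have : q ≠ 0 := hq.pos.ne'
    exact_mod_cast this
  obtain ⟨e, he⟩ := alg_log hv.na hp hv.lt hq0
  refine ⟨1 - 2 * (r / e), ?_⟩
  unfold slp
  have hlp : Real.log (v ((q.minFac : ℕ) : Qb)) ≠ 0 := by
    have h0 : ((q.minFac : ℕ) : Qb) ≠ 0 := by exact_mod_cast hp.ne_zero
    exact (Real.log_neg (v.pos_iff.mpr h0) hv.lt).ne
  rw [hr, he, mul_div_mul_right _ _ hlp]
  push_cast
  rfl

end

end Pool.Agent.TJ5
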