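import Pool.Agent.TJ5.St
import Pool.Agent.TJ3.GAL

/-!
# SPL5: the same field, the same number of roots and the same splitting field
-/

set_option autoImplicit false

open Polynomial IntermediateField

namespace Pool.Agent.TJ5

open Pool.Agent.TJ2 Pool.Agent.TJ3 Pool.Agent.TJ4

namespace SPL5_aux

/-- two elements with the same field: automorphisms agree on `a` iff they agree on `a'` -/
lemma agree {a a' : Qb} (h : ℚ⟮a⟯ = ℚ⟮a'⟯) (σ τ : Gq) : σ a = τ a ↔ σ a' = τ a' := by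
  have h1 := (t_GAL {a} {a'}).1 h (τ⁻¹ * σ)
  simp only [Set.mem_singleton_iff, forall_eq] at h1
  have e : ∀ x : Qb, (τ⁻¹ * σ) x = x ↔ σ x = τ x := by
    intro x
    constructor
    · intro hx
      have := congrArg τ hx
      rw [AlgEquiv.mul_apply] at this
      rw [← this]
      exact (AlgEquiv.apply_symm_apply τ (σ x)).symm
    · intro hx
      rw [AlgEquiv.mul_apply, hx]
      exact AlgEquiv.symm_apply_apply τ x
  rw [e, e] at h1
  exact h1

lemma fixes {X X' : Set Qb} {a a' : Qb} (h : ℚ⟮a⟯ = ℚ⟮a'⟯) (ha : a ∈ X)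
    (hX : ∀ x ∈ X, ∀ σ : Gq, σ x ∈ X) (hX' : ∀ y ∈ X', ∃ σ : Gq, σ a' = y) (σ : Gq)
    (hs : ∀ x ∈ X, σ x = x) : ∀ y ∈ X', σ y = y := by
  intro y hy
  obtain ⟨τ, rfl⟩ := hX' y hy
  have h1 : (σ * τ) a = τ a := hs (τ a) (hX a ha τ)
  exact (agree h (σ * τ) τ).1 h1

end SPL5_aux

open SPL5_aux in
theorem t_SPL5 (hGIS5 : S_GIS5) : S_SPL5 := by
  intro q h h' a a' hq hh hh' ha ha' he
  obtain ⟨-, hG, -⟩ := hGIS5 q hq
  have c1 := (hG h hh).2.2.2
  have c2 := (hG h' hh').2.2.2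
  have t1 : ∀ x ∈ Om q h, ∃ σ : Gq, σ a = x := fun x hx => hh.2.2.1 a ha x hx
  have t2 : ∀ x ∈ Om q h', ∃ σ : Gq, σ a' = x := fun x hx => hh'.2.2.1 a' ha' x hx
  constructor
  · refine Set.ncard_congr (fun x hx => (t1 x hx).choose a') ?_ ?_ ?_
    · intro x hx
      exact c2 a' ha' _
    · intro x y hx hy hxy
      have h1 := (agree he _ _).2 hxy
      rw [(t1 x hx).choose_spec, (t1 y hy).choose_spec] at h1
      exact h1
    · intro y hy
      obtain ⟨σ, hσ⟩ := t2 y hy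
      refine ⟨σ a, c1 a ha σ, ?_⟩
      rw [← hσ]
      exact (agree he _ _).1 (t1 (σ a) (c1 a ha σ)).choose_spec
  · refine (t_GAL (Om q h) (Om q h')).2 fun σ => ⟨?_, ?_⟩
    · exact fixes he ha c1 t2 σ
    · exact fixes he.symm ha' c2 t1 σ

end Pool.Agent.TJ5
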