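import Pool.Agent.TJ5.St
import Pool.Agent.TJ4.GIS4

/-!
# SUB5: the classes
-/

set_option autoImplicit false

open Polynomial IntermediateField

namespace Pool.Agent.TJ5

open Pool.Agent.TJ2 Pool.Agent.TJ3 Pool.Agent.TJ4

noncomputable section

theorem t_SUB5 : S_SLP → S_GIS5 → S_SUB5 := by
  intro hSLP hGIS q v hq hv
  obtain ⟨-, -, -, -, P, -, -, -, hP⟩ := hSLP q v hq hv
  obtain ⟨hFG, -⟩ := hGIS q hq
  have hFOFL : FO q ⊆ FL q := (t_GIS4 q hq).1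
  have hc : ∀ h : ℤ[X], h ∈ Ord h.natDegree q → ∃ c : ℝ, ∀ a ∈ Om q h, ∀ σ : Gq,
      slp q v a σ = c ∨ slp q v a σ = 0 ∨ slp q v a σ = -c := by
    intro h hh
    refine ⟨1, fun a ha σ => ?_⟩
    obtain ⟨h1, h2⟩ := hP h.natDegree h hh a ha σ
    rcases h2 with h2 | h2
    · left; rw [h1, h2]; simp
    · right; right; rw [h1, h2]; simp
  refine ⟨?_, ?_, ?_⟩
  · rintro h ⟨hG, hO, hn, hd⟩
    right
    refine ⟨hG, ?_⟩
    have h1 : 1 ≤ h.natDegree := hG.1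
    have h2 : h.natDegree = 1 ∨ h.natDegree = 2 ∨ h.natDegree = 3 := by omega
    rcases h2 with h2 | h2 | h2
    · right; exact ⟨Or.inl (by rw [hn, h2]), hc h hO⟩
    · left; exact ⟨by rw [hn, h2], hO⟩
    · right; exact ⟨Or.inr (by rw [hn, h2]), hc h hO⟩
  · intro h hh
    have hFLh := hFOFL hh
    obtain ⟨hd, hO, hF⟩ := hh
    have hn : (Om q h).ncard = 2 * h.natDegree := hF.1
    by_cases h2 : h.natDegree = 1
    · right
      exact ⟨hFG hFLh, Or.inr ⟨Or.inl (by rw [hn, h2]), hc h hO⟩⟩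
    · left
      exact ⟨hFLh, by rw [hn]; omega⟩
  · rintro h (⟨h1, -⟩ | ⟨h1, -⟩)
    · exact hFG h1
    · exact h1

end

end Pool.Agent.TJ5
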