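import Pool.Agent.TJ5.St

/-!
# TB15: the sums of the coefficients vanish
-/

namespace Pool.Agent.TJ5

open Pool.Agent.TJ2 Pool.Agent.TJ3 Pool.Agent.TJ4

namespace TB15_aux

/-- the sign as a real number -/
def sg (u : ℤˣ) : ℝ := ((u : ℤ) : ℝ)

lemma sg_mul (u w : ℤˣ) : sg (u * w) = sg u * sg w := by
  unfold sg
  push_cast
  ring

lemma sg_sq (u : ℤˣ) : sg u * sg u = 1 := by
  rcases Int.units_eq_one_or u with h | h <;> simp [sg, h]

lemma sg_neg_one : sg (-1) = -1 := by simp [sg]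

lemma sum_char {Γ : Type} [Group Γ] [Fintype Γ] (ψ : Γ →* ℤˣ) (h : ∃ g, ψ g ≠ 1) :
    ∑ g, sg (ψ g) = 0 := by
  obtain ⟨s, hs⟩ := h
  have hs' : ψ s = -1 := (Int.units_eq_one_or _).resolve_left hs
  have h1 : ∑ g, sg (ψ g) = ∑ g, sg (ψ (g * s)) :=
    (Fintype.sum_equiv (Equiv.mulRight s) _ _ (fun g => rfl)).symm
  have h2 : ∑ g, sg (ψ (g * s)) = - ∑ g, sg (ψ g) := by
    rw [← Finset.sum_neg_distrib]
    refine Finset.sum_congr rfl fun g _ => ?_
    rw [map_mul, hs', sg_mul, sg_neg_one]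
    ring
  linarith

lemma sum_perm_char (hTBP5 : S_TBP5) {Γ : Type} [Group Γ] [Fintype Γ]
    (π : Γ →* Equiv.Perm (Fin 3)) (ψ : Γ →* ℤˣ) (hπ : ∀ i j, ∃ g, π g i = j)
    (h : ∃ g, ψ g ≠ 1) (e : Fin 3 → ℝ) (i : Fin 3) :
    ∑ g, sg (ψ g) * e (π g i) = 0 := by
  obtain ⟨s, hsi, hs⟩ := hTBP5 Γ π ψ i hπ h
  have h1 : ∑ g, sg (ψ g) * e (π g i) = ∑ g, sg (ψ (g * s)) * e (π (g * s) i) :=
    (Fintype.sum_equiv (Equiv.mulRight s) _ _ (fun g => rfl)).symm
  have h2 : ∑ g, sg (ψ (g * s)) * e (π (g * s) i) = - ∑ g, sg (ψ g) * e (π g i) := by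
    rw [← Finset.sum_neg_distrib]
    refine Finset.sum_congr rfl fun g _ => ?_
    rw [map_mul, map_mul, hs, sg_mul, sg_neg_one, Equiv.Perm.mul_apply, hsi]
    ring
  linarith

lemma sum_perm {Γ : Type} [Group Γ] [Fintype Γ]
    (π : Γ →* Equiv.Perm (Fin 3)) (hπ : ∀ i j, ∃ g, π g i = j) (e : Fin 3 → ℝ) (i : Fin 3) :
    3 * ∑ g, e (π g i) = (Fintype.card Γ : ℝ) * ∑ j, e j := by
  have hc : ∀ j, ∑ g, e (π g j) = ∑ g, e (π g i) := by
    intro j
    obtain ⟨h, hh⟩ := hπ i j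
    have h1 : ∑ g, e (π g i) = ∑ g, e (π (g * h) i) :=
      (Fintype.sum_equiv (Equiv.mulRight h) _ _ (fun g => rfl)).symm
    rw [h1]
    refine Finset.sum_congr rfl fun g _ => ?_
    rw [map_mul, Equiv.Perm.mul_apply, hh]
  have h2 : ∑ j, ∑ g, e (π g j) = (Fintype.card Γ : ℝ) * ∑ j, e j := by
    rw [Finset.sum_comm]
    have : ∀ g : Γ, ∑ j, e (π g j) = ∑ j, e j := fun g => Equiv.sum_comp (π g) e
    simp only [this]
    rw [Finset.sum_const, Finset.card_univ, nsmul_eq_mul]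
  rw [← h2]
  simp only [hc]
  rw [Finset.sum_const, Finset.card_univ, nsmul_eq_mul, Fintype.card_fin]
  norm_num

lemma mul_ne {Γ : Type} [Group Γ] (χ χ' : Γ →* ℤˣ) (h : χ ≠ χ') : ∃ g, (χ * χ') g ≠ 1 := by
  by_contra hc
  push Not at hc
  apply h
  ext g
  have := hc g
  rw [MonoidHom.mul_apply] at this
  rcases Int.units_eq_one_or (χ g) with h1 | h1 <;>
    rcases Int.units_eq_one_or (χ' g) with h2 | h2 <;> simp_all

end TB15_aux

open TB15_aux in
theorem t_TB15 (hTBP5 : S_TBP5) : S_TB15 := by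
  intro Γ _ _ ι₁ ι₃ _ _ χ₁ ε₁ c₁ χ₃ π ε₃ c₃ h11 h33 h13 hπ hε₁ hε₃ hrel
  classical
  have : Fintype Γ := Fintype.ofFinite Γ
  have hcard : (Fintype.card Γ : ℝ) ≠ 0 := by
    exact_mod_cast Fintype.card_ne_zero
  -- the general sum
  have key : ∀ χ : Γ →* ℤˣ,
      (∑ k, c₁ k * ε₁ k * ∑ g, sg ((χ * χ₁ k) g)) +
        ∑ k, ∑ i, c₃ k i * ∑ g, sg ((χ * χ₃ k) g) * ε₃ k (π k g i) = 0 := by
    intro χ
    have h0 : ∑ g, sg (χ g) * ((∑ k, c₁ k * (((χ₁ k g : ℤˣ) : ℤ) : ℝ) * ε₁ k) +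
      ∑ k, ∑ i, c₃ k i * (((χ₃ k g : ℤˣ) : ℤ) : ℝ) * ε₃ k (π k g i)) = 0 := by
      refine Finset.sum_eq_zero fun g _ => ?_
      rw [hrel g, mul_zero]
    rw [← h0]
    simp only [mul_add, Finset.sum_add_distrib, Finset.mul_sum]
    congr 1
    · rw [Finset.sum_comm]
      refine Finset.sum_congr rfl fun g _ => Finset.sum_congr rfl fun k _ => ?_
      rw [MonoidHom.mul_apply, sg_mul]
      unfold sg
      ring
    · symm
      rw [Finset.sum_comm]
      refine Finset.sum_congr rfl fun x _ => ?_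
      rw [Finset.sum_comm]
      refine Finset.sum_congr rfl fun i _ => Finset.sum_congr rfl fun g _ => ?_
      rw [MonoidHom.mul_apply, sg_mul]
      unfold sg
      ring
  refine ⟨fun j => ?_, fun j => ?_⟩
  · have h := key (χ₁ j)
    have hz3 : ∑ k, ∑ i, c₃ k i * ∑ g, sg ((χ₁ j * χ₃ k) g) * ε₃ k (π k g i) = 0 := by
      refine Finset.sum_eq_zero fun k _ => Finset.sum_eq_zero fun i _ => ?_
      rw [sum_perm_char hTBP5 (π k) _ (hπ k) (mul_ne _ _ (h13 j k)), mul_zero]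
    rw [hz3, add_zero, Finset.sum_eq_single j] at h
    · have hs : ∑ g, sg ((χ₁ j * χ₁ j) g) = (Fintype.card Γ : ℝ) := by
        have : ∀ g, sg ((χ₁ j * χ₁ j) g) = 1 := fun g => by
          rw [MonoidHom.mul_apply, sg_mul, sg_sq]
        simp only [this]
        rw [Finset.sum_const, Finset.card_univ, nsmul_eq_mul, mul_one]
      rw [hs] at h
      rcases mul_eq_zero.mp h with h | h
      · exact (mul_eq_zero.mp h).resolve_right (hε₁ j)
      · exact absurd h hcard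
    · intro k _ hk
      rw [sum_char _ (mul_ne _ _ (h11 j k (Ne.symm hk))), mul_zero]
    · intro hj
      exact absurd (Finset.mem_univ j) hj
  · have h := key (χ₃ j)
    have hz1 : ∑ k, c₁ k * ε₁ k * ∑ g, sg ((χ₃ j * χ₁ k) g) = 0 := by
      refine Finset.sum_eq_zero fun k _ => ?_
      rw [sum_char _ (mul_ne _ _ (Ne.symm (h13 k j))), mul_zero]
    rw [hz1, zero_add, Finset.sum_eq_single j] at h
    · have hs : ∀ i, ∑ g, sg ((χ₃ j * χ₃ j) g) * ε₃ j (π j g i)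
          = (Fintype.card Γ : ℝ) * (∑ l, ε₃ j l) / 3 := by
        intro i
        have h1 := sum_perm (π j) (hπ j) (ε₃ j) i
        have h2 : ∑ g, sg ((χ₃ j * χ₃ j) g) * ε₃ j (π j g i) = ∑ g, ε₃ j (π j g i) := by
          refine Finset.sum_congr rfl fun g _ => ?_
          rw [MonoidHom.mul_apply, sg_mul, sg_sq, one_mul]
        rw [h2]
        linarith
      simp only [hs] at h
      rw [← Finset.sum_mul] at h
      rcases mul_eq_zero.mp h with h | h
      · exact h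
      · exfalso
        have : (Fintype.card Γ : ℝ) * (∑ l, ε₃ j l) = 0 := by linarith
        rcases mul_eq_zero.mp this with h | h
        · exact hcard h
        · exact hε₃ j h
    · intro k _ hk
      refine Finset.sum_eq_zero fun i _ => ?_
      rw [sum_perm_char hTBP5 (π k) _ (hπ k) (mul_ne _ _ (h33 j k (Ne.symm hk))), mul_zero]
    · intro hj
      exact absurd (Finset.mem_univ j) hj

end Pool.Agent.TJ5
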