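import Pool.Agent.TJ5.St

/-!
# TB25: the independence (project TJ5)
-/

namespace Pool.Agent.TJ5

open Pool.Agent.TJ2 Pool.Agent.TJ3 Pool.Agent.TJ4

noncomputable section

namespace TB25_aux

lemma perm_cases : ∀ τ : Equiv.Perm (Fin 3), (∀ i, τ (τ (τ i)) = i) ∨
    ∃ i₁, τ i₁ = i₁ ∧ Equiv.Perm.sign τ = -1 ∧
      ∀ i, i ≠ i₁ → ∀ j, j ≠ i₁ → j = i ∨ j = τ i := by
  decide

lemma perm_fix : ∀ (τ ρ : Equiv.Perm (Fin 3)) (i : Fin 3), τ i = i →
    Equiv.Perm.sign τ = -1 → ρ i = i → ρ = 1 ∨ ρ = τ := by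
  decide

/-- a sign as a real number -/
def sr (u : ℤˣ) : ℝ := ((u : ℤ) : ℝ)

lemma sr_mul (u v : ℤˣ) : sr (u * v) = sr u * sr v := by simp [sr]

lemma sr_one : sr 1 = 1 := by simp [sr]

lemma sr_neg_one : sr (-1) = -1 := by simp [sr]

lemma sr_cases (u : ℤˣ) : (u = 1 ∧ sr u = 1) ∨ (u = -1 ∧ sr u = -1) := by
  rcases Int.units_eq_one_or u with h | h
  · left; exact ⟨h, by rw [h, sr_one]⟩
  · right; exact ⟨h, by rw [h, sr_neg_one]⟩

lemma sr_ne (u : ℤˣ) : sr u ≠ 0 := by
  rcases sr_cases u with ⟨_, h⟩ | ⟨_, h⟩ <;> rw [h] <;> norm_num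

lemma sr_sq (u : ℤˣ) : sr u * sr u = 1 := by
  rcases sr_cases u with ⟨_, h⟩ | ⟨_, h⟩ <;> rw [h] <;> norm_num

/-- the shape of an odd function on three points -/
lemma shape (b : Fin 3 → ℝ) (τ : Equiv.Perm (Fin 3)) (hτ : ∀ i, b (τ i) = - b i)
    (hb : ∃ i, b i ≠ 0) :
    ∃ i₁, τ i₁ = i₁ ∧ Equiv.Perm.sign τ = -1 ∧ b i₁ = 0 ∧ ∀ i, i ≠ i₁ → b i ≠ 0 := by
  obtain ⟨i, hi⟩ := hb
  rcases perm_cases τ with h | ⟨i₁, h1, h2, h3⟩
  · exfalso
    apply hi
    have := hτ (τ (τ i))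
    rw [h i, hτ (τ i), hτ i] at this
    linarith
  · have h0 : b i₁ = 0 := by
      have := hτ i₁
      rw [h1] at this
      linarith
    refine ⟨i₁, h1, h2, h0, ?_⟩
    intro l hl
    have hii : i ≠ i₁ := by
      rintro rfl
      exact hi h0
    rcases h3 i hii l hl with h | h
    · rw [h]; exact hi
    · rw [h, hτ i]; exact neg_ne_zero.mpr hi

lemma shape_sign (b : Fin 3 → ℝ) (τ : Equiv.Perm (Fin 3)) (hτ : ∀ i, b (τ i) = - b i)
    (i₁ : Fin 3) (h1 : τ i₁ = i₁) (h2 : Equiv.Perm.sign τ = -1) (h0 : b i₁ = 0)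
    (hn : ∀ i, i ≠ i₁ → b i ≠ 0) (ρ : Equiv.Perm (Fin 3)) (u : ℤˣ)
    (hρ : ∀ i, b (ρ i) = sr u * b i) : ρ i₁ = i₁ ∧ u = Equiv.Perm.sign ρ := by
  have hf : ρ i₁ = i₁ := by
    by_contra hh
    apply hn _ hh
    rw [hρ, h0, mul_zero]
  refine ⟨hf, ?_⟩
  obtain ⟨l, hl⟩ : ∃ l : Fin 3, l ≠ i₁ := exists_ne i₁
  have hbl := hn l hl
  rcases perm_fix τ ρ i₁ h1 h2 hf with h | h
  · rw [h, Equiv.Perm.sign_one]
    rcases sr_cases u with ⟨hu, _⟩ | ⟨_, hu⟩
    · exact hu
    · exfalso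
      have := hρ l
      rw [h, hu, Equiv.Perm.one_apply] at this
      apply hbl
      linarith
  · rw [h, h2]
    rcases sr_cases u with ⟨_, hu⟩ | ⟨hu, _⟩
    · exfalso
      have := hρ l
      rw [h, hu, hτ l] at this
      apply hbl
      linarith
    · exact hu

/-- two transitive actions on three points with nested stabilisers have the same sign -/
lemma same_sign {Γ : Type} [Group Γ] (π π' : Γ →* Equiv.Perm (Fin 3)) (i₀ i₁ : Fin 3)
    (h1 : ∀ i j, ∃ g, π g i = j) (h2 : ∀ i j, ∃ g, π' g i = j)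
    (hs : ∀ g, π g i₀ = i₀ → π' g i₁ = i₁) (g : Γ) :
    Equiv.Perm.sign (π g) = Equiv.Perm.sign (π' g) := by
  classical
  choose r hr using fun x => h1 i₀ x
  let F : Fin 3 → Fin 3 := fun x => π' (r x) i₁
  have key : ∀ g, F (π g i₀) = π' g i₁ := by
    intro g
    have h3 : π ((r (π g i₀))⁻¹ * g) i₀ = i₀ := by
      rw [map_mul, Equiv.Perm.mul_apply, map_inv, Equiv.Perm.inv_eq_iff_eq]
      exact (hr (π g i₀)).symm
    have h4 := hs _ h3
    rw [map_mul, Equiv.Perm.mul_apply, map_inv, Equiv.Perm.inv_eq_iff_eq] at h4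
    exact h4.symm
  have hF : ∀ g x, F (π g x) = π' g (F x) := by
    intro g x
    have h5 : π g x = π (g * r x) i₀ := by
      rw [map_mul, Equiv.Perm.mul_apply, hr x]
    rw [h5, key, map_mul, Equiv.Perm.mul_apply]
  have hsurj : Function.Surjective F := by
    intro y
    obtain ⟨g, hg⟩ := h2 i₁ y
    exact ⟨π g i₀, by rw [key, hg]⟩
  have hbij : Function.Bijective F := Finite.surjective_iff_bijective.mp hsurj
  let E : Equiv.Perm (Fin 3) := Equiv.ofBijective F hbij
  have hE : E * π g = π' g * E := by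
    ext x
    simp only [Equiv.Perm.mul_apply]
    have := hF g x
    simpa [E] using congrArg Fin.val this
  have h6 := congrArg Equiv.Perm.sign hE
  rw [Equiv.Perm.sign_mul, Equiv.Perm.sign_mul, mul_comm] at h6
  exact mul_right_cancel h6

end TB25_aux

open TB25_aux in
theorem t_TB25 (hTBP5 : S_TBP5) : S_TB25 := by
  intro Γ _ _ ι _ χ π m₀ c hχ htr hsum hrel
  classical
  by_contra hne
  push Not at hne
  obtain ⟨j, i₀, hj⟩ := hne
  haveI := Fintype.ofFinite Γ
  let H : Finset Γ := Finset.univ.filter (fun h => π j h i₀ = i₀)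
  have hH : ∀ h, h ∈ H ↔ π j h i₀ = i₀ := by
    intro h
    simp [H]
  let c' : ι → Fin 3 → ℝ :=
    fun k i => ∑ h ∈ H, sr (χ j h) * sr (χ k h) * c k ((π k h)⁻¹ i)
  have hstar : ∀ g, ∑ k, sr (χ k g) * c' k ((π k g)⁻¹ (m₀ k)) = 0 := by
    intro g
    have h1 : ∀ h ∈ H, sr (χ j h) *
        ∑ k, sr (χ k (g * h)) * c k ((π k (g * h))⁻¹ (m₀ k)) = 0 := by
      intro h _
      have := hrel (g * h)
      have h2 : ∑ k, sr (χ k (g * h)) * c k ((π k (g * h))⁻¹ (m₀ k)) = 0 := this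
      rw [h2, mul_zero]
    have h2 := Finset.sum_eq_zero h1
    rw [← h2]
    simp only [c', Finset.mul_sum]
    rw [Finset.sum_comm]
    apply Finset.sum_congr rfl
    intro h _
    apply Finset.sum_congr rfl
    intro k _
    rw [map_mul, map_mul, mul_inv_rev, sr_mul, Equiv.Perm.mul_apply]
    ring
  have ha : c' j i₀ ≠ 0 := by
    have h1 : c' j i₀ = (H.card : ℝ) * c j i₀ := by
      simp only [c']
      rw [← nsmul_eq_mul, ← Finset.sum_const]
      apply Finset.sum_congr rfl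
      intro h hh
      rw [sr_sq, one_mul]
      congr 1
      rw [Equiv.Perm.inv_eq_iff_eq]
      exact ((hH h).mp hh).symm
    rw [h1]
    apply mul_ne_zero _ hj
    have : (1 : Γ) ∈ H := by
      rw [hH]; simp
    have h2 : H.card ≠ 0 := by
      rw [Finset.card_ne_zero]
      exact ⟨1, this⟩
    exact_mod_cast h2
  have hb : ∀ k h, h ∈ H → ∀ i, c' k (π k h i) = sr (χ j h * χ k h) * c' k i := by
    intro k h hh i
    simp only [c']
    rw [Finset.mul_sum]
    symm
    apply Finset.sum_bij' (fun u _ => h * u) (fun u _ => h⁻¹ * u)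
    · intro u hu
      rw [hH] at hu hh ⊢
      rw [map_mul, Equiv.Perm.mul_apply, hu, hh]
    · intro u hu
      rw [hH] at hu hh ⊢
      rw [map_mul, Equiv.Perm.mul_apply, hu, map_inv, Equiv.Perm.inv_eq_iff_eq, hh]
    · intro u _
      simp
    · intro u _
      simp
    · intro u _
      have h7 : (π k h)⁻¹ (π k h i) = i := by
        rw [Equiv.Perm.inv_eq_iff_eq]
      rw [map_mul, map_mul, map_mul, mul_inv_rev, Equiv.Perm.mul_apply, h7,
        sr_mul, sr_mul, sr_mul]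
      ring
  have hc : ∀ k, ∑ i, c' k i = 0 := by
    intro k
    simp only [c']
    rw [Finset.sum_comm]
    apply Finset.sum_eq_zero
    intro h _
    rw [← Finset.mul_sum]
    have : ∑ i, c k ((π k h)⁻¹ i) = ∑ i, c k i :=
      Equiv.sum_comp (π k h)⁻¹ (c k)
    rw [this, hsum k, mul_zero]
  -- linked members
  have hd : ∀ k, k ≠ j → (∃ i, c' k i ≠ 0) →
      ∃ (s : Γ) (i₁ : Fin 3), s ∈ H ∧ c' k i₁ = 0 ∧ Equiv.Perm.sign (π j s) = -1 ∧
        ∀ g, χ j g * χ k g = Equiv.Perm.sign (π j g) := by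
    intro k hk hnz
    let ψ : Γ →* ℤˣ := χ j * χ k
    have hψ : ∀ g, ψ g = χ j g * χ k g := fun g => rfl
    have hψ1 : ∃ g, ψ g ≠ 1 := by
      by_contra hh
      push Not at hh
      apply hχ k j hk
      ext g
      have h1 := hh g
      rw [hψ] at h1
      have h2 : χ k g = χ j g := by
        have h3 : χ j g * χ k g = χ j g * χ j g := by
          rw [h1, Int.units_mul_self]
        exact mul_left_cancel h3
      rw [h2]
    obtain ⟨s, hs1, hs2⟩ := hTBP5 Γ (π j) ψ i₀ (htr j) hψ1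
    have hsH : s ∈ H := (hH s).mpr hs1
    have hτ : ∀ i, c' k (π k s i) = - c' k i := by
      intro i
      rw [hb k s hsH i, ← hψ, hs2, sr_neg_one, neg_one_mul]
    obtain ⟨i₁, h1, h2, h3, h4⟩ := shape (c' k) (π k s) hτ hnz
    have h5 : ∀ h, h ∈ H → π k h i₁ = i₁ ∧ ψ h = Equiv.Perm.sign (π k h) := by
      intro h hh
      exact shape_sign (c' k) (π k s) hτ i₁ h1 h2 h3 h4 (π k h) (ψ h) (hb k h hh)
    have h6 : ∀ g, Equiv.Perm.sign (π j g) = Equiv.Perm.sign (π k g) :=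
      same_sign (π j) (π k) i₀ i₁ (htr j) (htr k) (fun g hg => (h5 g ((hH g).mpr hg)).1)
    refine ⟨s, i₁, hsH, h3, by rw [h6, h2], ?_⟩
    -- the character ψ * sign ∘ π k is trivial
    let θ : Γ →* ℤˣ := ψ * (Equiv.Perm.sign.comp (π k))
    have hθ : ∀ g, θ g = ψ g * Equiv.Perm.sign (π k g) := fun g => rfl
    intro g
    by_contra hg
    have h7 : ∃ g, θ g ≠ 1 := by
      refine ⟨g, ?_⟩
      intro h8
      apply hg
      rw [hθ, hψ] at h8
      rw [h6 g]
      have h9 : (χ j g * χ k g) * Equiv.Perm.sign (π k g) =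
          Equiv.Perm.sign (π k g) * Equiv.Perm.sign (π k g) := by
        rw [h8, Int.units_mul_self]
      exact mul_right_cancel h9
    obtain ⟨t, ht1, ht2⟩ := hTBP5 Γ (π j) θ i₀ (htr j) h7
    have h10 := (h5 t ((hH t).mpr ht1)).2
    rw [hθ, h10, Int.units_mul_self] at ht2
    exact absurd ht2 (by decide)
  by_cases hl : ∃ k, k ≠ j ∧ ∃ i, c' k i ≠ 0
  · obtain ⟨k, hk, hnz⟩ := hl
    obtain ⟨s, i₁, hsH, h3, h4, h5⟩ := hd k hk hnz
    -- uniqueness
    have huni : ∀ k', k' ≠ j → k' ≠ k → ∀ i, c' k' i = 0 := by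
      intro k' hk' hkk i
      by_contra hh
      obtain ⟨_, _, _, _, _, h5'⟩ := hd k' hk' ⟨i, hh⟩
      apply hχ k' k hkk
      ext g
      have h6 : χ j g * χ k' g = χ j g * χ k g := by rw [h5', h5]
      rw [mul_left_cancel h6]
    -- c' j is nowhere zero
    have hnow : ∀ i, c' j i ≠ 0 := by
      have h6 : π j s i₀ = i₀ := (hH s).mp hsH
      have h7 : ∀ i, c' j (π j s i) = c' j i := by
        intro i
        rw [hb j s hsH i, sr_mul, sr_sq, one_mul]
      intro i
      by_cases hi : i = i₀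
      · rw [hi]; exact ha
      · have h8 : ∀ (τ : Equiv.Perm (Fin 3)) (a i : Fin 3), τ a = a →
            Equiv.Perm.sign τ = -1 → i ≠ a → τ i ≠ a ∧ τ i ≠ i ∧
              ∀ x, x = a ∨ x = i ∨ x = τ i := by decide
        obtain ⟨h9, h10, h11⟩ := h8 (π j s) i₀ i h6 h4 hi
        intro h12
        apply ha
        have h13 := hc j
        have h14 : (Finset.univ : Finset (Fin 3)) = {i₀, i, π j s i} := by
          ext x
          simp only [Finset.mem_univ, Finset.mem_insert, Finset.mem_singleton, true_iff]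
          exact h11 x
        rw [h14, Finset.sum_insert, Finset.sum_insert, Finset.sum_singleton, h7 i, h12] at h13
        · linarith
        · simp only [Finset.mem_singleton]
          exact fun h => h10 h.symm
        · simp only [Finset.mem_insert, Finset.mem_singleton, not_or]
          exact ⟨fun h => hi h.symm, fun h => h9 h.symm⟩
    obtain ⟨g, hg⟩ := htr k i₁ (m₀ k)
    have h6 := hstar g
    rw [Finset.sum_eq_single j] at h6
    · rcases mul_eq_zero.mp h6 with h | h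
      · exact sr_ne _ h
      · exact hnow _ h
    · intro k' _ hk'
      by_cases hkk : k' = k
      · subst hkk
        have : (π k' g)⁻¹ (m₀ k') = i₁ := by
          rw [Equiv.Perm.inv_eq_iff_eq]; exact hg.symm
        rw [this, h3, mul_zero]
      · rw [huni k' hk' hkk, mul_zero]
    · intro h
      exact absurd (Finset.mem_univ j) h
  · push Not at hl
    obtain ⟨g, hg⟩ := htr j i₀ (m₀ j)
    have h6 := hstar g
    rw [Finset.sum_eq_single j] at h6
    · have : (π j g)⁻¹ (m₀ j) = i₀ := by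
        rw [Equiv.Perm.inv_eq_iff_eq]; exact hg.symm
      rw [this] at h6
      rcases mul_eq_zero.mp h6 with h | h
      · exact sr_ne _ h
      · exact ha h
    · intro k' _ hk'
      rw [hl k' hk', mul_zero]
    · intro h
      exact absurd (Finset.mem_univ j) h

end

end Pool.Agent.TJ5
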