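import Pool.Agent.TJ5.St

open Polynomial IntermediateField

namespace Pool.Agent.TJ5

open Pool.Agent.TJ2 Pool.Agent.TJ3 Pool.Agent.TJ4

theorem t_TBP5 : S_TBP5 := by
  intro Γ _ _ π ψ i htr hψ
  by_contra hcon
  have hker : ∀ g, π g i = i → ψ g = 1 := by
    intro g hg
    rcases Int.units_eq_one_or (ψ g) with h | h
    · exact h
    · exact absurd ⟨g, hg, h⟩ hcon
  choose t ht using fun j => htr i j
  obtain ⟨g, hg⟩ := hψ
  have hg' : ψ g = -1 := by
    rcases Int.units_eq_one_or (ψ g) with h | h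
    · exact absurd h hg
    · exact h
  have key : ∀ j, ψ (t (π g j)) = ψ g * ψ (t j) := by
    intro j
    have h1 : π ((t (π g j))⁻¹ * (g * t j)) i = i := by
      rw [map_mul, map_mul, map_inv, Equiv.Perm.mul_apply, Equiv.Perm.mul_apply, ht j,
        Equiv.Perm.inv_eq_iff_eq, ht]
    have h2 := hker _ h1
    rw [map_mul, map_mul, map_inv] at h2
    have h3 := inv_mul_eq_one.mp h2
    exact h3
  have hprod : ∏ j, ψ (t (π g j)) = ∏ j, ψ (t j) :=
    Equiv.prod_comp (π g) (fun j => ψ (t j))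
  simp only [key] at hprod
  rw [Finset.prod_mul_distrib, Finset.prod_const, hg'] at hprod
  have h4 : ((-1 : ℤˣ)) ^ (Finset.univ : Finset (Fin 3)).card = 1 := by
    exact mul_eq_right.mp hprod
  revert h4
  decide

end Pool.Agent.TJ5
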