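import Pool.Agent.TJ5.St

/-!
# TJ5: relations between members of type `IQT` (TBR5; helper28)
-/

open Polynomial IntermediateField

namespace Pool.Agent.TJ5

open Pool.Agent.TJ2 Pool.Agent.TJ3 Pool.Agent.TJ4

noncomputable section

namespace TBR5_aux

/-- the slope vectors of the `x t` -/
theorem slp_x {q m : ℕ} {v : AbsoluteValue Qb ℝ} {h : ℤ[X]} {χ : Gq →* ℤˣ}
    {π : Gq →* Equiv.Perm (Fin m)} {x : Fin m → Qb} (hI : IQT q m h χ π x)
    (hneg : ∀ a : Qb, a ≠ 0 → ∀ σ : Gq, slp q v ((q : Qb) / a) σ = - slp q v a σ)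
    (hx0 : ∀ t, x t ≠ 0) (σ : Gq) (t : Fin m) :
    slp q v (x t) σ = (((χ σ : ℤˣ) : ℤ) : ℝ) * slp q v (x (π σ t)) 1 := by
  have h1 : slp q v (x t) σ = slp q v (σ (x t)) 1 := by
    have h2 := slp_comp q v (x t) σ 1
    rwa [one_mul] at h2
  rw [h1]
  rcases Int.units_eq_one_or (χ σ) with h2 | h2
  · rw [hI.pos σ h2 t, h2]
    simp
  · rw [hI.neg σ h2 t, h2, hneg _ (hx0 _)]
    simp

/-- the sum over the roots of a member -/
theorem sum_A {q m : ℕ} {v : AbsoluteValue Qb ℝ} {h : ℤ[X]} {χ : Gq →* ℤˣ}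
    {π : Gq →* Equiv.Perm (Fin m)} {x : Fin m → Qb} (hI : IQT q m h χ π x)
    (hneg : ∀ a : Qb, a ≠ 0 → ∀ σ : Gq, slp q v ((q : Qb) / a) σ = - slp q v a σ)
    (hx0 : ∀ t, x t ≠ 0) (hq0 : (q : Qb) ≠ 0) {A : Finset Qb} (hA : (A : Set Qb) = Om q h)
    (w : Qb → ℤ) (hodd : ∀ y ∈ A, w ((q : Qb) / y) = - w y) (σ : Gq) :
    ∑ y ∈ A, (w y : ℝ) * slp q v y σ =
      2 * ∑ t, (w (x t) : ℝ) * (((χ σ : ℤˣ) : ℤ) : ℝ) * slp q v (x (π σ t)) 1 := by
  classical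
  have hxA : ∀ t, x t ∈ A := by
    intro t
    have h1 : x t ∈ (A : Set Qb) := by
      rw [hA]
      exact (hI.om _).2 ⟨t, Or.inl rfl⟩
    exact h1
  have hAe : A = Finset.univ.image x ∪ Finset.univ.image fun t => (q : Qb) / x t := by
    ext y
    have h1 : y ∈ A ↔ y ∈ (A : Set Qb) := Iff.rfl
    rw [h1, hA, hI.om, Finset.mem_union, Finset.mem_image, Finset.mem_image]
    constructor
    · rintro ⟨i, rfl | rfl⟩
      · exact Or.inl ⟨i, Finset.mem_univ _, rfl⟩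
      · exact Or.inr ⟨i, Finset.mem_univ _, rfl⟩
    · rintro (⟨i, -, rfl⟩ | ⟨i, -, rfl⟩)
      · exact ⟨i, Or.inl rfl⟩
      · exact ⟨i, Or.inr rfl⟩
  have hdis : Disjoint (Finset.univ.image x) (Finset.univ.image fun t => (q : Qb) / x t) := by
    rw [Finset.disjoint_left]
    intro y h1 h2
    obtain ⟨i, -, rfl⟩ := Finset.mem_image.mp h1
    obtain ⟨j, -, h3⟩ := Finset.mem_image.mp h2
    exact hI.ne i j h3.symm
  have hinj2 : Function.Injective fun t => (q : Qb) / x t := by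
    intro s t hst
    apply hI.inj
    have h1 : (q : Qb) / x s = (q : Qb) / x t := hst
    have h2 := hx0 s
    have h3 := hx0 t
    rw [div_eq_div_iff h2 h3] at h1
    exact (mul_left_cancel₀ hq0 h1).symm
  conv_lhs => rw [hAe]
  rw [Finset.sum_union hdis, Finset.sum_image fun s _ t _ hst => hI.inj hst,
    Finset.sum_image fun s _ t _ hst => hinj2 hst, ← Finset.sum_add_distrib, Finset.mul_sum]
  refine Finset.sum_congr rfl fun t _ => ?_
  rw [hodd _ (hxA t), hneg _ (hx0 t), slp_x hI hneg hx0 σ t]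
  push_cast
  ring

/-- three numbers -/
theorem three (ε : Fin 3 → ℝ) (c : ℝ) (hv : ∀ t, ε t = c ∨ ε t = 0 ∨ ε t = -c)
    (hne : ¬ (ε 0 = ε 1 ∧ ε 0 = ε 2)) (hsum : ε 0 + ε 1 + ε 2 ≠ 0) :
    ∃ (m₀ : Fin 3) (α β : ℝ), (β ≠ 0 ∧ 3 * α + β ≠ 0) ∧
      ∀ i, ε i = α + if i = m₀ then β else 0 := by
  by_cases h01 : ε 0 = ε 1
  · refine ⟨2, ε 0, ε 2 - ε 0, ⟨?_, ?_⟩, ?_⟩
    · intro h
      exact hne ⟨h01, by linarith⟩
    · intro h
      exact hsum (by linarith)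
    · intro i
      fin_cases i
      · simp
      · simp [h01]
      · simp
  by_cases h02 : ε 0 = ε 2
  · refine ⟨1, ε 0, ε 1 - ε 0, ⟨?_, ?_⟩, ?_⟩
    · intro h
      exact h01 (by linarith)
    · intro h
      exact hsum (by linarith)
    · intro i
      fin_cases i
      · simp
      · simp
      · simp [h02]
  by_cases h12 : ε 1 = ε 2
  · refine ⟨0, ε 1, ε 0 - ε 1, ⟨?_, ?_⟩, ?_⟩
    · intro h
      exact h01 (by linarith)
    · intro h
      exact hsum (by linarith)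
    · intro i
      fin_cases i
      · simp
      · simp
      · simp [h12]
  exfalso
  rcases hv 0 with a | a | a <;> rcases hv 1 with b | b | b <;> rcases hv 2 with d | d | d <;>
    first
      | exact h01 (a.trans b.symm)
      | exact h02 (a.trans d.symm)
      | exact h12 (b.trans d.symm)
      | exact hsum (by rw [a, b, d]; ring)

end TBR5_aux

open TBR5_aux in
/-- TBR5: relations between members of type `IQT`. -/
theorem t_TBR5 (hTBX5 : S_TBX5) (hIQX5 : S_IQX5) (hSLP : S_SLP) (hGIS5 : S_GIS5)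
    (hUNI5 : S_UNI5) (hTWO5 : S_TWO5) : S_TBR5 := by
  classical
  intro q v hq hv n h A w hGD hA hrel hodd h3 hIQ halt
  have hneg := (hSLP q v hq hv).2.2.2.1
  have hq0 : (q : Qb) ≠ 0 := by
    have h1 : q ≠ 0 := hq.pos.ne'
    exact_mod_cast h1
  have hfact := (hGIS5 q hq).2.1
  -- facts on one member
  have hx0 : ∀ (i : Fin n) (m : ℕ) (χ : Gq →* ℤˣ) (π : Gq →* Equiv.Perm (Fin m))
      (x : Fin m → Qb), IQT q m (h i) χ π x → ∀ t, x t ∈ Om q (h i) ∧ x t ≠ 0 := by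
    intro i m χ π x hI t
    have h1 : x t ∈ Om q (h i) := (hI.om _).2 ⟨t, Or.inl rfl⟩
    exact ⟨h1, ((hfact (h i) (hGD i)).2.2.1 _ h1).1⟩
  have hchar : ∀ (i j : Fin n) (m m' : ℕ) (χ χ' : Gq →* ℤˣ) (π : Gq →* Equiv.Perm (Fin m))
      (π' : Gq →* Equiv.Perm (Fin m')) (x : Fin m → Qb) (x' : Fin m' → Qb), i ≠ j → 1 ≤ m →
      1 ≤ m' → IQT q m (h i) χ π x → IQT q m' (h j) χ' π' x' → χ ≠ χ' := by
    intro i j m m' χ χ' π π' x x' hij hm hm' hI hI' hχ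
    subst hχ
    exact hIQ i j hij (x ⟨0, hm⟩) (hx0 i m χ π x hI _).1 (x' ⟨0, hm'⟩)
      (hx0 j m' χ π' x' hI' _).1
      (hIQX5 q m m' (h i) (h j) χ π x π' x' hq (hGD i) (hGD j) hm hm' hI hI' _
        (hx0 i m χ π x hI _).1 _ (hx0 j m' χ π' x' hI' _).1)
  -- the index sets
  let P1 : Fin n → Prop := fun i => (¬ ∀ x ∈ A i, w i x = 0) ∧
    ∃ (χ : Gq →* ℤˣ) (π : Gq →* Equiv.Perm (Fin 1)) (x : Fin 1 → Qb), IQT q 1 (h i) χ π x
  let P3 : Fin n → Prop := fun i => (¬ ∀ x ∈ A i, w i x = 0) ∧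
    (¬ ∃ (χ : Gq →* ℤˣ) (π : Gq →* Equiv.Perm (Fin 1)) (x : Fin 1 → Qb),
      IQT q 1 (h i) χ π x) ∧
    ∃ (χ : Gq →* ℤˣ) (π : Gq →* Equiv.Perm (Fin 3)) (x : Fin 3 → Qb), IQT q 3 (h i) χ π x
  have hc1 : ∀ k : {i // P1 i}, ∃ (χ : Gq →* ℤˣ) (π : Gq →* Equiv.Perm (Fin 1))
      (x : Fin 1 → Qb), IQT q 1 (h k.1) χ π x := fun k => k.2.2
  have hc3 : ∀ k : {i // P3 i}, ∃ (χ : Gq →* ℤˣ) (π : Gq →* Equiv.Perm (Fin 3))
      (x : Fin 3 → Qb), IQT q 3 (h k.1) χ π x := fun k => k.2.2.2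
  choose χ1 π1 x1 hI1 using hc1
  choose χ3 π3 x3 hI3 using hc3
  -- the shape of the slopes for `m = 3`
  have hshape : ∀ k : {i // P3 i}, ∃ (m₀ : Fin 3) (α β : ℝ), (β ≠ 0 ∧ 3 * α + β ≠ 0) ∧
      ∀ i, slp q v (x3 k i) 1 = α + if i = m₀ then β else 0 := by
    intro k
    have hI := hI3 k
    have hxk := hx0 k.1 3 _ _ _ hI
    have hsl : ∃ c : ℝ, ∀ a ∈ Om q (h k.1), ∀ σ : Gq,
        slp q v a σ = c ∨ slp q v a σ = 0 ∨ slp q v a σ = -c := by
      rcases halt k.1 with h1 | h1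
      · exact absurd h1 k.2.1
      · exact h1.1
    obtain ⟨c, hc⟩ := hsl
    refine three _ c (fun t => hc _ (hxk t).1 1) ?_ ?_
    · rintro ⟨e1, e2⟩
      have hall : ∀ t, slp q v (x3 k t) 1 = slp q v (x3 k 0) 1 := by
        intro t
        fin_cases t
        · rfl
        · exact e1.symm
        · exact e2.symm
      have h1 : ∀ σ : Gq, slp q v (x3 k 0) σ = slp q v (x3 k 1) σ := by
        intro σ
        rw [slp_x hI hneg (fun t => (hxk t).2) σ 0, slp_x hI hneg (fun t => (hxk t).2) σ 1,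
          hall (π3 k σ 0), hall (π3 k σ 1)]
      obtain ⟨N, hN, h2⟩ := (hTWO5 q v hq hv (h k.1) (hGD k.1) (h k.1) (hGD k.1) _ (hxk 0).1 _
        (hxk 1).1).1 h1
      have h4 := (hGD k.1).2.2.2.2 _ (hxk 0).1 _ (hxk 1).1 N hN h2
      have h5 := hI.inj h4
      exact absurd h5 (by decide)
    · intro hs
      have h1 : ∀ σ : Gq, (([x3 k 0, x3 k 1, x3 k 2] : List Qb).map fun a => slp q v a σ).sum = 0 := by
        intro σ
        have h2 : ∑ t, slp q v (x3 k (π3 k σ t)) 1 = ∑ t, slp q v (x3 k t) 1 :=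
          Equiv.sum_comp (π3 k σ) fun t => slp q v (x3 k t) 1
        rw [Fin.sum_univ_three, Fin.sum_univ_three] at h2
        simp only [List.map_cons, List.map_nil, List.sum_cons, List.sum_nil, add_zero]
        rw [slp_x hI hneg (fun t => (hxk t).2) σ 0, slp_x hI hneg (fun t => (hxk t).2) σ 1,
          slp_x hI hneg (fun t => (hxk t).2) σ 2, ← mul_add, ← mul_add, ← add_assoc, h2, hs,
          mul_zero]
      obtain ⟨N, hN, h2⟩ := hUNI5 q v hq hv [x3 k 0, x3 k 1, x3 k 2] (by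
        intro a ha
        simp only [List.mem_cons, List.not_mem_nil, or_false] at ha
        rcases ha with rfl | rfl | rfl
        · exact ⟨h k.1, hGD k.1, (hxk 0).1⟩
        · exact ⟨h k.1, hGD k.1, (hxk 1).1⟩
        · exact ⟨h k.1, hGD k.1, (hxk 2).1⟩) h1
      simp only [List.map_cons, List.map_nil, List.prod_cons, List.prod_nil, mul_one] at h2
      refine h3 k.1 _ (hxk 0).1 _ (hxk 1).1 _ (hxk 2).1 N hN ?_
      have g0 := (hxk 0).2
      have g1 := (hxk 1).2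
      have g2 := (hxk 2).2
      calc (x3 k 0 * x3 k 1 * x3 k 2) ^ (2 * N)
          = (x3 k 0 * (x3 k 1 * x3 k 2)) ^ N * (x3 k 0 * x3 k 1 * x3 k 2) ^ N := by ring
        _ = ((q : Qb) / x3 k 0 * ((q : Qb) / x3 k 1 * ((q : Qb) / x3 k 2))) ^ N *
            (x3 k 0 * x3 k 1 * x3 k 2) ^ N := by rw [h2]
        _ = ((q : Qb) ^ 3) ^ N := by
            rw [← mul_pow]
            congr 1
            field_simp
        _ = (q : Qb) ^ (3 * N) := by rw [pow_mul]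
  choose m₀ α β hβ hε using hshape
  -- the relation
  have hR : ∀ g : Gq, (∑ k : {i // P1 i}, (w k.1 (x1 k 0) : ℝ) *
      (((χ1 k g : ℤˣ) : ℤ) : ℝ) * slp q v (x1 k 0) 1) +
      ∑ k : {i // P3 i}, ∑ i, (w k.1 (x3 k i) : ℝ) * (((χ3 k g : ℤˣ) : ℤ) : ℝ) *
        slp q v (x3 k (π3 k g i)) 1 = 0 := by
    intro g
    have h1 := hrel g
    have h2 : ∑ i, ∑ x ∈ A i, (w i x : ℝ) * slp q v x g =
        (∑ k : {i // P1 i}, ∑ x ∈ A k.1, (w k.1 x : ℝ) * slp q v x g) +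
          ∑ k : {i // P3 i}, ∑ x ∈ A k.1, (w k.1 x : ℝ) * slp q v x g := by
      rw [← Finset.sum_subtype (Finset.univ.filter P1) (fun i => by simp)
          (fun i => ∑ x ∈ A i, (w i x : ℝ) * slp q v x g),
        ← Finset.sum_subtype (Finset.univ.filter P3) (fun i => by simp)
          (fun i => ∑ x ∈ A i, (w i x : ℝ) * slp q v x g),
        Finset.sum_filter, Finset.sum_filter, ← Finset.sum_add_distrib]
      refine Finset.sum_congr rfl fun i _ => ?_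
      by_cases hZ : ∀ x ∈ A i, w i x = 0
      · have e1 : ¬ P1 i := fun hP => hP.1 hZ
        have e3 : ¬ P3 i := fun hP => hP.1 hZ
        rw [if_neg e1, if_neg e3, add_zero]
        exact Finset.sum_eq_zero fun x hx => by rw [hZ x hx, Int.cast_zero, zero_mul]
      · by_cases hE : ∃ (χ : Gq →* ℤˣ) (π : Gq →* Equiv.Perm (Fin 1)) (x : Fin 1 → Qb),
            IQT q 1 (h i) χ π x
        · have e1 : P1 i := ⟨hZ, hE⟩
          have e3 : ¬ P3 i := fun hP => hP.2.1 hE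
          rw [if_pos e1, if_neg e3, add_zero]
        · have e1 : ¬ P1 i := fun hP => hE hP.2
          have e3 : P3 i := by
            refine ⟨hZ, hE, ?_⟩
            rcases halt i with h4 | ⟨-, h4 | h4⟩
            · exact absurd h4 hZ
            · exact absurd h4 hE
            · exact h4
          rw [if_neg e1, if_pos e3, zero_add]
    rw [h2] at h1
    have h4 : ∀ k : {i // P1 i}, ∑ x ∈ A k.1, (w k.1 x : ℝ) * slp q v x g =
        2 * ((w k.1 (x1 k 0) : ℝ) * (((χ1 k g : ℤˣ) : ℤ) : ℝ) * slp q v (x1 k 0) 1) := by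
      intro k
      rw [sum_A (hI1 k) hneg (fun t => (hx0 k.1 1 _ _ _ (hI1 k) t).2) hq0 (hA k.1) (w k.1)
        (hodd k.1) g, Fin.sum_univ_one, Subsingleton.elim (π1 k g 0) 0]
    have h5 : ∀ k : {i // P3 i}, ∑ x ∈ A k.1, (w k.1 x : ℝ) * slp q v x g =
        2 * ∑ i, (w k.1 (x3 k i) : ℝ) * (((χ3 k g : ℤˣ) : ℤ) : ℝ) *
          slp q v (x3 k (π3 k g i)) 1 := by
      intro k
      exact sum_A (hI3 k) hneg (fun t => (hx0 k.1 3 _ _ _ (hI3 k) t).2) hq0 (hA k.1) (w k.1)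
        (hodd k.1) g
    simp only [h4, h5] at h1
    rw [← Finset.mul_sum, ← Finset.mul_sum, ← mul_add] at h1
    rcases mul_eq_zero.mp h1 with h6 | h6
    · norm_num at h6
    · exact h6
  obtain ⟨hz1, hz3⟩ := hTBX5 Gq {i // P1 i} {i // P3 i} χ1 (fun k => slp q v (x1 k 0) 1)
    (fun k => (w k.1 (x1 k 0) : ℝ)) χ3 π3 (fun k i => slp q v (x3 k i) 1)
    (fun k i => (w k.1 (x3 k i) : ℝ)) m₀ α β
    (fun k k' hk => hchar k.1 k'.1 1 1 _ _ _ _ _ _ (fun e => hk (Subtype.ext e)) le_rfl le_rfl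
      (hI1 k) (hI1 k'))
    (fun k k' hk => hchar k.1 k'.1 3 3 _ _ _ _ _ _ (fun e => hk (Subtype.ext e)) (by norm_num)
      (by norm_num) (hI3 k) (hI3 k'))
    (fun k k' => hchar k.1 k'.1 1 3 _ _ _ _ _ _
      (fun e => k'.2.2.1 (e ▸ ⟨χ1 k, π1 k, x1 k, hI1 k⟩)) le_rfl (by norm_num) (hI1 k) (hI3 k'))
    (by
      intro k i j
      have hxk := hx0 k.1 3 _ _ _ (hI3 k)
      obtain ⟨σ, hσ⟩ := (hGD k.1).2.2.1 _ (hxk i).1 _ (hxk j).1
      refine ⟨σ, ?_⟩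
      rcases Int.units_eq_one_or (χ3 k σ) with h1 | h1
      · rw [(hI3 k).pos σ h1 i] at hσ
        exact (hI3 k).inj hσ
      · rw [(hI3 k).neg σ h1 i] at hσ
        exact absurd hσ.symm ((hI3 k).ne j (π3 k σ i)))
    (by
      intro k h1
      have hxk := hx0 k.1 1 _ _ _ (hI1 k)
      obtain ⟨σ, hσ⟩ := (hTWO5 q v hq hv (h k.1) (hGD k.1) (h k.1) (hGD k.1) _ (hxk 0).1 _
        (hxk 0).1).2.2
      apply hσ
      rw [slp_x (hI1 k) hneg (fun t => (hxk t).2) σ 0, Subsingleton.elim (π1 k σ 0) 0]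
      rw [show slp q v (x1 k 0) 1 = 0 from h1, mul_zero])
    hβ hε hR
  -- conclusion
  intro i
  by_contra hZ
  have hodd' : ∀ x ∈ A i, w i x = 0 → w i ((q : Qb) / x) = 0 := by
    intro x hx hx'
    rw [hodd i x hx, hx', neg_zero]
  have hmem : ∀ x, x ∈ Om q (h i) → x ∈ A i := by
    intro x hx
    have h1 : x ∈ (A i : Set Qb) := by rw [hA]; exact hx
    exact h1
  have hmem' : ∀ x, x ∈ A i → x ∈ Om q (h i) := by
    intro x hx
    rw [← hA]
    exact hx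
  have hP : P1 i ∨ P3 i := by
    by_cases hE : ∃ (χ : Gq →* ℤˣ) (π : Gq →* Equiv.Perm (Fin 1)) (x : Fin 1 → Qb),
        IQT q 1 (h i) χ π x
    · exact Or.inl ⟨hZ, hE⟩
    · right
      refine ⟨hZ, hE, ?_⟩
      rcases halt i with h4 | ⟨-, h4 | h4⟩
      · exact absurd h4 hZ
      · exact absurd h4 hE
      · exact h4
  apply hZ
  rcases hP with hP | hP
  · have h1 := hI1 ⟨i, hP⟩
    intro x hx
    obtain ⟨t, ht⟩ := (h1.om x).1 (hmem' x hx)
    have h2 : w i (x1 ⟨i, hP⟩ t) = 0 := by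
      have h4 : ((w i (x1 ⟨i, hP⟩ 0) : ℤ) : ℝ) = 0 := hz1 ⟨i, hP⟩
      rw [Subsingleton.elim t 0]
      exact_mod_cast h4
    rcases ht with rfl | rfl
    · exact h2
    · exact hodd' _ (hmem _ ((h1.om _).2 ⟨t, Or.inl rfl⟩)) h2
  · have h1 := hI3 ⟨i, hP⟩
    intro x hx
    obtain ⟨t, ht⟩ := (h1.om x).1 (hmem' x hx)
    have h2 : w i (x3 ⟨i, hP⟩ t) = 0 := by
      have h4 : ((w i (x3 ⟨i, hP⟩ t) : ℤ) : ℝ) = 0 := hz3 ⟨i, hP⟩ t
      exact_mod_cast h4
    rcases ht with rfl | rfl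
    · exact h2
    · exact hodd' _ (hmem _ ((h1.om _).2 ⟨t, Or.inl rfl⟩)) h2

end

end Pool.Agent.TJ5
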