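import Pool.Agent.TJ5.St

/-!
# TBX5: independence for an arbitrary group
-/

namespace Pool.Agent.TJ5

open Pool.Agent.TJ2 Pool.Agent.TJ3 Pool.Agent.TJ4

namespace TBX5_aux

theorem inner_sum (c : Fin 3 → ℝ) (hc : ∑ i, c i = 0) (x α β : ℝ) (p : Equiv.Perm (Fin 3))
    (m : Fin 3) :
    ∑ i, c i * x * (α + if p i = m then β else 0) = x * (β * c (p⁻¹ m)) := by
  have h1 : ∀ i, c i * x * (α + if p i = m then β else 0) =
      (x * α) * c i + (if i = p⁻¹ m then x * (β * c i) else 0) := by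
    intro i
    by_cases hi : p i = m
    · have hi' : i = p⁻¹ m := Equiv.Perm.eq_inv_iff_eq.mpr hi
      rw [if_pos hi, if_pos hi']
      ring
    · have hi' : ¬ i = p⁻¹ m := fun h => hi (Equiv.Perm.eq_inv_iff_eq.mp h)
      rw [if_neg hi, if_neg hi']
      ring
  rw [Finset.sum_congr rfl (fun i _ => h1 i), Finset.sum_add_distrib, ← Finset.mul_sum, hc,
    mul_zero, zero_add, Finset.sum_ite_eq' Finset.univ, if_pos (Finset.mem_univ _)]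

end TBX5_aux

open TBX5_aux in
theorem t_TBX5 (hTB15 : S_TB15) (hTB25 : S_TB25) : S_TBX5 := by
  intro Γ _ ι₁ ι₃ _ _ χ₁ ε₁ c₁ χ₃ π ε₃ c₃ m₀ α β h11 h33 h13 htr hε₁ hβ hε₃ hrel
  classical
  let Φ : Γ →* ((ι₁ → ℤˣ) × (ι₃ → ℤˣ × Equiv.Perm (Fin 3))) :=
    MonoidHom.prod (MonoidHom.pi χ₁) (MonoidHom.pi fun k => (χ₃ k).prod (π k))
  let G := Φ.range
  let e : Γ → G := fun g => ⟨Φ g, ⟨g, rfl⟩⟩
  have he : ∀ x : G, ∃ g, e g = x := by
    rintro ⟨x, g, rfl⟩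
    exact ⟨g, rfl⟩
  let χ₁' : ι₁ → G →* ℤˣ := fun k =>
    ((Pi.evalMonoidHom (fun _ : ι₁ => ℤˣ) k).comp
      (MonoidHom.fst (ι₁ → ℤˣ) (ι₃ → ℤˣ × Equiv.Perm (Fin 3)))).comp G.subtype
  let ρ : ι₃ → G →* ℤˣ × Equiv.Perm (Fin 3) := fun k =>
    ((Pi.evalMonoidHom (fun _ : ι₃ => ℤˣ × Equiv.Perm (Fin 3)) k).comp
      (MonoidHom.snd (ι₁ → ℤˣ) (ι₃ → ℤˣ × Equiv.Perm (Fin 3)))).comp G.subtype
  let χ₃' : ι₃ → G →* ℤˣ := fun k => (MonoidHom.fst ℤˣ (Equiv.Perm (Fin 3))).comp (ρ k)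
  let π' : ι₃ → G →* Equiv.Perm (Fin 3) := fun k =>
    (MonoidHom.snd ℤˣ (Equiv.Perm (Fin 3))).comp (ρ k)
  have e1 : ∀ k g, χ₁' k (e g) = χ₁ k g := fun k g => rfl
  have e3 : ∀ k g, χ₃' k (e g) = χ₃ k g := fun k g => rfl
  have eπ : ∀ k g, π' k (e g) = π k g := fun k g => rfl
  have d11 : ∀ k k', k ≠ k' → χ₁' k ≠ χ₁' k' := by
    intro k k' hk h
    apply h11 k k' hk
    ext g
    rw [← e1, ← e1, h]
  have d33 : ∀ k k', k ≠ k' → χ₃' k ≠ χ₃' k' := by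
    intro k k' hk h
    apply h33 k k' hk
    ext g
    rw [← e3, ← e3, h]
  have d13 : ∀ k k', χ₁' k ≠ χ₃' k' := by
    intro k k' h
    apply h13 k k'
    ext g
    rw [← e1, ← e3, h]
  have dtr : ∀ k i j, ∃ g, π' k g i = j := by
    intro k i j
    obtain ⟨g, hg⟩ := htr k i j
    exact ⟨e g, by rw [eπ, hg]⟩
  have hsum : ∀ k, ∑ i, ε₃ k i ≠ 0 := by
    intro k
    have h1 : ∑ i, ε₃ k i = 3 * α k + β k := by
      rw [Finset.sum_congr rfl (fun i _ => hε₃ k i), Finset.sum_add_distrib, Finset.sum_const,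
        Finset.sum_ite_eq' Finset.univ, if_pos (Finset.mem_univ _), Finset.card_univ,
        Fintype.card_fin, nsmul_eq_mul]
      norm_num
    rw [h1]
    exact (hβ k).2
  have hrel' : ∀ x : G, (∑ k, c₁ k * (((χ₁' k x : ℤˣ) : ℤ) : ℝ) * ε₁ k) +
      ∑ k, ∑ i, c₃ k i * (((χ₃' k x : ℤˣ) : ℤ) : ℝ) * ε₃ k (π' k x i) = 0 := by
    intro x
    obtain ⟨g, rfl⟩ := he x
    exact hrel g
  obtain ⟨hc1, hc3⟩ := hTB15 G ι₁ ι₃ χ₁' ε₁ c₁ χ₃' π' ε₃ c₃ d11 d33 d13 dtr hε₁ hsum hrel'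
  refine ⟨hc1, ?_⟩
  have hz : ∀ k i, β k * c₃ k i = 0 := by
    refine hTB25 G ι₃ χ₃' π' m₀ (fun k i => β k * c₃ k i) d33 dtr ?_ ?_
    · intro k
      rw [← Finset.mul_sum, hc3, mul_zero]
    · intro x
      have h2 := hrel' x
      rw [Finset.sum_eq_zero (s := Finset.univ) (f := fun k =>
        c₁ k * (((χ₁' k x : ℤˣ) : ℤ) : ℝ) * ε₁ k) (fun k _ => by rw [hc1 k]; ring), zero_add] at h2
      rw [← h2]
      apply Finset.sum_congr rfl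
      intro k _
      rw [← inner_sum (c₃ k) (hc3 k)  _ (α k) (β k) (π' k x) (m₀ k)]
      apply Finset.sum_congr rfl
      intro i _
      rw [hε₃ k (π' k x i)]
  intro k i
  exact (mul_eq_zero.mp (hz k i)).resolve_left (hβ k).1

end Pool.Agent.TJ5
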