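import Pool.Agent.TJ5.St

/-!
# TJ5, module TWO5: one or two slope vectors
-/

open Polynomial IntermediateField

namespace Pool.Agent.TJ5

open Pool.Agent.TJ2 Pool.Agent.TJ3 Pool.Agent.TJ4

namespace TWO5_aux

/-- `q / a` is a root -/
theorem om_div {q : ℕ} (hq : (q : Qb) ≠ 0) {h : ℤ[X]} {a : Qb} (ha : a ∈ Om q h) :
    (q : Qb) / a ∈ Om q h := by
  obtain ⟨h0, h1⟩ := ha
  refine ⟨div_ne_zero hq h0, ?_⟩
  have e : (q : Qb) / a + (q : Qb) / ((q : Qb) / a) = a + (q : Qb) / a := by
    rw [div_div_cancel₀ hq, add_comm]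
  rw [e]
  exact h1

end TWO5_aux

theorem t_TWO5 (hUNI5 : S_UNI5) (hSLP : S_SLP) : S_TWO5 := by
  intro q v hq hv h hh h' hh' a ha a' ha'
  have hq0 : (q : Qb) ≠ 0 := by
    have : q ≠ 0 := hq.ne_zero
    exact_mod_cast this
  obtain ⟨-, -, -, hneg, -⟩ := hSLP q v hq hv
  have ha0 : a ≠ 0 := ha.1
  have ha0' : a' ≠ 0 := ha'.1
  have hmem : ∀ x y : Qb, x ∈ Om q h → y ∈ Om q h' →
      ∀ b ∈ [x, y], ∃ g ∈ GD q, b ∈ Om q g := by
    intro x y hx hy b hb
    rw [List.mem_cons, List.mem_singleton] at hb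
    rcases hb with rfl | rfl
    · exact ⟨h, hh, hx⟩
    · exact ⟨h', hh', hy⟩
  refine ⟨?_, ?_, ?_⟩
  · intro hs
    obtain ⟨N, hN, hrel⟩ := hUNI5 q v hq hv [a, (q : Qb) / a']
      (hmem _ _ ha (TWO5_aux.om_div hq0 ha')) (by
        intro σ
        simp only [List.map_cons, List.map_nil, List.sum_cons, List.sum_nil, add_zero]
        rw [hneg a' ha0' σ, hs σ]
        ring)
    simp only [List.map_cons, List.map_nil, List.prod_cons, List.prod_nil, mul_one] at hrel
    refine ⟨2 * N, by omega, ?_⟩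
    have e1 : a * ((q : Qb) / a') = a / a' * q := by
      field_simp
    have e2 : (q : Qb) / a * ((q : Qb) / ((q : Qb) / a')) = a' / a * q := by
      rw [div_div_cancel₀ hq0]
      field_simp
    rw [e1, e2, mul_pow, mul_pow] at hrel
    have e3 := mul_right_cancel₀ (pow_ne_zero N hq0) hrel
    rw [div_pow, div_pow, div_eq_div_iff (pow_ne_zero N ha0') (pow_ne_zero N ha0)] at e3
    rw [two_mul, pow_add, pow_add]
    exact e3
  · intro hs
    obtain ⟨N, hN, hrel⟩ := hUNI5 q v hq hv [a, a'] (hmem _ _ ha ha') (by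
        intro σ
        simp only [List.map_cons, List.map_nil, List.sum_cons, List.sum_nil, add_zero]
        rw [hs σ]
        ring)
    simp only [List.map_cons, List.map_nil, List.prod_cons, List.prod_nil, mul_one] at hrel
    refine ⟨2 * N, by omega, ?_⟩
    rw [mul_pow, mul_pow, div_pow, div_pow, div_mul_div_comm,
      eq_div_iff (mul_ne_zero (pow_ne_zero N ha0) (pow_ne_zero N ha0'))] at hrel
    rw [div_pow, eq_div_iff (pow_ne_zero _ ha0'), two_mul, pow_add, pow_add, pow_add]
    calc a ^ N * a ^ N * (a' ^ N * a' ^ N) = a ^ N * a' ^ N * (a ^ N * a' ^ N) := by ring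
      _ = (q : Qb) ^ N * (q : Qb) ^ N := hrel
  · by_contra hc
    push Not at hc
    obtain ⟨N, hN, hrel⟩ := hUNI5 q v hq hv [a] (by
        intro b hb
        rw [List.mem_singleton] at hb
        subst hb
        exact ⟨h, hh, ha⟩) (by
        intro σ
        simp only [List.map_cons, List.map_nil, List.sum_cons, List.sum_nil, add_zero]
        exact hc σ)
    simp only [List.map_cons, List.map_nil, List.prod_cons, List.prod_nil, mul_one] at hrel
    rw [div_pow, eq_div_iff (pow_ne_zero N ha0), ← pow_add, ← two_mul] at hrel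
    exact hh.2.2.2.1 a ha N hN hrel

end Pool.Agent.TJ5
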