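import Pool.Agent.TJ5.St

/-!
# TJ5, TYP1: two roots
-/

open Polynomial IntermediateField

namespace Pool.Agent.TJ5

open Pool.Agent.TJ2 Pool.Agent.TJ3 Pool.Agent.TJ4

theorem t_TYP1 (hIQC5 : S_IQC5) (hGIS5 : S_GIS5) : S_TYP1 := by
  intro q h hq hh hcard
  obtain ⟨-, h1, -⟩ := hGIS5 q hq
  obtain ⟨hfin, hne, hel, hst⟩ := h1 h hh
  obtain ⟨a, ha⟩ := hne
  obtain ⟨ha0, -, hqa, hqne⟩ := hel a ha
  have hOm : Om q h = {a, (q : Qb) / a} := by
    symm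
    refine Set.eq_of_subset_of_ncard_le ?_ ?_ hfin
    · rintro y (rfl | rfl)
      · exact ha
      · exact hqa
    · rw [hcard, Set.ncard_pair hqne.symm]
  have hmem : ∀ y, y ∈ Om q h ↔ y = a ∨ y = (q : Qb) / a := by
    intro y
    rw [hOm, Set.mem_insert_iff, Set.mem_singleton_iff]
  obtain ⟨χ, π, hI⟩ := hIQC5 q 1 h (fun _ => a) hq.pos le_rfl
    (Function.injective_of_subsingleton _) (fun _ _ => hqne.symm)
    (fun y => (hmem y).trans ⟨fun h => ⟨0, h⟩, fun ⟨_, h⟩ => h⟩) (by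
      intro σ
      rcases (hmem _).1 (hst a ha σ) with h2 | h2
      · exact Or.inl fun _ => ⟨0, h2⟩
      · exact Or.inr fun _ => ⟨0, h2⟩)
  exact ⟨χ, π, _, hI⟩

end Pool.Agent.TJ5
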