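import Pool.Agent.TJ5.St

/-!
# TJ5, module TYP3: six roots
-/

open Polynomial IntermediateField

namespace Pool.Agent.TJ5

open Pool.Agent.TJ2 Pool.Agent.TJ3 Pool.Agent.TJ4

namespace TYP3_aux

/-- the action of the Galois group on a stable set -/
noncomputable def act (S : Set Qb) (hS : ∀ a ∈ S, ∀ σ : Gq, σ a ∈ S) : MulAction Gq {a : Qb // a ∈ S} where
  smul σ a := ⟨σ a.1, hS a.1 a.2 σ⟩
  one_smul _ := Subtype.ext rfl
  mul_smul _ _ _ := Subtype.ext rfl

end TYP3_aux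

open TYP3_aux in
theorem t_TYP3 (hTYP6 : S_TYP6) (hIQC5 : S_IQC5) (hGIS5 : S_GIS5) (hCCJ5 : S_CCJ5) : S_TYP3 := by
  classical
  intro q h hq hh h6
  have hq1 : 1 ≤ q := hq.pos
  have hq0 : (q : Qb) ≠ 0 := by
    have : q ≠ 0 := by omega
    exact_mod_cast this
  obtain ⟨-, g2, -⟩ := hGIS5 q hq
  obtain ⟨hfin, -, hel, hst⟩ := g2 h hh
  obtain ⟨k1, k2, k3, k4, -⟩ := hh
  obtain ⟨κ, hκ, -⟩ := hCCJ5
  letI : MulAction Gq {a : Qb // a ∈ Om q h} := act (Om q h) hst
  have hsm : ∀ (σ : Gq) (a : {a : Qb // a ∈ Om q h}), (σ • a).1 = σ a.1 := fun σ a => rfl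
  haveI : Fintype {a : Qb // a ∈ Om q h} := hfin.fintype
  let bar : {a : Qb // a ∈ Om q h} → {a : Qb // a ∈ Om q h} :=
    fun a => ⟨(q : Qb) / a.1, (hel a.1 a.2).2.2.1⟩
  have hb : ∀ a, (bar a).1 = (q : Qb) / a.1 := fun a => rfl
  have hcard : Fintype.card {a : Qb // a ∈ Om q h} = 6 := by
    rw [← h6, Set.ncard_eq_toFinset_card' (Om q h), Set.toFinset_card]
  rcases hTYP6 Gq {a : Qb // a ∈ Om q h} bar hcard
    (fun x => Subtype.ext (by
      rw [hb, hb]
      have := (hel x.1 x.2).1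
      field_simp))
    (fun x hx => (hel x.1 x.2).2.2.2 (by
      have := congrArg Subtype.val hx
      rwa [hb] at this))
    (fun s x => Subtype.ext (by
      rw [hb, hsm, hsm, hb, map_div₀, map_natCast]))
    (fun x y => by
      obtain ⟨σ, hσ⟩ := k3 x.1 x.2 y.1 y.2
      exact ⟨σ, Subtype.ext hσ⟩)
    ⟨κ, fun x => Subtype.ext (hκ _ q h hq1 k2 x.1 x.2)⟩ with H | ⟨x, x1, x2, x3, x4⟩
  · left
    refine ⟨k1, k2, k3, fun a ha => ?_, k4⟩
    obtain ⟨s, s1, s2⟩ := H ⟨a, ha⟩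
    refine ⟨s, congrArg Subtype.val s1, fun b hb' n1 n2 => ?_⟩
    exact congrArg Subtype.val (s2 ⟨b, hb'⟩ (fun e => n1 (congrArg Subtype.val e))
      (fun e => n2 (congrArg Subtype.val e)))
  · right
    obtain ⟨χ, π, hI⟩ := hIQC5 q 3 h (fun i => (x i).1) hq1 (by norm_num)
      (fun i j e => x1 (Subtype.ext e))
      (fun i j e => x2 i j (Subtype.ext e))
      (fun y => by
        constructor
        · intro hy
          obtain ⟨i, hi⟩ := x3 ⟨y, hy⟩
          refine ⟨i, hi.imp (fun e => congrArg Subtype.val e) (fun e => congrArg Subtype.val e)⟩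
        · rintro ⟨i, rfl | rfl⟩
          · exact (x i).2
          · exact (hel _ (x i).2).2.2.1)
      (fun σ => by
        rcases x4 σ with H | H
        · left
          intro i
          obtain ⟨j, hj⟩ := H i
          exact ⟨j, congrArg Subtype.val hj⟩
        · right
          intro i
          obtain ⟨j, hj⟩ := H i
          exact ⟨j, congrArg Subtype.val hj⟩)
    exact ⟨χ, π, _, hI⟩

end Pool.Agent.TJ5
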