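import Pool.Agent.TJ5.St

/-!
# TYP6: transitive groups on three pairs
-/

open Polynomial IntermediateField

namespace Pool.Agent.TJ5

open Pool.Agent.TJ2 Pool.Agent.TJ3 Pool.Agent.TJ4

namespace TYP6_aux

theorem ex_notMem {Ω : Type} [Fintype Ω] (S : Finset Ω)
    (h : S.card < Fintype.card Ω) : ∃ y, y ∉ S := by
  by_contra h0
  push Not at h0
  have h1 := Finset.eq_univ_iff_forall.2 h0
  rw [h1, Finset.card_univ] at h
  exact lt_irrefl _ h

/-- Representatives of the pairs. -/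
theorem reps {Ω : Type} [Fintype Ω] [DecidableEq Ω] (bar : Ω → Ω) (h6 : Fintype.card Ω = 6)
    (hb : ∀ x, bar (bar x) = x) (hn : ∀ x, bar x ≠ x) :
    ∃ (a : Fin 3 → Ω) (p : Ω → Fin 3), (∀ i, p (a i) = i) ∧ (∀ y, p (bar y) = p y) ∧
      ∀ y, y = a (p y) ∨ y = bar (a (p y)) := by
  have hbe : ∀ y z, bar y = z ↔ y = bar z := by
    intro y z
    constructor
    · rintro rfl
      rw [hb]
    · rintro rfl
      rw [hb]
  obtain ⟨a0, -⟩ := ex_notMem (∅ : Finset Ω) (by rw [h6]; simp)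
  obtain ⟨a1, h1⟩ := ex_notMem ({a0, bar a0} : Finset Ω)
    (lt_of_le_of_lt Finset.card_le_two (by rw [h6]; norm_num))
  obtain ⟨a2, h2⟩ := ex_notMem ({a0, bar a0, a1, bar a1} : Finset Ω)
    (lt_of_le_of_lt Finset.card_le_four (by rw [h6]; norm_num))
  simp only [Finset.mem_insert, Finset.mem_singleton, not_or] at h1 h2
  have h10 : a1 ≠ a0 := h1.1
  have h10' : a1 ≠ bar a0 := h1.2
  have h20 : a2 ≠ a0 := h2.1
  have h20' : a2 ≠ bar a0 := h2.2.1
  have h21 : a2 ≠ a1 := h2.2.2.1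
  have h21' : a2 ≠ bar a1 := h2.2.2.2
  have hcard : ({a0, bar a0, a1, bar a1, a2, bar a2} : Finset Ω).card = 6 := by
    have e1 : bar a1 ≠ a0 := fun h => h10' ((hbe _ _).1 h)
    have e2 : bar a1 ≠ bar a0 := fun h => h10 (by rw [(hbe _ _).1 h, hb])
    have e3 : bar a2 ≠ a0 := fun h => h20' ((hbe _ _).1 h)
    have e4 : bar a2 ≠ bar a0 := fun h => h20 (by rw [(hbe _ _).1 h, hb])
    have e5 : bar a2 ≠ a1 := fun h => h21' ((hbe _ _).1 h)
    have e6 : bar a2 ≠ bar a1 := fun h => h21 (by rw [(hbe _ _).1 h, hb])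
    rw [Finset.card_insert_of_notMem, Finset.card_insert_of_notMem,
      Finset.card_insert_of_notMem, Finset.card_insert_of_notMem, Finset.card_insert_of_notMem,
      Finset.card_singleton]
    · simp only [Finset.mem_singleton]
      exact (hn a2).symm
    · simp only [Finset.mem_insert, Finset.mem_singleton, not_or]
      exact ⟨h21'.symm, e6.symm⟩
    · simp only [Finset.mem_insert, Finset.mem_singleton, not_or]
      exact ⟨(hn a1).symm, h21.symm, e5.symm⟩
    · simp only [Finset.mem_insert, Finset.mem_singleton, not_or]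
      exact ⟨h10'.symm, e2.symm, h20'.symm, e4.symm⟩
    · simp only [Finset.mem_insert, Finset.mem_singleton, not_or]
      exact ⟨(hn a0).symm, h10.symm, e1.symm, h20.symm, e3.symm⟩
  have huniv := Finset.eq_univ_of_card _ (hcard.trans h6.symm)
  have hcov : ∀ y, y = a0 ∨ y = bar a0 ∨ y = a1 ∨ y = bar a1 ∨ y = a2 ∨ y = bar a2 := by
    intro y
    have h := Finset.mem_univ y
    rw [← huniv] at h
    simpa only [Finset.mem_insert, Finset.mem_singleton] using h
  let p : Ω → Fin 3 := fun y =>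
    if y = a0 ∨ y = bar a0 then 0 else if y = a1 ∨ y = bar a1 then 1 else 2
  have hp : ∀ y, p (bar y) = p y := by
    intro y
    have e0 : ∀ z, (bar y = z ∨ bar y = bar z) ↔ (y = z ∨ y = bar z) := by
      intro z
      rw [hbe, hbe, hb]
      exact or_comm
    simp only [p, e0]
  have hp0 : p a0 = 0 := if_pos (Or.inl rfl)
  have hp1 : p a1 = 1 := by
    show (if a1 = a0 ∨ a1 = bar a0 then (0 : Fin 3) else if a1 = a1 ∨ a1 = bar a1 then 1 else 2) = 1
    rw [if_neg (by rintro (h | h); exacts [h10 h, h10' h]), if_pos (Or.inl rfl)]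
  have hp2 : p a2 = 2 := by
    simp only [p]
    rw [if_neg (by rintro (h | h); exacts [h20 h, h20' h]),
      if_neg (by rintro (h | h); exacts [h21 h, h21' h])]
  refine ⟨![a0, a1, a2], p, ?_, hp, ?_⟩
  · intro i
    fin_cases i
    · exact hp0
    · exact hp1
    · exact hp2
  · intro y
    rcases hcov y with rfl | rfl | rfl | rfl | rfl | rfl
    · rw [hp0]
      exact Or.inl rfl
    · rw [hp, hp0]
      exact Or.inr rfl
    · rw [hp1]
      exact Or.inl rfl
    · rw [hp, hp1]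
      exact Or.inr rfl
    · rw [hp2]
      exact Or.inl rfl
    · rw [hp, hp2]
      exact Or.inr rfl

theorem d1a : ∀ f : Fin 3 → Fin 3, Function.Injective f → f 0 = 1 →
    (∀ i, f i = i + 1) ∨ (f 1 = 0 ∧ f 2 = 2) := by
  decide

theorem d1b : ∀ f : Fin 3 → Fin 3, Function.Injective f → f 0 = 2 →
    (∀ i, f i = i + 2) ∨ (f 1 = 1 ∧ f 2 = 0) := by
  decide

theorem d1 (f g : Fin 3 → Fin 3) (hf : Function.Injective f) (hg : Function.Injective g)
    (h0 : f 0 = 1) (h1 : g 0 = 2) :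
    (∀ i, f i = i + 1) ∨ (∀ i, g i = i + 2) ∨ (∀ i, f (g i) = i + 2) := by
  rcases d1a f hf h0 with h | h
  · exact Or.inl h
  · rcases d1b g hg h1 with h' | h'
    · exact Or.inr (Or.inl h')
    · right; right
      intro i
      fin_cases i
      · show f (g 0) = 0 + 2
        rw [h1, h.2]
        rfl
      · show f (g 1) = 1 + 2
        rw [h'.1, h.1]
        rfl
      · show f (g 2) = 2 + 2
        rw [h'.2, h0]
        rfl

theorem d2 : ∀ f : Fin 3 → Fin 3, Function.Injective f →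
    (∀ i, f (i + 1) = f i + 1) ∨ (∀ i, f (i + 1) = f i + 2) := by
  decide

theorem d3 : ∀ i : Fin 3, i + 2 + 2 = i + 1 := by decide

theorem d4 : ∀ i : Fin 3, i + 1 + 1 = i + 2 := by decide

theorem d5 : ∀ i : Fin 3, i + 1 + 1 + 1 = i := by decide

/-- The data. -/
structure Dat (Γ Ω : Type) [Group Γ] [MulAction Γ Ω] (bar : Ω → Ω) (a : Fin 3 → Ω)
    (p : Ω → Fin 3) : Prop where
  hb : ∀ x, bar (bar x) = x
  hn : ∀ x, bar x ≠ x
  hs : ∀ (s : Γ) x, bar (s • x) = s • bar x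
  pa : ∀ i, p (a i) = i
  pb : ∀ y, p (bar y) = p y
  cov : ∀ y, y = a (p y) ∨ y = bar (a (p y))

namespace Dat

variable {Γ Ω : Type} [Group Γ] [MulAction Γ Ω] {bar : Ω → Ω} {a : Fin 3 → Ω} {p : Ω → Fin 3}

theorem p_eq (D : Dat Γ Ω bar a p) {y z : Ω} (h : p y = p z) : y = z ∨ y = bar z := by
  have h1 := D.cov y
  have h2 := D.cov z
  rw [h] at h1
  generalize a (p z) = w at h1 h2
  rcases h1 with rfl | rfl <;> rcases h2 with rfl | rfl
  · exact Or.inl rfl
  · exact Or.inr (D.hb _).symm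
  · exact Or.inr rfl
  · exact Or.inl rfl

theorem P_p (D : Dat Γ Ω bar a p) (s : Γ) (y : Ω) : p (s • y) = p (s • a (p y)) := by
  rcases D.cov y with h | h
  · exact congrArg (fun z => p (s • z)) h
  · have h1 : p (s • y) = p (s • bar (a (p y))) := congrArg (fun z => p (s • z)) h
    rw [h1, ← D.hs, D.pb]

theorem P_inj (D : Dat Γ Ω bar a p) (s : Γ) : Function.Injective fun i => p (s • a i) := by
  intro i j hij
  rcases D.p_eq hij with h | h
  · have h1 : a i = a j := smul_left_cancel s h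
    rw [← D.pa i, h1, D.pa]
  · rw [D.hs] at h
    have h1 : a i = bar (a j) := smul_left_cancel s h
    rw [← D.pa i, h1, D.pb, D.pa]

theorem P_mul (D : Dat Γ Ω bar a p) (s t : Γ) (i : Fin 3) :
    p ((s * t) • a i) = p (s • a (p (t • a i))) := by
  rw [mul_smul, D.P_p s (t • a i)]

/-- A rotation of the pairs. -/
theorem ex_rot (D : Dat Γ Ω bar a p) (ht : ∀ x y : Ω, ∃ s : Γ, s • x = y) :
    ∃ r : Γ, ∀ i, p (r • a i) = i + 1 := by
  obtain ⟨s, hs⟩ := ht (a 0) (a 1)
  obtain ⟨t, ht⟩ := ht (a 0) (a 2)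
  rcases d1 (fun i => p (s • a i)) (fun i => p (t • a i)) (D.P_inj s) (D.P_inj t)
    (by simp only [hs, D.pa]) (by simp only [ht, D.pa]) with h | h | h
  · exact ⟨s, h⟩
  · refine ⟨t * t, fun i => ?_⟩
    have h1 : ∀ i, p (t • a i) = i + 2 := h
    rw [D.P_mul, h1, h1, d3]
  · refine ⟨(s * t) * (s * t), fun i => ?_⟩
    have h1 : ∀ i, p ((s * t) • a i) = i + 2 := fun i => by
      rw [D.P_mul]
      exact h i
    rw [D.P_mul, h1, h1, d3]

/-- A rotation of order three. -/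
theorem ex_rho (D : Dat Γ Ω bar a p) (ht : ∀ x y : Ω, ∃ s : Γ, s • x = y) :
    ∃ r : Γ, (∀ i, p (r • a i) = i + 1) ∧ ∀ y : Ω, r • r • r • y = y := by
  obtain ⟨r, hr⟩ := D.ex_rot ht
  have h3 : ∀ y : Ω, (r * (r * r)) • (r * (r * r)) • y = y := by
    intro y
    have h1 : p ((r * (r * r)) • y) = p y := by
      rw [D.P_p, D.P_mul, D.P_mul, hr, hr, hr, d5]
    rcases D.p_eq h1 with h | h
    · rw [h, h]
    · rw [h, ← D.hs, h, D.hb]
  refine ⟨r * (r * (r * r)), fun i => ?_, fun y => ?_⟩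
  · rw [D.P_mul, D.P_mul, D.P_mul, hr, hr, hr, hr, d5]
  · have h4 := h3 ((r * (r * r)) • (r * (r * r)) • y)
    rw [h3 y] at h4
    rw [smul_smul, smul_smul]
    have h5 := h3 ((r * (r * r)) • (r * (r * r)) • y)
    rw [smul_smul, smul_smul, smul_smul, smul_smul, ← mul_assoc, ← mul_assoc, ← mul_assoc] at h5
    have h6 := (h5.trans (by rw [← smul_smul]; exact h3 y) :
      _ = y)
    refine Eq.trans ?_ h6
    congr 1
    simp only [mul_assoc]

/-- The flip lemma. -/
theorem flip (D : Dat Γ Ω bar a p) {c : Γ} (hc : ∀ x : Ω, c • x = bar x) (n : Γ)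
    (h : ∀ z : Ω, n • z = z ∨ n • z = bar z) :
    (∀ z : Ω, n • z = z) ∨ (∀ z : Ω, n • z = bar z) ∨
      ∃ (m : Γ) (x : Ω), m • x = bar x ∧ ∀ y, y ≠ x → y ≠ bar x → m • y = y := by
  -- a criterion
  have key : ∀ (m : Γ) (i : Fin 3), m • a i = bar (a i) → (∀ j, j ≠ i → m • a j = a j) →
      ∃ (m : Γ) (x : Ω), m • x = bar x ∧ ∀ y, y ≠ x → y ≠ bar x → m • y = y := by
    intro m i h1 h2
    refine ⟨m, a i, h1, fun y hy hy' => ?_⟩
    rcases D.cov y with h3 | h3
    · have h4 : p y ≠ i := by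
        intro h5
        rw [h5] at h3
        exact hy h3
      rw [h3, h2 _ h4]
    · have h4 : p y ≠ i := by
        intro h5
        rw [h5] at h3
        exact hy' h3
      rw [h3, ← D.hs, h2 _ h4]
  have all1 : ∀ (f : Ω → Ω), (∀ y, f (bar y) = bar (f y)) → (∀ i, n • a i = f (a i)) →
      ∀ z : Ω, n • z = f z := by
    intro f hf h1 z
    rcases D.cov z with h3 | h3
    · rw [h3, h1]
    · rw [h3, ← D.hs, h1, hf]
  have fl : ∀ i, n • a i = bar (a i) → (c * n) • a i = a i := by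
    intro i hi
    rw [mul_smul, hi, hc, D.hb]
  have fl' : ∀ i, n • a i = a i → (c * n) • a i = bar (a i) := by
    intro i hi
    rw [mul_smul, hi, hc]
  rcases h (a 0) with h0 | h0 <;> rcases h (a 1) with h1 | h1 <;> rcases h (a 2) with h2 | h2
  · left
    exact all1 id (fun _ => rfl) (fun i => by fin_cases i; exacts [h0, h1, h2])
  · right; right
    exact key n 2 h2 (fun j hj => by fin_cases j; exacts [h0, h1, absurd rfl hj])
  · right; right
    exact key n 1 h1 (fun j hj => by fin_cases j; exacts [h0, absurd rfl hj, h2])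
  · right; right
    exact key (c * n) 0 (fl' 0 h0)
      (fun j hj => by fin_cases j; exacts [absurd rfl hj, fl 1 h1, fl 2 h2])
  · right; right
    exact key n 0 h0 (fun j hj => by fin_cases j; exacts [absurd rfl hj, h1, h2])
  · right; right
    exact key (c * n) 1 (fl' 1 h1)
      (fun j hj => by fin_cases j; exacts [fl 0 h0, absurd rfl hj, fl 2 h2])
  · right; right
    exact key (c * n) 2 (fl' 2 h2)
      (fun j hj => by fin_cases j; exacts [fl 0 h0, fl 1 h1, absurd rfl hj])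
  · right; left
    exact all1 bar (fun _ => rfl) (fun i => by fin_cases i; exacts [h0, h1, h2])

/-- The commutation rule, if there is no single flip. -/
theorem comm (D : Dat Γ Ω bar a p) {c : Γ} (hc : ∀ x : Ω, c • x = bar x)
    (hno : ¬ ∃ (m : Γ) (x : Ω), m • x = bar x ∧ ∀ y, y ≠ x → y ≠ bar x → m • y = y)
    {ρ : Γ} (hρ : ∀ i, p (ρ • a i) = i + 1) (hρ3 : ∀ y : Ω, ρ • ρ • ρ • y = y) (σ : Γ) :
    (∀ y : Ω, σ • ρ • y = ρ • σ • y) ∨ ∀ y : Ω, σ • ρ • y = ρ • ρ • σ • y := by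
  have main : ∀ (τ : Γ) (δ : Fin 3), (∀ i, p (τ • a i) = i + δ) → (∀ y : Ω, τ • τ • τ • y = y) →
      (∀ i, p (σ • a (i + 1)) = p (σ • a i) + δ) → ∀ y : Ω, σ • ρ • y = τ • σ • y := by
    intro τ δ hτ hτ3 hδ
    have hn : ∀ z : Ω, (σ * ρ * (τ * σ)⁻¹) • z = z ∨ (σ * ρ * (τ * σ)⁻¹) • z = bar z := by
      intro z
      apply D.p_eq
      obtain ⟨y, rfl⟩ : ∃ y, z = (τ * σ) • y := ⟨(τ * σ)⁻¹ • z, by rw [smul_inv_smul]⟩
      rw [smul_smul, inv_mul_cancel_right, D.P_p, D.P_mul, hρ, hδ, D.P_p (τ * σ), D.P_mul, hτ]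
    have hz : ∀ y : Ω, (σ * ρ * (τ * σ)⁻¹) • (τ • σ • y) = σ • ρ • y := by
      intro y
      rw [smul_smul τ, smul_smul, inv_mul_cancel_right, mul_smul]
    rcases D.flip hc _ hn with h | h | h
    · intro y
      rw [← hz y, h]
    · exfalso
      have h1 : ∀ y : Ω, σ • ρ • y = bar (τ • σ • y) := fun y => by rw [← hz y, h]
      have y := a 0
      have h2 : σ • y = bar (σ • y) := by
        calc σ • y = σ • ρ • ρ • ρ • y := by rw [hρ3]
          _ = bar (τ • bar (τ • bar (τ • σ • y))) := by rw [h1, h1, h1]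
          _ = bar (σ • y) := by
            rw [← D.hs τ, ← D.hs τ, D.hb, ← D.hs τ, hτ3]
      exact D.hn _ h2.symm
    · exact absurd h hno
  rcases d2 (fun i => p (σ • a i)) (D.P_inj σ) with h | h
  · left
    exact main ρ 1 hρ hρ3 h
  · right
    intro y
    rw [smul_smul ρ ρ]
    refine main (ρ * ρ) 2 (fun i => ?_) (fun y => ?_) h y
    · rw [D.P_mul, hρ, hρ, d4]
    · simp only [mul_smul]
      rw [hρ3, hρ3]

end Dat

end TYP6_aux

open TYP6_aux in
/-- TYP6. -/
theorem t_TYP6 : S_TYP6 := by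
  intro Γ Ω _ _ _ _ bar h6 hb hn hs ht hc
  obtain ⟨c, hc⟩ := hc
  obtain ⟨a, p, hpa, hpb, hcov⟩ := reps bar h6 hb hn
  have D : Dat Γ Ω bar a p := ⟨hb, hn, hs, hpa, hpb, hcov⟩
  by_cases hno : ∃ (m : Γ) (x : Ω), m • x = bar x ∧ ∀ y, y ≠ x → y ≠ bar x → m • y = y
  · left
    obtain ⟨m, x, hm, hm'⟩ := hno
    intro z
    obtain ⟨g, hg⟩ := ht x z
    refine ⟨g * m * g⁻¹, ?_, fun y hy hy' => ?_⟩
    · rw [← hg, smul_smul, inv_mul_cancel_right, mul_smul, hm, hs]
    · rw [mul_smul, mul_smul, hm', smul_inv_smul]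
      · intro h
        apply hy
        rw [← hg, ← h, smul_inv_smul]
      · intro h
        apply hy'
        rw [← hg, hs, ← h, smul_inv_smul]
  · right
    obtain ⟨ρ, hρ, hρ3⟩ := D.ex_rho ht
    let x : Fin 3 → Ω := ![a 0, ρ • a 0, ρ • ρ • a 0]
    have hρx : ∀ i, ρ • x i = x (i + 1) := by
      intro i
      fin_cases i
      · rfl
      · rfl
      · exact hρ3 (a 0)
    have hpx : ∀ i, p (x i) = i := by
      intro i
      fin_cases i
      · exact hpa 0
      · exact hρ 0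
      · show p (ρ • ρ • a 0) = 2
        rw [D.P_p ρ (ρ • a 0), hρ, hρ]
        rfl
    have hcx : ∀ y, ∃ i, y = x i ∨ y = bar (x i) := fun y => ⟨p y, D.p_eq (hpx (p y)).symm⟩
    refine ⟨x, ?_, ?_, hcx, ?_⟩
    · intro i j hij
      rw [← hpx i, hij, hpx]
    · intro i j hij
      have h1 : i = j := by rw [← hpx i, hij, hpb, hpx]
      rw [h1] at hij
      exact hn _ hij.symm
    · intro s
      have hstep : ∀ i, ((∃ j, s • x i = x j) → ∃ j, s • x (i + 1) = x j) ∧
          ((∃ j, s • x i = bar (x j)) → ∃ j, s • x (i + 1) = bar (x j)) := by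
        intro i
        rcases D.comm hc hno hρ hρ3 s with h | h
        · refine ⟨?_, ?_⟩
          · rintro ⟨j, hj⟩
            exact ⟨j + 1, by rw [← hρx, h, hj, hρx]⟩
          · rintro ⟨j, hj⟩
            exact ⟨j + 1, by rw [← hρx i, h, hj, ← hs, hρx]⟩
        · refine ⟨?_, ?_⟩
          · rintro ⟨j, hj⟩
            exact ⟨j + 1 + 1, by rw [← hρx, h, hj, hρx, hρx]⟩
          · rintro ⟨j, hj⟩
            exact ⟨j + 1 + 1, by rw [← hρx i, h, hj, ← hs, ← hs, hρx, hρx]⟩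
      obtain ⟨j, hj | hj⟩ := hcx (s • x 0)
      · left
        have e0 : ∃ j, s • x 0 = x j := ⟨j, hj⟩
        have e1 := (hstep 0).1 e0
        have e2 := (hstep 1).1 e1
        intro i
        fin_cases i
        exacts [e0, e1, e2]
      · right
        have e0 : ∃ j, s • x 0 = bar (x j) := ⟨j, hj⟩
        have e1 := (hstep 0).2 e0
        have e2 := (hstep 1).2 e1
        intro i
        fin_cases i
        exacts [e0, e1, e2]

end Pool.Agent.TJ5
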