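import Pool.Agent.TJ5.St
import Pool.Agent.TJ4.VAL4
import Pool.Agent.TJ5.GIS5
import Pool.Agent.TJ3.TRN
import Pool.Agent.TJ3.KRO
import Pool.Agent.TJ2.EMB

/-!
# UNI5: a relation of the slope vectors gives a multiplicative relation
-/

open Polynomial IntermediateField

namespace Pool.Agent.TJ5

open Pool.Agent.TJ2 Pool.Agent.TJ3 Pool.Agent.TJ4

noncomputable section

namespace UNI5_aux

/-- the ideal of the denominators of `u` -/
def I (u : Qb) : Ideal Zb where
  carrier := {s | ∃ t : Zb, (s : Qb) * u = t}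
  zero_mem' := ⟨0, by simp⟩
  add_mem' := by
    rintro a b ⟨s, hs⟩ ⟨t, ht⟩
    refine ⟨s + t, ?_⟩
    rw [AddMemClass.coe_add, AddMemClass.coe_add, add_mul, hs, ht]
  smul_mem' := by
    rintro c a ⟨s, hs⟩
    refine ⟨c * s, ?_⟩
    rw [smul_eq_mul, MulMemClass.coe_mul, MulMemClass.coe_mul, mul_assoc, hs]

lemma mem_I (u : Qb) (s : Zb) : s ∈ I u ↔ ∃ t : Zb, (s : Qb) * u = t := Iff.rfl

lemma prod_int (l : List Qb) (hl : ∀ a ∈ l, IsIntegral ℤ a) : IsIntegral ℤ l.prod := by
  induction l with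
  | nil => exact isIntegral_one
  | cons a l ih =>
    rw [List.prod_cons]
    exact (hl a List.mem_cons_self).mul (ih fun b hb => hl b (List.mem_cons_of_mem _ hb))

lemma prod_mul {q : ℕ} (l : List Qb) (hl : ∀ a ∈ l, a ≠ 0) :
    l.prod * (l.map fun a => (q : Qb) / a).prod = (q : Qb) ^ l.length := by
  induction l with
  | nil => simp
  | cons a l ih =>
    have ha : a ≠ 0 := hl a List.mem_cons_self
    have h1 := ih fun b hb => hl b (List.mem_cons_of_mem _ hb)
    rw [List.prod_cons, List.map_cons, List.prod_cons, List.length_cons, pow_succ', ← h1]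
    field_simp

lemma norm_prod {q : ℕ} (hq : IsPrimePow q) (ι : Qb →+* ℂ) (l : List Qb)
    (hl : ∀ a ∈ l, ∃ h ∈ GD q, a ∈ Om q h) :
    ‖ι l.prod‖ = ‖ι (l.map fun a => (q : Qb) / a).prod‖ := by
  induction l with
  | nil => simp
  | cons a l ih =>
    have ha := hl a List.mem_cons_self
    have h1 := ih fun b hb => hl b (List.mem_cons_of_mem _ hb)
    obtain ⟨h, hh, hah⟩ := ha
    have h2 := (t_EMB h.natDegree q h hq.one_lt.le hh.2.1 a hah ι).2.1
    rw [List.prod_cons, List.map_cons, List.prod_cons, map_mul, map_mul, norm_mul, norm_mul, h1, h2,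
      RCLike.norm_conj]

end UNI5_aux

open UNI5_aux in
theorem t_UNI5 (hSLP : S_SLP) (hLOC : S_LOC) : S_UNI5 := by
  intro q v hq hv l hl hsum
  obtain ⟨hq0, hq1, hint, hbar, P, hP, hpP, hPmem, _⟩ := hSLP q v hq hv
  obtain ⟨-, hom, -⟩ := t_GIS5 q hq
  have hqne : (q : Qb) ≠ 0 := by
    intro h
    rw [h, map_zero] at hq0
    exact lt_irrefl _ hq0
  have hlog : Real.log (v (q : Qb)) ≠ 0 := (Real.log_neg hq0 hq1).ne
  have hl0 : ∀ a ∈ l, a ≠ 0 := by
    intro a ha
    obtain ⟨h, _, hh⟩ := hl a ha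
    exact hh.1
  have hl' : ∀ a ∈ l.map (fun a => (q : Qb) / a), ∃ h ∈ GD q, a ∈ Om q h := by
    intro a ha
    obtain ⟨b, hb, rfl⟩ := List.mem_map.1 ha
    obtain ⟨h, hh, hbh⟩ := hl b hb
    exact ⟨h, hh, ((hom h hh).2.2.1 b hbh).2.2.1⟩
  have hl0' : ∀ a ∈ l.map (fun a => (q : Qb) / a), a ≠ 0 := by
    intro a ha
    obtain ⟨h, _, hh⟩ := hl' a ha
    exact hh.1
  have hX : IsIntegral ℤ l.prod := prod_int l fun a ha => by
    obtain ⟨h, hh, hah⟩ := hl a ha
    exact ((hom h hh).2.2.1 a hah).2.1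
  have hY : IsIntegral ℤ (l.map fun a => (q : Qb) / a).prod := prod_int _ fun a ha => by
    obtain ⟨h, hh, hah⟩ := hl' a ha
    exact ((hom h hh).2.2.1 a hah).2.1
  have hmul := prod_mul (q := q) l hl0
  have hX0 := (VAL4_aux.log_prod v 1 l hl0).1
  have hY0 := (VAL4_aux.log_prod v 1 _ hl0').1
  set Y := (l.map fun a => (q : Qb) / a).prod with hYdef
  set u : Qb := l.prod / Y with hu
  have hYu : Y * u = l.prod := by
    rw [hu]
    field_simp
  -- absolute values
  have hvσ : ∀ σ : Qb ≃ₐ[ℚ] Qb, v (σ u) = 1 := by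
    intro σ
    have h1 := VAL4_aux.sum_slp q v σ l hl0
    have h2 := VAL4_aux.sum_slp q v σ _ hl0'
    have h3 : ((l.map (fun a => (q : Qb) / a)).map fun a => slp q v a σ).sum =
        - (l.map fun a => slp q v a σ).sum := by
      clear h1 h2 hX hY hmul hX0 hYu hu hsum hl hl' hl0'
      clear u
      clear hY0 hYdef
      clear Y
      induction l with
      | nil => simp
      | cons a l ih =>
        rw [List.map_cons, List.map_cons, List.map_cons, List.sum_cons, List.sum_cons,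
          ih (fun b hb => hl0 b (List.mem_cons_of_mem _ hb)), hbar a (hl0 a List.mem_cons_self) σ]
        ring
    rw [hsum σ] at h1 h3
    rw [h3, List.length_map, ← hYdef] at h2
    have h4 : Real.log (v (σ l.prod)) / Real.log (v (q : Qb)) =
        Real.log (v (σ Y)) / Real.log (v (q : Qb)) := by linarith
    have h5 : Real.log (v (σ l.prod)) = Real.log (v (σ Y)) := by
      have h6 := congrArg (fun x => x * Real.log (v (q : Qb))) h4
      simpa [div_mul_cancel₀ _ hlog] using h6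
    have h7 : 0 < v (σ l.prod) := v.pos_iff.2 (by rw [Ne, map_eq_zero]; exact hX0)
    have h8 : 0 < v (σ Y) := v.pos_iff.2 (by rw [Ne, map_eq_zero]; exact hY0)
    have h9 : v (σ l.prod) = v (σ Y) := Real.log_injOn_pos h7 h8 h5
    rw [hu, map_div₀, map_div₀ v, h9, div_self h8.ne']
  -- `u` is integral
  have huint : IsIntegral ℤ u := by
    have h1 : I u = ⊤ := by
      by_contra hne
      obtain ⟨M, hM, hIM⟩ := Ideal.exists_le_maximal _ hne
      have hMp := hM.isPrime
      have hpM : ((q.minFac : ℕ) : Zb) ∈ M := by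
        have h2 : (⟨Y, hY⟩ : Zb) ∈ M := hIM ((mem_I u _).2 ⟨⟨l.prod, hX⟩, hYu⟩)
        have h3 : (q : Zb) ^ l.length ∈ M := by
          have h4 : (q : Zb) ^ l.length = (⟨l.prod, hX⟩ : Zb) * ⟨Y, hY⟩ := by
            apply Subtype.ext
            rw [SubmonoidClass.coe_pow, MulMemClass.coe_mul]
            show _ = l.prod * Y
            rw [hmul]
            simp
          rw [h4]
          exact M.mul_mem_left _ h2
        have h4 : (q : Zb) ∈ M := hMp.mem_of_pow_mem _ h3
        have h5 : ((q.minFac : ℕ) : Zb) ^ (q.factorization q.minFac) ∈ M := by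
          rw [← Nat.cast_pow, hq.minFac_pow_factorization_eq]
          exact h4
        exact hMp.mem_of_pow_mem _ h5
      obtain ⟨τ, hτ⟩ := t_TRN q.minFac P M (Nat.minFac_prime hq.one_lt.ne') hP hMp hpP hpM
      obtain ⟨s, t, hs, hst⟩ := hLOC v hv.na (τ⁻¹ u) (hvσ τ⁻¹).le
      have hsP : s ∉ P := by
        rw [hPmem, hs]
        exact lt_irrefl _
      have hsint : IsIntegral ℤ (τ (s : Qb)) := s.2.map τ
      have htint : IsIntegral ℤ (τ (t : Qb)) := t.2.map τ
      have hsM : (⟨τ (s : Qb), hsint⟩ : Zb) ∉ M := fun h => hsP ((hτ s _ rfl).2 h)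
      apply hsM
      apply hIM
      rw [mem_I]
      refine ⟨⟨τ (t : Qb), htint⟩, ?_⟩
      show τ (s : Qb) * u = τ (t : Qb)
      rw [← hst, map_mul]
      congr 1
      exact (AlgEquiv.apply_symm_apply τ u).symm
    have h2 : (1 : Zb) ∈ I u := by
      rw [h1]
      trivial
    obtain ⟨t, ht⟩ := (mem_I u 1).1 h2
    rw [OneMemClass.coe_one, one_mul] at ht
    rw [ht]
    exact t.2
  obtain ⟨N, hN, huN⟩ := t_KRO u huint (by
    intro ι
    have h1 := norm_prod hq ι l hl
    rw [← hYdef] at h1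
    rw [hu, map_div₀, norm_div, h1, div_self]
    rw [Ne, norm_eq_zero, map_eq_zero]
    exact hY0)
  refine ⟨N, hN, ?_⟩
  rw [← hYu, mul_pow, huN, mul_one]

end

end Pool.Agent.TJ5
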