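import Pool.Agent.TJ5.Base
import Pool.Agent.TJ5.Fin
import Pool.Agent.TJ5.GIS5
import Pool.Agent.TJ5.UNI5
import Pool.Agent.TJ5.TWO5
import Pool.Agent.TJ5.CCJ5
import Pool.Agent.TJ5.RAT5
import Pool.Agent.TJ5.IND35
import Pool.Agent.TJ5.PART5
import Pool.Agent.TJ5.POS5
import Pool.Agent.TJ5.NEG5
import Pool.Agent.TJ5.DAT5
import Pool.Agent.TJ5.PAR5
import Pool.Agent.TJ5.TYP1
import Pool.Agent.TJ5.TYP2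
import Pool.Agent.TJ5.TYP3
import Pool.Agent.TJ5.TYP6
import Pool.Agent.TJ5.IQC5
import Pool.Agent.TJ5.PRJ5
import Pool.Agent.TJ5.SEP5
import Pool.Agent.TJ5.NLF5
import Pool.Agent.TJ5.ABL5
import Pool.Agent.TJ5.CYA5
import Pool.Agent.TJ5.CYB5
import Pool.Agent.TJ5.CYC5
import Pool.Agent.TJ5.TBP5
import Pool.Agent.TJ5.TB15
import Pool.Agent.TJ5.TB25
import Pool.Agent.TJ5.TBX5
import Pool.Agent.TJ5.IQX5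
import Pool.Agent.TJ5.TBR5
import Pool.Agent.TJ5.KEV5
import Pool.Agent.TJ5.NEQ5
import Pool.Agent.TJ5.NEC5
import Pool.Agent.TJ5.SPL5
import Pool.Agent.TJ5.PAI5
import Pool.Agent.TJ5.EXA5
import Pool.Agent.TJ5.FUL5
import Pool.Agent.TJ5.FOU5
import Pool.Agent.TJ5.EXB5
import Pool.Agent.TJ5.SUB5
import Pool.Agent.TJ5.DEN5

/-!
# Project TJ5: assembly (helper65)
-/

open Polynomial IntermediateField Filter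

namespace Pool.Agent.TJ5

open Pool.Agent.TJ2 Pool.Agent.TJ3 Pool.Agent.TJ4

theorem m_UNI5 : S_UNI5 := t_UNI5 t_SLP t_LOC

theorem m_TWO5 : S_TWO5 := t_TWO5 m_UNI5 t_SLP

theorem m_IND35 : S_IND35 := t_IND35 b_VAL4 t_GIS5

theorem m_PAR5 : S_PAR5 := t_PAR5 m_IND35

theorem m_POS5 : S_POS5 := t_POS5 (t_PART5 m_IND35)

theorem m_DAT5 : S_DAT5 := t_DAT5 t_SLP m_UNI5 t_GIS5

theorem m_TYP1 : S_TYP1 := t_TYP1 t_IQC5 t_GIS5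

theorem m_TYP2 : S_TYP2 := t_TYP2 t_SLP t_GIS5 m_TWO5 t_CCJ5

theorem m_TYP3 : S_TYP3 := t_TYP3 t_TYP6 t_IQC5 t_GIS5 t_CCJ5

theorem m_SEP5 : S_SEP5 := t_SEP5 t_PRJ5 t_SLP t_GIS5

theorem m_CYA5 : S_CYA5 := t_CYA5 t_GIS5

theorem m_CYB5 : S_CYB5 := t_CYB5 t_SLP t_GIS5 m_TWO5

theorem m_CYC5 : S_CYC5 := t_CYC5 t_SLP t_GIS5

theorem m_TBX5 : S_TBX5 := t_TBX5 (t_TB15 t_TBP5) (t_TB25 t_TBP5)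

theorem m_IQX5 : S_IQX5 := t_IQX5 t_CCJ5

theorem m_TBR5 : S_TBR5 := t_TBR5 m_TBX5 m_IQX5 t_SLP t_GIS5 m_UNI5 m_TWO5

theorem m_KEV5 : S_KEV5 := t_KEV5 t_SLP b_IND44 t_GIS5 m_TYP1 m_TYP2 m_TYP3 m_SEP5 t_NLF5 t_ABL5
  m_CYA5 m_CYB5 m_CYC5 m_TBR5

theorem m_NEQ5 : S_NEQ5 := t_NEQ5 t_SLP b_VAL4 t_GIS5 t_CCJ5 t_RAT5

theorem m_NEC5 : S_NEC5 := t_NEC5 m_DAT5 m_NEQ5 b_E14

theorem m_SPL5 : S_SPL5 := t_SPL5 t_GIS5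

theorem m_PAI5 : S_PAI5 := t_PAI5 t_GIS4 t_CCJ5

theorem m_FUL5 : S_FUL5 := t_FUL5 t_GIS4

theorem m_FOU5 : S_FOU5 := t_FOU5 t_SLP t_GIS5 t_CCJ5

theorem m_EXA5 : S_EXA5 := t_EXA5 t_SLP b_VAL4 b_C34 t_GIS5 m_TYP1 m_IQX5 m_SPL5 m_PAI5

theorem m_EXB5 : S_EXB5 := t_EXB5 t_SLP b_IND44 t_GIS5 m_PAR5 m_TYP2 m_TYP3 m_CYA5 m_CYB5 t_NLF5
  t_ABL5 m_IQX5 m_FUL5 m_FOU5 b_E2

theorem m_SUB5 : S_SUB5 := t_SUB5 t_SLP t_GIS5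

theorem m_DEN5 : S_DEN5 := t_DEN5 t_SLP b_VAL4 t_GIS5 t_CCJ5

theorem main (q : ℕ) (v : AbsoluteValue Qb ℝ) (hq : IsPrimePow q) (hv : Ab q v) :
    (∀ S ⊆ CL q v, (Kr q v S → Lef q S) ∧ (¬ Kr q v S → Exo q S)) ∧
      O3 q ⊆ CL q v ∧ (∀ S ⊆ O3 q, Kr q v S ↔ Ex q S) ∧
      Sel q ⊆ CL q v ∧ Kr q v (Sel q) :=
  fin m_POS5 t_NEG5 m_KEV5 m_NEC5 m_EXA5 m_EXB5 m_SUB5 m_DEN5 b_SelCr q v hq hv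

end Pool.Agent.TJ5
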