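import Pool.Agent.TJ5.St

/-!
# TYP2: geometrically simple ordinary varieties with 4 Frobenius eigenvalues
-/

set_option autoImplicit false

open Polynomial IntermediateField

namespace Pool.Agent.TJ5

open Pool.Agent.TJ2 Pool.Agent.TJ3 Pool.Agent.TJ4

namespace TYP2_aux

/-- the four roots -/
lemma four {q : ℕ} {h : ℤ[X]} (h4 : (Om q h).ncard = 4) (a : Qb) :
    ∃ b ∈ Om q h, b ≠ a ∧ b ≠ (q : Qb) / a := by
  by_contra hcon
  push Not at hcon
  have hsub : Om q h ⊆ {a, (q : Qb) / a} := by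
    intro b hb
    rcases eq_or_ne b a with h1 | h1
    · exact Or.inl h1
    · exact Or.inr (hcon b hb h1)
  have h1 := Set.ncard_le_ncard hsub (Set.toFinite _)
  have h2 : ({a, (q : Qb) / a} : Set Qb).ncard ≤ 2 := by
    refine (Set.ncard_insert_le _ _).trans ?_
    rw [Set.ncard_singleton]
  omega

lemma qdd {q : ℕ} (hq : IsPrimePow q) {a : Qb} (ha : a ≠ 0) : (q : Qb) / ((q : Qb) / a) = a := by
  have hq0 : (q : Qb) ≠ 0 := by exact_mod_cast hq.pos.ne'
  field_simp

lemma all4 {q : ℕ} (hGIS5 : S_GIS5) (hq : IsPrimePow q) {h : ℤ[X]} (hh : h ∈ GD q)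
    (h4 : (Om q h).ncard = 4) {a b : Qb} (ha : a ∈ Om q h) (hb : b ∈ Om q h) (hba : b ≠ a)
    (hba' : b ≠ (q : Qb) / a) {z : Qb} (hz : z ∈ Om q h) :
    z = a ∨ z = (q : Qb) / a ∨ z = b ∨ z = (q : Qb) / b := by
  obtain ⟨-, h2, -⟩ := hGIS5 q hq
  obtain ⟨hfin, -, hr, -⟩ := h2 h hh
  obtain ⟨ha0, -, hqa, hqa'⟩ := hr a ha
  obtain ⟨hb0, -, hqb, hqb'⟩ := hr b hb
  have n1 : (q : Qb) / b ≠ a := by
    intro h5
    apply hba'
    rw [← h5, qdd hq hb0]
  have n2 : (q : Qb) / b ≠ (q : Qb) / a := by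
    intro h5
    apply hba
    rw [← qdd hq hb0, h5, qdd hq ha0]
  have hsub : ({a, (q : Qb) / a, b, (q : Qb) / b} : Set Qb) ⊆ Om q h := by
    intro x hx
    rcases hx with rfl | rfl | rfl | rfl
    · exact ha
    · exact hqa
    · exact hb
    · exact hqb
  have hcard : ({a, (q : Qb) / a, b, (q : Qb) / b} : Set Qb).ncard = 4 := by
    rw [Set.ncard_insert_of_notMem, Set.ncard_insert_of_notMem, Set.ncard_pair hqb'.symm]
    · rintro (h5 | h5)
      · exact hba' h5.symm
      · exact n2 h5.symm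
    · rintro (h5 | h5 | h5)
      · exact hqa' h5.symm
      · exact hba h5.symm
      · exact n1 h5.symm
  have heq := Set.eq_of_subset_of_ncard_le hsub (by rw [hcard, h4]) hfin
  rw [← heq] at hz
  exact hz

lemma map_div (q : ℕ) (σ : Gq) (a : Qb) : σ ((q : Qb) / a) = (q : Qb) / σ a := by
  rw [map_div₀, map_natCast]

lemma mul_app (σ τ : Gq) (x : Qb) : (σ * τ) x = σ (τ x) := rfl

lemma inv_app (σ : Gq) (x : Qb) : σ⁻¹ (σ x) = x := by
  rw [← mul_app, inv_mul_cancel]
  rfl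

lemma app_inv (σ : Gq) (x : Qb) : σ (σ⁻¹ x) = x := by
  rw [← mul_app, mul_inv_cancel]
  rfl

/-- an automorphism fixing one root fixes all of them -/
lemma rigid {q : ℕ} (hGIS5 : S_GIS5) (hq : IsPrimePow q) {h : ℤ[X]} (hh : h ∈ GD q)
    (h4 : (Om q h).ncard = 4) (hFL : h ∉ FL q) {σ : Gq} {x : Qb} (hx : x ∈ Om q h)
    (hσ : σ x = x) : ∀ z ∈ Om q h, σ z = z := by
  obtain ⟨-, h2, -⟩ := hGIS5 q hq
  obtain ⟨hfin, -, hr, hst⟩ := h2 h hh
  obtain ⟨y, hy, hyx, hyx'⟩ := four h4 x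
  obtain ⟨hx0, -, hqx, hqx'⟩ := hr x hx
  obtain ⟨hy0, -, hqy, hqy'⟩ := hr y hy
  have hσqx : σ ((q : Qb) / x) = (q : Qb) / x := by rw [map_div, hσ]
  have hall := fun {z : Qb} (hz : z ∈ Om q h) => all4 hGIS5 hq hh h4 hx hy hyx hyx' hz
  have hσy : σ y = y ∨ σ y = (q : Qb) / y := by
    rcases hall (hst y hy σ) with h5 | h5 | h5 | h5
    · exact absurd (σ.injective (h5.trans hσ.symm)) hyx
    · exact absurd (σ.injective (h5.trans hσqx.symm)) hyx'
    · exact Or.inl h5
    · exact Or.inr h5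
  rcases hσy with h5 | h5
  · intro z hz
    rcases hall hz with rfl | rfl | rfl | rfl
    · exact hσ
    · exact hσqx
    · exact h5
    · rw [map_div, h5]
  · exfalso
    apply hFL
    obtain ⟨g1, g2, g3, g4, -⟩ := hh
    refine ⟨g1, g2, g3, ?_, g4⟩
    intro c hc
    obtain ⟨t, ht⟩ := g3 y hy c hc
    refine ⟨t * σ * t⁻¹, ?_, ?_⟩
    · rw [mul_app, mul_app, ← ht, inv_app, h5, map_div]
    · intro b hb hbc hbc'
      have hb' : t⁻¹ b ∈ Om q h := hst b hb t⁻¹
      have e1 : t (t⁻¹ b) = b := app_inv t b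
      rw [mul_app, mul_app]
      have hfix : σ (t⁻¹ b) = t⁻¹ b := by
        rcases hall hb' with h6 | h6 | h6 | h6
        · rw [h6, hσ]
        · rw [h6, hσqx]
        · exact absurd (by rw [← e1, h6, ht]) hbc
        · exact absurd (by rw [← e1, h6, map_div, ht]) hbc'
      rw [hfix, e1]

end TYP2_aux

open TYP2_aux in
theorem t_TYP2 (hSLP : S_SLP) (hGIS5 : S_GIS5) (hTWO5 : S_TWO5) (hCCJ5 : S_CCJ5) : S_TYP2 := by
  have _ := hCCJ5
  intro q v h hq hv hh hord h4
  by_cases hFL : h ∈ FL q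
  · exact Or.inl hFL
  right
  obtain ⟨-, h2, -⟩ := hGIS5 q hq
  obtain ⟨hfin, ⟨a, ha⟩, hr, hst⟩ := h2 h hh
  obtain ⟨b, hb, hba, hba'⟩ := four h4 a
  obtain ⟨ha0, -, hqa, hqa'⟩ := hr a ha
  obtain ⟨hb0, -, hqb, hqb'⟩ := hr b hb
  have hall := fun {z : Qb} (hz : z ∈ Om q h) => all4 hGIS5 hq hh h4 ha hb hba hba' hz
  have hR := fun {σ : Gq} {x : Qb} (hx : x ∈ Om q h) (hσ : σ x = x) =>
    rigid hGIS5 hq hh h4 hFL hx hσ
  have hR2 : ∀ {σ τ : Gq} {x : Qb}, x ∈ Om q h → σ x = τ x → ∀ z ∈ Om q h, σ z = τ z := by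
    intro σ τ x hx hστ z hz
    have h5 : (τ⁻¹ * σ) x = x := by rw [mul_app, hστ, inv_app]
    have h6 := hR hx h5 z hz
    rw [mul_app] at h6
    rw [← h6, app_inv, h6]
  obtain ⟨s, hs⟩ := hh.2.2.1 a ha b hb
  have hsq : s ((q : Qb) / a) = (q : Qb) / b := by rw [map_div, hs]
  rcases hall (hst b hb s) with hsb | hsb | hsb | hsb
  · -- `s b = a`
    exfalso
    have hsqb : s ((q : Qb) / b) = (q : Qb) / a := by rw [map_div, hsb]
    obtain ⟨-, -, -, hneg, P, -, -, -, hP⟩ := hSLP q v hq hv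
    have hpm : ∀ x ∈ Om q h, slp q v x 1 = 1 ∨ slp q v x 1 = -1 := by
      intro x hx
      obtain ⟨e1, e2⟩ := hP h.natDegree h hord x hx 1
      rcases e2 with e2 | e2
      · left
        rw [e1, e2]
        norm_num
      · right
        rw [e1, e2]
        norm_num
    have hcomp : ∀ (x : Qb) (σ : Gq), slp q v x σ = slp q v (σ x) 1 := by
      intro x σ
      rw [← slp_comp, one_mul]
    obtain ⟨δ, hδ, hδf⟩ : ∃ δ : ℝ, (δ = 1 ∨ δ = -1) ∧ slp q v b 1 = δ * slp q v a 1 := by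
      rcases hpm a ha with e1 | e1 <;> rcases hpm b hb with e2 | e2
      · exact ⟨1, Or.inl rfl, by rw [e1, e2]; norm_num⟩
      · exact ⟨-1, Or.inr rfl, by rw [e1, e2]; norm_num⟩
      · exact ⟨-1, Or.inr rfl, by rw [e1, e2]; norm_num⟩
      · exact ⟨1, Or.inl rfl, by rw [e1, e2]; norm_num⟩
    have hδ2 : slp q v a 1 = δ * slp q v b 1 := by
      rw [hδf, ← mul_assoc]
      rcases hδ with rfl | rfl <;> norm_num
    have key : ∀ σ : Gq, slp q v b σ = δ * slp q v a σ := by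
      intro σ
      rw [hcomp b σ, hcomp a σ]
      rcases hall (hst a ha σ) with h5 | h5 | h5 | h5
      · have h6 := hR ha h5 b hb
        rw [h5, h6, hδf]
      · -- `σ a = q / a`
        have hσq : σ ((q : Qb) / a) = a := by rw [map_div, h5, qdd hq ha0]
        have h6 : σ b = (q : Qb) / b := by
          rcases hall (hst b hb σ) with h7 | h7 | h7 | h7
          · exact absurd (σ.injective (h7.trans hσq.symm)) hba'
          · exact absurd (σ.injective (h7.trans h5.symm)) hba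
          · exact absurd ((hR hb h7 a ha).symm.trans h5).symm hqa'
          · exact h7
        rw [h5, h6, hneg b hb0, hneg a ha0, hδf]
        ring
      · have h6 := hR2 ha (h5.trans hs.symm) b hb
        rw [hsb] at h6
        rw [h5, h6, hδ2]
      · -- `σ a = q / b`
        have hσq : σ ((q : Qb) / a) = b := by rw [map_div, h5, qdd hq hb0]
        have h6 : σ b = (q : Qb) / a := by
          rcases hall (hst b hb σ) with h7 | h7 | h7 | h7
          · exfalso
            have e1 : (s * σ) b = b := by rw [mul_app, h7, hs]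
            have e2 := hR hb e1 a ha
            rw [mul_app, h5, hsqb] at e2
            exact hqa' e2
          · exact h7
          · exact absurd (σ.injective (h7.trans hσq.symm)) hba'
          · exact absurd (σ.injective (h7.trans h5.symm)) hba
        rw [h5, h6, hneg b hb0, hneg a ha0, hδ2]
        ring
    obtain ⟨t1, t2, -⟩ := hTWO5 q v hq hv h hh h hh b hb a ha
    rcases hδ with rfl | rfl
    · obtain ⟨N, hN, e⟩ := t1 fun σ => by rw [key σ, one_mul]
      exact hba (hh.2.2.2.2 b hb a ha N hN e)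
    · obtain ⟨N, hN, e⟩ := t2 fun σ => by rw [key σ]; ring
      exact hba' (hh.2.2.2.2 b hb _ hqa N hN e)
  · -- `s b = q / a`
    have hsqb : s ((q : Qb) / b) = a := by rw [map_div, hsb, qdd hq ha0]
    refine ⟨h4, s, ?_, ?_⟩
    · intro x hx
      rcases hall hx with rfl | rfl | rfl | rfl
      · rw [hs, hsb]
      · rw [hsq, hsqb, qdd hq ha0]
      · rw [hsb, hsq]
      · rw [hsqb, hs, qdd hq hb0]
    · intro σ
      rcases hall (hst a ha σ) with h5 | h5 | h5 | h5
      · refine ⟨0, hR2 ha ?_⟩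
        rw [h5, pow_zero]
        rfl
      · refine ⟨2, hR2 ha ?_⟩
        rw [h5, pow_two, mul_app, hs, hsb]
      · refine ⟨1, hR2 ha ?_⟩
        rw [h5, pow_one, hs]
      · refine ⟨3, hR2 ha ?_⟩
        rw [h5, pow_succ, mul_app, pow_two, mul_app, hs, hsb, hsq]
  · exact absurd (s.injective (hsb.trans hs.symm)) hba
  · exact absurd (s.injective (hsb.trans hsq.symm)) hba'

end Pool.Agent.TJ5
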